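import Pool.Agent.H382P.Defs
import Pool.Agent.H370R2.NT

open Complex Filter Topology Set MeasureTheory

namespace SP

/-! ### bounds for `bt` -/

lemma pp_exp_sq_le (c A y : ℝ) (hc : 0 < c) :
    Real.exp (-c * y ^ 2) ≤ Real.exp (A ^ 2 / (4 * c)) * Real.exp (-A * y) := by
  rw [← Real.exp_add]
  apply Real.exp_le_exp.2
  have h : A ^ 2 / (4 * c) + -A * y - (-c * y ^ 2) = c * (y - A / (2 * c)) ^ 2 := by
    field_simp
    ring
  have := mul_nonneg hc.le (sq_nonneg (y - A / (2 * c)))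
  linarith

lemma pp_inv_sqrt_le : (1 / Real.sqrt (2 * Real.pi)) ≤ 1 := by
  have h : 1 ≤ Real.sqrt (2 * Real.pi) := by
    rw [Real.one_le_sqrt]
    have := Real.pi_gt_three
    linarith
  rw [div_le_one (by positivity)]
  exact h

lemma bt_norm (T : ℝ) (W : ℝ → ℂ) (x : ℝ) : ‖bt T W x‖ = (1 / Real.sqrt (2 * Real.pi)) *
    ‖∫ u in (0 : ℝ)..Real.log T, W u * (Real.exp (-(u - Real.log x) ^ 2 / 2) : ℂ)‖ := by
  unfold bt
  rw [norm_mul, Complex.norm_real, Real.norm_of_nonneg (by positivity)]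

lemma pp_gauss_integrable (y : ℝ) : Integrable (fun u : ℝ => Real.exp (-(u - y) ^ 2 / 2)) := by
  have h := (integrable_exp_neg_mul_sq (b := 1 / 2) (by norm_num)).comp_sub_right y
  refine h.congr (Eventually.of_forall fun u => ?_)
  simp only
  congr 1
  ring

lemma pp_gauss_int (y : ℝ) : ∫ u : ℝ, Real.exp (-(u - y) ^ 2 / 2) = Real.sqrt (2 * Real.pi) := by
  have h := integral_gaussian (1 / 2)
  rw [show Real.pi / (1 / 2) = 2 * Real.pi by ring] at h
  rw [← h, ← integral_sub_right_eq_self (fun u : ℝ => Real.exp (-(1 / 2) * u ^ 2)) y]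
  congr 1
  ext u
  congr 1
  ring

lemma bt_le (T : ℝ) (hT : 1 ≤ T) (W : ℝ → ℂ) (K : ℝ)
    (hW : ∀ u ∈ Set.Icc 0 (Real.log T), ‖W u‖ ≤ K) (x : ℝ) : ‖bt T W x‖ ≤ K := by
  have hL : 0 ≤ Real.log T := Real.log_nonneg hT
  have hK : 0 ≤ K := (norm_nonneg _).trans (hW 0 ⟨le_rfl, hL⟩)
  rw [bt_norm]
  have h1 : ‖∫ u in (0 : ℝ)..Real.log T, W u * (Real.exp (-(u - Real.log x) ^ 2 / 2) : ℂ)‖ ≤
      K * Real.sqrt (2 * Real.pi) := by
    calc ‖∫ u in (0 : ℝ)..Real.log T, W u * (Real.exp (-(u - Real.log x) ^ 2 / 2) : ℂ)‖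
        ≤ ∫ u in (0 : ℝ)..Real.log T, K * Real.exp (-(u - Real.log x) ^ 2 / 2) := by
          apply intervalIntegral.norm_integral_le_of_norm_le hL
          · refine Eventually.of_forall fun u hu => ?_
            rw [norm_mul, Complex.norm_real, Real.norm_of_nonneg (Real.exp_pos _).le]
            exact mul_le_mul_of_nonneg_right (hW u ⟨hu.1.le, hu.2⟩) (Real.exp_pos _).le
          · exact ((pp_gauss_integrable _).const_mul K).intervalIntegrable
      _ = K * ∫ u in (0 : ℝ)..Real.log T, Real.exp (-(u - Real.log x) ^ 2 / 2) :=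
          intervalIntegral.integral_const_mul _ _
      _ ≤ K * ∫ u : ℝ, Real.exp (-(u - Real.log x) ^ 2 / 2) := by
          apply mul_le_mul_of_nonneg_left _ hK
          rw [intervalIntegral.integral_of_le hL]
          exact setIntegral_le_integral (pp_gauss_integrable _)
            (Eventually.of_forall fun u => (Real.exp_pos _).le)
      _ = K * Real.sqrt (2 * Real.pi) := by rw [pp_gauss_int]
  have h2 : 0 < Real.sqrt (2 * Real.pi) := by
    apply Real.sqrt_pos.2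
    positivity
  calc (1 / Real.sqrt (2 * Real.pi)) *
      ‖∫ u in (0 : ℝ)..Real.log T, W u * (Real.exp (-(u - Real.log x) ^ 2 / 2) : ℂ)‖
      ≤ (1 / Real.sqrt (2 * Real.pi)) * (K * Real.sqrt (2 * Real.pi)) :=
        mul_le_mul_of_nonneg_left h1 (by positivity)
    _ = K := by field_simp

lemma bt_le_of (T : ℝ) (hT : 1 ≤ T) (W : ℝ → ℂ) (x M : ℝ)
    (hW : ∀ u ∈ Set.Icc 0 (Real.log T), ‖W u‖ * Real.exp (-(u - Real.log x) ^ 2 / 2) ≤ M) :
    ‖bt T W x‖ ≤ M * Real.log T := by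
  have hL : 0 ≤ Real.log T := Real.log_nonneg hT
  have hM : 0 ≤ M := (mul_nonneg (norm_nonneg _) (Real.exp_pos _).le).trans (hW 0 ⟨le_rfl, hL⟩)
  rw [bt_norm]
  have h1 : ‖∫ u in (0 : ℝ)..Real.log T, W u * (Real.exp (-(u - Real.log x) ^ 2 / 2) : ℂ)‖ ≤
      M * |Real.log T - 0| := by
    apply intervalIntegral.norm_integral_le_of_norm_le_const
    intro u hu
    rw [Set.uIoc_of_le hL] at hu
    rw [norm_mul, Complex.norm_real, Real.norm_of_nonneg (Real.exp_pos _).le]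
    exact hW u ⟨hu.1.le, hu.2⟩
  rw [sub_zero, abs_of_nonneg hL] at h1
  calc (1 / Real.sqrt (2 * Real.pi)) *
      ‖∫ u in (0 : ℝ)..Real.log T, W u * (Real.exp (-(u - Real.log x) ^ 2 / 2) : ℂ)‖
      ≤ 1 * (M * Real.log T) :=
        mul_le_mul pp_inv_sqrt_le h1 (norm_nonneg _) (by norm_num)
    _ = M * Real.log T := one_mul _

lemma bt_far (T : ℝ) (hT : 1 ≤ T) (W : ℝ → ℂ) (K l : ℝ)
    (hW : ∀ u ∈ Set.Icc 0 (Real.log T), ‖W u‖ ≤ K) (hl : ∀ u : ℝ, l ≤ u → W u = 0)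
    (x : ℝ) (hx : l ≤ Real.log x) :
    ‖bt T W x‖ ≤ K * Real.exp (-(Real.log x - l) ^ 2 / 2) * Real.log T := by
  have hL : 0 ≤ Real.log T := Real.log_nonneg hT
  have hK : 0 ≤ K := (norm_nonneg _).trans (hW 0 ⟨le_rfl, hL⟩)
  apply bt_le_of T hT
  intro u hu
  by_cases hul : l ≤ u
  · rw [hl u hul, norm_zero, zero_mul]
    positivity
  · push Not at hul
    apply mul_le_mul (hW u hu) _ (Real.exp_pos _).le hK
    apply Real.exp_le_exp.2
    have : (Real.log x - l) ^ 2 ≤ (u - Real.log x) ^ 2 := by nlinarith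
    linarith

lemma bt_gen (T : ℝ) (hT : 1 ≤ T) (W : ℝ → ℂ) (K : ℝ)
    (hW : ∀ u ∈ Set.Icc 0 (Real.log T), ‖W u‖ ≤ K) (x : ℝ) :
    ‖bt T W x‖ ≤ K * (Real.exp (Real.log T ^ 2 / 2) * Real.exp (-(1 / 4) * (Real.log x) ^ 2)) *
      Real.log T := by
  have hL : 0 ≤ Real.log T := Real.log_nonneg hT
  have hK : 0 ≤ K := (norm_nonneg _).trans (hW 0 ⟨le_rfl, hL⟩)
  apply bt_le_of T hT
  intro u hu
  apply mul_le_mul (hW u hu) _ (Real.exp_pos _).le hK
  rw [← Real.exp_add]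
  apply Real.exp_le_exp.2
  have h1 : u ^ 2 ≤ Real.log T ^ 2 := by
    have := hu.1
    have := hu.2
    nlinarith
  nlinarith [sq_nonneg (2 * u - Real.log x)]

/-! ### summability -/

noncomputable def ppG (c : ℝ) (n : ℕ) : ℝ :=
  Real.log n * (n : ℝ) ^ (-(1 / 2) : ℝ) * Real.exp (-c * (Real.log n) ^ 2)

lemma ppG_nonneg (c : ℝ) (n : ℕ) : 0 ≤ ppG c n := by
  unfold ppG
  have h1 : 0 ≤ Real.log n := Real.log_natCast_nonneg n
  positivity

lemma ppG_summable (c : ℝ) (hc : 0 < c) : Summable (ppG c) := by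
  have hs : Summable (fun n : ℕ => Real.exp (3 ^ 2 / (4 * c)) * (1 / (n : ℝ) ^ (2 : ℝ))) :=
    (Real.summable_one_div_nat_rpow.2 (by norm_num)).mul_left _
  refine Summable.of_nonneg_of_le (ppG_nonneg c) (fun n => ?_) hs
  rcases Nat.eq_zero_or_pos n with h | h
  · subst h
    simp only [ppG, CharP.cast_eq_zero, Real.log_zero, zero_mul]
    positivity
  have hn : (0 : ℝ) < n := by exact_mod_cast h
  have hn1 : (1 : ℝ) ≤ n := by exact_mod_cast h
  unfold ppG
  have h1 : Real.log n ≤ n := (Real.log_le_sub_one_of_pos hn).trans (by linarith)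
  have h0 : 0 ≤ Real.log n := Real.log_natCast_nonneg n
  have h2 : (n : ℝ) ^ (-(1 / 2) : ℝ) ≤ 1 := Real.rpow_le_one_of_one_le_of_nonpos hn1 (by norm_num)
  have h3 := pp_exp_sq_le c 3 (Real.log n) hc
  have h4 : Real.exp (-3 * Real.log n) = 1 / (n : ℝ) ^ (3 : ℝ) := by
    rw [one_div, ← Real.rpow_neg hn.le, Real.rpow_def_of_pos hn]
    congr 1
    ring
  rw [h4] at h3
  calc Real.log n * (n : ℝ) ^ (-(1 / 2) : ℝ) * Real.exp (-c * (Real.log n) ^ 2)
      ≤ n * 1 * (Real.exp (3 ^ 2 / (4 * c)) * (1 / (n : ℝ) ^ (3 : ℝ))) := by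
        apply mul_le_mul _ h3 (Real.exp_pos _).le (by positivity)
        apply mul_le_mul h1 h2 (by positivity) hn.le
    _ = Real.exp (3 ^ 2 / (4 * c)) * (1 / (n : ℝ) ^ (2 : ℝ)) := by
        have : (n : ℝ) ^ (3 : ℝ) = n * (n : ℝ) ^ (2 : ℝ) := by
          rw [show (3 : ℝ) = 1 + 2 by norm_num, Real.rpow_add hn, Real.rpow_one]
        rw [this]
        field_simp

/-! ### the terms of the prime side -/

noncomputable def ppf (T t : ℝ) (W : ℝ → ℂ) (n : ℕ) : ℂ :=
  (ArithmeticFunction.vonMangoldt n : ℂ) * (n : ℂ) ^ (-(1 / 2 : ℂ) - I * t) * bt T W n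

lemma ppf_norm (T t : ℝ) (W : ℝ → ℂ) (n : ℕ) (hn : 1 ≤ n) : ‖ppf T t W n‖ =
    ArithmeticFunction.vonMangoldt n * (n : ℝ) ^ (-(1 / 2) : ℝ) * ‖bt T W n‖ := by
  unfold ppf
  rw [norm_mul, norm_mul, Complex.norm_real,
    Real.norm_of_nonneg ArithmeticFunction.vonMangoldt_nonneg,
    Complex.norm_natCast_cpow_of_pos hn]
  congr 3
  simp

lemma ppf_zero (T t : ℝ) (W : ℝ → ℂ) : ppf T t W 0 = 0 := by
  simp [ppf]

lemma ppf_norm_le (T t : ℝ) (W : ℝ → ℂ) (n : ℕ) : ‖ppf T t W n‖ ≤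
    Real.log n * (n : ℝ) ^ (-(1 / 2) : ℝ) * ‖bt T W n‖ := by
  rcases Nat.eq_zero_or_pos n with h | h
  · subst h
    rw [ppf_zero]
    simp
  rw [ppf_norm T t W n h]
  apply mul_le_mul_of_nonneg_right _ (norm_nonneg _)
  apply mul_le_mul_of_nonneg_right _ (by positivity)
  exact ArithmeticFunction.vonMangoldt_le_log

lemma ppf_summable (T t : ℝ) (hT : 1 ≤ T) (W : ℝ → ℂ) (K : ℝ)
    (hW : ∀ u ∈ Set.Icc 0 (Real.log T), ‖W u‖ ≤ K) : Summable (ppf T t W) := by
  have hL : 0 ≤ Real.log T := Real.log_nonneg hT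
  have hK : 0 ≤ K := (norm_nonneg _).trans (hW 0 ⟨le_rfl, hL⟩)
  apply Summable.of_norm_bounded
    (g := fun n => (K * Real.exp (Real.log T ^ 2 / 2) * Real.log T) * ppG (1 / 4) n)
    ((ppG_summable _ (by norm_num)).mul_left _)
  intro n
  have h0 : 0 ≤ Real.log n := Real.log_natCast_nonneg n
  calc ‖ppf T t W n‖ ≤ Real.log n * (n : ℝ) ^ (-(1 / 2) : ℝ) * ‖bt T W n‖ := ppf_norm_le T t W n
    _ ≤ Real.log n * (n : ℝ) ^ (-(1 / 2) : ℝ) *
      (K * (Real.exp (Real.log T ^ 2 / 2) * Real.exp (-(1 / 4) * (Real.log n) ^ 2)) *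
      Real.log T) := mul_le_mul_of_nonneg_left (bt_gen T hT W K hW n) (by positivity)
    _ = _ := by
      unfold ppG
      ring

lemma ppf_support (T t : ℝ) (W : ℝ → ℂ) : Function.support (ppf T t W) ⊆ {n | IsPrimePow n} := by
  intro n hn
  by_contra h
  apply hn
  unfold ppf
  have : ArithmeticFunction.vonMangoldt n = 0 := by
    rw [ArithmeticFunction.vonMangoldt_eq_zero_iff]
    exact h
  rw [this]
  simp

/-- the contribution of higher prime powers -/
lemma ppf_inner (T t : ℝ) (hT : 1 ≤ T) (W : ℝ → ℂ) (K l : ℝ) (hlT : l ≤ Real.log T)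
    (hW : ∀ u ∈ Set.Icc 0 (Real.log T), ‖W u‖ ≤ K) (hl : ∀ u : ℝ, l ≤ u → W u = 0)
    (p : ℕ) (hp : p.Prime) :
    ‖∑' k : ℕ, ppf T t W (p ^ (k + 2))‖ ≤ 4 * K *
      ((if p ≤ ⌊T⌋₊ then ArithmeticFunction.vonMangoldt p / p else 0) +
        Real.log T * ppG (1 / 2) p) := by
  have hL : 0 ≤ Real.log T := Real.log_nonneg hT
  have hK : 0 ≤ K := (norm_nonneg _).trans (hW 0 ⟨le_rfl, hL⟩)
  have hp2 : (2 : ℝ) ≤ p := by exact_mod_cast hp.two_le
  have hp0 : (0 : ℝ) < p := by linarith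
  have hlp : 0 ≤ Real.log p := Real.log_natCast_nonneg p
  set r : ℝ := (p : ℝ) ^ (-(1 / 2) : ℝ) with hr
  have hr0 : 0 < r := Real.rpow_pos_of_pos hp0 _
  have hr2 : r ^ 2 = 1 / p := by
    rw [hr, ← Real.rpow_natCast, ← Real.rpow_mul hp0.le]
    norm_num
    rw [Real.rpow_neg_one]
  have hr34 : r ≤ 3 / 4 := by
    have h1 : r ^ 2 ≤ (3 / 4) ^ 2 := by
      rw [hr2, div_le_iff₀ hp0]
      nlinarith
    exact le_of_sq_le_sq h1 (by norm_num)
  have hr1 : r < 1 := by linarith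
  -- bound of bt
  set bb : ℝ := K * ((if p ≤ ⌊T⌋₊ then 1 else 0) +
    Real.log T * Real.exp (-(1 / 2) * (Real.log p) ^ 2)) with hbb
  have hbt : ∀ k : ℕ, ‖bt T W ((p ^ (k + 2) : ℕ) : ℝ)‖ ≤ bb := by
    intro k
    rw [hbb]
    by_cases hpT : p ≤ ⌊T⌋₊
    · rw [if_pos hpT]
      refine (bt_le T hT W K hW _).trans ?_
      have : 0 ≤ Real.log T * Real.exp (-(1 / 2) * (Real.log p) ^ 2) := by positivity
      nlinarith
    · rw [if_neg hpT, zero_add]
      have hpT' : T < p := by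
        rw [not_le] at hpT
        exact (Nat.floor_lt (by linarith)).1 hpT
      have hlog : Real.log T ≤ Real.log p := Real.log_le_log (by linarith) hpT'.le
      have hlogk : Real.log ((p ^ (k + 2) : ℕ) : ℝ) = (k + 2) * Real.log p := by
        push_cast
        rw [Real.log_pow]
        push_cast
        ring
      have hge : Real.log p ≤ Real.log ((p ^ (k + 2) : ℕ) : ℝ) - l := by
        rw [hlogk]
        have : 0 ≤ (k : ℝ) * Real.log p := by positivity
        nlinarith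
      refine (bt_far T hT W K l hW hl _ (by linarith)).trans ?_
      have : Real.exp (-(Real.log ((p ^ (k + 2) : ℕ) : ℝ) - l) ^ 2 / 2) ≤
          Real.exp (-(1 / 2) * (Real.log p) ^ 2) := by
        apply Real.exp_le_exp.2
        nlinarith
      calc K * Real.exp (-(Real.log ((p ^ (k + 2) : ℕ) : ℝ) - l) ^ 2 / 2) * Real.log T
          ≤ K * Real.exp (-(1 / 2) * (Real.log p) ^ 2) * Real.log T := by gcongr
        _ = K * (Real.log T * Real.exp (-(1 / 2) * (Real.log p) ^ 2)) := by ring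
  have hbb0 : 0 ≤ bb := (norm_nonneg _).trans (hbt 0)
  have hterm : ∀ k : ℕ, ‖ppf T t W (p ^ (k + 2))‖ ≤ (Real.log p * r ^ 2 * bb) * r ^ k := by
    intro k
    have hpos : 1 ≤ p ^ (k + 2) := Nat.one_le_pow _ _ hp.pos
    rw [ppf_norm T t W _ hpos, ArithmeticFunction.vonMangoldt_apply_pow (by omega),
      ArithmeticFunction.vonMangoldt_apply_prime hp]
    have h1 : ((p ^ (k + 2) : ℕ) : ℝ) ^ (-(1 / 2) : ℝ) = r ^ (k + 2) := by
      push_cast
      rw [hr, ← Real.rpow_natCast, ← Real.rpow_natCast, ← Real.rpow_mul hp0.le,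
        ← Real.rpow_mul hp0.le]
      ring_nf
    rw [h1]
    calc Real.log p * r ^ (k + 2) * ‖bt T W ((p ^ (k + 2) : ℕ) : ℝ)‖
        ≤ Real.log p * r ^ (k + 2) * bb := mul_le_mul_of_nonneg_left (hbt k) (by positivity)
      _ = (Real.log p * r ^ 2 * bb) * r ^ k := by ring
  have hgeo : HasSum (fun k : ℕ => (Real.log p * r ^ 2 * bb) * r ^ k)
      ((Real.log p * r ^ 2 * bb) * (1 - r)⁻¹) :=
    (hasSum_geometric_of_lt_one hr0.le hr1).mul_left _
  have h1 := tsum_of_norm_bounded hgeo hterm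
  refine h1.trans ?_
  have h4 : (1 - r)⁻¹ ≤ 4 := by
    rw [inv_le_comm₀ (by linarith) (by norm_num)]
    linarith
  calc (Real.log p * r ^ 2 * bb) * (1 - r)⁻¹ ≤ (Real.log p * r ^ 2 * bb) * 4 :=
        mul_le_mul_of_nonneg_left h4 (by positivity)
    _ = 4 * K * ((if p ≤ ⌊T⌋₊ then Real.log p / p else 0) +
        Real.log T * (Real.log p * (1 / p) * Real.exp (-(1 / 2) * (Real.log p) ^ 2))) := by
        rw [hbb, hr2]
        split_ifs <;> ring
    _ ≤ _ := by
        rw [ArithmeticFunction.vonMangoldt_apply_prime hp]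
        apply mul_le_mul_of_nonneg_left _ (by positivity)
        apply add_le_add_right
        apply mul_le_mul_of_nonneg_left _ hL
        unfold ppG
        apply mul_le_mul_of_nonneg_right _ (Real.exp_pos _).le
        apply mul_le_mul_of_nonneg_left _ hlp
        rw [← hr2, ← hr]
        nlinarith

/-- general version with bound `K` -/
theorem prime_part_K : ∃ C : ℝ, 0 < C ∧ ∀ T : ℝ, 10 ≤ T → ∀ t l : ℝ, 0 < l → l ≤ Real.log T →
    ∀ (W : ℝ → ℂ) (K : ℝ), (∀ u ∈ Set.Icc 0 (Real.log T), ‖W u‖ ≤ K) →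
    (∀ u : ℝ, l ≤ u → W u = 0) →
    ‖ps T t W - (Real.log T : ℂ) * QW T t l W‖ ≤ C * K * Real.log T := by
  refine ⟨(∑' n, ppG (1 / 8) n) + 4 * (7 + ∑' n, ppG (1 / 2) n), ?_, ?_⟩
  · have h1 : 0 ≤ ∑' n, ppG (1 / 8) n := tsum_nonneg (ppG_nonneg _)
    have h2 : 0 ≤ ∑' n, ppG (1 / 2) n := tsum_nonneg (ppG_nonneg _)
    positivity
  intro T hT t l hl0 hlT W K hW hl
  have hT1 : (1 : ℝ) ≤ T := by linarith
  have hL1 : 1 ≤ Real.log T := by
    rw [Real.le_log_iff_exp_le (by linarith)]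
    have := Real.exp_one_lt_d9
    linarith
  have hL : 0 ≤ Real.log T := by linarith
  have hK : 0 ≤ K := (norm_nonneg _).trans (hW 0 ⟨le_rfl, hL⟩)
  have hsum := ppf_summable T t hT1 W K hW
  have hps : ps T t W = (∑' p : Nat.Primes, ppf T t W p) +
      ∑' (p : Nat.Primes) (k : ℕ), ppf T t W (p ^ (k + 2)) :=
    tsum_eq_tsum_primes_add_tsum_primes_of_support_subset_prime_powers hsum (ppf_support T t W)
  set S : Finset ℕ := (Finset.Icc 1 ⌊Real.exp (2 * l)⌋₊).filter Nat.Prime with hS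
  have hQ : (Real.log T : ℂ) * QW T t l W = ∑ p ∈ S, ppf T t W p := by
    unfold QW
    rw [← mul_assoc]
    have : (Real.log T : ℂ) * ((1 / Real.log T : ℝ) : ℂ) = 1 := by
      rw [← Complex.ofReal_mul]
      rw [mul_one_div_cancel (by positivity)]
      simp
    rw [this, one_mul]
    apply Finset.sum_congr rfl
    intro p hp
    unfold ppf
    rw [ArithmeticFunction.vonMangoldt_apply_prime (Finset.mem_filter.1 hp).2]
  -- primes
  set g : ℕ → ℂ := Set.indicator {p : ℕ | p.Prime} (ppf T t W) with hg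
  have hgs : Summable g := hsum.indicator _
  have hA1 : (∑' p : Nat.Primes, ppf T t W p) = ∑' n, g n :=
    tsum_subtype {p : ℕ | p.Prime} (ppf T t W)
  have hA2 : ∑ p ∈ S, ppf T t W p = ∑ p ∈ S, g p := by
    apply Finset.sum_congr rfl
    intro p hp
    rw [hg, Set.indicator_of_mem]
    exact (Finset.mem_filter.1 hp).2
  have hA3 : ∑ p ∈ S, g p = ∑' n, (if n ∈ S then g n else 0) := by
    rw [tsum_eq_sum (s := S)]
    · apply Finset.sum_congr rfl
      intro p hp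
      rw [if_pos hp]
    · intro n hn
      rw [if_neg hn]
  have hs2 : Summable (fun n => if n ∈ S then g n else 0) := by
    apply summable_of_ne_finset_zero (s := S)
    intro n hn
    rw [if_neg hn]
  have hA : ‖(∑' p : Nat.Primes, ppf T t W p) - ∑ p ∈ S, ppf T t W p‖ ≤
      K * Real.log T * ∑' n, ppG (1 / 8) n := by
    rw [hA1, hA2, hA3, ← hgs.tsum_sub hs2]
    apply tsum_of_norm_bounded ((ppG_summable (1 / 8) (by norm_num)).hasSum.mul_left _)
    intro n
    by_cases hnS : n ∈ S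
    · rw [if_pos hnS, sub_self, norm_zero]
      have := ppG_nonneg (1 / 8) n
      positivity
    · rw [if_neg hnS, sub_zero]
      by_cases hn : n.Prime
      · rw [hg, Set.indicator_of_mem (show n ∈ {p : ℕ | p.Prime} from hn)]
        have hn2 : Real.exp (2 * l) < n := by
          have : ¬ (n ≤ ⌊Real.exp (2 * l)⌋₊) := by
            intro h
            exact hnS (Finset.mem_filter.2 ⟨Finset.mem_Icc.2 ⟨hn.one_lt.le, h⟩, hn⟩)
          rw [not_le] at this
          exact (Nat.floor_lt (Real.exp_pos _).le).1 this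
        have hlogn : 2 * l ≤ Real.log n := by
          rw [Real.le_log_iff_exp_le (by exact_mod_cast hn.pos)]
          exact hn2.le
        have h0 : 0 ≤ Real.log n := Real.log_natCast_nonneg n
        calc ‖ppf T t W n‖ ≤ Real.log n * (n : ℝ) ^ (-(1 / 2) : ℝ) * ‖bt T W n‖ :=
              ppf_norm_le T t W n
          _ ≤ Real.log n * (n : ℝ) ^ (-(1 / 2) : ℝ) *
              (K * Real.exp (-(1 / 8) * (Real.log n) ^ 2) * Real.log T) := by
              apply mul_le_mul_of_nonneg_left _ (by positivity)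
              refine (bt_far T hT1 W K l hW hl n (by linarith)).trans ?_
              have : Real.exp (-(Real.log n - l) ^ 2 / 2) ≤
                  Real.exp (-(1 / 8) * (Real.log n) ^ 2) := by
                apply Real.exp_le_exp.2
                nlinarith
              gcongr
          _ = _ := by
              unfold ppG
              ring
      · rw [hg, Set.indicator_of_notMem (show n ∉ {p : ℕ | p.Prime} from hn), norm_zero]
        have := ppG_nonneg (1 / 8) n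
        positivity
  -- higher powers
  set B : ℕ → ℝ := fun n => 4 * K * ((if n ≤ ⌊T⌋₊ then ArithmeticFunction.vonMangoldt n / n
    else 0) + Real.log T * ppG (1 / 2) n) with hB
  have hB0 : ∀ n, 0 ≤ B n := by
    intro n
    have h1 := ppG_nonneg (1 / 2) n
    have h2 : 0 ≤ ArithmeticFunction.vonMangoldt n := ArithmeticFunction.vonMangoldt_nonneg
    have h3 : (0 : ℝ) ≤ (if n ≤ ⌊T⌋₊ then ArithmeticFunction.vonMangoldt n / n else 0) := by
      split_ifs <;> positivity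
    rw [hB]
    positivity
  have hs3 : HasSum (fun n : ℕ => if n ≤ ⌊T⌋₊ then ArithmeticFunction.vonMangoldt n / n else 0)
      (∑ n ∈ Finset.Icc 1 ⌊T⌋₊, ArithmeticFunction.vonMangoldt n / n) := by
    have h1 : ∑ n ∈ Finset.Icc 1 ⌊T⌋₊, ArithmeticFunction.vonMangoldt n / (n : ℝ) =
        ∑ n ∈ Finset.Icc 1 ⌊T⌋₊,
          (if n ≤ ⌊T⌋₊ then ArithmeticFunction.vonMangoldt n / (n : ℝ) else 0) := by
      apply Finset.sum_congr rfl
      intro n hn
      rw [if_pos (Finset.mem_Icc.1 hn).2]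
    rw [h1]
    apply hasSum_sum_of_ne_finset_zero
    intro n hn
    by_cases hnT : n ≤ ⌊T⌋₊
    · have hn0 : n = 0 := by
        by_contra h
        exact hn (Finset.mem_Icc.2 ⟨Nat.one_le_iff_ne_zero.2 h, hnT⟩)
      subst hn0
      simp
    · rw [if_neg hnT]
  have hBs : HasSum B (4 * K * ((∑ n ∈ Finset.Icc 1 ⌊T⌋₊, ArithmeticFunction.vonMangoldt n / n) +
      Real.log T * ∑' n, ppG (1 / 2) n)) :=
    (hs3.add ((ppG_summable (1 / 2) (by norm_num)).hasSum.mul_left _)).mul_left _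
  have hC : ‖∑' (p : Nat.Primes) (k : ℕ), ppf T t W (p ^ (k + 2))‖ ≤
      4 * K * ((∑ n ∈ Finset.Icc 1 ⌊T⌋₊, ArithmeticFunction.vonMangoldt n / n) +
      Real.log T * ∑' n, ppG (1 / 2) n) := by
    have hBsub : Summable (fun p : Nat.Primes => B p) := hBs.summable.subtype _
    have h1 : ‖∑' (p : Nat.Primes) (k : ℕ), ppf T t W (p ^ (k + 2))‖ ≤
        ∑' p : Nat.Primes, B p := by
      apply tsum_of_norm_bounded hBsub.hasSum
      intro p
      exact ppf_inner T t hT1 W K l hlT hW hl p p.2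
    refine h1.trans ?_
    rw [← hBs.tsum_eq]
    exact hBs.summable.tsum_subtype_le B {p : ℕ | p.Prime} hB0
  have hmert : ∑ n ∈ Finset.Icc 1 ⌊T⌋₊, ArithmeticFunction.vonMangoldt n / (n : ℝ) ≤
      7 * Real.log T := by
    have hfl : 1 ≤ ⌊T⌋₊ := Nat.one_le_iff_ne_zero.2 (by
      intro h
      rw [Nat.floor_eq_zero] at h
      linarith)
    have h1 := H370.nt_mertens_upper ⌊T⌋₊ hfl
    have h2 : Real.log ⌊T⌋₊ ≤ Real.log T :=
      Real.log_le_log (by exact_mod_cast hfl) (Nat.floor_le (by linarith))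
    linarith
  rw [hps, hQ]
  calc ‖(∑' p : Nat.Primes, ppf T t W p) +
      (∑' (p : Nat.Primes) (k : ℕ), ppf T t W (p ^ (k + 2))) - ∑ p ∈ S, ppf T t W p‖
      = ‖((∑' p : Nat.Primes, ppf T t W p) - ∑ p ∈ S, ppf T t W p) +
      ∑' (p : Nat.Primes) (k : ℕ), ppf T t W (p ^ (k + 2))‖ := by
        congr 1
        ring
    _ ≤ K * Real.log T * (∑' n, ppG (1 / 8) n) +
        4 * K * (7 * Real.log T + Real.log T * ∑' n, ppG (1 / 2) n) := by
        refine (norm_add_le _ _).trans (add_le_add hA (hC.trans ?_))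
        gcongr
    _ = _ := by ring

theorem prime_part : ∃ C : ℝ, 0 < C ∧ ∀ T : ℝ, 10 ≤ T → ∀ t l : ℝ, 0 < l → l ≤ Real.log T →
    ∀ W : ℝ → ℂ, Continuous W → (∀ u ∈ Set.Icc 0 (Real.log T), ‖W u‖ ≤ 1) →
    (∀ u : ℝ, l ≤ u → W u = 0) →
    ‖ps T t W - (Real.log T : ℂ) * QW T t l W‖ ≤ C * Real.log T := by
  obtain ⟨C, hC, h⟩ := prime_part_K
  refine ⟨C, hC, fun T hT t l hl0 hlT W _ hW hl => ?_⟩
  have := h T hT t l hl0 hlT W 1 hW hl
  simpa using this

end SP
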