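import Pool.Agent.H382P.EF
import Pool.Agent.H382P.PrimePart

open Complex Filter Topology Set MeasureTheory

namespace SP

open SG (phi hh nn dd dl)

/-- coefficient of the prime side -/
noncomputable def efa (t : ℝ) (n : ℕ) : ℂ :=
  (ArithmeticFunction.vonMangoldt n : ℂ) * (n : ℂ) ^ (-(1 / 2 : ℂ) - I * t)

lemma efa_norm_le (t : ℝ) (n : ℕ) : ‖efa t n‖ ≤ Real.log n * (n : ℝ) ^ (-(1 / 2) : ℝ) := by
  rcases Nat.eq_zero_or_pos n with h | h
  · subst h
    simp [efa]
  unfold efa
  rw [norm_mul, Complex.norm_real,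
    Real.norm_of_nonneg ArithmeticFunction.vonMangoldt_nonneg,
    Complex.norm_natCast_cpow_of_pos h]
  have h1 : (-(1 / 2 : ℂ) - I * t).re = (-(1 / 2) : ℝ) := by simp
  rw [h1]
  exact mul_le_mul_of_nonneg_right ArithmeticFunction.vonMangoldt_le_log (by positivity)

lemma efa_bound (t L u : ℝ) (hu : u ∈ Set.Icc 0 L) (n : ℕ) :
    ‖efa t n * (Real.exp (-(u - Real.log n) ^ 2 / 2) : ℂ)‖ ≤
      Real.exp (L ^ 2 / 2) * ppG (1 / 4) n := by
  rw [norm_mul, Complex.norm_real, Real.norm_of_nonneg (Real.exp_pos _).le]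
  have h0 : 0 ≤ Real.log n := Real.log_natCast_nonneg n
  have h2 : Real.exp (-(u - Real.log n) ^ 2 / 2) ≤
      Real.exp (L ^ 2 / 2) * Real.exp (-(1 / 4) * (Real.log n) ^ 2) := by
    rw [← Real.exp_add]
    apply Real.exp_le_exp.2
    have h1 : u ^ 2 ≤ L ^ 2 := by
      have := hu.1
      have := hu.2
      nlinarith
    nlinarith [sq_nonneg (2 * u - Real.log n)]
  calc ‖efa t n‖ * Real.exp (-(u - Real.log n) ^ 2 / 2)
      ≤ (Real.log n * (n : ℝ) ^ (-(1 / 2) : ℝ)) *
        (Real.exp (L ^ 2 / 2) * Real.exp (-(1 / 4) * (Real.log n) ^ 2)) :=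
        mul_le_mul (efa_norm_le t n) h2 (Real.exp_pos _).le (by positivity)
    _ = Real.exp (L ^ 2 / 2) * ppG (1 / 4) n := by
        unfold ppG
        ring

theorem EFW (hRH : RHs) : ∃ C T0 : ℝ, 0 < C ∧ 10 ≤ T0 ∧ ∀ T : ℝ, T0 ≤ T → ∀ t : ℝ,
    T + Real.log T ≤ t → t ≤ 2 * T - Real.log T → ∀ (W : ℝ → ℂ) (K : ℝ), Continuous W →
    (∀ u ∈ Set.Icc 0 (Real.log T), ‖W u‖ ≤ K) →
    ‖zs T t W + ps T t W‖ ≤ C * K * Real.log T := by
  classical
  obtain ⟨C, T0, hC, hT0, hEF⟩ := EF hRH
  refine ⟨C + 3, T0, by positivity, hT0, ?_⟩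
  intro T hT t ht1 ht2 W K hWc hW
  have hT10 : 10 ≤ T := hT0.trans hT
  have hL1 : 1 ≤ Real.log T := by
    rw [Real.le_log_iff_exp_le (by linarith)]
    have := Real.exp_one_lt_d9
    linarith
  set L : ℝ := Real.log T with hLdef
  have hL : 0 ≤ L := by linarith
  have hK : 0 ≤ K := (norm_nonneg _).trans (hW 0 ⟨le_rfl, hL⟩)
  -- zero side
  have hfin : (ZZ T).Finite := H370.zset_finite H370.good_zeta T (2 * T) (by linarith)
  set Z : ℝ → ℂ := fun u => ∑ᶠ s ∈ ZZ T, (mu s : ℂ) * (Real.exp (-(s.im - t) ^ 2 / 2) : ℂ) *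
        cexp (I * ((u * (s.im - t) : ℝ) : ℂ)) with hZ
  have hZsum : ∀ u, Z u = ∑ s ∈ hfin.toFinset, (mu s : ℂ) *
      (Real.exp (-(s.im - t) ^ 2 / 2) : ℂ) * cexp (I * ((u * (s.im - t) : ℝ) : ℂ)) := by
    intro u
    exact finsum_mem_eq_finite_toFinset_sum _ hfin
  have hZc : Continuous Z := by
    have : Z = fun u => ∑ s ∈ hfin.toFinset, (mu s : ℂ) *
      (Real.exp (-(s.im - t) ^ 2 / 2) : ℂ) * cexp (I * ((u * (s.im - t) : ℝ) : ℂ)) := by
      ext u
      exact hZsum u
    rw [this]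
    fun_prop
  have hzs : zs T t W = ∫ u in (0 : ℝ)..L, W u * Z u := by
    unfold zs
    rw [finsum_mem_eq_finite_toFinset_sum _ hfin]
    have h1 : ∀ u, W u * Z u = ∑ s ∈ hfin.toFinset, ((mu s : ℂ) *
      (Real.exp (-(s.im - t) ^ 2 / 2) : ℂ)) * (W u * cexp (I * ((u * (s.im - t) : ℝ) : ℂ))) := by
      intro u
      rw [hZsum, Finset.mul_sum]
      apply Finset.sum_congr rfl
      intro s _
      ring
    simp_rw [h1]
    rw [intervalIntegral.integral_finsetSum]
    · apply Finset.sum_congr rfl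
      intro s _
      rw [intervalIntegral.integral_const_mul]
    · intro s _
      apply Continuous.intervalIntegrable
      fun_prop
  -- prime side
  set P : ℝ → ℂ := fun u => ∑' n : ℕ, efa t n * (Real.exp (-(u - Real.log n) ^ 2 / 2) : ℂ) with hP
  have hBs : Summable (fun n => Real.exp (L ^ 2 / 2) * ppG (1 / 4) n) :=
    (ppG_summable _ (by norm_num)).mul_left _
  have hPsum : ∀ u ∈ Set.Icc 0 L, Summable (fun n : ℕ => efa t n *
      (Real.exp (-(u - Real.log n) ^ 2 / 2) : ℂ)) := fun u hu =>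
    Summable.of_norm_bounded hBs (fun n => efa_bound t L u hu n)
  have hPc : ContinuousOn P (Set.Icc 0 L) := by
    apply continuousOn_tsum (u := fun n => Real.exp (L ^ 2 / 2) * ppG (1 / 4) n)
    · intro n
      apply Continuous.continuousOn
      fun_prop
    · exact hBs
    · intro n u hu
      exact efa_bound t L u hu n
  have hps : ps T t W = ∫ u in (0 : ℝ)..L, (1 / Real.sqrt (2 * Real.pi) : ℝ) * (W u * P u) := by
    rw [intervalIntegral.integral_const_mul]
    have h1 : HasSum (fun n : ℕ => ∫ u in (0 : ℝ)..L, W u *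
        (efa t n * (Real.exp (-(u - Real.log n) ^ 2 / 2) : ℂ))) (∫ u in (0 : ℝ)..L, W u * P u) := by
      apply intervalIntegral.hasSum_integral_of_dominated_convergence
        (bound := fun n _ => K * (Real.exp (L ^ 2 / 2) * ppG (1 / 4) n))
      · intro n
        apply Continuous.aestronglyMeasurable
        fun_prop
      · intro n
        refine Eventually.of_forall fun u hu => ?_
        rw [Set.uIoc_of_le hL] at hu
        rw [norm_mul]
        exact mul_le_mul (hW u ⟨hu.1.le, hu.2⟩) (efa_bound t L u ⟨hu.1.le, hu.2⟩ n)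
          (norm_nonneg _) hK
      · exact Eventually.of_forall fun u _ => hBs.mul_left K
      · exact intervalIntegrable_const
      · refine Eventually.of_forall fun u hu => ?_
        rw [Set.uIoc_of_le hL] at hu
        exact (hPsum u ⟨hu.1.le, hu.2⟩).hasSum.mul_left _
    have h2 := h1.mul_left (((1 / Real.sqrt (2 * Real.pi) : ℝ) : ℂ))
    rw [← h2.tsum_eq]
    unfold ps bt
    apply tsum_congr
    intro n
    have h3 : ∀ u : ℝ, W u * (efa t n * (Real.exp (-(u - Real.log n) ^ 2 / 2) : ℂ)) =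
        efa t n * (W u * (Real.exp (-(u - Real.log n) ^ 2 / 2) : ℂ)) := by
      intro u
      ring
    simp_rw [h3]
    rw [intervalIntegral.integral_const_mul]
    unfold efa
    ring
  have hI1 : IntervalIntegrable (fun u => W u * Z u) volume 0 L :=
    (hWc.mul hZc).intervalIntegrable _ _
  have hI2 : IntervalIntegrable (fun u => (1 / Real.sqrt (2 * Real.pi) : ℝ) * (W u * P u))
      volume 0 L := by
    apply ContinuousOn.intervalIntegrable
    rw [Set.uIcc_of_le hL]
    exact continuousOn_const.mul (hWc.continuousOn.mul hPc)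
  rw [hzs, hps, ← intervalIntegral.integral_add hI1 hI2]
  have hpt : ∀ u ∈ Set.Icc 0 L, ‖W u * Z u + (1 / Real.sqrt (2 * Real.pi) : ℝ) * (W u * P u)‖ ≤
      K * C + K * L * Real.exp (-(u - 0) ^ 2 / 2) := by
    intro u hu
    have h1 := hEF T hT u t hu.1 hu.2 ht1 ht2
    have h2 : W u * Z u + (1 / Real.sqrt (2 * Real.pi) : ℝ) * (W u * P u) =
        W u * ((Z u - (1 / Real.sqrt (2 * Real.pi) : ℝ) * ((L * Real.exp (-u ^ 2 / 2) : ℝ) -
          P u)) + (1 / Real.sqrt (2 * Real.pi) : ℝ) * (L * Real.exp (-u ^ 2 / 2) : ℝ)) := by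
      ring
    rw [h2, norm_mul]
    have h3 : ‖((1 / Real.sqrt (2 * Real.pi) : ℝ) : ℂ) * (L * Real.exp (-u ^ 2 / 2) : ℝ)‖ ≤
        L * Real.exp (-(u - 0) ^ 2 / 2) := by
      rw [norm_mul, Complex.norm_real, Complex.norm_real, Real.norm_of_nonneg (by positivity),
        Real.norm_of_nonneg (by positivity), sub_zero]
      have := pp_inv_sqrt_le
      have h0 : 0 ≤ L * Real.exp (-u ^ 2 / 2) := by positivity
      nlinarith
    have h4 : C * Real.exp (-u) ≤ C := by
      have : Real.exp (-u) ≤ 1 := Real.exp_le_one_iff.2 (by linarith [hu.1])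
      nlinarith
    calc ‖W u‖ * ‖(Z u - (1 / Real.sqrt (2 * Real.pi) : ℝ) * ((L * Real.exp (-u ^ 2 / 2) : ℝ) -
          P u)) + (1 / Real.sqrt (2 * Real.pi) : ℝ) * (L * Real.exp (-u ^ 2 / 2) : ℝ)‖
        ≤ K * (C + L * Real.exp (-(u - 0) ^ 2 / 2)) := by
          apply mul_le_mul (hW u hu) _ (norm_nonneg _) hK
          exact (norm_add_le _ _).trans (add_le_add (h1.trans h4) h3)
      _ = _ := by ring
  have hIb : IntervalIntegrable (fun u => K * C + K * L * Real.exp (-(u - 0) ^ 2 / 2))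
      volume 0 L := by
    apply Continuous.intervalIntegrable
    fun_prop
  have hb : ‖∫ u in (0 : ℝ)..L, (W u * Z u + (1 / Real.sqrt (2 * Real.pi) : ℝ) * (W u * P u))‖ ≤
      ∫ u in (0 : ℝ)..L, (K * C + K * L * Real.exp (-(u - 0) ^ 2 / 2)) := by
    apply intervalIntegral.norm_integral_le_of_norm_le hL _ hIb
    exact Eventually.of_forall fun u hu => hpt u ⟨hu.1.le, hu.2⟩
  refine hb.trans ?_
  rw [intervalIntegral.integral_add intervalIntegrable_const
    (by apply Continuous.intervalIntegrable; fun_prop), intervalIntegral.integral_const,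
    intervalIntegral.integral_const_mul]
  have hg : ∫ u in (0 : ℝ)..L, Real.exp (-(u - 0) ^ 2 / 2) ≤ 3 := by
    rw [intervalIntegral.integral_of_le hL]
    refine (setIntegral_le_integral (pp_gauss_integrable 0)
      (Eventually.of_forall fun u => (Real.exp_pos _).le)).trans ?_
    rw [pp_gauss_int, Real.sqrt_le_left (by norm_num)]
    have := Real.pi_lt_d2
    linarith
  have hKL : 0 ≤ K * L := by positivity
  have := mul_le_mul_of_nonneg_left hg hKL
  simp only [sub_zero, smul_eq_mul]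
  simp only [sub_zero] at this
  nlinarith

end SP
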