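import Pool.Agent.H382P.Defs
import Pool.Agent.H370R2.DirGood
import Pool.Agent.H370R2.Local

open Complex Filter Topology Set MeasureTheory

namespace SP

open SG (phi hh nn dd dl)

theorem seg_exp (F : ℂ → ℂ) (σ u0 u1 : ℝ) (h : u0 ≤ u1)
    (hF : ∀ u ∈ Set.Icc u0 u1, AnalyticAt ℂ F ⟨σ, u⟩ ∧ F ⟨σ, u⟩ ≠ 0) :
    F ⟨σ, u0⟩ / F ⟨σ, u1⟩ = cexp (-(I * ∫ u in u0..u1, logDeriv F ⟨σ, u⟩)) := by
  have hline : Continuous (fun u : ℝ => (⟨σ, u⟩ : ℂ)) := by
    have : (fun u : ℝ => (⟨σ, u⟩ : ℂ)) = fun u : ℝ => (σ : ℂ) + u * I := by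
      funext u; apply Complex.ext <;> simp
    rw [this]; fun_prop
  have hlined : ∀ u : ℝ, HasDerivAt (fun u : ℝ => (⟨σ, u⟩ : ℂ)) I u := by
    intro u
    have : (fun u : ℝ => (⟨σ, u⟩ : ℂ)) = fun u : ℝ => (σ : ℂ) + u * I := by
      funext u; apply Complex.ext <;> simp
    rw [this]
    have := ((Complex.ofRealCLM.hasDerivAt (x := u)).mul_const I).const_add (σ : ℂ)
    simpa using this
  -- the good open set
  have hUo : IsOpen {z : ℂ | AnalyticAt ℂ F z} := isOpen_analyticAt ℂ F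
  have hcF : ContinuousOn F {z : ℂ | AnalyticAt ℂ F z} := fun z hz => hz.continuousAt.continuousWithinAt
  have hVo : IsOpen ({z : ℂ | AnalyticAt ℂ F z} ∩ F ⁻¹' {0}ᶜ) :=
    hcF.isOpen_inter_preimage hUo isOpen_compl_singleton
  set V := {z : ℂ | AnalyticAt ℂ F z} ∩ F ⁻¹' {0}ᶜ with hV
  set S : Set ℝ := (fun u : ℝ => (⟨σ, u⟩ : ℂ)) ⁻¹' V with hS
  have hSo : IsOpen S := hVo.preimage hline
  have hsub : Icc u0 u1 ⊆ S := fun u hu => ⟨(hF u hu).1, (hF u hu).2⟩
  have hcL : ContinuousOn (fun u : ℝ => logDeriv F ⟨σ, u⟩) S := by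
    intro u hu
    have h1 : ContinuousAt (logDeriv F) ⟨σ, u⟩ := by
      unfold logDeriv
      exact (hu.1.deriv.continuousAt).div hu.1.continuousAt hu.2
    exact (ContinuousAt.comp (f := fun u : ℝ => (⟨σ, u⟩ : ℂ)) h1 hline.continuousAt).continuousWithinAt
  set J : ℝ → ℂ := fun u => ∫ v in u0..u, logDeriv F ⟨σ, v⟩ with hJ
  have hJd : ∀ u ∈ Icc u0 u1, HasDerivAt J (logDeriv F ⟨σ, u⟩) u := by
    intro u hu
    refine intervalIntegral.integral_hasDerivAt_right ?_ ?_ ?_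
    · refine ContinuousOn.intervalIntegrable (hcL.mono ?_)
      rw [uIcc_of_le hu.1]
      exact (Icc_subset_Icc le_rfl hu.2).trans hsub
    · exact hcL.stronglyMeasurableAtFilter hSo u (hsub hu)
    · exact hcL.continuousAt (hSo.mem_nhds (hsub hu))
  set H : ℝ → ℂ := fun u => F ⟨σ, u⟩ * cexp (-(I * J u)) with hH
  have hHd : ∀ u ∈ Icc u0 u1, HasDerivAt H 0 u := by
    intro u hu
    have h1 : HasDerivAt (fun u : ℝ => F ⟨σ, u⟩) (deriv F ⟨σ, u⟩ * I) u := by
      have := HasDerivAt.scomp (g₁ := F) (h := fun u : ℝ => (⟨σ, u⟩ : ℂ)) u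
        ((hF u hu).1.differentiableAt.hasDerivAt) (hlined u)
      rw [smul_eq_mul, mul_comm] at this
      exact this
    have h2 : HasDerivAt (fun u => cexp (-(I * J u))) (cexp (-(I * J u)) * (-(I * logDeriv F ⟨σ, u⟩))) u :=
      (((hJd u hu).const_mul I).neg).cexp
    have h3 := h1.mul h2
    have h4 := (hF u hu).2
    have h5 : deriv F ⟨σ, u⟩ * I * cexp (-(I * J u)) +
        F ⟨σ, u⟩ * (cexp (-(I * J u)) * (-(I * logDeriv F ⟨σ, u⟩))) = 0 := by
      rw [logDeriv_apply]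
      field_simp
      ring
    rw [h5] at h3
    exact h3
  have hconst := constant_of_has_deriv_right_zero (f := H) (a := u0) (b := u1)
    (fun u hu => (hHd u hu).continuousAt.continuousWithinAt)
    (fun u hu => (hHd u (Ico_subset_Icc_self hu)).hasDerivWithinAt) u1 ⟨h, le_rfl⟩
  have hJ0 : J u0 = 0 := by simp [hJ]
  have e : F ⟨σ, u1⟩ * cexp (-(I * J u1)) = F ⟨σ, u0⟩ := by
    have := hconst
    simp only [hH, hJ0, mul_zero, neg_zero, Complex.exp_zero, mul_one] at this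
    exact this
  rw [← e, mul_comm, mul_div_assoc, div_self (hF u1 ⟨h, le_rfl⟩).2, mul_one]


theorem ZZ_finite (T : ℝ) (hT : 1 ≤ T) : (ZZ T).Finite :=
  H370.zset_finite H370.good_zeta T (2 * T) hT

/-- the zeros near height `T`, weighted by a Gaussian -/
theorem gauss_zeros : ∃ C : ℝ, 0 < C ∧ ∀ T : ℝ, 10 ≤ T → ∀ t : ℝ,
    ∑ᶠ s ∈ ZZ T, (mu s : ℝ) * Real.exp (-(s.im - t) ^ 2 / 2) ≤ C * Real.log T := by
  classical
  obtain ⟨C0, hC0, hz⟩ := H370.zcount H370.good_zeta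
  have hsum : Summable (fun j : ℤ => Real.exp (3 / 2) * Real.exp (-|(j : ℝ)|)) := by
    refine Summable.mul_left _ ?_
    rw [summable_int_iff_summable_nat_and_neg]
    constructor
    · refine Real.summable_exp_neg_nat.congr fun n => ?_
      simp
    · refine Real.summable_exp_neg_nat.congr fun n => ?_
      simp
  set S : ℝ := ∑' j : ℤ, Real.exp (3 / 2) * Real.exp (-|(j : ℝ)|) with hS
  have hS0 : 0 ≤ S := tsum_nonneg fun j => by positivity
  refine ⟨2 * C0 * (S + 1), by positivity, fun T hT t => ?_⟩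
  have hlog : 0 < Real.log T := Real.log_pos (by linarith)
  have hfin := ZZ_finite T (by linarith)
  rw [finsum_mem_eq_finite_toFinset_sum _ hfin]
  set Z := hfin.toFinset with hZ
  have hZm : ∀ s ∈ Z, s ∈ ZZ T := fun s hs => (Finite.mem_toFinset hfin).1 hs
  have h1 : ∑ s ∈ Z, (mu s : ℝ) * Real.exp (-(s.im - t) ^ 2 / 2) ≤
      ∑ s ∈ Z, (mu s : ℝ) * (Real.exp (3 / 2) * Real.exp (-|((⌊s.im - t⌋ : ℤ) : ℝ)|)) := by
    refine Finset.sum_le_sum fun s _ => mul_le_mul_of_nonneg_left ?_ (Nat.cast_nonneg _)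
    rw [← Real.exp_add]
    refine Real.exp_le_exp.2 ?_
    have a1 := Int.floor_le (s.im - t)
    have a2 := Int.lt_floor_add_one (s.im - t)
    have a3 : |((⌊s.im - t⌋ : ℤ) : ℝ)| ≤ |s.im - t| + 1 := by
      have : ((⌊s.im - t⌋ : ℤ) : ℝ) = (s.im - t) + (((⌊s.im - t⌋ : ℤ) : ℝ) - (s.im - t)) := by ring
      rw [this]
      refine (abs_add_le _ _).trans ?_
      have : |((⌊s.im - t⌋ : ℤ) : ℝ) - (s.im - t)| ≤ 1 := by
        rw [abs_le]; constructor <;> linarith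
      linarith
    have a4 : (s.im - t) ^ 2 = |s.im - t| ^ 2 := (sq_abs _).symm
    rw [a4]
    nlinarith [sq_nonneg (|s.im - t| - 1)]
  refine h1.trans ?_
  rw [← Finset.sum_fiberwise_of_maps_to (s := Z) (t := Z.image fun s => ⌊s.im - t⌋)
    (g := fun s => ⌊s.im - t⌋) (fun s hs => Finset.mem_image_of_mem _ hs)]
  have h2 : ∀ j ∈ Z.image (fun s => ⌊s.im - t⌋),
      ∑ s ∈ Z.filter (fun s => ⌊s.im - t⌋ = j),
        (mu s : ℝ) * (Real.exp (3 / 2) * Real.exp (-|((⌊s.im - t⌋ : ℤ) : ℝ)|)) ≤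
      (2 * C0 * Real.log T) * (Real.exp (3 / 2) * Real.exp (-|(j : ℝ)|)) := by
    intro j hj
    obtain ⟨s0, hs0, hj0⟩ := Finset.mem_image.1 hj
    have e1 : ∑ s ∈ Z.filter (fun s => ⌊s.im - t⌋ = j),
        (mu s : ℝ) * (Real.exp (3 / 2) * Real.exp (-|((⌊s.im - t⌋ : ℤ) : ℝ)|)) =
        (∑ s ∈ Z.filter (fun s => ⌊s.im - t⌋ = j), (mu s : ℝ)) *
          (Real.exp (3 / 2) * Real.exp (-|(j : ℝ)|)) := by
      rw [Finset.sum_mul]
      refine Finset.sum_congr rfl fun s hs => ?_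
      rw [(Finset.mem_filter.1 hs).2]
    rw [e1]
    refine mul_le_mul_of_nonneg_right ?_ (by positivity)
    have hs0' := hZm s0 hs0
    have b1 := Int.floor_le (s0.im - t)
    have b2 := Int.lt_floor_add_one (s0.im - t)
    rw [hj0] at b1 b2
    have b3 : T < s0.im := hs0'.2.2.1
    have b4 : s0.im ≤ 2 * T := hs0'.2.2.2.1
    have hc3 : 3 ≤ t + j + 1 / 2 := by linarith
    have hcz := hz (t + j + 1 / 2) hc3
    have hfin2 := H370.zset_finite H370.good_zeta (t + j + 1 / 2 - 1) (t + j + 1 / 2 + 1) (by linarith)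
    have hNN : H370.NN riemannZeta (t + j + 1 / 2 - 1) (t + j + 1 / 2 + 1) =
        ∑ s ∈ hfin2.toFinset, H370.mult riemannZeta s := by
      unfold H370.NN
      exact finsum_mem_eq_finite_toFinset_sum _ hfin2
    have hle : ∑ s ∈ Z.filter (fun s => ⌊s.im - t⌋ = j), mu s ≤
        ∑ s ∈ hfin2.toFinset, H370.mult riemannZeta s := by
      refine Finset.sum_le_sum_of_subset ?_
      intro s hs
      obtain ⟨hs1, hs2⟩ := Finset.mem_filter.1 hs
      have hs3 := hZm s hs1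
      rw [Finite.mem_toFinset]
      have c1 := Int.floor_le (s.im - t)
      have c2 := Int.lt_floor_add_one (s.im - t)
      rw [hs2] at c1 c2
      exact ⟨hs3.1, hs3.2.1, by linarith, by linarith, hs3.2.2.2.2⟩
    have hle' : ∑ s ∈ Z.filter (fun s => ⌊s.im - t⌋ = j), (mu s : ℝ) ≤
        (H370.NN riemannZeta (t + j + 1 / 2 - 1) (t + j + 1 / 2 + 1) : ℝ) := by
      rw [hNN]; exact_mod_cast hle
    refine hle'.trans (hcz.trans ?_)
    have hl : Real.log (t + j + 1 / 2) ≤ 2 * Real.log T := by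
      have : Real.log (t + j + 1 / 2) ≤ Real.log (T ^ 2) :=
        Real.log_le_log (by linarith) (by nlinarith)
      rw [Real.log_pow] at this
      exact_mod_cast this
    nlinarith
  refine (Finset.sum_le_sum h2).trans ?_
  rw [← Finset.mul_sum]
  have h3 : ∑ j ∈ Z.image (fun s => ⌊s.im - t⌋), Real.exp (3 / 2) * Real.exp (-|(j : ℝ)|) ≤ S :=
    hsum.sum_le_tsum _ fun j _ => by positivity
  have h4 : 0 ≤ 2 * C0 * Real.log T := by positivity
  calc 2 * C0 * Real.log T * ∑ j ∈ Z.image (fun s => ⌊s.im - t⌋),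
        Real.exp (3 / 2) * Real.exp (-|(j : ℝ)|) ≤ 2 * C0 * Real.log T * (S + 1) :=
        mul_le_mul_of_nonneg_left (by linarith) h4
    _ = 2 * C0 * (S + 1) * Real.log T := by ring


theorem analyticAt_completedZeta (s : ℂ) (h : 0 < s.im) : AnalyticAt ℂ completedRiemannZeta s := by
  have ho : IsOpen {z : ℂ | 0 < z.im} := isOpen_lt continuous_const Complex.continuous_im
  have hd : DifferentiableOn ℂ completedRiemannZeta {z : ℂ | 0 < z.im} := by
    intro z hz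
    refine (differentiableAt_completedZeta ?_ ?_).differentiableWithinAt
    · rintro rfl; simp at hz
    · rintro rfl; simp at hz
  exact hd.analyticAt (ho.mem_nhds h)

theorem hh_sub (c T σ t : ℝ) : (⟨σ, t⟩ : ℂ) - hh (dl c T) = ⟨σ, t - dl c T / 2⟩ := by
  apply Complex.ext <;> simp [SG.hh]

theorem hh_add (c T σ t : ℝ) : (⟨σ, t⟩ : ℂ) + hh (dl c T) = ⟨σ, t + dl c T / 2⟩ := by
  apply Complex.ext <;> simp [SG.hh]


end SP
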