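import Pool.Agent.H382P.Defs
import Pool.Agent.H382P.Seg
import Pool.Agent.H382R2.Gam
import Pool.Agent.H382R2.Zeta1

open Complex Filter Topology Set MeasureTheory Metric

namespace SP

open SG (phi hh nn dd dl)

/-- lower bound in a zero-free disc (Borel-Caratheodory) -/
theorem lower_zero_free {g : ℂ → ℂ} {c : ℂ} {r r2 B : ℝ} (hr : 0 < r) (hr2 : 0 ≤ r2)
    (h2r : r2 < r) (hB : 0 < B)
    (hg : AnalyticOnNhd ℂ g (ball c r)) (hg0 : ∀ z ∈ ball c r, g z ≠ 0)
    (hb : ∀ z ∈ ball c r, ‖g z‖ ≤ Real.exp B * ‖g c‖) {z : ℂ} (hz : z ∈ closedBall c r2) :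
    ‖g c‖ * Real.exp (-(2 * B * r2 / (r - r2))) ≤ ‖g z‖ := by
  have hcr : c ∈ ball c r := mem_ball_self hr
  have hqd : DifferentiableOn ℂ (fun z => deriv g z / g z) (ball c r) := by
    intro w hw
    exact ((hg w hw).deriv.div (hg w hw) (hg0 w hw)).differentiableAt.differentiableWithinAt
  obtain ⟨h, hc0, hh⟩ := hqd.isExactOn_ball.with_val_at c 0
  have hexp : ∀ z ∈ ball c r, g z = g c * Complex.exp (h z) := by
    have hconst : ∀ z ∈ ball c r, g z * Complex.exp (-h z) = g c * Complex.exp (-h c) := by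
      intro z hz
      have hd : ∀ w ∈ ball c r, HasDerivAt (fun w => g w * Complex.exp (-h w)) 0 w := by
        intro w hw
        have h1 : HasDerivAt (fun w => g w * Complex.exp (-h w))
            (deriv g w * Complex.exp (-h w) + g w * (Complex.exp (-h w) * -(deriv g w / g w))) w :=
          (hg w hw).differentiableAt.hasDerivAt.mul (hh w hw).neg.cexp
        have hGw := hg0 w hw
        have h2 : deriv g w * Complex.exp (-h w) + g w * (Complex.exp (-h w) * -(deriv g w / g w)) = 0 := by
          field_simp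
          ring
        rw [h2] at h1
        exact h1
      exact isOpen_ball.is_const_of_deriv_eq_zero (isConnected_ball hr).isPreconnected
        (fun w hw => (hd w hw).differentiableAt.differentiableWithinAt)
        (fun w hw => (hd w hw).deriv) hz (mem_ball_self hr)
    intro z hz
    have h1 := hconst z hz
    rw [hc0, neg_zero, Complex.exp_zero, mul_one] at h1
    rw [← h1, mul_assoc, ← Complex.exp_add]
    simp
  have hgc : 0 < ‖g c‖ := norm_pos_iff.2 (hg0 c hcr)
  have hre : ∀ z ∈ ball c r, (h z).re ≤ B := by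
    intro z hz
    have h1 := hb z hz
    rw [hexp z hz, norm_mul, Complex.norm_exp, mul_comm] at h1
    exact Real.exp_le_exp.1 (le_of_mul_le_mul_right h1 hgc)
  rw [mem_closedBall, dist_eq_norm] at hz
  have h1 : DifferentiableOn ℂ (fun w => h (c + w)) (ball 0 r) := by
    intro w hw
    have hcw : c + w ∈ ball c r := by
      rw [mem_ball, dist_eq_norm, add_sub_cancel_left]
      simpa using hw
    have := (hh (c + w) hcw).differentiableAt
    exact (this.comp w (by fun_prop : DifferentiableAt ℂ (fun w => c + w) w)).differentiableWithinAt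
  have h2 : MapsTo (fun w => h (c + w)) (ball 0 r) {z | z.re ≤ B} := by
    intro w hw
    have hcw : c + w ∈ ball c r := by
      rw [mem_ball, dist_eq_norm, add_sub_cancel_left]
      simpa using hw
    exact hre _ hcw
  have h3 : z - c ∈ ball (0:ℂ) r := by
    rw [mem_ball, dist_zero_right]
    linarith
  have h4 := Complex.borelCaratheodory_zero hB h1 h2 hr h3 (by simp [hc0])
  simp only [add_sub_cancel] at h4
  have h5 : 0 < r - ‖z - c‖ := by linarith
  have h6 : 0 < r - r2 := by linarith
  have h7 : ‖h z‖ ≤ 2 * B * r2 / (r - r2) := by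
    refine h4.trans ?_
    gcongr
  have hzb : z ∈ ball c r := by
    rw [mem_ball, dist_eq_norm]; linarith
  rw [hexp z hzb, norm_mul, Complex.norm_exp]
  have h8 : -(2 * B * r2 / (r - r2)) ≤ (h z).re := by
    have h9 := Complex.abs_re_le_norm (h z)
    have := (abs_le.1 (h9.trans h7)).1
    linarith
  gcongr

theorem zeta_ne_of_RH (hRH : RHs) (s : ℂ) (h : 1 / 2 < s.re) (h1 : s.re < 1 ∨ 1 ≤ s.re) :
    riemannZeta s ≠ 0 := by
  rcases h1 with h1 | h1
  · intro h0
    have := hRH s (by linarith) h1 h0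
    linarith
  · exact riemannZeta_ne_zero_of_one_le_re h1

/-- lower bound for `ζ` to the right of the critical line under RH -/
theorem zeta_lower_RH (hRH : RHs) (a : ℝ) (ha : 0 < a) :
    ∃ C T0 : ℝ, 0 < C ∧ 10 ≤ T0 ∧ ∀ T : ℝ, T0 ≤ T → ∀ s : ℂ,
    1 / 2 + a / Real.log T ≤ s.re → T ≤ s.im → s.im ≤ 2 * T →
    Real.exp (-(C * (Real.log T) ^ 2)) ≤ ‖riemannZeta s‖ := by
  obtain ⟨Cz, A, hCz, hA, hgr⟩ := SG.zeta_growth
  set C' : ℝ := |Real.log (3 * Cz)| + 2 * A with hC'
  have hC'0 : 0 < C' := by positivity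
  refine ⟨8 * C' / a + 2, max 10 (Real.exp (a + 2)), by positivity, le_max_left _ _,
    fun T hT s hs1 hs2 hs3 => ?_⟩
  have hT10 : 10 ≤ T := (le_max_left _ _).trans hT
  have hTe : Real.exp (a + 2) ≤ T := (le_max_right _ _).trans hT
  have hLb : a + 2 ≤ Real.log T := (Real.le_log_iff_exp_le (by linarith)).2 hTe
  set L : ℝ := Real.log T with hL
  have hL0 : 0 < L := by linarith
  have hx0 : 0 < a / L := by positivity
  have hx1 : a / L < 1 := by rw [div_lt_one hL0]; linarith
  have hbig : 2 ≤ (8 * C' / a + 2) * L ^ 2 := by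
    have h1 : 0 ≤ 8 * C' / a * L ^ 2 := by positivity
    have h2 : 2 ≤ L := by linarith
    nlinarith
  have hthird : ∀ w : ℂ, 2 ≤ w.re → 1 / 3 ≤ ‖riemannZeta w‖ := by
    intro w hw
    obtain ⟨hw0, hw1⟩ := SG.zeta_inv_bound w hw
    rw [norm_inv] at hw1
    have hpos : 0 < ‖riemannZeta w‖ := norm_pos_iff.2 hw0
    have := (inv_le_comm₀ hpos (by norm_num)).1 hw1
    linarith
  have hexp3 : Real.exp (-2) ≤ 1 / 3 := by
    rw [Real.exp_neg, inv_le_comm₀ (Real.exp_pos _) (by norm_num)]
    have := Real.add_one_le_exp (2:ℝ)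
    norm_num at this ⊢
    linarith
  rcases le_or_gt 2 s.re with hre | hre
  · refine le_trans ?_ (hthird s hre)
    refine le_trans (Real.exp_le_exp.2 ?_) hexp3
    linarith
  · set cc : ℂ := ⟨2, s.im⟩ with hcc
    have hball : ∀ z ∈ ball cc (3 / 2 - a / (2 * L)), 1 / 2 < z.re ∧ z.re ≤ 6 ∧ 1 ≤ z.im ∧
        z.im ≤ 2 * T + 2 := by
      intro z hz
      rw [mem_ball, dist_eq_norm] at hz
      have hx2 : 0 < a / (2 * L) := by positivity
      have h1 := (Complex.abs_re_le_norm (z - cc)).trans_lt hz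
      have h2 := (Complex.abs_im_le_norm (z - cc)).trans_lt hz
      simp only [sub_re, sub_im, hcc] at h1 h2
      rw [abs_lt] at h1 h2
      refine ⟨by linarith [h1.1], by linarith [h1.2], by linarith [h2.1], by linarith [h2.2]⟩
    have hx3 : a / (2 * L) < 1 / 2 := by
      rw [div_lt_div_iff₀ (by positivity) (by norm_num)]
      linarith
    have hB : ∀ z ∈ ball cc (3 / 2 - a / (2 * L)), ‖riemannZeta z‖ ≤
        Real.exp (C' * L) * ‖riemannZeta cc‖ := by
      intro z hz
      obtain ⟨h1, h2, h3, h4⟩ := hball z hz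
      have h5 := hgr z (by linarith) h2 (by rw [abs_of_pos (by linarith)]; exact h3)
      rw [abs_of_pos (by linarith : (0:ℝ) < z.im)] at h5
      have h6 : z.im ^ A ≤ (T ^ 2) ^ A := Real.rpow_le_rpow (by linarith) (by nlinarith) (by linarith)
      have h7 : (T ^ 2) ^ A = Real.exp (2 * A * L) := by
        rw [← Real.exp_log (by positivity : (0:ℝ) < (T ^ 2) ^ A), Real.log_rpow (by positivity),
          Real.log_pow]
        congr 1
        push_cast
        ring
      have h8 : 3 * Cz ≤ Real.exp (|Real.log (3 * Cz)| * L) := by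
        calc 3 * Cz = Real.exp (Real.log (3 * Cz)) := (Real.exp_log (by positivity)).symm
          _ ≤ _ := Real.exp_le_exp.2 (by
            have h9 := le_abs_self (Real.log (3 * Cz))
            have h10 := abs_nonneg (Real.log (3 * Cz))
            nlinarith)
      have h11 := hthird cc (by rw [hcc])
      calc ‖riemannZeta z‖ ≤ Cz * z.im ^ A := h5
        _ ≤ Cz * (T ^ 2) ^ A := by gcongr
        _ = (3 * Cz) * Real.exp (2 * A * L) * (1 / 3) := by rw [h7]; ring
        _ ≤ Real.exp (|Real.log (3 * Cz)| * L) * Real.exp (2 * A * L) * ‖riemannZeta cc‖ := by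
            gcongr
        _ = Real.exp (C' * L) * ‖riemannZeta cc‖ := by
            rw [← Real.exp_add]; congr 2; rw [hC']; ring
    have hfin := lower_zero_free (g := riemannZeta) (c := cc) (r := 3 / 2 - a / (2 * L))
      (r2 := 3 / 2 - a / L) (B := C' * L) (by linarith) (by linarith)
      (by
        have : a / (2 * L) = a / L / 2 := by field_simp
        linarith) (by positivity)
      (fun z hz => by
        have hz1 : z ≠ 1 := by
          rintro rfl
          have := (hball 1 hz).2.2.1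
          simp at this
          linarith
        have ho : IsOpen {z : ℂ | z ≠ 1} := isOpen_ne
        have hd : DifferentiableOn ℂ riemannZeta {z : ℂ | z ≠ 1} := fun w hw =>
          (differentiableAt_riemannZeta hw).differentiableWithinAt
        exact hd.analyticAt (ho.mem_nhds hz1))
      (fun z hz => zeta_ne_of_RH hRH z (hball z hz).1 (lt_or_ge _ _)) hB (z := s)
      (by
        rw [mem_closedBall, dist_eq_norm]
        have e : s - cc = ((s.re - 2 : ℝ) : ℂ) := by
          apply Complex.ext <;> simp [hcc]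
        rw [e, Complex.norm_real, Real.norm_eq_abs, abs_of_neg (by linarith)]
        linarith)
    refine le_trans ?_ hfin
    have h12 := hthird cc (by rw [hcc])
    have e13 : 3 / 2 - a / (2 * L) - (3 / 2 - a / L) = a / (2 * L) := by field_simp; ring
    rw [e13]
    have h14 : 2 * (C' * L) * (3 / 2 - a / L) / (a / (2 * L)) ≤ 8 * C' / a * L ^ 2 := by
      rw [div_le_iff₀ (by positivity)]
      have e15 : 8 * C' / a * L ^ 2 * (a / (2 * L)) = 4 * C' * L := by
        field_simp
        ring
      rw [e15]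
      have : 0 < C' * L := by positivity
      nlinarith
    calc Real.exp (-((8 * C' / a + 2) * L ^ 2)) ≤ Real.exp (-2 + -(8 * C' / a * L ^ 2)) :=
          Real.exp_le_exp.2 (by nlinarith)
      _ = Real.exp (-2) * Real.exp (-(8 * C' / a * L ^ 2)) := Real.exp_add _ _
      _ ≤ ‖riemannZeta cc‖ * Real.exp (-(2 * (C' * L) * (3 / 2 - a / L) / (a / (2 * L)))) := by
          refine mul_le_mul (hexp3.trans h12) (Real.exp_le_exp.2 (by linarith)) (Real.exp_pos _).le
            (norm_nonneg _)

theorem completedZeta_eq (w : ℂ) (hw : 0 < w.re) :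
    completedRiemannZeta w = Gammaℝ w * riemannZeta w := by
  have hw0 : w ≠ 0 := by rintro rfl; simp at hw
  rw [riemannZeta_def_of_ne_zero hw0, mul_div_cancel₀ _ (Gammaℝ_ne_zero_of_re_pos hw)]

theorem ff_hor (hRH : RHs) (c a : ℝ) (hc : 0 < c) (hc1 : c < 1) (ha : 0 < a) :
    ∃ C T0 : ℝ, 0 < C ∧ 10 ≤ T0 ∧ ∀ T : ℝ, T0 ≤ T → ∀ s : ℂ,
    1 / 2 + a / Real.log T ≤ s.re → s.re ≤ 6 → T + 1 ≤ s.im → s.im ≤ 2 * T - 1 →
    AnalyticAt ℂ (ff c T) s ∧ ‖ff c T s‖ ≤ Real.exp (C * (Real.log T) ^ 2) := by
  obtain ⟨Cz, A, hCz, hA, hgr⟩ := SG.zeta_growth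
  obtain ⟨Cg, hCg, hgam⟩ := SG.gam_shift
  obtain ⟨Cl, Tl, hCl, hTl, hlow⟩ := zeta_lower_RH hRH a ha
  refine ⟨2 * Cg + (Cz + 2 * A) + Cl, max Tl (Real.exp 80), by positivity,
    hTl.trans (le_max_left _ _), fun T hT s hs1 hs2 hs3 hs4 => ?_⟩
  have hTTl : Tl ≤ T := (le_max_left _ _).trans hT
  have hT10 : 10 ≤ T := hTl.trans hTTl
  have hTe : Real.exp 80 ≤ T := (le_max_right _ _).trans hT
  have hLb : 80 ≤ Real.log T := (Real.le_log_iff_exp_le (by linarith)).2 hTe
  have hT81 : 81 ≤ T := by
    have := Real.add_one_le_exp (80:ℝ)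
    linarith
  set L : ℝ := Real.log T with hL
  have hL0 : 0 < L := by linarith
  have hx0 : 0 < a / L := by positivity
  set δ : ℝ := dl c T with hδ
  have hδL : L * δ = 2 * Real.pi * c := by
    rw [hδ]; unfold SG.dl; rw [← hL]; field_simp
  have hδ0 : 0 < δ := by
    rw [hδ]; unfold SG.dl; positivity
  have hδ8 : L * δ ≤ 8 := by
    rw [hδL]; nlinarith [Real.pi_pos, Real.pi_lt_d2]
  have hδs : δ ≤ 1 / 10 := by
    by_contra hcon
    push Not at hcon
    nlinarith
  have em : s - hh δ = ⟨s.re, s.im - δ / 2⟩ := by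
    apply Complex.ext <;> simp [SG.hh]
  have ep : s + hh δ = ⟨s.re, s.im + δ / 2⟩ := by
    apply Complex.ext <;> simp [SG.hh]
  have hmre : (s - hh δ).re = s.re := by rw [em]
  have hmim : (s - hh δ).im = s.im - δ / 2 := by rw [em]
  have hpre : (s + hh δ).re = s.re := by rw [ep]
  have hpim : (s + hh δ).im = s.im + δ / 2 := by rw [ep]
  have hre0 : 0 < s.re := by linarith
  -- nonvanishing of the denominator
  have hz0 : riemannZeta (s + hh δ) ≠ 0 :=
    zeta_ne_of_RH hRH _ (by rw [hpre]; linarith) (lt_or_ge _ _)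
  have hden : completedRiemannZeta (s + hh δ) ≠ 0 := by
    rw [completedZeta_eq _ (by rw [hpre]; exact hre0)]
    exact mul_ne_zero (Gammaℝ_ne_zero_of_re_pos (by rw [hpre]; exact hre0)) hz0
  refine ⟨?_, ?_⟩
  · have h1 : AnalyticAt ℂ (fun z : ℂ => completedRiemannZeta (z - hh δ)) s := by
      have := analyticAt_completedZeta (s - hh δ) (by rw [hmim]; linarith)
      exact AnalyticAt.fun_comp (g := completedRiemannZeta) (f := fun z : ℂ => z - hh δ) this
        (analyticAt_id.sub analyticAt_const)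
    have h2 : AnalyticAt ℂ (fun z : ℂ => completedRiemannZeta (z + hh δ)) s := by
      have := analyticAt_completedZeta (s + hh δ) (by rw [hpim]; linarith)
      exact AnalyticAt.fun_comp (g := completedRiemannZeta) (f := fun z : ℂ => z + hh δ) this
        (analyticAt_id.add analyticAt_const)
    exact h1.div h2 hden
  · have hff : ff c T s = (Gammaℝ (s - hh δ) / Gammaℝ (s - hh δ + I * δ)) *
        (riemannZeta (s - hh δ) / riemannZeta (s + hh δ)) := by
      unfold ff
      rw [← hδ, completedZeta_eq _ (by rw [hmre]; exact hre0),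
        completedZeta_eq _ (by rw [hpre]; exact hre0), mul_div_mul_comm]
      congr 3
      unfold SG.hh
      push_cast
      ring
    have hmabs : |(s - hh δ).im| = s.im - δ / 2 := by
      rw [hmim, abs_of_pos (by linarith)]
    have h3 := (hgam (s - hh δ) δ (by rw [hmabs]; linarith)
      (by rw [hmabs, hmre, abs_of_pos hre0]; linarith)
      (by rw [abs_of_pos hδ0]; linarith)).2
    have hlog2 : Real.log (s.im - δ / 2) ≤ 2 * L := by
      have : Real.log (s.im - δ / 2) ≤ Real.log (T ^ 2) :=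
        Real.log_le_log (by linarith) (by nlinarith)
      rw [Real.log_pow] at this
      exact_mod_cast this
    have hlog0 : 0 ≤ Real.log (s.im - δ / 2) := Real.log_nonneg (by linarith)
    have h4 : ‖Gammaℝ (s - hh δ) / Gammaℝ (s - hh δ + I * δ)‖ ≤ Real.exp (2 * Cg * L ^ 2) := by
      refine h3.trans (Real.exp_le_exp.2 ?_)
      rw [hmabs, abs_of_pos hδ0]
      have h5 : Cg * δ ≤ Cg := by nlinarith
      calc Cg * δ * Real.log (s.im - δ / 2) ≤ Cg * (2 * L) :=
            mul_le_mul h5 hlog2 hlog0 (by linarith)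
        _ = 2 * Cg * L := by ring
        _ ≤ 2 * Cg * L ^ 2 := mul_le_mul_of_nonneg_left (by nlinarith) (by linarith)
    have h5 := hgr (s - hh δ) (by rw [hmre]; linarith) (by rw [hmre]; exact hs2)
      (by rw [hmabs]; linarith)
    have h6 : ‖riemannZeta (s - hh δ)‖ ≤ Real.exp ((Cz + 2 * A) * L ^ 2) := by
      refine h5.trans ?_
      rw [hmabs]
      have h7 : (s.im - δ / 2) ^ A = Real.exp (A * Real.log (s.im - δ / 2)) := by
        rw [Real.rpow_def_of_pos (by linarith), mul_comm]
      have h8 : Cz ≤ Real.exp Cz := by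
        have := Real.add_one_le_exp Cz
        linarith
      rw [h7]
      calc Cz * Real.exp (A * Real.log (s.im - δ / 2)) ≤
            Real.exp Cz * Real.exp (A * (2 * L)) := by gcongr
        _ = Real.exp (Cz + A * (2 * L)) := (Real.exp_add _ _).symm
        _ ≤ Real.exp ((Cz + 2 * A) * L ^ 2) := Real.exp_le_exp.2 (by
          have : L ≤ L ^ 2 := by nlinarith
          have h9 : Cz ≤ Cz * L ^ 2 := by nlinarith
          nlinarith)
    have h10 := hlow T hTTl (s + hh δ) (by rw [hpre]; exact hs1) (by rw [hpim]; linarith)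
      (by rw [hpim]; linarith)
    have h11 : ‖(riemannZeta (s + hh δ))⁻¹‖ ≤ Real.exp (Cl * L ^ 2) := by
      rw [norm_inv]
      have := inv_anti₀ (Real.exp_pos _) h10
      rwa [← Real.exp_neg, neg_neg] at this
    rw [hff, norm_mul, div_eq_mul_inv (riemannZeta _), norm_mul]
    calc ‖Gammaℝ (s - hh δ) / Gammaℝ (s - hh δ + I * δ)‖ *
          (‖riemannZeta (s - hh δ)‖ * ‖(riemannZeta (s + hh δ))⁻¹‖)
        ≤ Real.exp (2 * Cg * L ^ 2) * (Real.exp ((Cz + 2 * A) * L ^ 2) * Real.exp (Cl * L ^ 2)) := by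
          gcongr
      _ = Real.exp ((2 * Cg + (Cz + 2 * A) + Cl) * L ^ 2) := by
          rw [← Real.exp_add, ← Real.exp_add]; congr 1; ring

end SP
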