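import Pool.Agent.H382P.Defs
import Pool.Agent.H382P.EFW
import Pool.Agent.H382P.PrimePart
import Pool.Agent.H370R2.Local
import Pool.Agent.H370R2.DirGood

open Complex Filter Topology Set MeasureTheory

namespace SP

open SG (phi hh nn dd dl)

namespace MkB

theorem ZZ_finite {T : ℝ} (hT : 1 ≤ T) : (ZZ T).Finite :=
  H370.zset_finite H370.good_zeta T (2 * T) hT

theorem ell_pos {κ T : ℝ} {k : ℕ} (hκ1 : κ < 1 / 2) (hT : 10 ≤ T) (hk : 1 ≤ k) :
    0 < ell κ T k := by
  have h1 : 0 < Real.log T := Real.log_pos (by linarith)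
  have h2 : (0 : ℝ) < k := by exact_mod_cast hk
  unfold ell
  have : 0 < 1 - κ := by linarith
  positivity

theorem ell_le {κ T : ℝ} {k : ℕ} (hκ : 0 < κ) (hT : 10 ≤ T) (hk : 1 ≤ k) :
    ell κ T k ≤ Real.log T / k := by
  have h1 : 0 < Real.log T := Real.log_pos (by linarith)
  have h2 : (0 : ℝ) < k := by exact_mod_cast hk
  unfold ell
  rw [div_le_div_iff₀ (by positivity) h2]
  nlinarith [mul_pos h1 h2]

theorem ell_le_log {κ T : ℝ} {k : ℕ} (hκ : 0 < κ) (hT : 10 ≤ T) (hk : 1 ≤ k) :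
    ell κ T k ≤ Real.log T := by
  have h1 : 0 < Real.log T := Real.log_pos (by linarith)
  have h2 : (1 : ℝ) ≤ k := by exact_mod_cast hk
  refine (ell_le hκ hT hk).trans ?_
  rw [div_le_iff₀ (by linarith)]
  nlinarith

theorem ell_ge {κ T : ℝ} {k : ℕ} (hκ1 : κ < 1 / 2) (hT : 10 ≤ T) (hk : 1 ≤ k) :
    Real.log T / (4 * k) ≤ ell κ T k := by
  have h1 : 0 < Real.log T := Real.log_pos (by linarith)
  have h2 : (0 : ℝ) < k := by exact_mod_cast hk
  unfold ell
  rw [div_le_div_iff₀ (by positivity) (by positivity)]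
  nlinarith [mul_pos h1 h2]

theorem W1_cont (l : ℝ) : Continuous (W1 l) := by
  unfold W1
  refine Complex.continuous_ofReal.comp ?_
  fun_prop

theorem W1_norm {l : ℝ} (hl : 0 < l) (u : ℝ) : ‖W1 l u‖ ≤ 1 := by
  unfold W1
  rw [Complex.norm_real, Real.norm_eq_abs, abs_of_nonneg (by positivity)]
  have h1 : max 0 (1 - |u| / l) ≤ 1 := by
    refine max_le (by norm_num) ?_
    have : 0 ≤ |u| / l := by positivity
    linarith
  exact pow_le_one₀ (le_max_left _ _) h1

theorem max_zero {l u : ℝ} (hl : 0 < l) (hu : l ≤ u) : max 0 (1 - |u| / l) = 0 := by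
  refine max_eq_left ?_
  rw [abs_of_nonneg (hl.le.trans hu)]
  have : 1 ≤ u / l := by rwa [le_div_iff₀ hl, one_mul]
  linarith

theorem max_val {l u : ℝ} (hl : 0 < l) (h0 : 0 ≤ u) (hu : u ≤ l) :
    max 0 (1 - |u| / l) = 1 - u / l := by
  rw [abs_of_nonneg h0]
  refine max_eq_right ?_
  have : u / l ≤ 1 := by rwa [div_le_iff₀ hl, one_mul]
  linarith

theorem W1_zero {l u : ℝ} (hl : 0 < l) (hu : l ≤ u) : W1 l u = 0 := by
  unfold W1
  rw [max_zero hl hu]
  simp

theorem sinc_lower {y : ℝ} (hy : 0 < y) : y ^ 2 / (20 * (1 + y ^ 2)) ≤ 1 - Real.sin y / y := by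
  have hpi := Real.pi_pos
  rcases le_or_gt y 2 with h | h
  · have h1 : Real.sin y ≤ y * Real.cos (y / 2) := by
      have e : Real.sin y = 2 * Real.sin (y / 2) * Real.cos (y / 2) := by
        rw [← Real.sin_two_mul]; congr 1; ring
      have hc : 0 ≤ Real.cos (y / 2) :=
        Real.cos_nonneg_of_mem_Icc ⟨by linarith, by linarith [Real.pi_gt_three]⟩
      have hs : Real.sin (y / 2) ≤ y / 2 := Real.sin_le (by positivity)
      rw [e]
      nlinarith [mul_le_mul_of_nonneg_right hs hc]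
    have h2 : Real.cos (y / 2) ≤ 1 - 2 / Real.pi ^ 2 * (y / 2) ^ 2 :=
      Real.cos_le_one_sub_mul_cos_sq (by rw [abs_of_pos (by positivity)]; linarith [Real.pi_gt_three])
    have h3 : Real.sin y / y ≤ 1 - 2 / Real.pi ^ 2 * (y / 2) ^ 2 := by
      rw [div_le_iff₀ hy]
      nlinarith [mul_le_mul_of_nonneg_left h2 hy.le]
    have h4 : (1 : ℝ) / 20 ≤ 2 / Real.pi ^ 2 / 4 := by
      rw [div_div, div_le_div_iff₀ (by norm_num) (by positivity)]
      nlinarith [Real.pi_lt_d2, Real.pi_pos]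
    have h5 : y ^ 2 / (20 * (1 + y ^ 2)) ≤ y ^ 2 / 20 := by
      refine div_le_div_of_nonneg_left (by positivity) (by norm_num) ?_
      nlinarith [sq_nonneg y]
    have h6 : y ^ 2 / 20 ≤ 2 / Real.pi ^ 2 * (y / 2) ^ 2 := by
      calc y ^ 2 / 20 = 1 / 20 * y ^ 2 := by ring
        _ ≤ 2 / Real.pi ^ 2 / 4 * y ^ 2 := mul_le_mul_of_nonneg_right h4 (sq_nonneg y)
        _ = 2 / Real.pi ^ 2 * (y / 2) ^ 2 := by ring
    linarith
  · have h1 : Real.sin y / y ≤ 1 / 2 := by
      rw [div_le_iff₀ hy]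
      have := Real.sin_le_one y
      linarith
    have h2 : y ^ 2 / (20 * (1 + y ^ 2)) ≤ 1 / 20 := by
      rw [div_le_div_iff₀ (by positivity) (by norm_num)]
      nlinarith [sq_nonneg y]
    linarith

theorem sinc_lower' {y : ℝ} (hy : y ≠ 0) : y ^ 2 / (20 * (1 + y ^ 2)) ≤ 1 - Real.sin y / y := by
  rcases lt_or_gt_of_ne hy with h | h
  · have := sinc_lower (neg_pos.2 h)
    rw [Real.sin_neg, neg_div_neg_eq, neg_sq] at this
    exact this
  · exact sinc_lower h

/-- the basic real integral -/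
theorem int_cos {l x : ℝ} (hl : 0 < l) :
    l / 10 / (1 + (l * x) ^ 2) ≤ ∫ u in (0 : ℝ)..l, (1 - u / l) ^ 2 * Real.cos (u * x) := by
  rcases eq_or_ne x 0 with h | h
  · subst h
    have h1 : ∫ u in (0 : ℝ)..l, (1 - u / l) ^ 2 * Real.cos (u * 0) = l / 3 := by
      simp only [mul_zero, Real.cos_zero, mul_one]
      have hd : ∀ u ∈ uIcc 0 l, HasDerivAt (fun u => -(l / 3) * (1 - u / l) ^ 3) ((1 - u / l) ^ 2) u := by
        intro u _
        have h1 : HasDerivAt (fun u => 1 - u / l) (-(1 / l)) u := by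
          simpa using ((hasDerivAt_id u).div_const l).const_sub 1
        have h2 := (h1.pow 3).const_mul (-(l / 3))
        refine h2.congr_deriv ?_
        have hl0 := hl.ne'
        norm_num
        field_simp
      rw [intervalIntegral.integral_eq_sub_of_hasDerivAt hd
        (by apply Continuous.intervalIntegrable; fun_prop)]
      field_simp
      ring
    rw [h1]
    simp
    linarith
  · have hy : l * x ≠ 0 := mul_ne_zero hl.ne' h
    have h1 : ∫ u in (0 : ℝ)..l, (1 - u / l) ^ 2 * Real.cos (u * x) =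
        2 / (l * x ^ 2) * (1 - Real.sin (l * x) / (l * x)) := by
      have hd : ∀ u ∈ uIcc 0 l, HasDerivAt (fun u => (1 - u / l) ^ 2 * Real.sin (u * x) / x -
          2 / (l * x ^ 2) * ((1 - u / l) * Real.cos (u * x)) -
          2 / (l ^ 2 * x ^ 3) * Real.sin (u * x)) ((1 - u / l) ^ 2 * Real.cos (u * x)) u := by
        intro u _
        have h1 : HasDerivAt (fun u => 1 - u / l) (-(1 / l)) u := by
          simpa using ((hasDerivAt_id u).div_const l).const_sub 1
        have h2 : HasDerivAt (fun u => u * x) x u := by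
          simpa using (hasDerivAt_id u).mul_const x
        have h3 : HasDerivAt (fun u => Real.sin (u * x)) (Real.cos (u * x) * x) u := h2.sin
        have h4 : HasDerivAt (fun u => Real.cos (u * x)) (-Real.sin (u * x) * x) u := h2.cos
        have h5 := (((h1.pow 2).mul h3).div_const x).sub ((h1.mul h4).const_mul (2 / (l * x ^ 2)))
        have h6 := h5.sub (h3.const_mul (2 / (l ^ 2 * x ^ 3)))
        refine h6.congr_deriv ?_
        have hl0 := hl.ne'
        norm_num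
        field_simp
        ring
      rw [intervalIntegral.integral_eq_sub_of_hasDerivAt hd
        (by apply Continuous.intervalIntegrable; fun_prop)]
      simp only [zero_mul, Real.sin_zero, Real.cos_zero, zero_div, sub_zero, mul_one, mul_zero]
      rw [div_self hl.ne']
      field_simp
      ring
    rw [h1]
    have h2 := sinc_lower' hy
    have h3 : 0 < l * x ^ 2 := by positivity
    calc l / 10 / (1 + (l * x) ^ 2) = 2 / (l * x ^ 2) * ((l * x) ^ 2 / (20 * (1 + (l * x) ^ 2))) := by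
          field_simp
          ring
      _ ≤ _ := mul_le_mul_of_nonneg_left h2 (by positivity)

theorem re_int {l L x : ℝ} (hl : 0 < l) (hL : l ≤ L) :
    (∫ u in (0 : ℝ)..L, W1 l u * cexp (I * ((u * x : ℝ) : ℂ))).re =
      ∫ u in (0 : ℝ)..l, (1 - u / l) ^ 2 * Real.cos (u * x) := by
  have hint : ∀ a b : ℝ, IntervalIntegrable (fun u => W1 l u * cexp (I * ((u * x : ℝ) : ℂ)))
      volume a b := by
    intro a b
    apply Continuous.intervalIntegrable
    refine (W1_cont l).mul ?_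
    fun_prop
  have h1 := Complex.reCLM.intervalIntegral_comp_comm (hint 0 L)
  have h2 : ∀ u, Complex.reCLM (W1 l u * cexp (I * ((u * x : ℝ) : ℂ))) =
      max 0 (1 - |u| / l) ^ 2 * Real.cos (u * x) := by
    intro u
    simp only [Complex.reCLM_apply, W1]
    rw [Complex.re_ofReal_mul, mul_comm I, Complex.exp_ofReal_mul_I_re]
  rw [Complex.reCLM_apply] at h1
  rw [← h1, intervalIntegral.integral_congr (fun u _ => h2 u)]
  have hint2 : ∀ a b : ℝ, IntervalIntegrable (fun u => max 0 (1 - |u| / l) ^ 2 * Real.cos (u * x))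
      volume a b := by
    intro a b
    apply Continuous.intervalIntegrable
    fun_prop
  rw [← intervalIntegral.integral_add_adjacent_intervals (hint2 0 l) (hint2 l L)]
  have h3 : ∫ u in l..L, max 0 (1 - |u| / l) ^ 2 * Real.cos (u * x) = 0 := by
    apply intervalIntegral.integral_zero_ae
    refine Filter.Eventually.of_forall fun u hu => ?_
    rw [uIoc_of_le hL] at hu
    rw [max_zero hl hu.1.le]
    simp
  rw [h3, add_zero]
  refine intervalIntegral.integral_congr fun u hu => ?_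
  rw [uIcc_of_le hl.le] at hu
  rw [max_val hl hu.1 hu.2]

/-- combination of the explicit formula and the prime part -/
theorem zs_bound (hRH : RHs) : ∃ C T0 : ℝ, 0 < C ∧ 10 ≤ T0 ∧ ∀ T : ℝ, T0 ≤ T → ∀ t : ℝ,
    T + Real.log T ≤ t → t ≤ 2 * T - Real.log T → ∀ l : ℝ, 0 < l → l ≤ Real.log T →
    ∀ W : ℝ → ℂ, Continuous W → (∀ u ∈ Set.Icc 0 (Real.log T), ‖W u‖ ≤ 1) →
    (∀ u : ℝ, l ≤ u → W u = 0) →
    ‖zs T t W‖ ≤ Real.log T * (‖QW T t l W‖ + C) := by
  obtain ⟨C1, T1, hC1, hT1, h1⟩ := EFW hRH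
  obtain ⟨C2, hC2, h2⟩ := prime_part
  refine ⟨C1 + C2, T1, by positivity, hT1, ?_⟩
  intro T hT t ht1 ht2 l hl hlL W hW hW1 hW0
  have e1 := h1 T hT t ht1 ht2 W 1 hW hW1
  have e2 := h2 T (hT1.trans hT) t l hl hlL W hW hW1 hW0
  have hL : 0 < Real.log T := Real.log_pos (by linarith)
  calc ‖zs T t W‖ = ‖(zs T t W + ps T t W) - (ps T t W - (Real.log T : ℂ) * QW T t l W) -
        (Real.log T : ℂ) * QW T t l W‖ := by congr 1; ring
    _ ≤ ‖zs T t W + ps T t W‖ + ‖ps T t W - (Real.log T : ℂ) * QW T t l W‖ +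
        ‖(Real.log T : ℂ) * QW T t l W‖ := (norm_sub_le _ _).trans (by gcongr; exact norm_sub_le _ _)
    _ ≤ C1 * 1 * Real.log T + C2 * Real.log T + Real.log T * ‖QW T t l W‖ := by
        gcongr
        rw [norm_mul, Complex.norm_real, Real.norm_eq_abs, abs_of_pos hL]
    _ = _ := by ring

theorem zs_eq {T : ℝ} (hT : 1 ≤ T) (t : ℝ) (W : ℝ → ℂ) : zs T t W =
    ∑ s ∈ (ZZ_finite hT).toFinset, (mu s : ℂ) * (Real.exp (-(s.im - t) ^ 2 / 2) : ℂ) *
    ∫ u in (0 : ℝ)..Real.log T, W u * cexp (I * ((u * (s.im - t) : ℝ) : ℂ)) :=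
  finsum_mem_eq_finite_toFinset_sum _ (ZZ_finite hT)

theorem Mk_eq {T : ℝ} (hT : 1 ≤ T) (k t : ℝ) : Mk T k t =
    ∑ s ∈ (ZZ_finite hT).toFinset, (mu s : ℝ) * Real.exp (-(s.im - t) ^ 2 / 2) /
      (1 + (Real.log T * (s.im - t) / k) ^ 2) :=
  finsum_mem_eq_finite_toFinset_sum _ (ZZ_finite hT)

theorem Ya_eq {T : ℝ} (hT : 1 ≤ T) (a t : ℝ) : Ya T a t =
    ∑ s ∈ (ZZ_finite hT).toFinset, (mu s : ℂ) * (Real.exp (-(s.im - t) ^ 2 / 2) : ℂ) /
      ((a : ℂ) - I * (Real.log T * (s.im - t) : ℝ)) :=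
  finsum_mem_eq_finite_toFinset_sum _ (ZZ_finite hT)

theorem Mk_nonneg {T : ℝ} (hT : 1 ≤ T) (k t : ℝ) : 0 ≤ Mk T k t := by
  rw [Mk_eq hT]
  exact Finset.sum_nonneg fun s _ => by positivity

end MkB

/-! ### P4 : pointwise bound for `Mk` -/

theorem Mk_bound (hRH : RHs) (κ : ℝ) (hκ : 0 < κ) (hκ1 : κ < 1 / 2) :
    ∃ C T0 : ℝ, 0 < C ∧ 10 ≤ T0 ∧ ∀ T : ℝ, T0 ≤ T → ∀ t : ℝ,
    T + Real.log T ≤ t → t ≤ 2 * T - Real.log T → ∀ k : ℕ, 1 ≤ k →
    Mk T k t ≤ C * k * (1 + ‖Q1 κ T k t‖) := by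
  obtain ⟨C, T0, hC, hT0, h⟩ := MkB.zs_bound hRH
  refine ⟨40 * (1 + C), T0, by positivity, hT0, ?_⟩
  intro T hT t ht1 ht2 k hk
  have hT10 : 10 ≤ T := hT0.trans hT
  have hL : 0 < Real.log T := Real.log_pos (by linarith)
  have hk0 : (0 : ℝ) < k := by exact_mod_cast hk
  have hl := MkB.ell_pos hκ1 hT10 hk
  have hl1 := MkB.ell_le hκ hT10 hk
  have hl2 := MkB.ell_le_log hκ hT10 hk
  have hl3 := MkB.ell_ge hκ1 hT10 hk
  set l := ell κ T k with hld
  have e1 := h T hT t ht1 ht2 l hl hl2 (W1 l) (MkB.W1_cont l) (fun u _ => MkB.W1_norm hl u)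
    (fun u hu => MkB.W1_zero hl hu)
  have e2 : l / 10 * Mk T k t ≤ (zs T t (W1 l)).re := by
    rw [MkB.zs_eq (by linarith), MkB.Mk_eq (by linarith), Complex.re_sum, Finset.mul_sum]
    refine Finset.sum_le_sum fun s _ => ?_
    have e3 : (mu s : ℂ) * (Real.exp (-(s.im - t) ^ 2 / 2) : ℂ) =
        (((mu s : ℝ) * Real.exp (-(s.im - t) ^ 2 / 2) : ℝ) : ℂ) := by push_cast; rfl
    rw [e3, Complex.re_ofReal_mul, MkB.re_int hl hl2]
    have e4 := MkB.int_cos (x := s.im - t) hl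
    have e5 : (l * (s.im - t)) ^ 2 ≤ (Real.log T * (s.im - t) / k) ^ 2 := by
      rw [show Real.log T * (s.im - t) / k = Real.log T / k * (s.im - t) by ring, mul_pow, mul_pow]
      exact mul_le_mul_of_nonneg_right (pow_le_pow_left₀ hl.le hl1 2) (sq_nonneg _)
    have e6 : l / 10 / (1 + (Real.log T * (s.im - t) / k) ^ 2) ≤ l / 10 / (1 + (l * (s.im - t)) ^ 2) :=
      div_le_div_of_nonneg_left (by positivity) (by positivity) (by linarith)
    calc l / 10 * ((mu s : ℝ) * Real.exp (-(s.im - t) ^ 2 / 2) /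
          (1 + (Real.log T * (s.im - t) / k) ^ 2))
        = (mu s : ℝ) * Real.exp (-(s.im - t) ^ 2 / 2) *
          (l / 10 / (1 + (Real.log T * (s.im - t) / k) ^ 2)) := by ring
      _ ≤ _ := mul_le_mul_of_nonneg_left (e6.trans e4) (by positivity)
  have e3 : l / 10 * Mk T k t ≤ Real.log T * (‖Q1 κ T k t‖ + C) :=
    e2.trans ((Complex.re_le_norm _).trans e1)
  have e4 : Real.log T / (40 * k) * Mk T k t ≤ Real.log T * (‖Q1 κ T k t‖ + C) := by
    refine le_trans (mul_le_mul_of_nonneg_right ?_ (MkB.Mk_nonneg (by linarith) _ _)) e3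
    have : Real.log T / (40 * k) = Real.log T / (4 * k) / 10 := by
      field_simp; norm_num
    rw [this]
    linarith
  have e5 : Mk T k t ≤ 40 * k * (‖Q1 κ T k t‖ + C) := by
    have h5 : Real.log T / (40 * k) * Mk T k t = Real.log T * (Mk T k t / (40 * k)) := by ring
    rw [h5] at e4
    have h6 := le_of_mul_le_mul_left e4 hL
    rw [div_le_iff₀ (by positivity)] at h6
    linarith
  refine e5.trans ?_
  have hQ := norm_nonneg (Q1 κ T k t)
  have : 40 * (k:ℝ) * (‖Q1 κ T k t‖ + C) ≤ 40 * k * ((1 + C) * (1 + ‖Q1 κ T k t‖)) := by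
    gcongr
    nlinarith
  calc _ ≤ _ := this
    _ = _ := by ring

end SP
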