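import Pool.Agent.H382P.Defs
import Pool.Agent.H382P.MkB

open Complex Filter Topology Set MeasureTheory

namespace SP

open SG (phi hh nn dd dl)

namespace YaB

theorem W2_cont (a T l : ℝ) : Continuous (W2 a T l) := by
  unfold W2
  refine Complex.continuous_ofReal.comp ?_
  fun_prop

theorem W2_norm {a T l : ℝ} (ha : 0 < a) (hT : 0 < Real.log T) (hl : 0 < l) (u : ℝ) :
    ‖W2 a T l u‖ ≤ 1 := by
  unfold W2
  rw [Complex.norm_real, Real.norm_eq_abs, abs_of_nonneg (by positivity)]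
  have h1 : max 0 (1 - |u| / l) ≤ 1 := by
    refine max_le (by norm_num) ?_
    have : 0 ≤ |u| / l := by positivity
    linarith
  have h2 : Real.exp (-a * |u| / Real.log T) ≤ 1 := by
    rw [Real.exp_le_one_iff]
    have : 0 ≤ a * |u| / Real.log T := by positivity
    have e : -a * |u| / Real.log T = -(a * |u| / Real.log T) := by ring
    linarith
  exact mul_le_one₀ h2 (by positivity) (pow_le_one₀ (le_max_left _ _) h1)

theorem W2_zero {a T l u : ℝ} (hl : 0 < l) (hu : l ≤ u) : W2 a T l u = 0 := by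
  unfold W2
  rw [MkB.max_zero hl hu]
  simp

/-- the exponential kernel -/
theorem int_exp {l : ℝ} (hl : 0 < l) {z : ℂ} (hz : z ≠ 0) :
    ∫ u in (0 : ℝ)..l, (1 - (u : ℂ) / l) ^ 2 * cexp (-z * u) =
      1 / z - 2 / (l ^ 2 * z ^ 3) * (z * l - 1 + cexp (-(z * l))) := by
  have hl0 : (l : ℂ) ≠ 0 := by exact_mod_cast hl.ne'
  have hd : ∀ u ∈ uIcc 0 l, HasDerivAt (fun u : ℝ => -((1 - (u : ℂ) / l) ^ 2 * cexp (-z * u) / z) +
      2 / (l * z ^ 2) * ((1 - (u : ℂ) / l) * cexp (-z * u)) -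
      2 / (l ^ 2 * z ^ 3) * cexp (-z * u)) ((1 - (u : ℂ) / l) ^ 2 * cexp (-z * u)) u := by
    intro u _
    have h0 : HasDerivAt (fun u : ℝ => (u : ℂ)) 1 u := Complex.ofRealCLM.hasDerivAt
    have h1 : HasDerivAt (fun u : ℝ => 1 - (u : ℂ) / l) (-(1 / l)) u := by
      simpa using (h0.div_const (l : ℂ)).const_sub 1
    have h2 : HasDerivAt (fun u : ℝ => -z * (u : ℂ)) (-z) u := by
      simpa using h0.const_mul (-z)
    have h3 : HasDerivAt (fun u : ℝ => cexp (-z * u)) (cexp (-z * u) * -z) u := h2.cexp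
    have h4 := ((((h1.pow 2).mul h3).div_const z).neg.add
      ((h1.mul h3).const_mul (2 / (l * z ^ 2)))).sub (h3.const_mul (2 / (l ^ 2 * z ^ 3)))
    refine h4.congr_deriv ?_
    norm_num
    field_simp
    ring
  rw [intervalIntegral.integral_eq_sub_of_hasDerivAt hd
    (by apply Continuous.intervalIntegrable; fun_prop)]
  simp only [Complex.ofReal_zero, zero_div, sub_zero, mul_zero, Complex.exp_zero, mul_one, one_pow]
  rw [div_self hl0]
  simp only [sub_self, zero_mul, ne_eq, OfNat.ofNat_ne_zero, not_false_eq_true, zero_pow, zero_div,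
    neg_zero, mul_zero, add_zero, zero_sub, neg_mul]
  field_simp
  ring

theorem exp_bd {w : ℂ} (hw : 0 ≤ w.re) :
    ‖w - 1 + cexp (-w)‖ ≤ 3 * ‖w‖ ∧ ‖w - 1 + cexp (-w)‖ ≤ 3 * ‖w‖ ^ 2 := by
  have h0 := norm_nonneg w
  rcases le_or_gt ‖w‖ 1 with h | h
  · have h1 := Complex.norm_exp_sub_one_sub_id_le (x := -w) (by rwa [norm_neg])
    rw [norm_neg] at h1
    have e : cexp (-w) - 1 - -w = w - 1 + cexp (-w) := by ring
    rw [e] at h1
    constructor
    · nlinarith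
    · nlinarith
  · have h1 : ‖cexp (-w)‖ ≤ 1 := by
      rw [Complex.norm_exp, Complex.neg_re]
      exact Real.exp_le_one_iff.2 (by linarith)
    have h2 : ‖w - 1 + cexp (-w)‖ ≤ ‖w‖ + 1 + 1 := by
      calc ‖w - 1 + cexp (-w)‖ ≤ ‖w - 1‖ + ‖cexp (-w)‖ := norm_add_le _ _
        _ ≤ (‖w‖ + ‖(1:ℂ)‖) + 1 := add_le_add (norm_sub_le _ _) h1
        _ = ‖w‖ + 1 + 1 := by rw [norm_one]
    constructor
    · linarith
    · nlinarith

theorem int_W2 {a T l L x : ℝ} (hl : 0 < l) (hL : l ≤ L) :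
    ∫ u in (0 : ℝ)..L, W2 a T l u * cexp (I * ((u * x : ℝ) : ℂ)) =
      ∫ u in (0 : ℝ)..l, (1 - (u : ℂ) / l) ^ 2 *
        cexp (-((a / Real.log T : ℝ) - I * x) * u) := by
  have hint2 : ∀ c d : ℝ, IntervalIntegrable (fun u => W2 a T l u * cexp (I * ((u * x : ℝ) : ℂ)))
      volume c d := by
    intro c d
    apply Continuous.intervalIntegrable
    refine (W2_cont a T l).mul ?_
    fun_prop
  rw [← intervalIntegral.integral_add_adjacent_intervals (hint2 0 l) (hint2 l L)]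
  have h3 : ∫ u in l..L, W2 a T l u * cexp (I * ((u * x : ℝ) : ℂ)) = 0 := by
    apply intervalIntegral.integral_zero_ae
    refine Filter.Eventually.of_forall fun u hu => ?_
    rw [uIoc_of_le hL] at hu
    rw [W2_zero hl hu.1.le, zero_mul]
  rw [h3, add_zero]
  refine intervalIntegral.integral_congr fun u hu => ?_
  rw [uIcc_of_le hl.le] at hu
  simp only [W2]
  rw [MkB.max_val hl hu.1 hu.2, abs_of_nonneg hu.1]
  push_cast
  rw [mul_comm (cexp _) _, mul_assoc, ← Complex.exp_add]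
  congr 2
  ring

/-- comparison of the truncated kernel with the full one -/
theorem kernel {a L l x : ℝ} {k : ℕ} (ha : 0 < a) (hL : 0 < L) (hk : 1 ≤ k) (hl : 0 < l)
    (hlk : L / (4 * k) ≤ l) :
    ‖(∫ u in (0 : ℝ)..l, (1 - (u : ℂ) / l) ^ 2 * cexp (-((a / L : ℝ) - I * x) * u)) / L -
      1 / ((a : ℂ) - I * (L * x : ℝ))‖ ≤ (12 / a + 48) / (1 + (L * x / k) ^ 2) := by
  have hk0 : (0 : ℝ) < k := by exact_mod_cast hk
  have hk1 : (1 : ℝ) ≤ k := by exact_mod_cast hk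
  set z : ℂ := ((a / L : ℝ) : ℂ) - I * x with hz
  have hzre : z.re = a / L := by simp [hz]
  have hz0 : z ≠ 0 := by
    intro h
    rw [h, Complex.zero_re] at hzre
    have : 0 < a / L := by positivity
    linarith
  have hLc : (L : ℂ) ≠ 0 := by exact_mod_cast hL.ne'
  have hX : (a : ℂ) - I * (L * x : ℝ) = L * z := by
    rw [hz]
    push_cast
    field_simp
  set X := ‖(a : ℂ) - I * (L * x : ℝ)‖ with hXd
  have hXz : X = L * ‖z‖ := by
    rw [hXd, hX, norm_mul, Complex.norm_real, Real.norm_eq_abs, abs_of_pos hL]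
  have hXa : a ≤ X := by
    have := Complex.abs_re_le_norm ((a : ℂ) - I * (L * x : ℝ))
    have e : ((a : ℂ) - I * (L * x : ℝ)).re = a := by simp
    rw [e, abs_of_pos ha] at this
    exact this
  have hXx : |L * x| ≤ X := by
    have := Complex.abs_im_le_norm ((a : ℂ) - I * (L * x : ℝ))
    have e : ((a : ℂ) - I * (L * x : ℝ)).im = -(L * x) := by simp
    rw [e, abs_neg] at this
    exact this
  have hX0 : 0 < X := lt_of_lt_of_le ha hXa
  have hzn : 0 < ‖z‖ := norm_pos_iff.2 hz0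
  rw [int_exp hl hz0]
  have e1 : (1 / z - 2 / ((l : ℂ) ^ 2 * z ^ 3) * (z * l - 1 + cexp (-(z * l)))) / L -
      1 / ((a : ℂ) - I * (L * x : ℝ)) = -(2 / ((l : ℂ) ^ 2 * z ^ 3 * L) * (z * l - 1 + cexp (-(z * l)))) := by
    rw [hX]
    have hl0 : (l : ℂ) ≠ 0 := by exact_mod_cast hl.ne'
    field_simp
    ring
  rw [e1, norm_neg, norm_mul]
  have hwre : 0 ≤ (z * l).re := by
    rw [Complex.re_mul_ofReal, hzre]; positivity
  obtain ⟨b1, b2⟩ := exp_bd hwre
  have hwn : ‖z * l‖ = ‖z‖ * l := by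
    rw [norm_mul, Complex.norm_real, Real.norm_eq_abs, abs_of_pos hl]
  rw [hwn] at b1 b2
  have e2 : ‖2 / ((l : ℂ) ^ 2 * z ^ 3 * L)‖ = 2 / (l ^ 2 * ‖z‖ ^ 3 * L) := by
    rw [norm_div, norm_mul, norm_mul, norm_pow, norm_pow, Complex.norm_real, Complex.norm_real,
      Real.norm_eq_abs, Real.norm_eq_abs, abs_of_pos hl, abs_of_pos hL]
    norm_num
  rw [e2]
  -- two bounds
  have c1 : 2 / (l ^ 2 * ‖z‖ ^ 3 * L) * ‖z * l - 1 + cexp (-(z * l))‖ ≤ 6 / X := by
    calc 2 / (l ^ 2 * ‖z‖ ^ 3 * L) * ‖z * l - 1 + cexp (-(z * l))‖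
        ≤ 2 / (l ^ 2 * ‖z‖ ^ 3 * L) * (3 * (‖z‖ * l) ^ 2) :=
          mul_le_mul_of_nonneg_left b2 (by positivity)
      _ = 6 / X := by rw [hXz]; field_simp; norm_num
  have c2 : 2 / (l ^ 2 * ‖z‖ ^ 3 * L) * ‖z * l - 1 + cexp (-(z * l))‖ ≤ 24 * k / X ^ 2 := by
    calc 2 / (l ^ 2 * ‖z‖ ^ 3 * L) * ‖z * l - 1 + cexp (-(z * l))‖
        ≤ 2 / (l ^ 2 * ‖z‖ ^ 3 * L) * (3 * (‖z‖ * l)) :=
          mul_le_mul_of_nonneg_left b1 (by positivity)
      _ = 6 * L / (l * X ^ 2) := by rw [hXz]; field_simp; norm_num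
      _ ≤ 24 * k / X ^ 2 := by
          rw [div_le_div_iff₀ (by positivity) (by positivity)]
          have h1 : L ≤ 4 * k * l := by
            rw [div_le_iff₀ (by positivity)] at hlk
            linarith
          nlinarith [mul_le_mul_of_nonneg_right h1 (sq_nonneg X)]
  rcases le_or_gt |L * x| k with h | h
  · refine c1.trans ?_
    have h1 : (L * x / k) ^ 2 ≤ 1 := by
      rw [div_pow, div_le_one (by positivity), ← sq_abs]
      exact pow_le_pow_left₀ (abs_nonneg _) h 2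
    have h2 : 6 / X ≤ 6 / a := div_le_div_of_nonneg_left (by norm_num) ha hXa
    refine h2.trans ?_
    rw [le_div_iff₀ (by positivity)]
    have h3 : 6 / a * (1 + (L * x / k) ^ 2) ≤ 6 / a * 2 :=
      mul_le_mul_of_nonneg_left (by linarith) (by positivity)
    have h4 : 6 / a * 2 = 12 / a := by ring
    linarith
  · refine c2.trans ?_
    have hx2 : (k : ℝ) ^ 2 ≤ (L * x) ^ 2 := by
      rw [← sq_abs (L * x)]
      exact pow_le_pow_left₀ hk0.le h.le 2
    have hX2 : (L * x) ^ 2 ≤ X ^ 2 := by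
      rw [← sq_abs (L * x)]
      exact pow_le_pow_left₀ (abs_nonneg _) hXx 2
    have hp : 0 < (L * x) ^ 2 := lt_of_lt_of_le (by positivity) hx2
    have h1 : 24 * k / X ^ 2 ≤ 24 * k / (L * x) ^ 2 :=
      div_le_div_of_nonneg_left (by positivity) hp hX2
    refine h1.trans ?_
    have h2 : 1 + (L * x / k) ^ 2 ≤ 2 * ((L * x) ^ 2 / k ^ 2) := by
      rw [div_pow]
      have : 1 ≤ (L * x) ^ 2 / k ^ 2 := by rwa [le_div_iff₀ (by positivity), one_mul]
      linarith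
    have h3 : (12 / a + 48) / (2 * ((L * x) ^ 2 / k ^ 2)) ≤ (12 / a + 48) / (1 + (L * x / k) ^ 2) :=
      div_le_div_of_nonneg_left (by positivity) (by positivity) h2
    refine le_trans ?_ h3
    have h4 : (48:ℝ) / (2 * ((L * x) ^ 2 / k ^ 2)) ≤ (12 / a + 48) / (2 * ((L * x) ^ 2 / k ^ 2)) := by
      refine div_le_div_of_nonneg_right ?_ (by positivity)
      have : 0 < 12 / a := by positivity
      linarith
    refine le_trans ?_ h4
    have h5 : (48:ℝ) / (2 * ((L * x) ^ 2 / k ^ 2)) = 24 * k ^ 2 / (L * x) ^ 2 := by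
      field_simp; norm_num
    rw [h5]
    refine div_le_div_of_nonneg_right ?_ hp.le
    nlinarith

end YaB

/-! ### P4 : pointwise bound for `Ya` -/

theorem Ya_bound (hRH : RHs) (a κ : ℝ) (ha : 0 < a) (hκ : 0 < κ) (hκ1 : κ < 1 / 2) :
    ∃ C T0 : ℝ, 0 < C ∧ 10 ≤ T0 ∧ ∀ T : ℝ, T0 ≤ T → ∀ t : ℝ,
    T + Real.log T ≤ t → t ≤ 2 * T - Real.log T → ∀ k : ℕ, 1 ≤ k →
    ‖Ya T a t‖ ≤ C * k * (1 + ‖Q1 κ T k t‖ + ‖Q2 κ a T k t‖) := by
  obtain ⟨C1, T1, hC1, hT1, h1⟩ := MkB.zs_bound hRH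
  obtain ⟨C2, T2, hC2, hT2, h2⟩ := Mk_bound hRH κ hκ hκ1
  refine ⟨(12 / a + 48) * C2 + C1 + 1, max T1 T2, by positivity, hT1.trans (le_max_left _ _), ?_⟩
  intro T hT t ht1 ht2 k hk
  have hTa : T1 ≤ T := (le_max_left _ _).trans hT
  have hTb : T2 ≤ T := (le_max_right _ _).trans hT
  have hT10 : 10 ≤ T := hT1.trans hTa
  have hL : 0 < Real.log T := Real.log_pos (by linarith)
  have hLc : (Real.log T : ℂ) ≠ 0 := by exact_mod_cast hL.ne'
  have hk0 : (0 : ℝ) < k := by exact_mod_cast hk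
  have hk1 : (1 : ℝ) ≤ k := by exact_mod_cast hk
  have hl := MkB.ell_pos hκ1 hT10 hk
  have hl2 := MkB.ell_le_log hκ hT10 hk
  have hl3 := MkB.ell_ge hκ1 hT10 hk
  set l := ell κ T k with hld
  have e1 := h1 T hTa t ht1 ht2 l hl hl2 (W2 a T l) (YaB.W2_cont a T l)
    (fun u _ => YaB.W2_norm ha hL hl u) (fun u hu => YaB.W2_zero hl hu)
  have e2 := h2 T hTb t ht1 ht2 k hk
  have e3 : ‖zs T t (W2 a T l) / Real.log T - Ya T a t‖ ≤ (12 / a + 48) * Mk T k t := by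
    rw [MkB.zs_eq (by linarith), MkB.Mk_eq (by linarith), MkB.Ya_eq (by linarith), Finset.mul_sum,
      Finset.sum_div, ← Finset.sum_sub_distrib]
    refine (norm_sum_le _ _).trans (Finset.sum_le_sum fun s _ => ?_)
    rw [YaB.int_W2 hl hl2]
    have e4 := YaB.kernel (x := s.im - t) ha hL hk hl hl3
    set J := ∫ u in (0 : ℝ)..l, (1 - (u : ℂ) / l) ^ 2 *
        cexp (-((a / Real.log T : ℝ) - I * (s.im - t : ℝ)) * u) with hJ
    have e5 : (mu s : ℂ) * (Real.exp (-(s.im - t) ^ 2 / 2) : ℂ) * J / Real.log T -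
        (mu s : ℂ) * (Real.exp (-(s.im - t) ^ 2 / 2) : ℂ) /
          ((a : ℂ) - I * (Real.log T * (s.im - t) : ℝ)) =
        (((mu s : ℝ) * Real.exp (-(s.im - t) ^ 2 / 2) : ℝ) : ℂ) *
          (J / Real.log T - 1 / ((a : ℂ) - I * (Real.log T * (s.im - t) : ℝ))) := by
      push_cast
      ring
    rw [e5, norm_mul, Complex.norm_real, Real.norm_eq_abs, abs_of_nonneg (by positivity)]
    calc (mu s : ℝ) * Real.exp (-(s.im - t) ^ 2 / 2) *
          ‖J / Real.log T - 1 / ((a : ℂ) - I * (Real.log T * (s.im - t) : ℝ))‖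
        ≤ (mu s : ℝ) * Real.exp (-(s.im - t) ^ 2 / 2) *
          ((12 / a + 48) / (1 + (Real.log T * (s.im - t) / k) ^ 2)) :=
          mul_le_mul_of_nonneg_left e4 (by positivity)
      _ = _ := by ring
  have e6 : ‖zs T t (W2 a T l) / Real.log T‖ ≤ ‖Q2 κ a T k t‖ + C1 := by
    rw [norm_div, Complex.norm_real, Real.norm_eq_abs, abs_of_pos hL, div_le_iff₀ hL]
    calc ‖zs T t (W2 a T l)‖ ≤ Real.log T * (‖QW T t l (W2 a T l)‖ + C1) := e1
      _ = _ := by rw [mul_comm]; rfl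
  have e7 : ‖Ya T a t‖ ≤ ‖zs T t (W2 a T l) / Real.log T‖ +
      ‖zs T t (W2 a T l) / Real.log T - Ya T a t‖ := by
    have : Ya T a t = zs T t (W2 a T l) / Real.log T - (zs T t (W2 a T l) / Real.log T - Ya T a t) := by
      ring
    calc ‖Ya T a t‖ = ‖zs T t (W2 a T l) / Real.log T -
          (zs T t (W2 a T l) / Real.log T - Ya T a t)‖ := by rw [← this]
      _ ≤ _ := norm_sub_le _ _
  have hQ1 := norm_nonneg (Q1 κ T k t)
  have hQ2 := norm_nonneg (Q2 κ a T k t)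
  have e8 : (12 / a + 48) * Mk T k t ≤ (12 / a + 48) * (C2 * k * (1 + ‖Q1 κ T k t‖)) :=
    mul_le_mul_of_nonneg_left e2 (by positivity)
  calc ‖Ya T a t‖ ≤ (‖Q2 κ a T k t‖ + C1) + (12 / a + 48) * (C2 * k * (1 + ‖Q1 κ T k t‖)) := by
        linarith
    _ ≤ (C1 + 1) * (k * (1 + ‖Q1 κ T k t‖ + ‖Q2 κ a T k t‖)) +
        (12 / a + 48) * C2 * (k * (1 + ‖Q1 κ T k t‖ + ‖Q2 κ a T k t‖)) := by
        refine add_le_add ?_ ?_
        · have h5 : 1 + ‖Q2 κ a T k t‖ ≤ k * (1 + ‖Q1 κ T k t‖ + ‖Q2 κ a T k t‖) := by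
            nlinarith
          nlinarith
        · have h5 : (k:ℝ) * (1 + ‖Q1 κ T k t‖) ≤ k * (1 + ‖Q1 κ T k t‖ + ‖Q2 κ a T k t‖) :=
            mul_le_mul_of_nonneg_left (by linarith) hk0.le
          calc (12 / a + 48) * (C2 * k * (1 + ‖Q1 κ T k t‖))
              = (12 / a + 48) * C2 * (k * (1 + ‖Q1 κ T k t‖)) := by ring
            _ ≤ _ := mul_le_mul_of_nonneg_left h5 (by positivity)
    _ = _ := by ring

end SP
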