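import Pool.Agent.H382P.MkB
import Pool.Agent.H382P.YaB
import Pool.Agent.H382P.MomQ
import Pool.Agent.H370R2.Local
import Pool.Agent.H370R2.DirGood

open Complex Filter Topology Set MeasureTheory

namespace SP

open SG (phi hh nn dd dl)

namespace ExpAux

/-! ### elementary facts about the weight -/

lemma dd_pos {κ T : ℝ} (hT : 10 ≤ T) : 0 < dd κ T := by
  unfold dd
  exact Real.rpow_pos_of_pos (by linarith) _

lemma wt_nonneg (t0 D t : ℝ) : 0 ≤ wt t0 D t := (Real.exp_pos _).le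

lemma wt_cont (t0 D : ℝ) : Continuous (wt t0 D) := by
  unfold wt
  fun_prop

lemma wt_eq (t0 D : ℝ) : wt t0 D = fun t => Real.exp (-(1 / (2 * D ^ 2)) * (t - t0) ^ 2) := by
  funext t
  unfold wt
  congr 1
  ring

lemma wt_integrable {t0 D : ℝ} (hD : 0 < D) : Integrable (wt t0 D) := by
  rw [wt_eq]
  exact (integrable_exp_neg_mul_sq (b := 1 / (2 * D ^ 2)) (by positivity)).comp_sub_right t0

lemma wt_integral {t0 D : ℝ} (hD : 0 < D) : ∫ t, wt t0 D t = Real.sqrt (2 * Real.pi) * D := by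
  rw [wt_eq]
  have h1 := integral_sub_right_eq_self (fun t : ℝ => Real.exp (-(1 / (2 * D ^ 2)) * t ^ 2))
    (μ := volume) t0
  rw [h1, integral_gaussian]
  have : Real.pi / (1 / (2 * D ^ 2)) = (2 * Real.pi) * D ^ 2 := by field_simp
  rw [this, Real.sqrt_mul (by positivity), Real.sqrt_sq hD.le]

lemma wt_integral_le {t0 D : ℝ} (hD : 0 < D) : ∫ t, wt t0 D t ≤ 3 * D := by
  rw [wt_integral hD]
  have : Real.sqrt (2 * Real.pi) ≤ 3 := by
    rw [Real.sqrt_le_left (by norm_num)]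
    have := Real.pi_lt_d2
    linarith
  nlinarith

/-! ### short sums vanish for large `k` -/

lemma QW_zero {T t l : ℝ} {W : ℝ → ℂ} (h : 2 * l < Real.log 2) : QW T t l W = 0 := by
  unfold QW
  have : (Finset.Icc 1 ⌊Real.exp (2 * l)⌋₊).filter Nat.Prime = ∅ := by
    rw [Finset.filter_eq_empty_iff]
    intro p hp hpp
    rw [Finset.mem_Icc] at hp
    have h1 : (p : ℝ) ≤ Real.exp (2 * l) := (Nat.le_floor_iff (Real.exp_pos _).le).1 hp.2
    have h2 : (2 : ℝ) ≤ p := by exact_mod_cast hpp.two_le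
    have h3 : Real.exp (2 * l) < 2 := by
      have h4 := Real.exp_lt_exp.2 h
      rwa [Real.exp_log (show (0 : ℝ) < 2 by norm_num)] at h4
    linarith
  rw [this, Finset.sum_empty, mul_zero]

lemma ell_small {κ T : ℝ} (hκ : 0 < κ) (hT : 10 ≤ T) {k : ℕ} (hk : 2 * Real.log T < k) :
    2 * ell κ T k < Real.log 2 := by
  have hL : 0 < Real.log T := Real.log_pos (by linarith)
  have hk0 : (0 : ℝ) < k := by linarith
  unfold ell
  have h1 : 2 * ((1 - κ) * Real.log T / (2 * k)) = (1 - κ) * Real.log T / k := by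
    field_simp
  rw [h1, div_lt_iff₀ hk0]
  have h2 := Real.log_two_gt_d9
  nlinarith

lemma Q1_zero {κ T : ℝ} (hκ : 0 < κ) (hT : 10 ≤ T) {k : ℕ} (hk : 2 * Real.log T < k) (t : ℝ) :
    Q1 κ T k t = 0 := QW_zero (ell_small hκ hT hk)

lemma Q2_zero {κ a T : ℝ} (hκ : 0 < κ) (hT : 10 ≤ T) {k : ℕ} (hk : 2 * Real.log T < k) (t : ℝ) :
    Q2 κ a T k t = 0 := QW_zero (ell_small hκ hT hk)

/-! ### the series -/

lemma pow_div_le {A : ℝ} (hA : 0 ≤ A) {k : ℕ} :
    (A / k) ^ k ≤ A ^ k / k.factorial := by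
  rw [div_pow]
  have h1 : (k.factorial : ℝ) ≤ (k : ℝ) ^ k := by exact_mod_cast Nat.factorial_le_pow k
  exact div_le_div_of_nonneg_left (by positivity) (by positivity) h1

lemma pow_div_le_exp {A : ℝ} (hA : 0 ≤ A) {k : ℕ} :
    (A / k) ^ k ≤ Real.exp A :=
  (pow_div_le hA).trans (Real.pow_div_factorial_le_exp A hA k)

lemma sum_pow_div_le {A : ℝ} (hA : 0 ≤ A) (K : ℕ) :
    ∑ k ∈ Finset.Icc 1 K, (A / k) ^ k ≤ Real.exp A := by
  calc ∑ k ∈ Finset.Icc 1 K, (A / k) ^ k ≤ ∑ k ∈ Finset.Icc 1 K, A ^ k / k.factorial :=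
        Finset.sum_le_sum fun k _ => pow_div_le hA
    _ ≤ ∑ k ∈ Finset.range (K + 1), A ^ k / k.factorial := by
        refine Finset.sum_le_sum_of_subset_of_nonneg ?_ fun k _ _ => by positivity
        intro k hk
        rw [Finset.mem_Icc] at hk
        rw [Finset.mem_range]
        omega
    _ ≤ Real.exp A := Real.sum_le_exp_of_nonneg hA _

end ExpAux

open ExpAux

theorem exp_mom (κ a C1 q : ℝ) (hκ : 0 < κ) (hκ1 : κ < 1 / 2) (ha : 0 < a) (hC1 : 0 < C1)
    (hq : 0 < q) :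
    ∃ C T0 : ℝ, 0 < C ∧ 10 ≤ T0 ∧ ∀ T : ℝ, T0 ≤ T → ∀ (t0 V1 V2 : ℝ), V1 ≤ V2 → ∀ X : ℝ → ℝ,
    ContinuousOn X (Set.Icc V1 V2) →
    (∀ t ∈ Set.Icc V1 V2, ∀ k : ℕ, 1 ≤ k → C1 * k ≤ X t →
      1 ≤ ‖Q1 κ T k t‖ ∨ 1 ≤ ‖Q2 κ a T k t‖) →
    ∫ t in V1..V2, wt t0 (dd κ T) t * Real.exp (q * X t) ≤ C * dd κ T := by
  obtain ⟨C, T0, hC, hT0, hmom⟩ := mom_Q κ a hκ hκ1 ha
  set A : ℝ := Real.exp (q * C1) * C with hA
  have hA0 : 0 ≤ A := by positivity
  refine ⟨3 * Real.exp (q * C1) + 2 * Real.exp (q * C1) * Real.exp A, T0, by positivity, hT0, ?_⟩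
  intro T hT t0 V1 V2 hV X hX hcond
  have hT10 : 10 ≤ T := hT0.trans hT
  have hL : 0 < Real.log T := Real.log_pos (by linarith)
  have hD := dd_pos (κ := κ) hT10
  set D := dd κ T with hDdef
  set K : ℕ := ⌈2 * Real.log T⌉₊ with hK
  set R : ℝ → ℝ := fun t => Real.exp (q * C1) * wt t0 D t +
    ∑ k ∈ Finset.Icc 1 K, Real.exp (q * C1 * (k + 1)) *
      (wt t0 D t * ‖Q1 κ T k t‖ ^ (2 * k) + wt t0 D t * ‖Q2 κ a T k t‖ ^ (2 * k)) with hR
  have hRint : Integrable R := by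
    refine ((wt_integrable hD).const_mul _).add (integrable_finsetSum _ fun k hk => ?_)
    have h1 := hmom T hT t0 k (Finset.mem_Icc.1 hk).1
    exact (h1.1.1.add h1.2.1).const_mul _
  have hR0 : ∀ t, 0 ≤ R t := by
    intro t
    have := wt_nonneg t0 D t
    simp only [hR]
    positivity
  -- pointwise bound
  have hpt : ∀ t ∈ Set.Icc V1 V2, wt t0 D t * Real.exp (q * X t) ≤ R t := by
    intro t ht
    have hw := wt_nonneg t0 D t
    by_cases hXC : X t < C1
    · have h1 : Real.exp (q * X t) ≤ Real.exp (q * C1) :=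
        Real.exp_le_exp.2 (mul_le_mul_of_nonneg_left hXC.le hq.le)
      have h2 : 0 ≤ ∑ k ∈ Finset.Icc 1 K, Real.exp (q * C1 * (k + 1)) *
        (wt t0 D t * ‖Q1 κ T k t‖ ^ (2 * k) + wt t0 D t * ‖Q2 κ a T k t‖ ^ (2 * k)) := by
        positivity
      calc wt t0 D t * Real.exp (q * X t) ≤ wt t0 D t * Real.exp (q * C1) :=
            mul_le_mul_of_nonneg_left h1 hw
        _ = Real.exp (q * C1) * wt t0 D t := mul_comm _ _
        _ ≤ R t := by simp only [hR]; linarith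
    · push Not at hXC
      set k : ℕ := ⌊X t / C1⌋₊ with hk
      have hXpos : 1 ≤ X t / C1 := by rwa [le_div_iff₀ hC1, one_mul]
      have hk1 : 1 ≤ k := by
        rw [hk]
        exact Nat.le_floor (by exact_mod_cast hXpos)
      have hkX : C1 * k ≤ X t := by
        have := Nat.floor_le (show 0 ≤ X t / C1 by linarith)
        rw [← hk, le_div_iff₀ hC1] at this
        linarith
      have hXk : X t ≤ C1 * (k + 1) := by
        have := (Nat.lt_floor_add_one (X t / C1)).le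
        rw [← hk, div_le_iff₀ hC1] at this
        linarith
      have hor := hcond t ht k hk1 hkX
      have hkK : k ≤ K := by
        by_contra hcon
        push Not at hcon
        have h1 : 2 * Real.log T < k := by
          have h2 : (2 * Real.log T) ≤ K := Nat.le_ceil _
          have h3 : (K : ℝ) < k := by exact_mod_cast hcon
          linarith
        rw [Q1_zero hκ hT10 h1, Q2_zero hκ hT10 h1] at hor
        simp at hor
        linarith [hor]
      have hmem : k ∈ Finset.Icc 1 K := Finset.mem_Icc.2 ⟨hk1, hkK⟩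
      have h1 : Real.exp (q * X t) ≤ Real.exp (q * C1 * (k + 1)) := by
        apply Real.exp_le_exp.2
        have := mul_le_mul_of_nonneg_left hXk hq.le
        linarith
      have h2 : 1 ≤ ‖Q1 κ T k t‖ ^ (2 * k) + ‖Q2 κ a T k t‖ ^ (2 * k) := by
        have p1 : 0 ≤ ‖Q1 κ T k t‖ ^ (2 * k) := by positivity
        have p2 : 0 ≤ ‖Q2 κ a T k t‖ ^ (2 * k) := by positivity
        rcases hor with h | h
        · have := one_le_pow₀ h (n := 2 * k)
          linarith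
        · have := one_le_pow₀ h (n := 2 * k)
          linarith
      have h3 : Real.exp (q * C1 * (k + 1)) *
          (wt t0 D t * ‖Q1 κ T k t‖ ^ (2 * k) + wt t0 D t * ‖Q2 κ a T k t‖ ^ (2 * k)) ≤
          ∑ k ∈ Finset.Icc 1 K, Real.exp (q * C1 * (k + 1)) *
          (wt t0 D t * ‖Q1 κ T k t‖ ^ (2 * k) + wt t0 D t * ‖Q2 κ a T k t‖ ^ (2 * k)) :=
        Finset.single_le_sum (f := fun k : ℕ => Real.exp (q * C1 * (k + 1)) *
          (wt t0 D t * ‖Q1 κ T k t‖ ^ (2 * k) + wt t0 D t * ‖Q2 κ a T k t‖ ^ (2 * k)))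
          (fun j _ => by positivity) hmem
      have h4 : wt t0 D t * Real.exp (q * X t) ≤ Real.exp (q * C1 * (k + 1)) *
          (wt t0 D t * ‖Q1 κ T k t‖ ^ (2 * k) + wt t0 D t * ‖Q2 κ a T k t‖ ^ (2 * k)) := by
        calc wt t0 D t * Real.exp (q * X t) ≤ wt t0 D t * Real.exp (q * C1 * (k + 1)) :=
              mul_le_mul_of_nonneg_left h1 hw
          _ = (wt t0 D t * Real.exp (q * C1 * (k + 1))) * 1 := by ring
          _ ≤ (wt t0 D t * Real.exp (q * C1 * (k + 1))) *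
              (‖Q1 κ T k t‖ ^ (2 * k) + ‖Q2 κ a T k t‖ ^ (2 * k)) :=
              mul_le_mul_of_nonneg_left h2 (by positivity)
          _ = _ := by ring
      have h5 : 0 ≤ Real.exp (q * C1) * wt t0 D t := by positivity
      simp only [hR]
      linarith
  -- integrate
  have hcontL : ContinuousOn (fun t => wt t0 D t * Real.exp (q * X t)) (Set.Icc V1 V2) :=
    (wt_cont t0 D).continuousOn.mul (Real.continuous_exp.comp_continuousOn (continuousOn_const.mul hX))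
  have hintL : IntervalIntegrable (fun t => wt t0 D t * Real.exp (q * X t)) volume V1 V2 :=
    hcontL.intervalIntegrable_of_Icc hV
  have h1 : ∫ t in V1..V2, wt t0 D t * Real.exp (q * X t) ≤ ∫ t in V1..V2, R t :=
    intervalIntegral.integral_mono_on hV hintL hRint.intervalIntegrable hpt
  have h2 : ∫ t in V1..V2, R t ≤ ∫ t, R t := by
    rw [intervalIntegral.integral_of_le hV]
    exact setIntegral_le_integral hRint (Eventually.of_forall hR0)
  have h3 : ∫ t, R t = Real.exp (q * C1) * (∫ t, wt t0 D t) +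
      ∑ k ∈ Finset.Icc 1 K, Real.exp (q * C1 * (k + 1)) *
        ((∫ t, wt t0 D t * ‖Q1 κ T k t‖ ^ (2 * k)) + ∫ t, wt t0 D t * ‖Q2 κ a T k t‖ ^ (2 * k)) := by
    simp only [hR]
    rw [integral_add ((wt_integrable hD).const_mul _)
      (integrable_finsetSum _ fun k hk => ?_), integral_const_mul, integral_finsetSum]
    · congr 1
      refine Finset.sum_congr rfl fun k hk => ?_
      have h1 := hmom T hT t0 k (Finset.mem_Icc.1 hk).1
      rw [integral_const_mul, integral_add h1.1.1 h1.2.1]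
    · intro k hk
      have h1 := hmom T hT t0 k (Finset.mem_Icc.1 hk).1
      exact (h1.1.1.add h1.2.1).const_mul _
    · have h1 := hmom T hT t0 k (Finset.mem_Icc.1 hk).1
      exact (h1.1.1.add h1.2.1).const_mul _
  have h4 : ∑ k ∈ Finset.Icc 1 K, Real.exp (q * C1 * (k + 1)) *
        ((∫ t, wt t0 D t * ‖Q1 κ T k t‖ ^ (2 * k)) + ∫ t, wt t0 D t * ‖Q2 κ a T k t‖ ^ (2 * k)) ≤
      2 * Real.exp (q * C1) * D * ∑ k ∈ Finset.Icc 1 K, (A / k) ^ k := by
    rw [Finset.mul_sum]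
    refine Finset.sum_le_sum fun k hk => ?_
    have h5 := hmom T hT t0 k (Finset.mem_Icc.1 hk).1
    have h6 : (∫ t, wt t0 D t * ‖Q1 κ T k t‖ ^ (2 * k)) +
        ∫ t, wt t0 D t * ‖Q2 κ a T k t‖ ^ (2 * k) ≤ 2 * (D * (C / k) ^ k) := by
      linarith [h5.1.2, h5.2.2]
    calc _ ≤ Real.exp (q * C1 * (k + 1)) * (2 * (D * (C / k) ^ k)) :=
          mul_le_mul_of_nonneg_left h6 (Real.exp_pos _).le
      _ = _ := by
        have h7 : Real.exp (q * C1 * (k + 1)) = Real.exp (q * C1) * Real.exp (q * C1) ^ k := by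
          rw [← Real.exp_nat_mul, ← Real.exp_add]
          congr 1
          ring
        rw [h7, hA, mul_div_assoc, mul_pow]
        ring
  have h5 := sum_pow_div_le hA0 K
  have h6 := wt_integral_le (t0 := t0) hD
  calc _ ≤ ∫ t, R t := h1.trans h2
    _ ≤ Real.exp (q * C1) * (3 * D) + 2 * Real.exp (q * C1) * D * Real.exp A := by
        rw [h3]
        refine add_le_add (mul_le_mul_of_nonneg_left h6 (Real.exp_pos _).le) (h4.trans ?_)
        exact mul_le_mul_of_nonneg_left h5 (by positivity)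
    _ = _ := by ring

namespace ExpAux

open H370 H370.Loc

/-! ### continuity of the sums over zeros -/

lemma ZZ_finite {T : ℝ} (h : 1 ≤ T) : (ZZ T).Finite := zset_finite good_zeta T (2 * T) h

lemma Mk_eq {T : ℝ} (h : 1 ≤ T) (k t : ℝ) : Mk T k t = ∑ s ∈ (ZZ_finite h).toFinset,
    (mu s : ℝ) * Real.exp (-(s.im - t) ^ 2 / 2) / (1 + (Real.log T * (s.im - t) / k) ^ 2) :=
  finsum_mem_eq_finite_toFinset_sum _ (ZZ_finite h)

lemma Ya_eq {T : ℝ} (h : 1 ≤ T) (a t : ℝ) : Ya T a t = ∑ s ∈ (ZZ_finite h).toFinset,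
    (mu s : ℂ) * (Real.exp (-(s.im - t) ^ 2 / 2) : ℂ) /
    ((a : ℂ) - I * (Real.log T * (s.im - t) : ℝ)) :=
  finsum_mem_eq_finite_toFinset_sum _ (ZZ_finite h)

lemma Mk_cont {T : ℝ} (h : 1 ≤ T) (k : ℝ) : Continuous (Mk T k) := by
  have : Mk T k = fun t => ∑ s ∈ (ZZ_finite h).toFinset,
    (mu s : ℝ) * Real.exp (-(s.im - t) ^ 2 / 2) / (1 + (Real.log T * (s.im - t) / k) ^ 2) :=
    funext (Mk_eq h k)
  rw [this]
  refine continuous_finsetSum _ fun s _ => ?_
  refine Continuous.div (by fun_prop) (by fun_prop) fun t => ?_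
  positivity

lemma Ya_cont {T : ℝ} (h : 1 ≤ T) {a : ℝ} (ha : 0 < a) : Continuous (Ya T a) := by
  have : Ya T a = fun t => ∑ s ∈ (ZZ_finite h).toFinset,
    (mu s : ℂ) * (Real.exp (-(s.im - t) ^ 2 / 2) : ℂ) /
    ((a : ℂ) - I * (Real.log T * (s.im - t) : ℝ)) := funext (Ya_eq h a)
  rw [this]
  refine continuous_finsetSum _ fun s _ => ?_
  refine Continuous.div (by fun_prop) (by fun_prop) fun t h0 => ?_
  have := congrArg Complex.re h0
  simp at this
  linarith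

lemma Mk_nonneg {T : ℝ} (h : 1 ≤ T) (k t : ℝ) : 0 ≤ Mk T k t := by
  rw [Mk_eq h]
  refine Finset.sum_nonneg fun s _ => ?_
  positivity

lemma Mk_mono {T : ℝ} (h : 1 ≤ T) {k : ℕ} (hk : 1 ≤ k) (t : ℝ) : Mk T 1 t ≤ Mk T k t := by
  rw [Mk_eq h, Mk_eq h]
  refine Finset.sum_le_sum fun s _ => ?_
  refine div_le_div_of_nonneg_left (by positivity) (by positivity) ?_
  have hk' : (1 : ℝ) ≤ k := by exact_mod_cast hk
  have h1 : (Real.log T * (s.im - t) / k) ^ 2 ≤ (Real.log T * (s.im - t) / 1) ^ 2 := by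
    rw [div_pow, div_pow]
    refine div_le_div_of_nonneg_left (by positivity) (by positivity) ?_
    nlinarith
  linarith

end ExpAux

theorem exp_main (hRH : RHs) (κ a q : ℝ) (hκ : 0 < κ) (hκ1 : κ < 1 / 2) (ha : 0 < a) (hq : 0 < q) :
    ∃ C T0 : ℝ, 0 < C ∧ 10 ≤ T0 ∧ ∀ T : ℝ, T0 ≤ T → ∀ t0 V1 V2 : ℝ, V1 ≤ V2 →
    T + Real.log T ≤ V1 → V2 ≤ 2 * T - Real.log T →
    ∫ t in V1..V2, wt t0 (dd κ T) t * Real.exp (q * (‖Ya T a t‖ + Mk T 1 t)) ≤ C * dd κ T := by
  obtain ⟨CM, TM, hCM, hTM, hM⟩ := Mk_bound hRH κ hκ hκ1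
  obtain ⟨CY, TY, hCY, hTY, hY⟩ := Ya_bound hRH a κ ha hκ hκ1
  obtain ⟨C, TE, hC, hTE, hE⟩ := exp_mom κ a (3 * CY + 2 * CM) q hκ hκ1 ha (by positivity) hq
  refine ⟨C, max TE (max TM TY), hC, le_max_of_le_left hTE, ?_⟩
  intro T hT t0 V1 V2 hV hV1 hV2
  have hT1 : TE ≤ T := (le_max_left _ _).trans hT
  have hT2 : TM ≤ T := ((le_max_left _ _).trans (le_max_right _ _)).trans hT
  have hT3 : TY ≤ T := ((le_max_right _ _).trans (le_max_right _ _)).trans hT
  have h1 : 1 ≤ T := by linarith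
  refine hE T hT1 t0 V1 V2 hV (fun t => ‖Ya T a t‖ + Mk T 1 t)
    ((Ya_cont h1 ha).norm.add (Mk_cont h1 1)).continuousOn ?_
  intro t ht k hk hX
  by_contra hcon
  push Not at hcon
  obtain ⟨q1, q2⟩ := hcon
  have hk' : (1 : ℝ) ≤ k := by exact_mod_cast hk
  have b1 := hM T hT2 t (hV1.trans ht.1) (ht.2.trans hV2) k hk
  have b2 := hY T hT3 t (hV1.trans ht.1) (ht.2.trans hV2) k hk
  have b3 := Mk_mono h1 hk t
  have c1 : CM * k * (1 + ‖Q1 κ T k t‖) < CM * k * 2 :=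
    mul_lt_mul_of_pos_left (by linarith) (by positivity)
  have c2 : CY * k * (1 + ‖Q1 κ T k t‖ + ‖Q2 κ a T k t‖) < CY * k * 3 :=
    mul_lt_mul_of_pos_left (by linarith) (by positivity)
  nlinarith

theorem Mk_mean (hRH : RHs) (κ : ℝ) (hκ : 0 < κ) (hκ1 : κ < 1 / 2) :
    ∃ C : ℝ, 0 < C ∧ ∀ k : ℕ, 1 ≤ k → ∃ T0 : ℝ, 10 ≤ T0 ∧ ∀ T : ℝ, T0 ≤ T → ∀ t0 V1 V2 : ℝ, V1 ≤ V2 →
    T + Real.log T ≤ V1 → V2 ≤ 2 * T - Real.log T →
    ∫ t in V1..V2, wt t0 (dd κ T) t * Mk T k t ≤ C * k * dd κ T := by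
  obtain ⟨CM, TM, hCM, hTM, hM⟩ := Mk_bound hRH κ hκ hκ1
  obtain ⟨C, TQ, hC, hTQ, hmom⟩ := mom_Q κ 1 hκ hκ1 one_pos
  refine ⟨CM * (6 + Real.exp C), by positivity, fun k hk => ?_⟩
  refine ⟨max TM TQ, le_max_of_le_left hTM, ?_⟩
  intro T hT t0 V1 V2 hV hV1 hV2
  have hT1 : TM ≤ T := (le_max_left _ _).trans hT
  have hT2 : TQ ≤ T := (le_max_right _ _).trans hT
  have h1 : 1 ≤ T := by linarith
  have hD := dd_pos (κ := κ) (hTM.trans hT1)
  set D := dd κ T with hDdef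
  have hk' : (1 : ℝ) ≤ k := by exact_mod_cast hk
  set R : ℝ → ℝ := fun t => CM * k * (2 * wt t0 D t + wt t0 D t * ‖Q1 κ T k t‖ ^ (2 * k)) with hR
  have hm := (hmom T hT2 t0 k hk).1
  have hRint : Integrable R := (((wt_integrable hD).const_mul 2).add hm.1).const_mul _
  have hR0 : ∀ t, 0 ≤ R t := by
    intro t
    have := wt_nonneg t0 D t
    simp only [hR]
    positivity
  have hpt : ∀ t ∈ Set.Icc V1 V2, wt t0 D t * Mk T k t ≤ R t := by
    intro t ht
    have hw := wt_nonneg t0 D t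
    have b1 := hM T hT1 t (hV1.trans ht.1) (ht.2.trans hV2) k hk
    have b2 : 1 + ‖Q1 κ T k t‖ ≤ 2 + ‖Q1 κ T k t‖ ^ (2 * k) := by
      rcases le_total ‖Q1 κ T k t‖ 1 with h | h
      · have : 0 ≤ ‖Q1 κ T k t‖ ^ (2 * k) := by positivity
        linarith
      · have := le_self_pow₀ h (n := 2 * k) (by omega)
        linarith
    calc wt t0 D t * Mk T k t ≤ wt t0 D t * (CM * k * (1 + ‖Q1 κ T k t‖)) :=
          mul_le_mul_of_nonneg_left b1 hw
      _ ≤ wt t0 D t * (CM * k * (2 + ‖Q1 κ T k t‖ ^ (2 * k))) := by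
          refine mul_le_mul_of_nonneg_left (mul_le_mul_of_nonneg_left b2 (by positivity)) hw
      _ = R t := by simp only [hR]; ring
  have hintL : IntervalIntegrable (fun t => wt t0 D t * Mk T k t) volume V1 V2 :=
    ((wt_cont t0 D).mul (Mk_cont h1 k)).intervalIntegrable _ _
  have e1 : ∫ t in V1..V2, wt t0 D t * Mk T k t ≤ ∫ t in V1..V2, R t :=
    intervalIntegral.integral_mono_on hV hintL hRint.intervalIntegrable hpt
  have e2 : ∫ t in V1..V2, R t ≤ ∫ t, R t := by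
    rw [intervalIntegral.integral_of_le hV]
    exact setIntegral_le_integral hRint (Eventually.of_forall hR0)
  have e3 : ∫ t, R t = CM * k * (2 * (∫ t, wt t0 D t) + ∫ t, wt t0 D t * ‖Q1 κ T k t‖ ^ (2 * k)) := by
    simp only [hR]
    rw [integral_const_mul, integral_add ((wt_integrable hD).const_mul 2) hm.1, integral_const_mul]
  have e4 := wt_integral_le (t0 := t0) hD
  have e5 : (C / k) ^ k ≤ Real.exp C := pow_div_le_exp hC.le
  have e6 : 2 * (∫ t, wt t0 D t) + ∫ t, wt t0 D t * ‖Q1 κ T k t‖ ^ (2 * k) ≤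
      (6 + Real.exp C) * D := by
    have := mul_le_mul_of_nonneg_left e5 hD.le
    linarith [hm.2]
  calc _ ≤ ∫ t, R t := e1.trans e2
    _ ≤ CM * k * ((6 + Real.exp C) * D) := by
        rw [e3]
        exact mul_le_mul_of_nonneg_left e6 (by positivity)
    _ = _ := by ring

end SP
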