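import Pool.Agent.H382P.Defs
import Pool.Agent.Helper923.HMertens

open Complex Filter Topology Set MeasureTheory

namespace SP

open SG (phi hh nn dd dl)

namespace MertAux

lemma abel (c : ℕ → ℝ) (F : ℕ → ℂ) (N : ℕ) (hN : 1 ≤ N) :
    ∑ n ∈ Finset.Icc 1 N, (c n : ℂ) * F n =
      ((∑ i ∈ Finset.Icc 1 N, c i : ℝ) : ℂ) * F N -
        ∑ n ∈ Finset.Ico 1 N, ((∑ i ∈ Finset.Icc 1 n, c i : ℝ) : ℂ) * (F (n + 1) - F n) := by
  induction N, hN using Nat.le_induction with
  | base => simp
  | succ n hn ih =>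
    rw [Finset.sum_Icc_succ_top (by omega), ih, Finset.sum_Ico_succ_top hn,
      Finset.sum_Icc_succ_top (by omega)]
    push_cast
    ring

lemma abel_bound (c : ℕ → ℝ) (F : ℕ → ℂ) (C0 : ℝ)
    (hS : ∀ n, 1 ≤ n → |∑ i ∈ Finset.Icc 1 n, c i| ≤ C0) (N : ℕ) (hN : 1 ≤ N) :
    ‖∑ n ∈ Finset.Icc 1 N, (c n : ℂ) * F n‖ ≤
      C0 * (‖F N‖ + ∑ n ∈ Finset.Ico 1 N, ‖F (n + 1) - F n‖) := by
  rw [abel c F N hN]
  refine (norm_sub_le _ _).trans ?_
  rw [mul_add]
  apply add_le_add
  · rw [norm_mul, Complex.norm_real, Real.norm_eq_abs]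
    exact mul_le_mul_of_nonneg_right (hS N hN) (norm_nonneg _)
  · refine (norm_sum_le _ _).trans ?_
    rw [Finset.mul_sum]
    refine Finset.sum_le_sum fun n hn => ?_
    rw [norm_mul, Complex.norm_real, Real.norm_eq_abs]
    exact mul_le_mul_of_nonneg_right (hS n (Finset.mem_Ico.mp hn).1) (norm_nonneg _)

/-- increments of the logarithm -/
noncomputable def bb (n : ℕ) : ℝ := if n ≤ 1 then 0 else Real.log n - Real.log (n - 1 : ℕ)

lemma sum_bb (N : ℕ) (hN : 1 ≤ N) : ∑ n ∈ Finset.Icc 1 N, bb n = Real.log N := by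
  induction N, hN using Nat.le_induction with
  | base => simp [bb]
  | succ n hn ih =>
    rw [Finset.sum_Icc_succ_top (by omega), ih, bb, if_neg (by omega)]
    simp

lemma log_succ_sub (n : ℕ) (hn : 1 ≤ n) :
    0 ≤ Real.log (n + 1 : ℕ) - Real.log n ∧ Real.log (n + 1 : ℕ) - Real.log n ≤ Real.log 2 := by
  have h1 : (1:ℝ) ≤ n := by exact_mod_cast hn
  constructor
  · rw [sub_nonneg]
    apply Real.log_le_log (by linarith)
    push_cast
    linarith
  · rw [← Real.log_div (by positivity) (by positivity)]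
    apply Real.log_le_log (by positivity)
    rw [div_le_iff₀ (by positivity)]
    push_cast
    linarith

lemma riemann (H : ℝ → ℂ) (K : NNReal) (hH : LipschitzWith K H) (L : ℝ) (hL : 0 < L) (N : ℕ)
    (hN : 1 ≤ N) :
    ‖∑ n ∈ Finset.Icc 1 N, (bb n : ℂ) * H (Real.log n / L) -
      ∫ v in (0:ℝ)..Real.log N, H (v / L)‖ ≤ K * Real.log 2 * Real.log N / L := by
  have hc : Continuous H := hH.continuous
  have hii : ∀ a b : ℝ, IntervalIntegrable (fun v => H (v / L)) volume a b := fun a b =>
    (hc.comp (continuous_id.div_const L)).intervalIntegrable a b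
  induction N, hN using Nat.le_induction with
  | base => simp [bb]
  | succ n hn ih =>
    rw [Finset.sum_Icc_succ_top (by omega)]
    rw [← intervalIntegral.integral_add_adjacent_intervals (hii 0 (Real.log n)) (hii _ _)]
    obtain ⟨g0, g2⟩ := log_succ_sub n hn
    have hb : bb (n + 1) = Real.log (n + 1 : ℕ) - Real.log n := by
      rw [bb, if_neg (by omega)]
      simp
    set d : ℝ := Real.log (n + 1 : ℕ) - Real.log n with hd
    have e1 : (bb (n + 1) : ℂ) * H (Real.log (n + 1 : ℕ) / L) =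
        ∫ v in (Real.log n)..(Real.log (n + 1 : ℕ)), H (Real.log (n + 1 : ℕ) / L) := by
      rw [intervalIntegral.integral_const, hb, Complex.real_smul]
    have e2 : ‖(bb (n + 1) : ℂ) * H (Real.log (n + 1 : ℕ) / L) -
        ∫ v in (Real.log n)..(Real.log (n + 1 : ℕ)), H (v / L)‖ ≤ K * (d / L) * d := by
      rw [e1, ← intervalIntegral.integral_sub (by apply intervalIntegrable_const) (hii _ _)]
      have := intervalIntegral.norm_integral_le_of_norm_le_const (a := Real.log n)
        (b := Real.log (n + 1 : ℕ)) (C := K * (d / L))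
        (f := fun v => H (Real.log (n + 1 : ℕ) / L) - H (v / L)) (fun v hv => by
          rw [Set.uIoc_of_le (by linarith)] at hv
          have h1 := hH.dist_le_mul (Real.log (n + 1 : ℕ) / L) (v / L)
          rw [dist_eq_norm, Real.dist_eq] at h1
          refine h1.trans ?_
          rw [← sub_div, abs_div, abs_of_pos hL, abs_of_nonneg (by linarith [hv.2])]
          gcongr
          linarith [hv.1])
      rwa [abs_of_nonneg g0] at this
    calc _ = ‖(∑ k ∈ Finset.Icc 1 n, (bb k : ℂ) * H (Real.log k / L) -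
            ∫ v in (0:ℝ)..Real.log n, H (v / L)) +
          ((bb (n + 1) : ℂ) * H (Real.log (n + 1 : ℕ) / L) -
        ∫ v in (Real.log n)..(Real.log (n + 1 : ℕ)), H (v / L))‖ := by
          congr 1
          ring
      _ ≤ K * Real.log 2 * Real.log n / L + K * (d / L) * d :=
          (norm_add_le _ _).trans (add_le_add ih e2)
      _ ≤ K * Real.log 2 * Real.log n / L + K * (d / L) * Real.log 2 := by
          gcongr
      _ = K * Real.log 2 * Real.log (n + 1 : ℕ) / L := by
          rw [hd]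
          ring

end MertAux

open MertAux in
theorem mert (H : ℝ → ℂ) (K : NNReal) (hH : LipschitzWith K H) (hH1 : ∀ u : ℝ, 1 ≤ u → H u = 0) :
    ∃ C : ℝ, 0 < C ∧ ∀ T : ℝ, 10 ≤ T →
    ‖(1 / Real.log T : ℝ) * ∑ p ∈ (Finset.Icc 1 ⌊T⌋₊).filter Nat.Prime,
      (Real.log p / p : ℝ) * H (Real.log p / Real.log T) - ∫ u in (0 : ℝ)..1, H u‖ ≤
      C / Real.log T := by
  obtain ⟨C0, hC0⟩ := Pool.Agent.Helper923.HMertens.mertens_log
  have hC00 : 0 ≤ C0 := (abs_nonneg _).trans (hC0 1 le_rfl)
  refine ⟨2 * K * C0 + 2 * K * Real.log 2 + 1, by positivity, fun T hT => ?_⟩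
  set L : ℝ := Real.log T with hL
  have hT0 : 0 < T := by linarith
  have hL0 : 0 < L := Real.log_pos (by linarith)
  set N : ℕ := ⌊T⌋₊ with hN
  have hN1 : 1 ≤ N := Nat.le_floor (by norm_num; linarith)
  have hN1' : (1:ℝ) ≤ N := by exact_mod_cast hN1
  have hNT : (N:ℝ) ≤ T := Nat.floor_le hT0.le
  have hTN : T < N + 1 := Nat.lt_floor_add_one T
  have hlogN : Real.log N ≤ L := Real.log_le_log (by linarith) hNT
  have hlogN0 : 0 ≤ Real.log N := Real.log_nonneg hN1'
  have hLN : L - Real.log N ≤ Real.log 2 := by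
    have h1 : L ≤ Real.log (N + 1 : ℕ) := by
      apply Real.log_le_log hT0
      push_cast
      exact hTN.le
    have := (log_succ_sub N hN1).2
    linarith
  have hlip : ∀ u v : ℝ, ‖H u - H v‖ ≤ K * |u - v| := by
    intro u v
    have := hH.dist_le_mul u v
    rwa [dist_eq_norm, Real.dist_eq] at this
  have hHb : ∀ v : ℝ, 0 ≤ v → v ≤ L → ‖H (v / L)‖ ≤ K := by
    intro v h0 h1
    have h2 := hlip (v / L) 1
    rw [hH1 1 le_rfl, sub_zero] at h2
    refine h2.trans ?_
    have h3 : |v / L - 1| ≤ 1 := by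
      have h4 : v / L ≤ 1 := (div_le_one hL0).mpr h1
      have h5 : 0 ≤ v / L := by positivity
      rw [abs_le]
      constructor <;> linarith
    calc (K:ℝ) * |v / L - 1| ≤ K * 1 := by gcongr
      _ = K := mul_one _
  -- first comparison
  set a : ℕ → ℝ := fun n => if n.Prime then Real.log n / n else 0 with ha
  have hsa : ∀ n, ∑ i ∈ Finset.Icc 1 n, a i =
      ∑ p ∈ (Finset.Icc 1 n).filter Nat.Prime, Real.log p / p := by
    intro n
    rw [Finset.sum_filter]
  have f1 := abel_bound (fun n => a n - bb n) (fun n => H (Real.log n / L)) C0 (by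
    intro n hn
    rw [Finset.sum_sub_distrib, hsa, sum_bb n hn]
    exact hC0 n hn) N hN1
  have f2 : ‖H (Real.log N / L)‖ + ∑ n ∈ Finset.Ico 1 N,
      ‖H (Real.log (n + 1 : ℕ) / L) - H (Real.log n / L)‖ ≤ 2 * K := by
    have g1 : ∑ n ∈ Finset.Ico 1 N, ‖H (Real.log (n + 1 : ℕ) / L) - H (Real.log n / L)‖ ≤
        ∑ n ∈ Finset.Ico 1 N, K / L * (Real.log (n + 1 : ℕ) - Real.log n) := by
      refine Finset.sum_le_sum fun n hn => ?_
      have hn1 := (Finset.mem_Ico.mp hn).1
      refine (hlip _ _).trans ?_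
      rw [← sub_div, abs_div, abs_of_pos hL0, abs_of_nonneg (log_succ_sub n hn1).1]
      apply le_of_eq
      ring
    have g2 : ∑ n ∈ Finset.Ico 1 N, (K / L * (Real.log (n + 1 : ℕ) - Real.log n)) =
        K / L * (Real.log N - Real.log (1:ℕ)) := by
      rw [← Finset.mul_sum, Finset.sum_Ico_sub (fun n : ℕ => Real.log n) hN1]
    have g3 : K / L * (Real.log N - Real.log (1:ℕ)) ≤ K := by
      rw [Nat.cast_one, Real.log_one, sub_zero, div_mul_eq_mul_div, div_le_iff₀ hL0]
      gcongr
    have g4 := hHb (Real.log N) hlogN0 hlogN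
    linarith
  have f3 : ‖∑ n ∈ Finset.Icc 1 N, ((a n - bb n : ℝ) : ℂ) * H (Real.log n / L)‖ ≤
      C0 * (2 * K) := f1.trans (mul_le_mul_of_nonneg_left f2 hC00)
  -- second comparison
  have f4 := riemann H K hH L hL0 N hN1
  have f5 : ‖∫ v in (Real.log N)..L, H (v / L)‖ ≤ K * (L - Real.log N) := by
    have := intervalIntegral.norm_integral_le_of_norm_le_const (a := Real.log N) (b := L)
      (C := (K:ℝ)) (f := fun v => H (v / L)) (fun v hv => by
        rw [Set.uIoc_of_le hlogN] at hv
        exact hHb v (by linarith [hv.1]) hv.2)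
    rwa [abs_of_nonneg (by linarith)] at this
  have hii : ∀ a b : ℝ, IntervalIntegrable (fun v => H (v / L)) volume a b := fun a b =>
    (hH.continuous.comp (continuous_id.div_const L)).intervalIntegrable a b
  have f6 : (L : ℂ) * ∫ u in (0 : ℝ)..1, H u = (∫ v in (0:ℝ)..Real.log N, H (v / L)) +
      ∫ v in (Real.log N)..L, H (v / L) := by
    rw [intervalIntegral.integral_add_adjacent_intervals (hii _ _) (hii _ _),
      intervalIntegral.integral_comp_div _ hL0.ne']
    rw [zero_div, div_self hL0.ne', Complex.real_smul]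
  have f7 : ∑ p ∈ (Finset.Icc 1 N).filter Nat.Prime,
      ((Real.log p / p : ℝ) : ℂ) * H (Real.log p / L) =
      ∑ n ∈ Finset.Icc 1 N, ((a n - bb n : ℝ) : ℂ) * H (Real.log n / L) +
      ∑ n ∈ Finset.Icc 1 N, (bb n : ℂ) * H (Real.log n / L) := by
    rw [← Finset.sum_add_distrib, Finset.sum_filter]
    refine Finset.sum_congr rfl fun n _ => ?_
    simp only [ha]
    split_ifs <;> · push_cast; ring
  have f8 : ‖(∑ p ∈ (Finset.Icc 1 N).filter Nat.Prime,
      ((Real.log p / p : ℝ) : ℂ) * H (Real.log p / L)) - (L : ℂ) * ∫ u in (0 : ℝ)..1, H u‖ ≤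
      2 * K * C0 + 2 * K * Real.log 2 := by
    rw [f7, f6]
    have hr : K * Real.log 2 * Real.log N / L ≤ K * Real.log 2 := by
      rw [div_le_iff₀ hL0]
      gcongr
    have hs : K * (L - Real.log N) ≤ K * Real.log 2 := by gcongr
    calc _ = ‖(∑ n ∈ Finset.Icc 1 N, ((a n - bb n : ℝ) : ℂ) * H (Real.log n / L)) +
          ((∑ n ∈ Finset.Icc 1 N, (bb n : ℂ) * H (Real.log n / L)) -
            ∫ v in (0:ℝ)..Real.log N, H (v / L)) -
          ∫ v in (Real.log N)..L, H (v / L)‖ := by
          congr 1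
          ring
      _ ≤ ‖∑ n ∈ Finset.Icc 1 N, ((a n - bb n : ℝ) : ℂ) * H (Real.log n / L)‖ +
          ‖(∑ n ∈ Finset.Icc 1 N, (bb n : ℂ) * H (Real.log n / L)) -
            ∫ v in (0:ℝ)..Real.log N, H (v / L)‖ + ‖∫ v in (Real.log N)..L, H (v / L)‖ := by
          refine (norm_sub_le _ _).trans ?_
          gcongr
          exact norm_add_le _ _
      _ ≤ _ := by linarith
  have hLc : (L : ℂ) ≠ 0 := by exact_mod_cast hL0.ne'
  have f9 : ((1 / L : ℝ) : ℂ) * ∑ p ∈ (Finset.Icc 1 N).filter Nat.Prime,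
      ((Real.log p / p : ℝ) : ℂ) * H (Real.log p / L) - ∫ u in (0 : ℝ)..1, H u =
      ((1 / L : ℝ) : ℂ) * ((∑ p ∈ (Finset.Icc 1 N).filter Nat.Prime,
      ((Real.log p / p : ℝ) : ℂ) * H (Real.log p / L)) - (L : ℂ) * ∫ u in (0 : ℝ)..1, H u) := by
    rw [mul_sub, ← mul_assoc]
    have : ((1 / L : ℝ) : ℂ) * (L : ℂ) = 1 := by
      push_cast
      field_simp
    rw [this, one_mul]
  rw [f9, norm_mul, Complex.norm_real, Real.norm_eq_abs, abs_of_pos (by positivity)]
  rw [one_div, inv_mul_eq_div]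
  gcongr
  linarith

namespace MertAux

/-- bins are at most `B` -/
lemma Eb_le (P : Par) (T : ℝ) (hT : 10 ≤ T) (p : ℕ) (hp : p ∈ PS P T) :
    Eb P T p ≤ P.B ∧ 0 ≤ Real.log p ∧ Real.log p ≤ Real.log T ∧
      (1 - P.κ) * Real.log T / P.B < Real.log p := by
  unfold PS at hp
  rw [Finset.mem_filter, Finset.mem_Icc] at hp
  obtain ⟨⟨hp1, hpn⟩, hpp, hE⟩ := hp
  have hT0 : 0 < T := by linarith
  have hL0 : 0 < Real.log T := Real.log_pos (by linarith)
  have hκ := P.hκ
  have hκ1 := P.hκ1
  have hκ2 : 0 < 1 - P.κ := by linarith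
  have hB : (0:ℝ) < P.B := by
    have := P.hB
    have : 0 < P.B := by omega
    exact_mod_cast this
  have hp1' : (1:ℝ) ≤ p := by exact_mod_cast hp1
  have h1 : (p:ℝ) ≤ T ^ (1 - P.κ) := by
    have h2 : (p:ℝ) ≤ nn P.κ T := by exact_mod_cast hpn
    refine h2.trans (Nat.floor_le (by positivity))
  have h2 : Real.log p ≤ (1 - P.κ) * Real.log T := by
    have := Real.log_le_log (by linarith) h1
    rwa [Real.log_rpow hT0] at this
  have h3 : 0 ≤ Real.log p := Real.log_nonneg hp1'
  refine ⟨?_, h3, ?_, ?_⟩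
  · unfold Eb
    apply Nat.ceil_le.mpr
    rw [div_le_iff₀ (by positivity)]
    gcongr
  · nlinarith
  · unfold Eb at hE
    have h4 : 1 < ⌈(P.B : ℝ) * Real.log p / ((1 - P.κ) * Real.log T)⌉₊ := by omega
    rw [Nat.lt_ceil, Nat.cast_one, lt_div_iff₀ (by positivity), one_mul] at h4
    rw [div_lt_iff₀ hB]
    linarith

/-- the Gaussian average of a Lipschitz function -/
lemma gauss_avg (f : ℝ → ℝ) (K : NNReal) (hf : LipschitzWith K f) (hfc : HasCompactSupport f)
    (L x : ℝ) (hL : 0 < L) :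
    |(1 / Real.sqrt (2 * Real.pi)) * (∫ u, f (u / L) * Real.exp (-(u - x) ^ 2 / 2)) - f (x / L)| ≤
      K / L := by
  have hπ := Real.pi_pos
  have hs : 0 < Real.sqrt (2 * Real.pi) := Real.sqrt_pos.mpr (by positivity)
  have hcont : Continuous f := hf.continuous
  -- shift
  have e1 : ∫ u, f (u / L) * Real.exp (-(u - x) ^ 2 / 2) =
      ∫ v, f ((v + x) / L) * Real.exp (-v ^ 2 / 2) := by
    rw [← integral_add_right_eq_self (fun u => f (u / L) * Real.exp (-(u - x) ^ 2 / 2)) x]
    congr 1
    funext v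
    rw [add_sub_cancel_right]
  have hg : ∫ v : ℝ, Real.exp (-v ^ 2 / 2) = Real.sqrt (2 * Real.pi) := by
    have := integral_gaussian (1 / 2)
    rw [show (fun v : ℝ => Real.exp (-v ^ 2 / 2)) = fun v => Real.exp (-(1 / 2) * v ^ 2) by
      funext v; congr 1; ring, this]
    congr 1
    field_simp
  have hgi : Integrable (fun v : ℝ => Real.exp (-v ^ 2 / 2)) := by
    have := integrable_exp_neg_mul_sq (b := 1 / 2) (by norm_num)
    refine this.congr (Eventually.of_forall fun v => ?_)
    simp only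
    congr 1
    ring
  have hgi1 : Integrable (fun v : ℝ => |v| * Real.exp (-v ^ 2 / 2)) := by
    have := (integrable_mul_exp_neg_mul_sq (b := 1 / 2) (by norm_num)).norm
    refine this.congr (Eventually.of_forall fun v => ?_)
    simp only [norm_mul, Real.norm_eq_abs, Real.abs_exp]
    congr 2
    ring
  have habs : ∫ v : ℝ, |v| * Real.exp (-v ^ 2 / 2) = 2 := by
    have h1 := integral_comp_abs (f := fun v => v * Real.exp (-v ^ 2 / 2))
    simp only [sq_abs] at h1
    rw [h1]
    have h2 : ∫ v in Set.Ioi (0:ℝ), v * Real.exp (-v ^ 2 / 2) = 1 := by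
      have h3 : ∀ v ∈ Set.Ioi (0:ℝ), HasDerivAt (fun v : ℝ => -Real.exp (-v ^ 2 / 2))
          (v * Real.exp (-v ^ 2 / 2)) v := by
        intro v _
        have h4 : HasDerivAt (fun v : ℝ => -v ^ 2 / 2) (-v) v := by
          have := ((hasDerivAt_pow 2 v).neg).div_const 2
          convert! this using 1
          ring
        have h5 := h4.exp.neg
        convert! h5 using 1
        ring
      have h6 := integral_Ioi_of_hasDerivAt_of_nonneg (a := (0:ℝ)) (l := 0)
        (g := fun v : ℝ => -Real.exp (-v ^ 2 / 2)) (g' := fun v => v * Real.exp (-v ^ 2 / 2))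
        (by fun_prop) h3 (fun v hv => mul_nonneg (le_of_lt hv) (Real.exp_pos _).le) (by
          rw [← neg_zero]
          apply Tendsto.neg
          apply Real.tendsto_exp_atBot.comp
          have h7 : Tendsto (fun v : ℝ => v ^ 2 / 2) atTop atTop :=
            (tendsto_pow_atTop two_ne_zero).atTop_div_const (by norm_num)
          have h8 := tendsto_neg_atTop_atBot.comp h7
          refine h8.congr fun v => ?_
          simp only [Function.comp]
          ring)
      rw [h6]
      simp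
    rw [h2]
    norm_num
  have hfi : Integrable (fun v => f ((v + x) / L) * Real.exp (-v ^ 2 / 2)) := by
    obtain ⟨M, hM⟩ := hfc.exists_bound_of_continuous hcont
    apply Integrable.mono' (hgi.const_mul M)
    · apply Continuous.aestronglyMeasurable
      fun_prop
    · refine Eventually.of_forall fun v => ?_
      rw [norm_mul, Real.norm_eq_abs (Real.exp _), Real.abs_exp]
      exact mul_le_mul_of_nonneg_right (hM _) (Real.exp_pos _).le
  have e2 : (1 / Real.sqrt (2 * Real.pi)) * (∫ u, f (u / L) * Real.exp (-(u - x) ^ 2 / 2)) -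
      f (x / L) = (1 / Real.sqrt (2 * Real.pi)) *
        ∫ v, (f ((v + x) / L) - f (x / L)) * Real.exp (-v ^ 2 / 2) := by
    rw [e1]
    have : ∫ v, (f ((v + x) / L) - f (x / L)) * Real.exp (-v ^ 2 / 2) =
        (∫ v, f ((v + x) / L) * Real.exp (-v ^ 2 / 2)) - f (x / L) * Real.sqrt (2 * Real.pi) := by
      rw [← hg, ← integral_const_mul, ← integral_sub hfi (hgi.const_mul _)]
      congr 1
      funext v
      ring
    rw [this]
    field_simp
  have e3 : |∫ v, (f ((v + x) / L) - f (x / L)) * Real.exp (-v ^ 2 / 2)| ≤ K / L * 2 := by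
    rw [← Real.norm_eq_abs]
    refine (norm_integral_le_integral_norm _).trans ?_
    have hK2 : (K:ℝ) / L * 2 = ∫ v : ℝ, K / L * (|v| * Real.exp (-v ^ 2 / 2)) := by
      rw [integral_const_mul, habs]
    rw [hK2]
    apply integral_mono_of_nonneg
    · exact Eventually.of_forall fun v => norm_nonneg _
    · exact hgi1.const_mul _
    · refine Eventually.of_forall fun v => ?_
      simp only
      rw [norm_mul, Real.norm_eq_abs, Real.norm_eq_abs, Real.abs_exp, ← mul_assoc]
      apply mul_le_mul_of_nonneg_right _ (Real.exp_pos _).le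
      have := hf.dist_le_mul ((v + x) / L) (x / L)
      rw [Real.dist_eq, Real.dist_eq] at this
      refine this.trans (le_of_eq ?_)
      rw [← sub_div, add_sub_cancel_right, abs_div, abs_of_pos hL]
      ring
  rw [e2, abs_mul, abs_of_pos (by positivity)]
  have h2 : 2 ≤ Real.sqrt (2 * Real.pi) := by
    rw [show (2:ℝ) = Real.sqrt 4 by
      rw [show (4:ℝ) = 2 ^ 2 by norm_num, Real.sqrt_sq (by norm_num)]]
    apply Real.sqrt_le_sqrt
    have := Real.pi_gt_three
    have h9 : Real.sqrt 4 = 2 := by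
      rw [show (4:ℝ) = 2 ^ 2 by norm_num, Real.sqrt_sq (by norm_num)]
    rw [h9]
    linarith
  calc 1 / Real.sqrt (2 * Real.pi) *
        |∫ v, (f ((v + x) / L) - f (x / L)) * Real.exp (-v ^ 2 / 2)|
      ≤ 1 / Real.sqrt (2 * Real.pi) * (K / L * 2) := by gcongr
    _ = K / L * (2 / Real.sqrt (2 * Real.pi)) := by ring
    _ ≤ K / L * 1 := by
        gcongr
        rw [div_le_one hs]
        exact h2
    _ = K / L := mul_one _

end MertAux

open MertAux in
/-- `chi` is close to `u b_j(u)` -/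
theorem chi_approx (P : Par) : ∃ C T0 : ℝ, 0 < C ∧ 10 ≤ T0 ∧ ∀ T : ℝ, T0 ≤ T →
    (∀ p ∈ PS P T, Eb P T p ≤ P.B ∧ |chi P T p - Real.log p / Real.log T *
      P.b (Eb P T p) (Real.log p / Real.log T)| ≤ C / Real.log T ∧ |chi P T p| ≤ 2) ∧
    ∑ p ∈ PS P T, (1 / p : ℝ) ≤ C := by
  have hκ := P.hκ
  have hκ1 := P.hκ1
  have hm := P.hm
  have hBpos : (0:ℝ) < P.B := by
    have := P.hB
    have : 0 < P.B := by omega
    exact_mod_cast this
  -- supports
  have hb01 : ∀ j u, P.b j u ≠ 0 → P.m ≤ u ∧ u ≤ 1 - P.m := by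
    intro j u hne
    obtain ⟨h2, hjB, h3, h4⟩ := P.hb0 j u hne
    have hj : (2:ℝ) ≤ j := by exact_mod_cast h2
    have hj' : (j:ℝ) ≤ P.B := by exact_mod_cast hjB
    have h5 : 0 ≤ ((j : ℝ) - 1) * (1 - P.κ) / P.B := by
      apply div_nonneg (mul_nonneg (by linarith) (by linarith)) hBpos.le
    have h6 : j * (1 - P.κ) / P.B ≤ 1 := by
      rw [div_le_one hBpos]
      nlinarith
    constructor <;> linarith
  have hcs : ∀ j, HasCompactSupport (P.b j) := by
    intro j
    refine HasCompactSupport.intro (isCompact_Icc (a := P.m) (b := 1 - P.m)) fun u hu => ?_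
    by_contra hne
    exact hu (hb01 j u hne)
  have hlip : ∀ j, ∃ K : NNReal, LipschitzWith K (P.b j) := fun j =>
    ContDiff.lipschitzWith_of_hasCompactSupport (hcs j) (P.hb j) two_ne_zero
  choose Kj hKj using hlip
  set K0 : ℝ := ∑ j ∈ Finset.range (P.B + 1), (Kj j : ℝ) with hK0
  have hK00 : 0 ≤ K0 := Finset.sum_nonneg fun j _ => (Kj j).2
  obtain ⟨C0, hC0⟩ := Pool.Agent.Helper923.HMertens.mertens_log
  have hC00 : 0 ≤ C0 := (abs_nonneg _).trans (hC0 1 le_rfl)
  set C : ℝ := K0 + P.B / (1 - P.κ) * (1 + C0) + 1 with hC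
  have hκ2 : 0 < 1 - P.κ := by linarith
  have hC1 : 0 ≤ P.B / (1 - P.κ) * (1 + C0) := by positivity
  refine ⟨C, max 10 (Real.exp C), by positivity, le_max_left _ _, fun T hT => ?_⟩
  have hT10 : 10 ≤ T := (le_max_left _ _).trans hT
  have hT0 : 0 < T := by linarith
  set L : ℝ := Real.log T with hL
  have hLC : C ≤ L := by
    rw [hL, Real.le_log_iff_exp_le hT0]
    exact (le_max_right _ _).trans hT
  have hC11 : 1 ≤ C := by linarith
  have hL1 : 1 ≤ L := hC11.trans hLC
  have hL0 : 0 < L := by linarith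
  constructor
  · intro p hp
    obtain ⟨hE, hlp0, hlpL, hlow⟩ := Eb_le P T hT10 p hp
    have hcl : |chi P T p - Real.log p / L * P.b (Eb P T p) (Real.log p / L)| ≤ K0 / L := by
      set j := Eb P T p with hj
      have hfull : ∫ u in (0 : ℝ)..L, P.b j (u / L) * Real.exp (-(u - Real.log p) ^ 2 / 2) =
          ∫ u, P.b j (u / L) * Real.exp (-(u - Real.log p) ^ 2 / 2) := by
        rw [intervalIntegral.integral_of_le hL0.le]
        apply setIntegral_eq_integral_of_forall_compl_eq_zero
        intro u hu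
        by_contra hne
        have h1 : P.b j (u / L) ≠ 0 := left_ne_zero_of_mul hne
        obtain ⟨h2, h3⟩ := hb01 j _ h1
        apply hu
        rw [le_div_iff₀ hL0] at h2
        rw [div_le_iff₀ hL0] at h3
        constructor
        · nlinarith
        · nlinarith
      have hg := gauss_avg (P.b j) (Kj j) (hKj j) (hcs j) L (Real.log p) hL0
      rw [← hfull] at hg
      have hKle : (Kj j : ℝ) ≤ K0 := by
        apply Finset.single_le_sum (f := fun j => (Kj j : ℝ)) (fun j _ => (Kj j).2)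
        rw [Finset.mem_range]
        omega
      have hle : |Real.log p / L| ≤ 1 := by
        rw [abs_of_nonneg (by positivity), div_le_one hL0]
        exact hlpL
      have hexp : chi P T p - Real.log p / L * P.b j (Real.log p / L) =
          Real.log p / L * ((1 / Real.sqrt (2 * Real.pi)) *
            (∫ u in (0 : ℝ)..L, P.b j (u / L) * Real.exp (-(u - Real.log p) ^ 2 / 2)) -
              P.b j (Real.log p / L)) := by
        unfold chi
        rw [← hL, ← hj]
        ring
      rw [hexp, abs_mul]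
      calc |Real.log p / L| * _ ≤ 1 * (Kj j / L) := by
            apply mul_le_mul hle hg (abs_nonneg _) zero_le_one
        _ ≤ K0 / L := by
            rw [one_mul]
            gcongr
    have hKC : K0 ≤ C := by linarith
    refine ⟨hE, hcl.trans (by gcongr), ?_⟩
    have h1 := P.hb1 (Eb P T p) (Real.log p / L)
    have h2 : |Real.log p / L * P.b (Eb P T p) (Real.log p / L)| ≤ 1 := by
      rw [abs_of_nonneg (mul_nonneg (by positivity) h1.1)]
      exact h1.2
    have h3 : K0 / L ≤ 1 := by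
      rw [div_le_one hL0]
      linarith
    have h4 := abs_add_le (chi P T p - Real.log p / L * P.b (Eb P T p) (Real.log p / L))
      (Real.log p / L * P.b (Eb P T p) (Real.log p / L))
    rw [sub_add_cancel] at h4
    linarith
  · have hsub : PS P T ⊆ (Finset.Icc 1 ⌊T⌋₊).filter Nat.Prime := by
      intro p hp
      obtain ⟨_, _, hlpL, _⟩ := Eb_le P T hT10 p hp
      unfold PS at hp
      rw [Finset.mem_filter, Finset.mem_Icc] at hp
      rw [Finset.mem_filter, Finset.mem_Icc]
      refine ⟨⟨hp.1.1, ?_⟩, hp.2.1⟩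
      apply Nat.le_floor
      have hp0 : (0:ℝ) < p := by exact_mod_cast hp.1.1
      rw [← Real.log_le_log_iff hp0 hT0]
      exact hlpL
    have hN1 : 1 ≤ ⌊T⌋₊ := Nat.le_floor (by norm_num; linarith)
    have hNT : ((⌊T⌋₊ : ℕ) : ℝ) ≤ T := Nat.floor_le hT0.le
    have hN0 : (0:ℝ) < ((⌊T⌋₊ : ℕ) : ℝ) := by exact_mod_cast hN1
    have hmer := (abs_le.mp (hC0 ⌊T⌋₊ hN1)).2
    have hlogN : Real.log ⌊T⌋₊ ≤ L := Real.log_le_log hN0 hNT
    calc ∑ p ∈ PS P T, (1 / p : ℝ) ≤ ∑ p ∈ PS P T, P.B / ((1 - P.κ) * L) * (Real.log p / p) := by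
          refine Finset.sum_le_sum fun p hp => ?_
          obtain ⟨_, hlp0, hlpL, hlow⟩ := Eb_le P T hT10 p hp
          have hp0 : (0:ℝ) < p := by
            unfold PS at hp
            rw [Finset.mem_filter, Finset.mem_Icc] at hp
            exact_mod_cast hp.1.1
          rw [div_lt_iff₀ hBpos] at hlow
          rw [mul_div_assoc']
          apply div_le_div_of_nonneg_right _ hp0.le
          rw [div_mul_eq_mul_div, le_div_iff₀ (by positivity)]
          linarith
      _ = P.B / ((1 - P.κ) * L) * ∑ p ∈ PS P T, (Real.log p / p) := by rw [Finset.mul_sum]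
      _ ≤ P.B / ((1 - P.κ) * L) * ∑ p ∈ (Finset.Icc 1 ⌊T⌋₊).filter Nat.Prime,
            (Real.log p / p) := by
          apply mul_le_mul_of_nonneg_left _ (by positivity)
          apply Finset.sum_le_sum_of_subset_of_nonneg hsub
          intro p hp _
          rw [Finset.mem_filter, Finset.mem_Icc] at hp
          have : (1:ℝ) ≤ p := by exact_mod_cast hp.1.1
          exact div_nonneg (Real.log_nonneg this) (by linarith)
      _ ≤ P.B / ((1 - P.κ) * L) * (L * (1 + C0)) := by
          apply mul_le_mul_of_nonneg_left _ (by positivity)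
          nlinarith
      _ = P.B / (1 - P.κ) * (1 + C0) := by field_simp
      _ ≤ C := by linarith

end SP
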