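import Pool.Agent.H382P.Defs

/-! # Task 17: Newton's identity for the detector (helper454) -/

open Complex Filter Topology Set MeasureTheory

namespace SP

namespace NewtonAux

open PowerSeries

variable (E : ℕ → ℕ) (y : ℕ → ℂ)

/-- generating series of `qq` -/
noncomputable def Q (P : Finset ℕ) : PowerSeries ℂ := PowerSeries.mk (qq P E y)

/-- generating series of `tt` -/
noncomputable def T (P : Finset ℕ) : PowerSeries ℂ :=
  PowerSeries.mk (fun m => if m = 0 then 0 else tt P E y m)

/-- one local factor -/
noncomputable def S (p : ℕ) : PowerSeries ℂ :=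
  PowerSeries.mk (fun m => if m = 0 then 0 else
    if E p ∣ m then (-1 : ℂ) ^ (m / E p - 1) * (E p : ℂ) * y p ^ (m / E p) else 0)

theorem qq_empty (n : ℕ) : qq ∅ E y n = if n = 0 then 1 else 0 := by
  unfold qq
  rw [Finset.powerset_empty, Finset.filter_singleton]
  by_cases h : n = 0
  · subst h; simp
  · have h' : ¬ (∑ p ∈ (∅ : Finset ℕ), E p = n) := by
      simp only [Finset.sum_empty]; exact fun h0 => h h0.symm
    rw [if_neg h', if_neg h, Finset.sum_empty]

theorem qq_insert {P : Finset ℕ} {p : ℕ} (hp : p ∉ P) (n : ℕ) :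
    qq (insert p P) E y n = qq P E y n + if E p ≤ n then y p * qq P E y (n - E p) else 0 := by
  unfold qq
  rw [Finset.powerset_insert, Finset.filter_union, Finset.sum_union]
  · congr 1
    have h1 : Finset.filter (fun A => ∑ q ∈ A, E q = n) (Finset.image (insert p) P.powerset)
        = Finset.image (insert p) (Finset.filter (fun A => E p + ∑ q ∈ A, E q = n) P.powerset) := by
      rw [Finset.filter_image]
      congr 1
      apply Finset.filter_congr
      intro A hA
      have hpA : p ∉ A := fun h => hp (Finset.mem_powerset.1 hA h)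
      rw [Finset.sum_insert hpA]
    rw [h1, Finset.sum_image]
    · by_cases hn : E p ≤ n
      · rw [if_pos hn, Finset.mul_sum]
        have h2 : Finset.filter (fun A => E p + ∑ q ∈ A, E q = n) P.powerset =
            Finset.filter (fun A => ∑ q ∈ A, E q = n - E p) P.powerset := by
          apply Finset.filter_congr
          intro A _
          omega
        rw [h2]
        apply Finset.sum_congr rfl
        intro A hA
        have hpA : p ∉ A := fun h => hp (Finset.mem_powerset.1 (Finset.mem_filter.1 hA).1 h)
        rw [Finset.prod_insert hpA]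
      · rw [if_neg hn]
        have h2 : Finset.filter (fun A => E p + ∑ q ∈ A, E q = n) P.powerset = ∅ := by
          apply Finset.filter_eq_empty_iff.2
          intro A _
          omega
        rw [h2, Finset.sum_empty]
    · intro A hA B hB hAB
      have hpA : p ∉ A := fun h => hp (Finset.mem_powerset.1 (Finset.mem_filter.1 hA).1 h)
      have hpB : p ∉ B := fun h => hp (Finset.mem_powerset.1 (Finset.mem_filter.1 hB).1 h)
      have : (insert p A).erase p = (insert p B).erase p := by rw [hAB]
      rwa [Finset.erase_insert hpA, Finset.erase_insert hpB] at this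
  · rw [Finset.disjoint_left]
    intro A hA hA'
    have h1 := (Finset.mem_filter.1 hA).1
    have h2 := (Finset.mem_filter.1 hA').1
    rw [Finset.mem_image] at h2
    obtain ⟨B, _, rfl⟩ := h2
    exact hp (Finset.mem_powerset.1 h1 (Finset.mem_insert_self p B))

theorem Q_insert {P : Finset ℕ} {p : ℕ} (hp : p ∉ P) :
    Q E y (insert p P) = (1 + C (y p) * X ^ (E p)) * Q E y P := by
  ext n
  rw [add_mul, one_mul, mul_assoc, map_add, PowerSeries.coeff_C_mul, PowerSeries.coeff_X_pow_mul']
  simp only [Q, PowerSeries.coeff_mk]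
  rw [qq_insert E y hp]
  split_ifs <;> simp

theorem T_insert {P : Finset ℕ} {p : ℕ} (hp : p ∉ P) :
    T E y (insert p P) = T E y P + S E y p := by
  ext n
  rw [map_add]
  simp only [T, S, PowerSeries.coeff_mk]
  by_cases hn : n = 0
  · simp [hn]
  · rw [if_neg hn, if_neg hn, if_neg hn]
    unfold tt
    rw [Finset.sum_insert hp, add_comm]

theorem S_mul {p : ℕ} (hE : 1 ≤ E p) :
    S E y p * (1 + C (y p) * X ^ (E p)) = C ((E p : ℂ) * y p) * X ^ (E p) := by
  ext n
  rw [mul_add, mul_one, map_add, mul_comm (S E y p), mul_assoc, PowerSeries.coeff_C_mul,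
    PowerSeries.coeff_X_pow_mul', PowerSeries.coeff_C_mul, PowerSeries.coeff_X_pow]
  simp only [S, PowerSeries.coeff_mk]
  by_cases hn0 : n = 0
  · subst hn0
    have : ¬ (E p ≤ 0) := by omega
    have h2 : (0 : ℕ) ≠ E p := by omega
    simp [this, h2]
  rw [if_neg hn0]
  by_cases hd : E p ∣ n
  · obtain ⟨r, rfl⟩ := hd
    have hr : 1 ≤ r := by
      rcases Nat.eq_zero_or_pos r with h | h
      · exfalso; apply hn0; rw [h, mul_zero]
      · exact h
    have hle : E p ≤ E p * r := Nat.le_mul_of_pos_right _ hr
    rw [if_pos (Dvd.intro r rfl), if_pos hle, Nat.mul_div_cancel_left _ (by omega : 0 < E p)]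
    obtain ⟨r', rfl⟩ : ∃ r', r = r' + 1 := ⟨r - 1, by omega⟩
    have h3 : E p * (r' + 1) - E p = E p * r' := by
      rw [Nat.mul_add, mul_one, Nat.add_sub_cancel]
    rw [h3]
    by_cases hr' : r' = 0
    · subst hr'
      simp
    · have h4 : E p * r' ≠ 0 := Nat.mul_ne_zero (by omega) hr'
      have h5 : E p * (r' + 1) ≠ E p := by
        intro h
        have : E p * (r' + 1) - E p = 0 := by omega
        rw [h3] at this
        exact h4 this
      rw [if_neg h4, if_neg h5, if_pos (Dvd.intro r' rfl), Nat.mul_div_cancel_left _ (by omega : 0 < E p)]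
      obtain ⟨r'', rfl⟩ : ∃ r'', r' = r'' + 1 := ⟨r' - 1, by omega⟩
      simp only [Nat.add_sub_cancel]
      ring
  · rw [if_neg hd]
    have h1 : n ≠ E p := fun h => hd (h ▸ dvd_refl _)
    rw [if_neg h1]
    split_ifs with h2 h3 h4
    · simp
    · exfalso
      apply hd
      have := dvd_add h4 (dvd_refl (E p))
      rwa [Nat.sub_add_cancel h2] at this
    · simp
    · simp

theorem D_Q (P : Finset ℕ) (hE : ∀ p ∈ P, 1 ≤ E p) :
    X * PowerSeries.derivative ℂ (Q E y P) = Q E y P * T E y P := by
  induction P using Finset.induction_on with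
  | empty =>
    have h1 : Q E y ∅ = 1 := by
      ext n
      simp only [Q, PowerSeries.coeff_mk, qq_empty, PowerSeries.coeff_one]
    have h2 : T E y ∅ = 0 := by
      ext n
      simp only [T, PowerSeries.coeff_mk, tt, Finset.sum_empty, ite_self, map_zero]
    rw [h1, h2]
    simp
  | insert p P hp ih =>
    have ihP := ih (fun q hq => hE q (Finset.mem_insert_of_mem hq))
    have hEp := hE p (Finset.mem_insert_self p P)
    rw [Q_insert E y hp, T_insert E y hp]
    have hD : X * PowerSeries.derivative ℂ (1 + C (y p) * X ^ (E p)) =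
        C ((E p : ℂ) * y p) * X ^ (E p) := by
      ext n
      rcases n with _ | n
      · have : ¬ E p = 0 := by omega
        simp [this]
      · rw [PowerSeries.coeff_succ_X_mul, PowerSeries.coeff_derivative, map_add,
          PowerSeries.coeff_C_mul, PowerSeries.coeff_C_mul, PowerSeries.coeff_X_pow,
          PowerSeries.coeff_one]
        by_cases h : n + 1 = E p
        · rw [if_pos h, ← h]
          push_cast
          simp
          ring
        · simp [h]
    rw [Derivation.leibniz, smul_eq_mul, smul_eq_mul, mul_add]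
    calc X * ((1 + C (y p) * X ^ E p) * PowerSeries.derivative ℂ (Q E y P)) +
          X * (Q E y P * PowerSeries.derivative ℂ (1 + C (y p) * X ^ E p))
        = (1 + C (y p) * X ^ E p) * (X * PowerSeries.derivative ℂ (Q E y P)) +
          Q E y P * (X * PowerSeries.derivative ℂ (1 + C (y p) * X ^ E p)) := by ring
      _ = (1 + C (y p) * X ^ E p) * (Q E y P * T E y P) +
          Q E y P * (S E y p * (1 + C (y p) * X ^ (E p))) := by rw [ihP, hD, S_mul E y hEp]
      _ = _ := by ring

end NewtonAux

theorem newton (P : Finset ℕ) (E : ℕ → ℕ) (hE : ∀ p ∈ P, 1 ≤ E p) (y : ℕ → ℂ) :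
    qq P E y 0 = 1 ∧ ∀ n : ℕ, 1 ≤ n →
    (n : ℂ) * qq P E y n = ∑ m ∈ Finset.Icc 1 n, tt P E y m * qq P E y (n - m) := by
  constructor
  · unfold qq
    have : P.powerset.filter (fun A => ∑ p ∈ A, E p = 0) = {∅} := by
      ext A
      rw [Finset.mem_filter, Finset.mem_powerset, Finset.mem_singleton]
      constructor
      · rintro ⟨h1, h2⟩
        by_contra hne
        obtain ⟨a, ha⟩ := Finset.nonempty_iff_ne_empty.2 hne
        have h3 := hE a (h1 ha)
        have h4 : E a ≤ ∑ p ∈ A, E p := Finset.single_le_sum (fun _ _ => Nat.zero_le _) ha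
        omega
      · rintro rfl
        simp
    rw [this]
    simp
  · intro n hn
    have h := NewtonAux.D_Q E y P hE
    have h1 := congrArg (PowerSeries.coeff n) h
    obtain ⟨k, rfl⟩ : ∃ k, n = k + 1 := ⟨n - 1, by omega⟩
    rw [PowerSeries.coeff_succ_X_mul, PowerSeries.coeff_derivative, mul_comm (NewtonAux.Q E y P),
      PowerSeries.coeff_mul, Finset.Nat.sum_antidiagonal_eq_sum_range_succ_mk] at h1
    simp only [NewtonAux.Q, NewtonAux.T, PowerSeries.coeff_mk] at h1
    rw [Finset.sum_range_succ'] at h1
    simp only [Nat.add_eq_zero_iff, one_ne_zero, and_false, if_false, if_true, zero_mul,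
      add_zero] at h1
    have h2 : ((k + 1 : ℕ) : ℂ) * qq P E y (k + 1) = qq P E y (k + 1) * ((k : ℂ) + 1) := by
      push_cast; ring
    rw [h2, h1]
    refine Finset.sum_nbij' (fun i => i + 1) (fun m => m - 1) ?_ ?_ ?_ ?_ ?_
    · intro i hi
      rw [Finset.mem_range] at hi
      rw [Finset.mem_Icc]
      omega
    · intro m hm
      rw [Finset.mem_Icc] at hm
      rw [Finset.mem_range]
      omega
    · intro i _
      simp
    · intro m hm
      rw [Finset.mem_Icc] at hm
      omega
    · intro i _
      rfl

end SP
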