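import Pool.Agent.H382P.PjB
import Pool.Agent.H382P.Mert
import Pool.Agent.H382P.Newton

open Complex Filter Topology Set MeasureTheory

namespace SP

open SG (phi hh nn dd dl)

theorem DpB_Mk_nonneg (T k t : ℝ) : 0 ≤ Mk T k t := by
  unfold Mk
  apply finsum_nonneg
  intro s
  apply finsum_nonneg
  intro _
  positivity

namespace DpB

/-- solution of Newton's recursion grows at most geometrically -/
theorem newton_growth (q t : ℕ → ℂ) (K : ℝ) (hK : 1 ≤ K) (N : ℕ) (h0 : q 0 = 1)
    (ht : ∀ m, 1 ≤ m → m ≤ N → ‖t m‖ ≤ K)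
    (hrec : ∀ n : ℕ, 1 ≤ n → (n : ℂ) * q n = ∑ m ∈ Finset.Icc 1 n, t m * q (n - m)) :
    ∀ n, n ≤ N → ‖q n‖ ≤ K ^ n := by
  intro n
  induction n using Nat.strong_induction_on with
  | _ n ih =>
    intro hn
    rcases Nat.eq_zero_or_pos n with rfl | hpos
    · simp [h0]
    · have h1 := hrec n hpos
      have h2 : (n : ℝ) * ‖q n‖ ≤ n * K ^ n := by
        calc (n : ℝ) * ‖q n‖ = ‖(n : ℂ) * q n‖ := by simp
          _ = ‖∑ m ∈ Finset.Icc 1 n, t m * q (n - m)‖ := by rw [h1]
          _ ≤ ∑ m ∈ Finset.Icc 1 n, ‖t m * q (n - m)‖ := norm_sum_le _ _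
          _ ≤ ∑ m ∈ Finset.Icc 1 n, K ^ n := by
            apply Finset.sum_le_sum
            intro m hm
            rw [Finset.mem_Icc] at hm
            rw [norm_mul]
            calc ‖t m‖ * ‖q (n - m)‖ ≤ K * K ^ (n - m) := by
                  apply mul_le_mul (ht m hm.1 (by omega)) (ih (n - m) (by omega) (by omega))
                    (norm_nonneg _) (by linarith)
              _ = K ^ (n - m + 1) := by rw [pow_succ]; ring
              _ ≤ K ^ n := pow_le_pow_right₀ hK (by omega)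
          _ = n * K ^ n := by simp
      have hn0 : (0 : ℝ) < n := by exact_mod_cast hpos
      exact le_of_mul_le_mul_left h2 hn0

/-- norm of `y_p` -/
theorem norm_y (P : Par) (T t : ℝ) (p : ℕ) (hp : 1 ≤ p) :
    ‖-(chi P T p : ℂ) * (p : ℂ) ^ (hh (dl P.c T) - (⟨1 / 2, t⟩ : ℂ))‖ =
      |chi P T p| * (p : ℝ) ^ (-(1 / 2) : ℝ) := by
  rw [norm_mul, norm_neg, Complex.norm_real, Real.norm_eq_abs]
  congr 1
  rw [← Complex.ofReal_natCast, Complex.norm_cpow_eq_rpow_re_of_pos (by exact_mod_cast hp)]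
  congr 1
  simp [hh]

end DpB

theorem Dp_bound (hRH : RHs) (P : Par) : ∃ C T0 : ℝ, 0 < C ∧ 10 ≤ T0 ∧ ∀ T : ℝ, T0 ≤ T → ∀ t : ℝ,
    T + Real.log T + 1 ≤ t → t ≤ 2 * T - Real.log T - 1 →
    ‖Dp P T (⟨1 / 2, t⟩ : ℂ)‖ ≤ C * (1 + Mk T 1 (t - dl P.c T / 2)) ^ P.B := by
  obtain ⟨C1, T1, hC1, hT1, h1⟩ := Pj_bound hRH P
  obtain ⟨C2, T2, hC2, hT2, h2⟩ := chi_approx P
  set K : ℝ := 1 + P.B * C1 + P.B * 2 ^ P.B * C2 with hK
  have hK1 : 1 ≤ K := by
    rw [hK]; have : (0:ℝ) ≤ P.B * C1 := by positivity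
    have : (0:ℝ) ≤ P.B * 2 ^ P.B * C2 := by positivity
    linarith
  refine ⟨(P.B + 1) * K ^ P.B, max T1 T2, by positivity, le_trans hT1 (le_max_left _ _), ?_⟩
  intro T hT t ht ht'
  have hTT1 : T1 ≤ T := le_trans (le_max_left _ _) hT
  have hTT2 : T2 ≤ T := le_trans (le_max_right _ _) hT
  have hP := h1 T hTT1 t ht ht'
  obtain ⟨hchi, hsum⟩ := h2 T hTT2
  set M := Mk T 1 (t - dl P.c T / 2) with hM
  have hM0 : 0 ≤ M := DpB_Mk_nonneg _ _ _
  set y : ℕ → ℂ := fun p => -(chi P T p : ℂ) * (p : ℂ) ^ (hh (dl P.c T) - (⟨1 / 2, t⟩ : ℂ)) with hy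
  have hmem : ∀ p ∈ PS P T, 1 ≤ p ∧ p.Prime ∧ 2 ≤ Eb P T p := by
    intro p hp
    unfold PS at hp
    rw [Finset.mem_filter, Finset.mem_Icc] at hp
    exact ⟨hp.1.1, hp.2.1, hp.2.2⟩
  have hE : ∀ p ∈ PS P T, 1 ≤ Eb P T p := fun p hp => by have := (hmem p hp).2.2; omega
  obtain ⟨hq0, hq⟩ := newton (PS P T) (Eb P T) hE y
  -- bound for tt
  have htt : ∀ m, 1 ≤ m → m ≤ P.B → ‖tt (PS P T) (Eb P T) y m‖ ≤ K * (1 + M) := by
    intro m hm hmB
    have hsplit : tt (PS P T) (Eb P T) y m =
        (∑ p ∈ (PS P T).filter (fun p => Eb P T p = m), (m : ℂ) * y p) +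
        ∑ p ∈ (PS P T).filter (fun p => ¬ Eb P T p = m),
          if Eb P T p ∣ m then (-1 : ℂ) ^ (m / Eb P T p - 1) * (Eb P T p : ℂ) *
            y p ^ (m / Eb P T p) else 0 := by
      unfold tt
      rw [← Finset.sum_filter_add_sum_filter_not (PS P T) (fun p => Eb P T p = m)]
      congr 1
      apply Finset.sum_congr rfl
      intro p hp
      rw [Finset.mem_filter] at hp
      rw [hp.2]
      simp [Nat.div_self hm]
    rw [hsplit]
    have hA : ‖∑ p ∈ (PS P T).filter (fun p => Eb P T p = m), (m : ℂ) * y p‖ ≤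
        P.B * (C1 * (1 + M)) := by
      have : ∑ p ∈ (PS P T).filter (fun p => Eb P T p = m), (m : ℂ) * y p =
          -(m : ℂ) * ∑ p ∈ (PS P T).filter (fun p => Eb P T p = m),
            (chi P T p : ℂ) * (p : ℂ) ^ (hh (dl P.c T) - (⟨1 / 2, t⟩ : ℂ)) := by
        rw [Finset.mul_sum]
        apply Finset.sum_congr rfl
        intro p _
        simp only [hy]; ring
      rw [this, norm_mul, norm_neg, Complex.norm_natCast]
      apply mul_le_mul (by exact_mod_cast hmB) (hP m) (norm_nonneg _) (by positivity)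
    have hB : ‖∑ p ∈ (PS P T).filter (fun p => ¬ Eb P T p = m),
          if Eb P T p ∣ m then (-1 : ℂ) ^ (m / Eb P T p - 1) * (Eb P T p : ℂ) *
            y p ^ (m / Eb P T p) else 0‖ ≤ P.B * 2 ^ P.B * C2 := by
      calc _ ≤ ∑ p ∈ (PS P T).filter (fun p => ¬ Eb P T p = m),
            ‖if Eb P T p ∣ m then (-1 : ℂ) ^ (m / Eb P T p - 1) * (Eb P T p : ℂ) *
              y p ^ (m / Eb P T p) else 0‖ := norm_sum_le _ _
        _ ≤ ∑ p ∈ (PS P T).filter (fun p => ¬ Eb P T p = m), P.B * 2 ^ P.B * (1 / p : ℝ) := by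
          apply Finset.sum_le_sum
          intro p hp
          rw [Finset.mem_filter] at hp
          obtain ⟨hp1, hpp, hE2⟩ := hmem p hp.1
          have hpB : (0:ℝ) ≤ P.B * 2 ^ P.B * (1 / p : ℝ) := by positivity
          split_ifs with hd
          · obtain ⟨r, hr⟩ := hd
            have hEpos : 0 < Eb P T p := by omega
            have hdiv : m / Eb P T p = r := by rw [hr]; exact Nat.mul_div_cancel_left r hEpos
            have hr2 : 2 ≤ r := by
              by_contra hlt
              have : r = 0 ∨ r = 1 := by omega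
              rcases this with h | h
              · rw [h] at hr; omega
              · rw [h, mul_one] at hr; exact hp.2 hr.symm
            have hrB : r ≤ P.B := by
              calc r ≤ Eb P T p * r := Nat.le_mul_of_pos_left r hEpos
                _ = m := hr.symm
                _ ≤ P.B := hmB
            rw [hdiv, norm_mul, norm_mul, norm_pow, norm_neg, norm_one, one_pow, one_mul,
              Complex.norm_natCast, norm_pow]
            have hyp : ‖y p‖ ≤ 2 * (p : ℝ) ^ (-(1 / 2) : ℝ) := by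
              have := DpB.norm_y P T t p hp1
              simp only [hy]
              rw [this]
              apply mul_le_mul_of_nonneg_right (hchi p hp.1).2.2 (by positivity)
            have hpR : (1:ℝ) ≤ p := by exact_mod_cast hp1
            have hyr : ‖y p‖ ^ r ≤ 2 ^ P.B * (1 / p : ℝ) := by
              calc ‖y p‖ ^ r ≤ (2 * (p : ℝ) ^ (-(1 / 2) : ℝ)) ^ r :=
                    pow_le_pow_left₀ (norm_nonneg _) hyp r
                _ = 2 ^ r * ((p : ℝ) ^ (-(1 / 2) : ℝ)) ^ r := mul_pow _ _ _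
                _ ≤ 2 ^ P.B * ((p : ℝ) ^ (-(1 / 2) : ℝ)) ^ 2 := by
                    apply mul_le_mul
                    · exact pow_le_pow_right₀ (by norm_num) hrB
                    · apply pow_le_pow_of_le_one (by positivity) _ hr2
                      exact Real.rpow_le_one_of_one_le_of_nonpos hpR (by norm_num)
                    · positivity
                    · positivity
                _ = 2 ^ P.B * (1 / p : ℝ) := by
                    congr 1
                    rw [← Real.rpow_natCast, ← Real.rpow_mul (by positivity)]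
                    norm_num
                    rw [Real.rpow_neg_one]
            calc (Eb P T p : ℝ) * ‖y p‖ ^ r ≤ P.B * (2 ^ P.B * (1 / p : ℝ)) := by
                  apply mul_le_mul _ hyr (by positivity) (by positivity)
                  exact_mod_cast (hchi p hp.1).1
              _ = P.B * 2 ^ P.B * (1 / p : ℝ) := by ring
          · rw [norm_zero]; exact hpB
        _ ≤ ∑ p ∈ PS P T, P.B * 2 ^ P.B * (1 / p : ℝ) := by
          apply Finset.sum_le_sum_of_subset_of_nonneg (Finset.filter_subset _ _)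
          intro p _ _
          positivity
        _ = P.B * 2 ^ P.B * ∑ p ∈ PS P T, (1 / p : ℝ) := by rw [Finset.mul_sum]
        _ ≤ P.B * 2 ^ P.B * C2 := by
          apply mul_le_mul_of_nonneg_left hsum (by positivity)
    calc _ ≤ P.B * (C1 * (1 + M)) + P.B * 2 ^ P.B * C2 := le_trans (norm_add_le _ _) (add_le_add hA hB)
      _ ≤ K * (1 + M) := by
        rw [hK]
        have e1 : 0 ≤ (P.B : ℝ) * 2 ^ P.B * C2 := by positivity
        have e2 := mul_nonneg e1 hM0
        nlinarith
  have hKM : 1 ≤ K * (1 + M) := by nlinarith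
  have hqn := DpB.newton_growth (qq (PS P T) (Eb P T) y) (tt (PS P T) (Eb P T) y) (K * (1 + M))
    hKM P.B hq0 htt hq
  have hD : Dp P T (⟨1 / 2, t⟩ : ℂ) = ∑ n ∈ Finset.range (P.B + 1), qq (PS P T) (Eb P T) y n := rfl
  rw [hD]
  calc _ ≤ ∑ n ∈ Finset.range (P.B + 1), ‖qq (PS P T) (Eb P T) y n‖ := norm_sum_le _ _
    _ ≤ ∑ n ∈ Finset.range (P.B + 1), (K * (1 + M)) ^ P.B := by
      apply Finset.sum_le_sum
      intro n hn
      rw [Finset.mem_range] at hn
      exact le_trans (hqn n (by omega)) (pow_le_pow_right₀ hKM (by omega))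
    _ = (P.B + 1) * K ^ P.B * (1 + M) ^ P.B := by
      rw [Finset.sum_const, Finset.card_range, nsmul_eq_mul, mul_pow]
      push_cast
      ring

end SP
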