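import Pool.Agent.H382P.Defs
import Pool.Agent.H370R2.Local
import Pool.Agent.H370R2.DirGood
import Pool.Agent.H382R2.Sign

open Complex Filter Topology Set MeasureTheory Metric

namespace SP
namespace LocAux

open H370 H370.Loc

/-- extraction of zeros together with a bound for the logarithmic derivative of the zero free part -/
lemma extract_bound {f : ℂ → ℂ} {c : ℂ} {r r1 r2 R M : ℝ} (hr2 : 0 < r2) (h21 : r2 < r1)
    (h1r : r1 < r) (hrR : r < R) (hRr : R ≤ 2 * r) (hM : 1 ≤ M) (hMf : ‖f c‖ ≤ M)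
    (hf : AnalyticOnNhd ℂ f (closedBall c R)) (hc : f c ≠ 0)
    (hb : ∀ z ∈ closedBall c R, ‖f z‖ ≤ M) :
    ∃ (s : Multiset ℂ) (g : ℂ → ℂ), (∀ ρ ∈ s, ρ ∈ closedBall c r ∧ f ρ = 0) ∧
      AnalyticOnNhd ℂ g (closedBall c R) ∧ (∀ z, f z = Pf s z * g z) ∧
      (∀ z ∈ closedBall c r, g z ≠ 0) ∧
      ∀ z ∈ closedBall c r2, ‖logDeriv g z‖ ≤
        2 * (Real.log (M / ‖f c‖) + Real.log (M / ‖f c‖) / Real.log (R / r) *
          Real.log (r / (R - r)) + 1) * r1 / (r - r1) / (r1 - r2) := by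
  have hr : 0 < r := by linarith
  have hR : 0 < R := by linarith
  obtain ⟨s, g, hs, hg, hfg, hg0, hcard⟩ := extract hr hrR hM hf hc hb
  refine ⟨s, g, hs, hg, hfg, hg0, ?_⟩
  intro z hz
  have hfc : 0 < ‖f c‖ := norm_pos_iff.2 hc
  set n := Multiset.card s with hn
  have hlogM : 0 ≤ Real.log (M / ‖f c‖) := Real.log_nonneg (by rw [le_div_iff₀ hfc]; linarith)
  have hRr0 : 0 < R - r := by linarith
  have hq : 1 ≤ r / (R - r) := by rw [le_div_iff₀ hRr0]; linarith
  have hlogq : 0 ≤ Real.log (r / (R - r)) := Real.log_nonneg hq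
  -- bounds for g
  have hgsphere : ∀ w ∈ sphere c R, ‖g w‖ ≤ M / (R - r) ^ n := by
    intro w hw
    have hwR := sphere_subset_closedBall hw
    have h1 : (R - r) ^ n ≤ ‖Pf s w‖ := Pf_norm_ge hRr0.le fun ρ hρ => by
      have h2 := (hs ρ hρ).1
      rw [mem_closedBall, dist_eq_norm] at h2
      rw [mem_sphere, dist_eq_norm] at hw
      have h3 : ‖w - c‖ ≤ ‖w - ρ‖ + ‖ρ - c‖ := by
        calc ‖w - c‖ = ‖(w - ρ) + (ρ - c)‖ := by congr 1; ring
          _ ≤ _ := norm_add_le _ _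
      linarith
    rw [le_div_iff₀ (by positivity)]
    calc ‖g w‖ * (R - r) ^ n ≤ ‖g w‖ * ‖Pf s w‖ := mul_le_mul_of_nonneg_left h1 (norm_nonneg _)
      _ = ‖f w‖ := by rw [hfg w, norm_mul, mul_comm]
      _ ≤ M := hb w hwR
  have hgball : ∀ w ∈ closedBall c R, ‖g w‖ ≤ M / (R - r) ^ n := by
    intro w hw
    refine Complex.norm_le_of_forall_mem_frontier_norm_le (U := ball c R) isBounded_ball ?_ ?_ ?_
    · apply DifferentiableOn.diffContOnCl
      rw [closure_ball c hR.ne']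
      exact fun x hx => (hg x hx).differentiableAt.differentiableWithinAt
    · intro x hx
      rw [frontier_ball c hR.ne'] at hx
      exact hgsphere x hx
    · rwa [closure_ball c hR.ne']
  have hgc : ‖f c‖ / r ^ n ≤ ‖g c‖ := by
    rw [div_le_iff₀ (by positivity)]
    have h1 : ‖Pf s c‖ ≤ r ^ n := Pf_norm_le fun ρ hρ => by
      have h2 := (hs ρ hρ).1
      rw [mem_closedBall, dist_eq_norm, norm_sub_rev] at h2
      exact h2
    calc ‖f c‖ = ‖g c‖ * ‖Pf s c‖ := by rw [hfg c, norm_mul, mul_comm]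
      _ ≤ ‖g c‖ * r ^ n := mul_le_mul_of_nonneg_left h1 (norm_nonneg _)
  set B : ℝ := Real.log (M / ‖f c‖) + n * Real.log (r / (R - r)) with hB
  have hB0 : 0 ≤ B := by positivity
  have hexpB : Real.exp B = M / ‖f c‖ * (r / (R - r)) ^ n := by
    rw [hB, Real.exp_add, Real.exp_log (by positivity), Real.exp_nat_mul,
      Real.exp_log (by positivity)]
  have hgb : ∀ w ∈ closedBall c r, ‖g w‖ ≤ Real.exp B * ‖g c‖ := by
    intro w hw
    refine (hgball w (closedBall_subset_closedBall hrR.le hw)).trans ?_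
    rw [hexpB]
    calc M / (R - r) ^ n = M / ‖f c‖ * (r / (R - r)) ^ n * (‖f c‖ / r ^ n) := by
          rw [div_pow]; field_simp
      _ ≤ _ := mul_le_mul_of_nonneg_left hgc (by positivity)
  have hlg := logDeriv_zero_free hr2 h21 h1r hB0
    (hg.mono (closedBall_subset_closedBall hrR.le)) hg0 hgb hz
  refine hlg.trans ?_
  have h8 : B ≤ Real.log (M / ‖f c‖) + Real.log (M / ‖f c‖) / Real.log (R / r) *
          Real.log (r / (R - r)) := by
    rw [hB]
    have := mul_le_mul_of_nonneg_right hcard hlogq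
    linarith
  have h9 : 0 < r - r1 := by linarith
  have h10 : 0 < r1 - r2 := by linarith
  have h11 : 0 < r1 := by linarith
  gcongr

/-- multiplicity in the multiset is the order of vanishing -/
lemma count_eq_mult {f g : ℂ → ℂ} {s : Multiset ℂ} {ρ : ℂ} (hf : AnalyticAt ℂ f ρ)
    (hg : AnalyticAt ℂ g ρ) (hg0 : g ρ ≠ 0) (h : ∀ z, f z = Pf s z * g z) :
    mult f ρ = s.count ρ := by
  have h1 : s = Multiset.replicate (s.count ρ) ρ + s.filter (fun x => ¬ (ρ = x)) := by
    rw [← Multiset.filter_eq]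
    exact (Multiset.filter_add_not _ s).symm
  have h2 : ∀ z, Pf s z = (z - ρ) ^ (s.count ρ) * Pf (s.filter (fun x => ¬ (ρ = x))) z := by
    intro z
    conv_lhs => rw [h1]
    unfold Pf
    rw [Multiset.map_add, Multiset.prod_add, Multiset.map_replicate, Multiset.prod_replicate]
  have h3 : analyticOrderAt f ρ = (s.count ρ : ℕ∞) := by
    rw [hf.analyticOrderAt_eq_natCast]
    refine ⟨fun z => Pf (s.filter (fun x => ¬ (ρ = x))) z * g z, ?_, ?_, ?_⟩
    · exact ((Pf_diff _).analyticAt ρ).mul hg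
    · refine mul_ne_zero (Pf_ne_zero fun x hx he => ?_) hg0
      rw [Multiset.mem_filter] at hx
      exact hx.2 he
    · filter_upwards with z
      rw [h z, h2 z, smul_eq_mul, mul_assoc]
  unfold mult analyticOrderNatAt
  rw [h3]
  simp

/-- logarithmic derivative of the product -/
lemma logDeriv_Pf {s : Multiset ℂ} {z : ℂ} (h : ∀ ρ ∈ s, z ≠ ρ) :
    logDeriv (Pf s) z = ∑ ρ ∈ s.toFinset, (s.count ρ : ℂ) / (z - ρ) := by
  have key : logDeriv (Pf s) z = (s.map (fun ρ => 1 / (z - ρ))).sum := by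
    induction s using Multiset.induction_on with
    | empty =>
      have : Pf 0 = fun _ => (1 : ℂ) := funext Pf_zero
      rw [this]
      simp [logDeriv]
    | cons ρ s ih =>
      have : Pf (ρ ::ₘ s) = fun z => (z - ρ) * Pf s z := funext (Pf_cons ρ s)
      have hz : z - ρ ≠ 0 := sub_ne_zero.2 (h ρ (Multiset.mem_cons_self ρ s))
      have hP : Pf s z ≠ 0 := Pf_ne_zero fun ρ' h' => h ρ' (Multiset.mem_cons_of_mem h')
      have e1 : logDeriv (fun z => (z - ρ) * Pf s z) z =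
          logDeriv (fun z => z - ρ) z + logDeriv (Pf s) z :=
        logDeriv_mul z hz hP (differentiableAt_id.sub_const ρ) (Pf_diff s z)
      have e2 : logDeriv (fun z => z - ρ) z = 1 / (z - ρ) := by
        rw [logDeriv_apply]
        congr 1
        simp
      rw [this, e1, e2, ih fun ρ' h' => h ρ' (Multiset.mem_cons_of_mem h'),
        Multiset.map_cons, Multiset.sum_cons]
  rw [key, Finset.sum_multiset_map_count]
  refine Finset.sum_congr rfl fun ρ _ => ?_
  rw [nsmul_eq_mul]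
  ring

lemma conj_half (v : ℝ) : (starRingEnd ℂ) (⟨1 / 2, v⟩ : ℂ) = 1 - (⟨1 / 2, v⟩ : ℂ) := by
  apply Complex.ext
  · simp; norm_num
  · simp

/-- real part of `Λ'/Λ` vanishes on the critical line -/
lemma re_logDeriv_half (v : ℝ) (hv : v ≠ 0) :
    (logDeriv completedRiemannZeta (⟨1 / 2, v⟩ : ℂ)).re = 0 := by
  set s : ℂ := ⟨1 / 2, v⟩ with hs
  have hc : (starRingEnd ℂ) s = 1 - s := conj_half v
  have e1 : (starRingEnd ℂ) (completedRiemannZeta s) = completedRiemannZeta s := by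
    rw [← SG.SignAux.Lam_conj, hc, completedRiemannZeta_one_sub]
  have e2 : deriv completedRiemannZeta (1 - s) = - deriv completedRiemannZeta s := by
    have h1 := deriv_comp_const_sub (f := completedRiemannZeta) (a := 1) (x := s)
    have h2 : (fun x : ℂ => completedRiemannZeta (1 - x)) = completedRiemannZeta := by
      funext x
      exact completedRiemannZeta_one_sub x
    rw [h2] at h1
    rw [h1, neg_neg]
  have e3 : deriv completedRiemannZeta s =
      (starRingEnd ℂ) (deriv completedRiemannZeta ((starRingEnd ℂ) s)) := by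
    have h1 := deriv_conj_conj (f := completedRiemannZeta)
    have h2 : (⇑(starRingEnd ℂ) ∘ completedRiemannZeta ∘ ⇑(starRingEnd ℂ)) = completedRiemannZeta := by
      funext x
      simp only [Function.comp]
      rw [SG.SignAux.Lam_conj, Complex.conj_conj]
    rw [h2] at h1
    exact congrFun h1 s
  rw [hc, e2, map_neg] at e3
  have e4 : (starRingEnd ℂ) (logDeriv completedRiemannZeta s) =
      -(logDeriv completedRiemannZeta s) := by
    rw [logDeriv_apply, map_div₀, e1]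
    have : (starRingEnd ℂ) (deriv completedRiemannZeta s) = - deriv completedRiemannZeta s := by
      exact (neg_eq_iff_eq_neg.mpr e3).symm
    rw [this, neg_div]
  have e5 := congrArg Complex.re e4
  rw [conj_re, neg_re] at e5
  linarith

/-- the finite set of zeros near `t` -/
noncomputable def AS (T t : ℝ) (h : 1 ≤ T) : Finset ℂ :=
  (zset_finite good_zeta T (2 * T) h).toFinset.filter (fun s => |s.im - t| ≤ 1)

lemma mem_AS {T t : ℝ} (h : 1 ≤ T) (s : ℂ) :
    s ∈ AS T t h ↔ s ∈ ZZ T ∧ |s.im - t| ≤ 1 := by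
  unfold AS ZZ
  rw [Finset.mem_filter, Set.Finite.mem_toFinset]

lemma finsum_AS {M : Type*} [AddCommMonoid M] {T t : ℝ} (h : 1 ≤ T) (f : ℂ → M) :
    ∑ᶠ s ∈ {s : ℂ | s ∈ ZZ T ∧ |s.im - t| ≤ 1}, f s = ∑ s ∈ AS T t h, f s := by
  have : {s : ℂ | s ∈ ZZ T ∧ |s.im - t| ≤ 1} = ↑(AS T t h) := by
    ext s
    simp only [Set.mem_ofPred_eq, Finset.mem_coe]
    rw [mem_AS h s]
  rw [this, finsum_mem_coe_finset]

/-- number of zeros near `t` with multiplicity -/
lemma AS_count : ∃ C : ℝ, 0 < C ∧ ∀ (T t : ℝ) (h : 1 ≤ T), 4 ≤ t →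
    ∑ s ∈ AS T t h, (mu s : ℝ) ≤ C * Real.log t := by
  obtain ⟨C0, hC0, hz⟩ := zcount good_zeta
  refine ⟨2 * C0, by positivity, fun T t h ht => ?_⟩
  classical
  have h1 := hz t (by linarith)
  have h2 := hz (t - 1) (by linarith)
  have hf1 := zset_finite good_zeta (t - 1) (t + 1) (by linarith)
  have hf2 := zset_finite good_zeta (t - 1 - 1) (t - 1 + 1) (by linarith)
  have e1 : NN riemannZeta (t - 1) (t + 1) = ∑ s ∈ hf1.toFinset, mult riemannZeta s := by
    unfold NN
    exact finsum_mem_eq_finite_toFinset_sum _ hf1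
  have e2 : NN riemannZeta (t - 1 - 1) (t - 1 + 1) = ∑ s ∈ hf2.toFinset, mult riemannZeta s := by
    unfold NN
    exact finsum_mem_eq_finite_toFinset_sum _ hf2
  have e3 : ∑ s ∈ AS T t h, mu s ≤ NN riemannZeta (t - 1) (t + 1) +
      NN riemannZeta (t - 1 - 1) (t - 1 + 1) := by
    rw [e1, e2]
    have hsub : AS T t h ⊆ hf1.toFinset ∪ hf2.toFinset := by
      intro s hs
      rw [mem_AS] at hs
      obtain ⟨⟨a1, a2, a3, a4, a5⟩, h6⟩ := hs
      rw [abs_le] at h6
      rw [Finset.mem_union, Set.Finite.mem_toFinset, Set.Finite.mem_toFinset]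
      by_cases h7 : t - 1 < s.im
      · exact Or.inl ⟨a1, a2, h7, by linarith, a5⟩
      · exact Or.inr ⟨a1, a2, by linarith, by linarith, a5⟩
    refine (Finset.sum_le_sum_of_subset hsub).trans ?_
    refine (Finset.sum_le_sum_of_subset (f := fun s => mu s) (Finset.Subset.refl _)).trans ?_
    have := Finset.sum_union_inter (s₁ := hf1.toFinset) (s₂ := hf2.toFinset) (f := fun s => mu s)
    unfold mu at this ⊢
    omega
  have e4 : (∑ s ∈ AS T t h, (mu s : ℝ)) ≤ (NN riemannZeta (t - 1) (t + 1) : ℝ) +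
      NN riemannZeta (t - 1 - 1) (t - 1 + 1) := by
    exact_mod_cast e3
  have h3 : Real.log (t - 1) ≤ Real.log t := Real.log_le_log (by linarith) (by linarith)
  have h4 : C0 * Real.log (t - 1) ≤ C0 * Real.log t := mul_le_mul_of_nonneg_left h3 hC0.le
  linarith

lemma AS_re (hRH : RHs) {T t : ℝ} (h : 1 ≤ T) {s : ℂ} (hs : s ∈ AS T t h) : s.re = 1 / 2 := by
  rw [mem_AS] at hs
  obtain ⟨⟨a1, a2, a3, a4, a5⟩, h6⟩ := hs
  exact hRH s a1 a2 a5

/-- the regular part of `Λ'/Λ` -/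
lemma local_G (hRH : RHs) : ∃ C : ℝ, 0 < C ∧ ∀ (T : ℝ) (h : 1 ≤ T), 10 ≤ T → ∀ t : ℝ,
    T + 2 ≤ t → t ≤ 2 * T - 2 → ∃ G : ℂ → ℂ,
      (∀ z : ℂ, |z.re - 1 / 2| ≤ 1 / 14 → |z.im - t| ≤ 1 / 7 → DifferentiableAt ℂ G z ∧
        ‖G z‖ ≤ C * Real.log t) ∧
      (∀ z : ℂ, |z.re - 1 / 2| ≤ 1 / 14 → |z.im - t| ≤ 1 / 7 → riemannZeta z ≠ 0 →
        logDeriv completedRiemannZeta z = G z + ∑ ρ ∈ AS T t h, (mu ρ : ℂ) / (z - ρ)) := by
  classical
  obtain ⟨K, hK, hdata⟩ := ball_data good_zeta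
  obtain ⟨C0, hC0, hcount⟩ := AS_count
  obtain ⟨C1, hC1, hGam⟩ := H370.DL.logDeriv_Gammaℝ_bound
  set q : ℝ := Real.log (1.9 / 1.8) with hq
  have hq0 : 0 < q := Real.log_pos (by norm_num)
  set ℓ : ℝ := Real.log (1.8 / (1.9 - 1.8)) with hℓ
  have hℓ0 : 0 < ℓ := Real.log_pos (by norm_num)
  set D1 : ℝ := 2 * (K + K / q * ℓ + 1) * 1.7 / (1.8 - 1.7) / (1.7 - 1.6) with hD1
  have hD10 : 0 < D1 := by
    have : (0 : ℝ) < 1.8 - 1.7 := by norm_num
    have : (0 : ℝ) < 1.7 - 1.6 := by norm_num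
    positivity
  refine ⟨(C1 + 1) + D1 + 2 * C0, by positivity, fun T h hT t ht1 ht2 => ?_⟩
  have ht3 : 12 ≤ t := by linarith
  have hlt : 1 ≤ Real.log t := one_le_log (by linarith)
  obtain ⟨M, hM1, han, hF0, hb, hMc, hL0, hLM⟩ := hdata t (by linarith)
  obtain ⟨s, g, hs, hg, hfg, hg0, hlg⟩ := extract_bound (f := riemannZeta) (c := ⟨2, t⟩)
    (r := 1.8) (r1 := 1.7) (r2 := 1.6) (R := 1.9) (M := M) (by norm_num) (by norm_num)
    (by norm_num) (by norm_num) (by norm_num) hM1 hMc han hF0 hb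
  -- bound for logDeriv g
  have hlg' : ∀ z ∈ closedBall (⟨2, t⟩ : ℂ) 1.6, ‖logDeriv g z‖ ≤ D1 * Real.log t := by
    intro z hz
    refine (hlg z hz).trans ?_
    set X := Real.log (M / ‖riemannZeta ⟨2, t⟩‖) with hX
    have h1 : X / q * ℓ ≤ K * Real.log t / q * ℓ := by gcongr
    have h2 : X + X / q * ℓ + 1 ≤ (K + K / q * ℓ + 1) * Real.log t := by
      have h3 : K * Real.log t / q * ℓ = K / q * ℓ * Real.log t := by ring
      rw [h3] at h1
      nlinarith
    have h4 : (0 : ℝ) < 1.8 - 1.7 := by norm_num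
    have h5 : (0 : ℝ) < 1.7 - 1.6 := by norm_num
    calc _ ≤ 2 * ((K + K / q * ℓ + 1) * Real.log t) * 1.7 / (1.8 - 1.7) / (1.7 - 1.6) := by
          gcongr
      _ = D1 * Real.log t := by rw [hD1]; ring
  -- points of the rectangle are in the ball
  have hrect : ∀ z : ℂ, |z.re - 1 / 2| ≤ 1 / 14 → |z.im - t| ≤ 1 / 7 →
      z ∈ closedBall (⟨2, t⟩ : ℂ) 1.6 := by
    intro z h1 h2
    rw [mem_closedBall, dist_eq_norm]
    apply abs_le_of_sq_le_sq' _ (by norm_num) |>.2
    rw [← Complex.normSq_eq_norm_sq, Complex.normSq_apply]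
    simp only [sub_re, sub_im]
    rw [abs_le] at h1 h2
    nlinarith
  have hsub1 : closedBall (⟨2, t⟩ : ℂ) 1.6 ⊆ closedBall (⟨2, t⟩ : ℂ) 1.8 :=
    closedBall_subset_closedBall (by norm_num)
  have hsub2 : closedBall (⟨2, t⟩ : ℂ) 1.8 ⊆ closedBall (⟨2, t⟩ : ℂ) 1.9 :=
    closedBall_subset_closedBall (by norm_num)
  -- the zeros in the multiset
  have hsA : s.toFinset ⊆ AS T t h := by
    intro ρ hρ
    rw [Multiset.mem_toFinset] at hρ
    obtain ⟨h1, h2⟩ := hs ρ hρ
    rw [mem_closedBall, dist_eq_norm] at h1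
    have h3 := (Complex.abs_re_le_norm (ρ - ⟨2, t⟩)).trans h1
    have h4 := (Complex.abs_im_le_norm (ρ - ⟨2, t⟩)).trans h1
    simp only [sub_re, sub_im] at h3 h4
    rw [abs_le] at h3 h4
    have hre0 : 0 < ρ.re := by norm_num at h3 ⊢; linarith [h3.1]
    have him0 : 1 ≤ ρ.im := by norm_num at h4 ⊢; linarith [h4.1]
    have hre1 : ρ.re < 1 := by
      by_contra hcon
      push Not at hcon
      exact good_zeta.nzr ρ hcon him0 h2
    have hre : ρ.re = 1 / 2 := hRH ρ hre0 hre1 h2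
    have h5 : ‖ρ - ⟨2, t⟩‖ ^ 2 ≤ 1.8 ^ 2 := pow_le_pow_left₀ (norm_nonneg _) h1 2
    rw [← Complex.normSq_eq_norm_sq, Complex.normSq_apply] at h5
    simp only [sub_re, sub_im] at h5
    rw [hre] at h5
    have h6 : |ρ.im - t| ≤ 1 := by
      apply abs_le_of_sq_le_sq _ (by norm_num)
      norm_num at h5
      nlinarith
    rw [mem_AS]
    rw [abs_le] at h6
    exact ⟨⟨hre0, hre1, by linarith, by linarith, h2⟩, abs_le.2 h6⟩
  -- the remaining zeros are far
  have hfar : ∀ ρ ∈ AS T t h \ s.toFinset, 0.99 < (ρ.im - t) ^ 2 := by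
    intro ρ hρ
    rw [Finset.mem_sdiff, Multiset.mem_toFinset] at hρ
    obtain ⟨h1, h2⟩ := hρ
    have hre := AS_re hRH h h1
    rw [mem_AS] at h1
    obtain ⟨⟨a1, a2, a3, a4, a5⟩, h6⟩ := h1
    by_contra hcon
    push Not at hcon
    apply h2
    have hball : ρ ∈ closedBall (⟨2, t⟩ : ℂ) 1.8 := by
      rw [mem_closedBall, dist_eq_norm]
      apply abs_le_of_sq_le_sq' _ (by norm_num) |>.2
      rw [← Complex.normSq_eq_norm_sq, Complex.normSq_apply]
      simp only [sub_re, sub_im]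
      rw [hre]
      norm_num at hcon ⊢
      nlinarith
    by_contra hns
    have h7 : Pf s ρ ≠ 0 := Pf_ne_zero fun x hx he => hns (he ▸ hx)
    have h8 := hfg ρ
    rw [a5] at h8
    exact mul_ne_zero h7 (hg0 ρ hball) h8.symm
  have hfar2 : ∀ ρ ∈ AS T t h \ s.toFinset, ∀ z : ℂ, |z.im - t| ≤ 1 / 7 → 1 / 2 ≤ ‖z - ρ‖ := by
    intro ρ hρ z hz
    have h1 := hfar ρ hρ
    refine le_trans ?_ (Complex.abs_im_le_norm (z - ρ))
    rw [sub_im]
    by_contra hcon
    push Not at hcon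
    rw [abs_lt] at hcon
    rw [abs_le] at hz
    have h2 : |ρ.im - t| ≤ 0.9 := by
      rw [abs_le]
      constructor <;> norm_num <;> linarith [hcon.1, hcon.2, hz.1, hz.2]
    have h3 : (ρ.im - t) ^ 2 ≤ 0.9 ^ 2 := by
      rw [← sq_abs]
      exact pow_le_pow_left₀ (abs_nonneg _) h2 2
    norm_num at h1 h3
    linarith
  have him : ∀ z : ℂ, |z.im - t| ≤ 1 / 7 → 10 ≤ z.im ∧ z.im ≤ t + 1 := by
    intro z hz
    rw [abs_le] at hz
    constructor <;> linarith [hz.1, hz.2]
  refine ⟨fun z => logDeriv Gammaℝ z + logDeriv g z +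
    -∑ ρ ∈ AS T t h \ s.toFinset, (mu ρ : ℂ) / (z - ρ), ?_, ?_⟩
  · intro z hz1 hz2
    have hzb := hrect z hz1 hz2
    obtain ⟨hi1, hi2⟩ := him z hz2
    have hgz := hg z (hsub2 (hsub1 hzb))
    have hgz0 := hg0 z (hsub1 hzb)
    constructor
    · refine (DifferentiableAt.add ?_ ?_).add (DifferentiableAt.neg ?_)
      · exact ((SG.GamAux.GR_analytic (by linarith)).deriv.div
          (SG.GamAux.GR_analytic (by linarith)) (SG.GamAux.GR_ne (by linarith))).differentiableAt
      · exact (hgz.deriv.div hgz hgz0).differentiableAt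
      · refine DifferentiableAt.fun_sum fun ρ hρ => ?_
        have := hfar2 ρ hρ z hz2
        have hne : z - ρ ≠ 0 := norm_pos_iff.1 (by linarith)
        exact (differentiableAt_const _).div (differentiableAt_id.sub_const _) hne
    · have b1 : ‖logDeriv Gammaℝ z‖ ≤ (C1 + 1) * Real.log t := by
        rw [abs_le] at hz1
        have h1 := hGam z (by linarith [hz1.1]) (by linarith [hz1.2])
          (by rw [abs_of_nonneg] <;> linarith)
        have h2 : ‖(1 / 2 * Real.log |z.im| : ℂ)‖ ≤ Real.log t := by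
          rw [norm_mul]
          have : ‖(1 / 2 : ℂ)‖ = 1 / 2 := by simp
          rw [this, Complex.norm_real, Real.norm_eq_abs, abs_of_nonneg (a := z.im) (by linarith),
            abs_of_nonneg (Real.log_nonneg (by linarith))]
          have h3 : Real.log z.im ≤ 2 * Real.log t :=
            (Real.log_le_log (by linarith) (by linarith)).trans (log_le_two_log (by linarith))
          linarith
        have h4 : ‖logDeriv Gammaℝ z‖ ≤ ‖logDeriv Gammaℝ z - 1 / 2 * Real.log |z.im|‖ +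
            ‖(1 / 2 * Real.log |z.im| : ℂ)‖ := by
          have := norm_add_le (logDeriv Gammaℝ z - 1 / 2 * Real.log |z.im|)
            (1 / 2 * Real.log |z.im| : ℂ)
          rwa [sub_add_cancel] at this
        nlinarith
      have b2 := hlg' z hzb
      have b3 : ‖-∑ ρ ∈ AS T t h \ s.toFinset, (mu ρ : ℂ) / (z - ρ)‖ ≤ 2 * C0 * Real.log t := by
        rw [norm_neg]
        refine (norm_sum_le _ _).trans ?_
        calc ∑ ρ ∈ AS T t h \ s.toFinset, ‖(mu ρ : ℂ) / (z - ρ)‖
            ≤ ∑ ρ ∈ AS T t h \ s.toFinset, 2 * (mu ρ : ℝ) := by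
              refine Finset.sum_le_sum fun ρ hρ => ?_
              have h1 := hfar2 ρ hρ z hz2
              rw [norm_div, Complex.norm_natCast, div_le_iff₀ (by linarith)]
              have : (0 : ℝ) ≤ mu ρ := Nat.cast_nonneg _
              nlinarith
          _ ≤ ∑ ρ ∈ AS T t h, 2 * (mu ρ : ℝ) := by
              refine Finset.sum_le_sum_of_subset_of_nonneg Finset.sdiff_subset fun ρ _ _ => ?_
              have : (0 : ℝ) ≤ mu ρ := Nat.cast_nonneg _
              linarith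
          _ = 2 * ∑ ρ ∈ AS T t h, (mu ρ : ℝ) := by rw [Finset.mul_sum]
          _ ≤ 2 * (C0 * Real.log t) := by
              have := hcount T t h (by linarith)
              linarith
          _ = _ := by ring
      calc _ ≤ ‖logDeriv Gammaℝ z + logDeriv g z‖ + _ := norm_add_le _ _
        _ ≤ (‖logDeriv Gammaℝ z‖ + ‖logDeriv g z‖) + _ := by gcongr; exact norm_add_le _ _
        _ ≤ _ := by nlinarith
  · intro z hz1 hz2 hz0
    have hzb := hrect z hz1 hz2
    obtain ⟨hi1, hi2⟩ := him z hz2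
    have hgz := hg z (hsub2 (hsub1 hzb))
    have hgz0 := hg0 z (hsub1 hzb)
    have hPz : ∀ ρ ∈ s, z ≠ ρ := fun ρ hρ he => hz0 (he ▸ (hs ρ hρ).2)
    have e1 : logDeriv riemannZeta z = logDeriv (Pf s) z + logDeriv g z := by
      have h1 : riemannZeta = fun w => Pf s w * g w := funext hfg
      conv_lhs => rw [h1]
      exact logDeriv_mul z (Pf_ne_zero hPz) hgz0 (Pf_diff s z) hgz.differentiableAt
    have e2 : logDeriv completedRiemannZeta z = logDeriv Gammaℝ z + logDeriv riemannZeta z := by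
      have h1 : completedRiemannZeta =ᶠ[𝓝 z] fun w => Gammaℝ w * riemannZeta w := by
        filter_upwards [H370.DL.eventually_im_ne (s := z) (by linarith)] with w hw
        exact SG.AlgAux.Lam_eq hw
      rw [logDeriv_apply, h1.deriv_eq, h1.self_of_nhds, ← logDeriv_apply]
      exact logDeriv_mul z (SG.GamAux.GR_ne (by linarith)) hz0
        (SG.GamAux.GR_analytic (by linarith)).differentiableAt
        (differentiableAt_riemannZeta (SG.AlgAux.ne_one_of_im (by linarith)))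
    rw [e2, e1, logDeriv_Pf hPz, ← Finset.sum_sdiff hsA]
    have e3 : ∑ ρ ∈ s.toFinset, (s.count ρ : ℂ) / (z - ρ) =
        ∑ ρ ∈ s.toFinset, (mu ρ : ℂ) / (z - ρ) := by
      refine Finset.sum_congr rfl fun ρ hρ => ?_
      rw [Multiset.mem_toFinset] at hρ
      obtain ⟨h1, h2⟩ := hs ρ hρ
      have h3 := count_eq_mult (han ρ (hsub2 h1)) (hg ρ (hsub2 h1)) (hg0 ρ h1) hfg
      unfold mu
      rw [h3]
    rw [e3]
    ring

end LocAux

open LocAux H370 H370.Loc

theorem loc_exp (hRH : RHs) : ∃ C T0 : ℝ, 0 < C ∧ 10 ≤ T0 ∧ ∀ T : ℝ, T0 ≤ T → ∀ t : ℝ,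
    T + 2 ≤ t → t ≤ 2 * T - 2 → ∀ x v : ℝ, 0 < x → x ≤ 1 / 16 → |v - t| ≤ 1 / 16 →
    completedRiemannZeta (⟨1 / 2 + x, v⟩ : ℂ) ≠ 0 ∧
    ‖logDeriv completedRiemannZeta (⟨1 / 2 + x, v⟩ : ℂ) -
      ∑ᶠ s ∈ {s : ℂ | s ∈ ZZ T ∧ |s.im - t| ≤ 1}, (mu s : ℂ) / ((x : ℂ) + I * (v - s.im : ℝ))‖ ≤
        C * Real.log T ∧
    |(logDeriv completedRiemannZeta (⟨1 / 2 + x, v⟩ : ℂ)).re -
      ∑ᶠ s ∈ {s : ℂ | s ∈ ZZ T ∧ |s.im - t| ≤ 1}, (mu s : ℝ) * x / (x ^ 2 + (v - s.im) ^ 2)| ≤
        C * x * Real.log T := by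
  obtain ⟨C, hC, hG⟩ := local_G hRH
  refine ⟨2 * C + 100 * C, 10, by positivity, le_rfl, ?_⟩
  intro T hT t ht1 ht2 x v hx hx1 hv
  have h : 1 ≤ T := by linarith
  obtain ⟨G, hG1, hG2⟩ := hG T h hT t ht1 ht2
  have hlT : 1 ≤ Real.log T := one_le_log (by linarith)
  have hlt : Real.log t ≤ 2 * Real.log T := by
    have h1 : Real.log t ≤ Real.log (T ^ 2) := Real.log_le_log (by linarith) (by nlinarith)
    rw [Real.log_pow] at h1
    exact_mod_cast h1
  have hlt0 : 0 ≤ Real.log t := Real.log_nonneg (by linarith)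
  rw [abs_le] at hv
  set z : ℂ := ⟨1 / 2 + x, v⟩ with hz
  have hzre : z.re = 1 / 2 + x := rfl
  have hzim : z.im = v := rfl
  have hz1 : |z.re - 1 / 2| ≤ 1 / 14 := by
    rw [hzre, abs_le]; constructor <;> linarith
  have hz2 : |z.im - t| ≤ 1 / 7 := by
    rw [hzim, abs_le]; constructor <;> linarith
  have hζ : riemannZeta z ≠ 0 := by
    intro h0
    have := hRH z (by rw [hzre]; linarith) (by rw [hzre]; linarith) h0
    rw [hzre] at this
    linarith
  have hzim0 : z.im ≠ 0 := by rw [hzim]; linarith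
  have hΛ : completedRiemannZeta z ≠ 0 := by
    rw [SG.AlgAux.Lam_eq hzim0]
    exact mul_ne_zero (SG.GamAux.GR_ne hzim0) hζ
  have hmain := hG2 z hz1 hz2 hζ
  have hsum : ∑ ρ ∈ AS T t h, (mu ρ : ℂ) / (z - ρ) =
      ∑ ρ ∈ AS T t h, (mu ρ : ℂ) / ((x : ℂ) + I * (v - ρ.im : ℝ)) := by
    refine Finset.sum_congr rfl fun ρ hρ => ?_
    have hre := AS_re hRH h hρ
    congr 1
    apply Complex.ext
    · simp [hz, hre]
    · simp [hz]
  have hsumre : ∀ y w : ℝ, (∑ ρ ∈ AS T t h, (mu ρ : ℂ) / ((y : ℂ) + I * (w - ρ.im : ℝ))).re =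
      ∑ ρ ∈ AS T t h, (mu ρ : ℝ) * y / (y ^ 2 + (w - ρ.im) ^ 2) := by
    intro y w
    rw [Complex.re_sum]
    refine Finset.sum_congr rfl fun ρ hρ => ?_
    rw [Complex.div_re]
    have e1 : normSq ((y : ℂ) + I * (w - ρ.im : ℝ)) = y ^ 2 + (w - ρ.im) ^ 2 := by
      rw [Complex.normSq_apply]; simp; ring
    rw [e1]
    simp
  refine ⟨hΛ, ?_, ?_⟩
  · rw [finsum_AS h, ← hsum, hmain, add_sub_cancel_right]
    refine (hG1 z hz1 hz2).2.trans ?_
    nlinarith
  · rw [finsum_AS h, ← hsumre x v, ← hsum, hmain, add_re, add_sub_cancel_right]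
    -- on the critical line the real part vanishes
    set z0 : ℂ := ⟨1 / 2, v⟩ with hz0
    have hz0re : z0.re = 1 / 2 := rfl
    have hz0im : z0.im = v := rfl
    have key : ∀ w : ℝ, |w - t| ≤ 1 / 7 → (∀ ρ ∈ AS T t h, ρ.im ≠ w) → (G ⟨1 / 2, w⟩).re = 0 := by
      intro w hw hne
      have hw' := abs_le.1 hw
      have h1 : riemannZeta (⟨1 / 2, w⟩ : ℂ) ≠ 0 := by
        intro h0
        refine hne ⟨1 / 2, w⟩ ?_ rfl
        rw [mem_AS]
        exact ⟨⟨by norm_num, by norm_num, by simp only; linarith, by simp only; linarith, h0⟩,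
          by simp only; linarith⟩
      have h2 := hG2 ⟨1 / 2, w⟩ (by simp) (by simpa using hw) h1
      have h3 : ∑ ρ ∈ AS T t h, (mu ρ : ℂ) / ((⟨1 / 2, w⟩ : ℂ) - ρ) =
          ∑ ρ ∈ AS T t h, (mu ρ : ℂ) / (((0 : ℝ) : ℂ) + I * (w - ρ.im : ℝ)) := by
        refine Finset.sum_congr rfl fun ρ hρ => ?_
        have hre := AS_re hRH h hρ
        congr 1
        apply Complex.ext
        · simp [hre]
        · simp
      have h4 := congrArg Complex.re h2
      rw [add_re, h3, hsumre 0 w, re_logDeriv_half w (by linarith)] at h4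
      simp only [mul_zero, zero_div, Finset.sum_const_zero, add_zero] at h4
      exact h4.symm
    have hcont : ContinuousAt (fun w : ℝ => (G (⟨1 / 2, w⟩ : ℂ)).re) v := by
      have h1 : ContinuousAt G (⟨1 / 2, v⟩ : ℂ) :=
        (hG1 ⟨1 / 2, v⟩ (by simp) (by simp only; rw [abs_le]; constructor <;> linarith)).1.continuousAt
      have h2 : Continuous (fun w : ℝ => (⟨1 / 2, w⟩ : ℂ)) := by
        have : (fun w : ℝ => (⟨1 / 2, w⟩ : ℂ)) = fun w : ℝ => (1 / 2 : ℂ) + w * I := by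
          funext w
          apply Complex.ext <;> simp
        rw [this]
        fun_prop
      exact Complex.continuous_re.continuousAt.comp (h1.comp h2.continuousAt)
    have hzero : (G z0).re = 0 := by
      have h1 : Tendsto (fun w : ℝ => (G (⟨1 / 2, w⟩ : ℂ)).re) (𝓝[≠] v) (𝓝 (G z0).re) :=
        hcont.tendsto.mono_left nhdsWithin_le_nhds
      have h2 : Tendsto (fun w : ℝ => (G (⟨1 / 2, w⟩ : ℂ)).re) (𝓝[≠] v) (𝓝 0) := by
        refine tendsto_const_nhds.congr' ?_
        have h3 : ∀ᶠ w in 𝓝[≠] v, w ∉ ((AS T t h).image (fun ρ : ℂ => ρ.im) \ {v} : Finset ℝ) := by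
          refine Filter.Eventually.filter_mono nhdsWithin_le_nhds ?_
          have h4 : IsClosed (((AS T t h).image (fun ρ : ℂ => ρ.im) \ {v} : Finset ℝ) : Set ℝ) :=
            Finset.isClosed _
          have h5 := h4.isOpen_compl.mem_nhds (x := v) (by simp)
          filter_upwards [h5] with w hw
          simpa using hw
        have h6 : ∀ᶠ w in 𝓝[≠] v, |w - t| ≤ 1 / 7 := by
          refine Filter.Eventually.filter_mono nhdsWithin_le_nhds ?_
          have h7 : Ioo (t - 1 / 7) (t + 1 / 7) ∈ 𝓝 v := Ioo_mem_nhds (by linarith) (by linarith)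
          filter_upwards [h7] with w hw
          rw [abs_le]
          constructor <;> linarith [hw.1, hw.2]
        filter_upwards [h3, h6, self_mem_nhdsWithin] with w hw1 hw2 hw3
        refine (key w hw2 fun ρ hρ he => hw1 ?_).symm
        rw [Finset.mem_sdiff, Finset.mem_image]
        exact ⟨⟨ρ, hρ, he⟩, by simpa using hw3⟩
      exact tendsto_nhds_unique h1 h2
    have hdist : dist (G z) (G z0) ≤ (2 * (C * Real.log t)) / 0.07 * dist z z0 := by
      have hsub : ∀ w ∈ ball z0 (0.07 : ℝ), |w.re - 1 / 2| ≤ 1 / 14 ∧ |w.im - t| ≤ 1 / 7 := by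
        intro w hw
        rw [mem_ball, dist_eq_norm] at hw
        have h1 := (Complex.abs_re_le_norm (w - z0)).trans hw.le
        have h2 := (Complex.abs_im_le_norm (w - z0)).trans hw.le
        rw [sub_re, hz0re] at h1
        rw [sub_im, hz0im] at h2
        rw [abs_le] at h1 h2 ⊢
        rw [abs_le]
        norm_num at h1 h2 ⊢
        refine ⟨⟨by linarith [h1.1], by linarith [h1.2]⟩, by linarith [h2.1], by linarith [h2.2]⟩
      refine Complex.dist_le_div_mul_dist_of_mapsTo_ball (c := z0) (R₁ := 0.07)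
        (fun w hw => ((hG1 w (hsub w hw).1 (hsub w hw).2).1).differentiableWithinAt) ?_ ?_
      · intro w hw
        rw [mem_closedBall, dist_eq_norm]
        have h1 := (hG1 w (hsub w hw).1 (hsub w hw).2).2
        have h2 := (hG1 z0 (hsub z0 (mem_ball_self (by norm_num))).1
          (hsub z0 (mem_ball_self (by norm_num))).2).2
        refine (norm_sub_le _ _).trans ?_
        linarith
      · rw [mem_ball, dist_eq_norm]
        have : z - z0 = (x : ℂ) := by
          apply Complex.ext <;> simp [hz, hz0]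
        rw [this, Complex.norm_real, Real.norm_eq_abs, abs_of_pos hx]
        norm_num
        linarith
    have hd : dist z z0 = x := by
      rw [dist_eq_norm]
      have : z - z0 = (x : ℂ) := by
        apply Complex.ext <;> simp [hz, hz0]
      rw [this, Complex.norm_real, Real.norm_eq_abs, abs_of_pos hx]
    rw [hd] at hdist
    have h1 : |(G z).re| ≤ dist (G z) (G z0) := by
      rw [dist_eq_norm]
      have := Complex.abs_re_le_norm (G z - G z0)
      rwa [sub_re, hzero, sub_zero] at this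
    refine h1.trans (hdist.trans ?_)
    have h2 : (2 * (C * Real.log t)) / 0.07 ≤ (2 * C + 100 * C) * Real.log T := by
      rw [div_le_iff₀ (by norm_num)]
      have h3 : C * Real.log t ≤ C * (2 * Real.log T) := mul_le_mul_of_nonneg_left hlt hC.le
      have h4 : 0 ≤ C * Real.log T := by positivity
      norm_num
      nlinarith
    calc (2 * (C * Real.log t)) / 0.07 * x ≤ (2 * C + 100 * C) * Real.log T * x := by gcongr
      _ = _ := by ring

end SP
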