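import Pool.Agent.H382P.Defs
import Pool.Agent.H382P.LocExp
import Pool.Agent.H382P.Seg

open Complex Filter Topology Set MeasureTheory

namespace SP

open SG (phi hh nn dd dl)

/-- comparison of two kernels -/
theorem kernel_cmp (a L v t g : ℝ) (ha : 0 < a) (hL : 0 < L) (hv : L * |v - t| ≤ 4) :
    ‖(1 : ℂ) / (((a / L : ℝ) : ℂ) + I * ((v - g : ℝ) : ℂ)) -
      1 / (((a / L : ℝ) : ℂ) + I * ((t - g : ℝ) : ℂ))‖ ≤
      (24 / (min a 1) ^ 2) * (L / (1 + (L * (g - t) / 1) ^ 2)) := by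
  set m : ℝ := min a 1 with hm
  have hm0 : 0 < m := lt_min ha one_pos
  have hma : m ≤ a := min_le_left _ _
  have hm1 : m ≤ 1 := min_le_right _ _
  set p : ℂ := (a : ℂ) + I * ((L * (v - g) : ℝ) : ℂ) with hp
  set q : ℂ := (a : ℂ) + I * ((L * (t - g) : ℝ) : ℂ) with hq
  have hpn : ‖p‖ ^ 2 = a ^ 2 + (L * (v - g)) ^ 2 := by
    rw [Complex.sq_norm, Complex.normSq_apply]
    simp [hp]
    ring
  have hqn : ‖q‖ ^ 2 = a ^ 2 + (L * (t - g)) ^ 2 := by
    rw [Complex.sq_norm, Complex.normSq_apply]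
    simp [hq]
    ring
  have hp0 : p ≠ 0 := by
    intro h0
    rw [h0, norm_zero] at hpn
    nlinarith [sq_nonneg (L * (v - g)), pow_pos ha 2]
  have hq0 : q ≠ 0 := by
    intro h0
    rw [h0, norm_zero] at hqn
    nlinarith [sq_nonneg (L * (t - g)), pow_pos ha 2]
  have hLc : (L : ℂ) ≠ 0 := by exact_mod_cast hL.ne'
  have e1 : (((a / L : ℝ) : ℂ) + I * ((v - g : ℝ) : ℂ)) = p / L := by
    rw [hp, eq_div_iff hLc]
    push_cast
    field_simp
  have e2 : (((a / L : ℝ) : ℂ) + I * ((t - g : ℝ) : ℂ)) = q / L := by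
    rw [hq, eq_div_iff hLc]
    push_cast
    field_simp
  have e3 : (1 : ℂ) / (p / L) - 1 / (q / L) = L * (q - p) / (p * q) := by
    field_simp
  rw [e1, e2, e3, norm_div, norm_mul, norm_mul, Complex.norm_real, Real.norm_of_nonneg hL.le]
  have hqp : ‖q - p‖ ≤ 4 := by
    have : q - p = I * ((L * (t - v) : ℝ) : ℂ) := by
      rw [hp, hq]; push_cast; ring
    rw [this, norm_mul, Complex.norm_I, one_mul, Complex.norm_real, Real.norm_eq_abs, abs_mul,
      abs_of_pos hL, abs_sub_comm]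
    exact hv
  set y : ℝ := L * (g - t) with hy
  have hy2 : (L * (t - g)) ^ 2 = y ^ 2 := by rw [hy]; ring
  have hq2 : m ^ 2 * (1 + y ^ 2) ≤ ‖q‖ ^ 2 := by
    rw [hqn, hy2]
    have h1 : m ^ 2 ≤ a ^ 2 := by gcongr
    have h2 : m ^ 2 ≤ 1 := by nlinarith
    nlinarith [sq_nonneg y]
  have hp2 : m ^ 2 * (1 + y ^ 2) ≤ 36 * ‖p‖ ^ 2 := by
    rw [hpn]
    have h1 : m ^ 2 ≤ a ^ 2 := by gcongr
    have h2 : m ^ 2 ≤ 1 := by nlinarith
    have h3 : y ^ 2 ≤ 2 * (L * (v - g)) ^ 2 + 32 := by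
      have h4 : y = -(L * (v - g)) + L * (v - t) := by rw [hy]; ring
      have h5 : (L * (v - t)) ^ 2 ≤ 16 := by
        have : |L * (v - t)| ≤ 4 := by rw [abs_mul, abs_of_pos hL]; exact hv
        have := abs_le.1 this
        nlinarith [this.1, this.2]
      rw [h4]
      nlinarith [sq_nonneg (L * (v - g) + L * (v - t))]
    nlinarith [sq_nonneg (L * (v - g))]
  have hpq : m ^ 2 * (1 + y ^ 2) ≤ 6 * (‖p‖ * ‖q‖) := by
    have h0 : 0 ≤ m ^ 2 * (1 + y ^ 2) := by positivity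
    have h1 : (m ^ 2 * (1 + y ^ 2)) ^ 2 ≤ (6 * (‖p‖ * ‖q‖)) ^ 2 := by
      calc (m ^ 2 * (1 + y ^ 2)) ^ 2 = (m ^ 2 * (1 + y ^ 2)) * (m ^ 2 * (1 + y ^ 2)) := by ring
        _ ≤ (36 * ‖p‖ ^ 2) * ‖q‖ ^ 2 := mul_le_mul hp2 hq2 h0 (by positivity)
        _ = (6 * (‖p‖ * ‖q‖)) ^ 2 := by ring
    exact (sq_le_sq₀ h0 (by positivity)).1 h1
  have hpq0 : 0 < ‖p‖ * ‖q‖ := mul_pos (norm_pos_iff.2 hp0) (norm_pos_iff.2 hq0)
  have hy1 : (L * (g - t) / 1) ^ 2 = y ^ 2 := by rw [hy, div_one]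
  rw [hy1, div_le_iff₀ hpq0]
  have h7 : 24 / m ^ 2 * (L / (1 + y ^ 2)) * (‖p‖ * ‖q‖) =
      L * 4 * (6 * (‖p‖ * ‖q‖) / (m ^ 2 * (1 + y ^ 2))) := by
    field_simp
    ring
  rw [h7]
  have h8 : 1 ≤ 6 * (‖p‖ * ‖q‖) / (m ^ 2 * (1 + y ^ 2)) := by
    rw [one_le_div (by positivity)]
    exact hpq
  calc L * ‖q - p‖ ≤ L * 4 := mul_le_mul_of_nonneg_left hqp hL.le
    _ = L * 4 * 1 := by ring
    _ ≤ _ := mul_le_mul_of_nonneg_left h8 (by positivity)


/-- kernel with and without cut-off -/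
theorem kernel_gauss (x y : ℝ) (P : Prop) [Decidable P] (hP : P ↔ |y| ≤ 1) :
    ‖(if P then (1 : ℂ) / ((x : ℂ) + I * (y : ℂ)) else 0) -
      (Real.exp (-y ^ 2 / 2) : ℂ) / ((x : ℂ) + I * (y : ℂ))‖ ≤ Real.exp (-y ^ 2 / 2) := by
  have hn : |y| ≤ ‖(x : ℂ) + I * (y : ℂ)‖ := by
    have := Complex.abs_im_le_norm ((x : ℂ) + I * (y : ℂ))
    simp at this
    exact this
  by_cases h : P
  · rw [if_pos h]
    have hy := hP.1 h
    rw [← sub_div, norm_div]
    have e1 : ‖(1 : ℂ) - (Real.exp (-y ^ 2 / 2) : ℂ)‖ ≤ y ^ 2 / 2 := by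
      rw [← Complex.ofReal_one, ← Complex.ofReal_sub, Complex.norm_real, Real.norm_eq_abs, abs_le]
      have h1 := Real.add_one_le_exp (-y ^ 2 / 2)
      have h2 : Real.exp (-y ^ 2 / 2) ≤ 1 := Real.exp_le_one_iff.2 (by nlinarith [sq_nonneg y])
      constructor <;> nlinarith [sq_nonneg y]
    have e2 : (1 / 2 : ℝ) ≤ Real.exp (-y ^ 2 / 2) := by
      have h1 := Real.add_one_le_exp (-y ^ 2 / 2)
      have h2 : y ^ 2 ≤ 1 := by
        have := abs_le.1 hy
        nlinarith [this.1, this.2]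
      linarith
    rcases eq_or_ne y 0 with h0 | h0
    · subst h0
      have : ‖(1 : ℂ) - (Real.exp (-(0:ℝ) ^ 2 / 2) : ℂ)‖ = 0 := by
        apply le_antisymm (by simpa using e1) (norm_nonneg _)
      rw [this, zero_div]
      positivity
    · have hy0 : 0 < |y| := abs_pos.2 h0
      calc ‖(1 : ℂ) - (Real.exp (-y ^ 2 / 2) : ℂ)‖ / ‖(x : ℂ) + I * (y : ℂ)‖ ≤ (y ^ 2 / 2) / |y| :=
            div_le_div₀ (by positivity) e1 hy0 hn
        _ = |y| / 2 := by rw [← sq_abs]; field_simp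
        _ ≤ Real.exp (-y ^ 2 / 2) := by linarith
  · rw [if_neg h, zero_sub, norm_neg, norm_div]
    have hy : 1 < |y| := by
      by_contra h'
      exact h (hP.2 (not_lt.1 h'))
    rw [Complex.norm_real, Real.norm_of_nonneg (Real.exp_pos _).le]
    exact div_le_self (Real.exp_pos _).le (hy.le.trans hn)

theorem ff_bound (hRH : RHs) (c a : ℝ) (hc : 0 < c) (hc1 : c < 1) (ha : 0 < a) :
    ∃ C T0 : ℝ, 0 < C ∧ 10 ≤ T0 ∧ ∀ T : ℝ, T0 ≤ T → ∀ t : ℝ,
    T + Real.log T + 1 ≤ t → t ≤ 2 * T - Real.log T - 1 →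
    ‖ff c T (⟨1 / 2 + a / Real.log T, t⟩ : ℂ)‖ ≤
      Real.exp (C * (1 + ‖Ya T a t‖ + Mk T 1 t)) := by
  classical
  obtain ⟨C1, T1, hC1, hT1, hloc⟩ := loc_exp hRH
  obtain ⟨C2, hC2, hg⟩ := gauss_zeros
  set K : ℝ := 24 / (min a 1) ^ 2 with hK
  have hm0 : 0 < min a 1 := lt_min ha one_pos
  have hK0 : 0 < K := by positivity
  refine ⟨8 * (C1 + C2 + 2 * K + 1), max T1 (Real.exp (16 * a + 80)), by positivity,
    hT1.trans (le_max_left _ _), fun T hT t ht1 ht2 => ?_⟩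
  have hTT1 : T1 ≤ T := (le_max_left _ _).trans hT
  have hT10 : 10 ≤ T := hT1.trans hTT1
  have hTe : Real.exp (16 * a + 80) ≤ T := (le_max_right _ _).trans hT
  have hLb : 16 * a + 80 ≤ Real.log T := (Real.le_log_iff_exp_le (by linarith)).2 hTe
  set L : ℝ := Real.log T with hL
  have hL0 : 0 < L := by linarith
  set δ : ℝ := dl c T with hδ
  have hpi : Real.pi < 4 := by linarith [Real.pi_lt_d2]
  have hδL : L * δ = 2 * Real.pi * c := by
    rw [hδ]; unfold SG.dl; rw [← hL]; field_simp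
  have hδ0 : 0 < δ := by
    rw [hδ]; unfold SG.dl; positivity
  have hδ8 : L * δ ≤ 8 := by
    rw [hδL]; nlinarith [Real.pi_pos]
  have hδs : δ / 2 ≤ 1 / 16 := by
    have : L * (δ / 2) ≤ 4 := by linarith
    by_contra hcon
    push Not at hcon
    nlinarith
  have hx0 : 0 < a / L := by positivity
  have hx1 : a / L ≤ 1 / 16 := by
    rw [div_le_iff₀ hL0]; linarith
  have hfin := ZZ_finite T (by linarith)
  set Z := hfin.toFinset with hZ
  -- the sums
  have hYa : (L : ℂ) * Ya T a t = ∑ s ∈ Z, (mu s : ℂ) *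
      ((Real.exp (-(t - s.im) ^ 2 / 2) : ℂ) / (((a / L : ℝ) : ℂ) + I * ((t - s.im : ℝ) : ℂ))) := by
    unfold Ya
    rw [finsum_mem_eq_finite_toFinset_sum _ hfin, Finset.mul_sum]
    refine Finset.sum_congr rfl fun s _ => ?_
    have hLc : (L : ℂ) ≠ 0 := by exact_mod_cast hL0.ne'
    have e0 : (s.im - t) ^ 2 = (t - s.im) ^ 2 := by ring
    have e1 : (a : ℂ) - I * ((Real.log T * (s.im - t) : ℝ) : ℂ) =
        L * (((a / L : ℝ) : ℂ) + I * ((t - s.im : ℝ) : ℂ)) := by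
      rw [← hL]
      push_cast
      field_simp
      ring
    rw [e1, e0]
    field_simp
  have hG : ∑ s ∈ Z, (mu s : ℝ) * Real.exp (-(t - s.im) ^ 2 / 2) ≤ C2 * L := by
    have := hg T hT10 t
    rw [finsum_mem_eq_finite_toFinset_sum _ hfin] at this
    refine le_trans (le_of_eq ?_) this
    refine Finset.sum_congr rfl fun s _ => ?_
    have e0 : (s.im - t) ^ 2 = (t - s.im) ^ 2 := by ring
    rw [e0]
  have hMk : Mk T 1 t = ∑ s ∈ Z, (mu s : ℝ) * (Real.exp (-(s.im - t) ^ 2 / 2) /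
      (1 + (L * (s.im - t) / 1) ^ 2)) := by
    unfold Mk
    rw [finsum_mem_eq_finite_toFinset_sum _ hfin]
    refine Finset.sum_congr rfl fun s _ => ?_
    rw [mul_div_assoc]
  have hlocal : ∀ v : ℝ, ∑ᶠ s ∈ {s : ℂ | s ∈ ZZ T ∧ |s.im - t| ≤ 1},
      (mu s : ℂ) / (((a / L : ℝ) : ℂ) + I * (v - s.im : ℝ)) =
      ∑ s ∈ Z.filter (fun s => |s.im - t| ≤ 1),
        (mu s : ℂ) * (1 / (((a / L : ℝ) : ℂ) + I * (v - s.im : ℝ))) := by
    intro v
    have e : {s : ℂ | s ∈ ZZ T ∧ |s.im - t| ≤ 1} =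
        ((Z.filter (fun s => |s.im - t| ≤ 1) : Finset ℂ) : Set ℂ) := by
      ext s
      simp [hZ]
    rw [e, finsum_mem_coe_finset]
    refine Finset.sum_congr rfl fun s _ => ?_
    rw [mul_one_div]
  -- bound of the logarithmic derivative on the segment
  set B : ℝ := L * (C1 + C2 + 2 * K * Mk T 1 t + ‖Ya T a t‖) with hB
  have hMk0 : 0 ≤ Mk T 1 t := by
    rw [hMk]
    exact Finset.sum_nonneg fun s _ => by positivity
  have hB0 : 0 ≤ B := by positivity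
  have hbd : ∀ v : ℝ, |v - t| ≤ δ / 2 →
      ‖logDeriv completedRiemannZeta (⟨1 / 2 + a / L, v⟩ : ℂ)‖ ≤ B := by
    intro v hv
    have h1 := (hloc T hTT1 t (by linarith) (by linarith) (a / L) v hx0 hx1 (by linarith)).2.1
    rw [hlocal v] at h1
    have h2 : ‖∑ s ∈ Z.filter (fun s => |s.im - t| ≤ 1),
        (mu s : ℂ) * (1 / (((a / L : ℝ) : ℂ) + I * (v - s.im : ℝ))) -
        ∑ s ∈ Z.filter (fun s => |s.im - t| ≤ 1),
        (mu s : ℂ) * (1 / (((a / L : ℝ) : ℂ) + I * (t - s.im : ℝ)))‖ ≤ 2 * K * L * Mk T 1 t := by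
      rw [← Finset.sum_sub_distrib]
      refine (norm_sum_le _ _).trans ?_
      have h3 : ∀ s ∈ Z.filter (fun s => |s.im - t| ≤ 1),
          ‖(mu s : ℂ) * (1 / (((a / L : ℝ) : ℂ) + I * (v - s.im : ℝ))) -
          (mu s : ℂ) * (1 / (((a / L : ℝ) : ℂ) + I * (t - s.im : ℝ)))‖ ≤
          2 * K * L * ((mu s : ℝ) * (Real.exp (-(s.im - t) ^ 2 / 2) /
            (1 + (L * (s.im - t) / 1) ^ 2))) := by
        intro s hs
        have hs1 := (Finset.mem_filter.1 hs).2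
        rw [← mul_sub, norm_mul, Complex.norm_natCast]
        have h4 := kernel_cmp a L v t s.im ha hL0 (by nlinarith)
        have h5 : (1 : ℝ) ≤ 2 * Real.exp (-(s.im - t) ^ 2 / 2) := by
          have h6 := Real.add_one_le_exp (-(s.im - t) ^ 2 / 2)
          have h7 : (s.im - t) ^ 2 ≤ 1 := by
            have := abs_le.1 hs1
            nlinarith [this.1, this.2]
          linarith
        have h8 : (0 : ℝ) < 1 + (L * (s.im - t) / 1) ^ 2 := by positivity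
        calc (mu s : ℝ) * ‖(1 : ℂ) / (((a / L : ℝ) : ℂ) + I * ((v - s.im : ℝ) : ℂ)) -
              1 / (((a / L : ℝ) : ℂ) + I * ((t - s.im : ℝ) : ℂ))‖
            ≤ (mu s : ℝ) * (K * (L / (1 + (L * (s.im - t) / 1) ^ 2))) :=
              mul_le_mul_of_nonneg_left h4 (Nat.cast_nonneg _)
          _ = ((mu s : ℝ) * K * L / (1 + (L * (s.im - t) / 1) ^ 2)) * 1 := by ring
          _ ≤ ((mu s : ℝ) * K * L / (1 + (L * (s.im - t) / 1) ^ 2)) *
              (2 * Real.exp (-(s.im - t) ^ 2 / 2)) :=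
              mul_le_mul_of_nonneg_left h5 (by positivity)
          _ = _ := by ring
      refine (Finset.sum_le_sum h3).trans ?_
      rw [← Finset.mul_sum, hMk]
      refine mul_le_mul_of_nonneg_left ?_ (by positivity)
      exact Finset.sum_le_sum_of_subset_of_nonneg (Finset.filter_subset _ _)
        fun s _ _ => by positivity
    have h9 : ‖∑ s ∈ Z.filter (fun s => |s.im - t| ≤ 1),
        (mu s : ℂ) * (1 / (((a / L : ℝ) : ℂ) + I * (t - s.im : ℝ))) - (L : ℂ) * Ya T a t‖ ≤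
        C2 * L := by
      rw [hYa, Finset.sum_filter, ← Finset.sum_sub_distrib]
      refine (norm_sum_le _ _).trans (le_trans (Finset.sum_le_sum fun s _ => ?_) hG)
      have h10 := kernel_gauss (a / L) (t - s.im) (|s.im - t| ≤ 1) (by rw [abs_sub_comm])
      have e : (if |s.im - t| ≤ 1 then (mu s : ℂ) *
          (1 / (((a / L : ℝ) : ℂ) + I * (t - s.im : ℝ))) else 0) -
          (mu s : ℂ) * ((Real.exp (-(t - s.im) ^ 2 / 2) : ℂ) /
            (((a / L : ℝ) : ℂ) + I * ((t - s.im : ℝ) : ℂ))) =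
          (mu s : ℂ) * ((if |s.im - t| ≤ 1 then
          (1 / (((a / L : ℝ) : ℂ) + I * (t - s.im : ℝ))) else 0) -
          ((Real.exp (-(t - s.im) ^ 2 / 2) : ℂ) /
            (((a / L : ℝ) : ℂ) + I * ((t - s.im : ℝ) : ℂ)))) := by
        split_ifs <;> ring
      rw [e, norm_mul, Complex.norm_natCast]
      exact mul_le_mul_of_nonneg_left h10 (Nat.cast_nonneg _)
    have h11 : ‖(L : ℂ) * Ya T a t‖ = L * ‖Ya T a t‖ := by
      rw [norm_mul, Complex.norm_real, Real.norm_of_nonneg hL0.le]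
    set X0 := logDeriv completedRiemannZeta (⟨1 / 2 + a / L, v⟩ : ℂ) with hX0
    set X1 := ∑ s ∈ Z.filter (fun s => |s.im - t| ≤ 1),
        (mu s : ℂ) * (1 / (((a / L : ℝ) : ℂ) + I * (v - s.im : ℝ))) with hX1
    set X2 := ∑ s ∈ Z.filter (fun s => |s.im - t| ≤ 1),
        (mu s : ℂ) * (1 / (((a / L : ℝ) : ℂ) + I * (t - s.im : ℝ))) with hX2
    calc ‖X0‖ = ‖(X0 - X1) + (X1 - X2) + (X2 - (L : ℂ) * Ya T a t) + (L : ℂ) * Ya T a t‖ := by
          congr 1; ring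
      _ ≤ ‖X0 - X1‖ + ‖X1 - X2‖ + ‖X2 - (L : ℂ) * Ya T a t‖ + ‖(L : ℂ) * Ya T a t‖ := norm_add₄_le
      _ ≤ C1 * L + 2 * K * L * Mk T 1 t + C2 * L + L * ‖Ya T a t‖ := by
          rw [h11]; linarith
      _ = B := by rw [hB]; ring
  -- conclusion
  have hseg := seg_exp completedRiemannZeta (1 / 2 + a / L) (t - δ / 2) (t + δ / 2) (by linarith)
    (fun v hv => by
      have hvt : |v - t| ≤ δ / 2 := by rw [abs_le]; constructor <;> linarith [hv.1, hv.2]
      refine ⟨analyticAt_completedZeta _ ?_, ?_⟩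
      · have := hv.1
        simp only
        linarith
      · exact (hloc T hTT1 t (by linarith) (by linarith) (a / L) v hx0 hx1 (by linarith)).1)
  have hffe : ff c T (⟨1 / 2 + a / L, t⟩ : ℂ) =
      cexp (-(I * ∫ u in (t - δ / 2)..(t + δ / 2),
        logDeriv completedRiemannZeta ⟨1 / 2 + a / L, u⟩)) := by
    rw [← hseg]
    unfold ff
    rw [hh_sub, hh_add]
  have hint : ‖∫ u in (t - δ / 2)..(t + δ / 2),
      logDeriv completedRiemannZeta (⟨1 / 2 + a / L, u⟩ : ℂ)‖ ≤ B * δ := by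
    have := intervalIntegral.norm_integral_le_of_norm_le_const (a := t - δ / 2) (b := t + δ / 2)
      (f := fun u => logDeriv completedRiemannZeta (⟨1 / 2 + a / L, u⟩ : ℂ)) (C := B)
      (fun v hv => by
        rw [uIoc_of_le (by linarith)] at hv
        exact hbd v (by rw [abs_le]; constructor <;> linarith [hv.1, hv.2]))
    have e : |t + δ / 2 - (t - δ / 2)| = δ := by
      rw [abs_of_nonneg (by linarith)]; ring
    rw [e] at this
    exact this
  rw [hffe]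
  refine (Complex.norm_exp_le_exp_norm _).trans (Real.exp_le_exp.2 ?_)
  rw [norm_neg, norm_mul, Complex.norm_I, one_mul]
  refine hint.trans ?_
  have hY0 := norm_nonneg (Ya T a t)
  calc B * δ = (L * δ) * (C1 + C2 + 2 * K * Mk T 1 t + ‖Ya T a t‖) := by rw [hB]; ring
    _ ≤ 8 * (C1 + C2 + 2 * K * Mk T 1 t + ‖Ya T a t‖) :=
        mul_le_mul_of_nonneg_right hδ8 (by positivity)
    _ ≤ 8 * ((C1 + C2 + 2 * K + 1) * (1 + ‖Ya T a t‖ + Mk T 1 t)) := by
        have h1 : 0 ≤ (C1 + C2 + 2 * K) * ‖Ya T a t‖ := by positivity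
        have h2 : 0 ≤ (C1 + C2 + 1) * Mk T 1 t := by positivity
        nlinarith
    _ = _ := by ring

end SP
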