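import Pool.Agent.H382P.ExpMom
import Pool.Agent.H382P.FFb
import Pool.Agent.H382P.DpB
import Pool.Agent.H370R2.Local
import Pool.Agent.H370R2.DirGood

open Complex Filter Topology Set MeasureTheory

namespace SP

open SG (phi hh nn dd dl)

namespace Mom2

theorem ZZ_finite (T : ℝ) (hT : 1 ≤ T) : (ZZ T).Finite :=
  H370.zset_finite H370.good_zeta T (2 * T) hT

theorem Mk_continuous (T k : ℝ) (hT : 1 ≤ T) : Continuous (fun t => Mk T k t) := by
  unfold Mk
  have h : ∀ t, (∑ᶠ s ∈ ZZ T, (mu s : ℝ) * Real.exp (-(s.im - t) ^ 2 / 2) /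
      (1 + (Real.log T * (s.im - t) / k) ^ 2)) = ∑ s ∈ (ZZ_finite T hT).toFinset,
      (mu s : ℝ) * Real.exp (-(s.im - t) ^ 2 / 2) / (1 + (Real.log T * (s.im - t) / k) ^ 2) :=
    fun t => finsum_mem_eq_finite_toFinset_sum _ (ZZ_finite T hT)
  simp only [h]
  apply continuous_finset_sum
  intro s _
  apply Continuous.div
  · fun_prop
  · fun_prop
  · intro t
    positivity

theorem Ya_continuous (T a : ℝ) (hT : 1 ≤ T) (ha : 0 < a) : Continuous (fun t => Ya T a t) := by
  unfold Ya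
  have h : ∀ t, (∑ᶠ s ∈ ZZ T, (mu s : ℂ) * (Real.exp (-(s.im - t) ^ 2 / 2) : ℂ) /
      ((a : ℂ) - I * (Real.log T * (s.im - t) : ℝ))) = ∑ s ∈ (ZZ_finite T hT).toFinset,
      (mu s : ℂ) * (Real.exp (-(s.im - t) ^ 2 / 2) : ℂ) /
      ((a : ℂ) - I * (Real.log T * (s.im - t) : ℝ)) :=
    fun t => finsum_mem_eq_finite_toFinset_sum _ (ZZ_finite T hT)
  simp only [h]
  apply continuous_finset_sum
  intro s _
  apply Continuous.div
  · fun_prop
  · fun_prop
  · intro t h0
    have := congrArg Complex.re h0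
    simp at this
    linarith

theorem wt_nonneg (t0 D t : ℝ) : 0 ≤ wt t0 D t := (Real.exp_pos _).le

theorem wt_continuous (t0 D : ℝ) : Continuous (fun t => wt t0 D t) := by
  unfold wt; fun_prop

theorem wt_shift (t0 D t d : ℝ) : wt t0 D t = wt (t0 - d) D (t - d) := by
  unfold wt; ring_nf

theorem int_mono (f g : ℝ → ℝ) (A B : ℝ) (hAB : A ≤ B) (hf : ∀ t ∈ Set.Icc A B, 0 ≤ f t)
    (hfg : ∀ t ∈ Set.Icc A B, f t ≤ g t) (hg : Continuous g) :
    ∫ t in A..B, f t ≤ ∫ t in A..B, g t := by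
  rw [intervalIntegral.integral_of_le hAB, intervalIntegral.integral_of_le hAB]
  apply MeasureTheory.integral_mono_of_nonneg
  · exact ae_restrict_of_forall_mem measurableSet_Ioc (fun t ht => hf t ⟨ht.1.le, ht.2⟩)
  · exact (hg.integrableOn_Icc).mono_set Set.Ioc_subset_Icc_self
  · exact ae_restrict_of_forall_mem measurableSet_Ioc (fun t ht => hfg t ⟨ht.1.le, ht.2⟩)

theorem log_bounds (T : ℝ) (hT : 100 ≤ T) : 4 ≤ Real.log T ∧ 4 * Real.log T ≤ T := by
  have h0 : 0 < T := by linarith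
  constructor
  · rw [Real.le_log_iff_exp_le h0]
    have h1 : Real.exp 1 < 2.7182818286 := Real.exp_one_lt_d9
    have h2 : Real.exp 4 = Real.exp 1 ^ 4 := by
      rw [← Real.exp_nat_mul]; norm_num
    rw [h2]
    have : Real.exp 1 ^ 4 ≤ (2.7182818286 : ℝ) ^ 4 :=
      pow_le_pow_left₀ (Real.exp_pos 1).le h1.le 4
    have h3 : (2.7182818286 : ℝ) ^ 4 ≤ 100 := by norm_num
    linarith
  · have h1 : Real.log (T / 8) ≤ T / 8 - 1 := Real.log_le_sub_one_of_pos (by positivity)
    have h2 : Real.log T = Real.log (T / 8) + Real.log 8 := by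
      rw [← Real.log_mul (by positivity) (by norm_num)]; congr 1; ring
    have h3 : Real.log 8 ≤ 3 := by
      have : (8:ℝ) = 2 ^ 3 := by norm_num
      rw [this, Real.log_pow]
      have := Real.log_two_lt_d9
      push_cast; linarith
    linarith

theorem dd_pos (κ T : ℝ) (hT : 0 < T) : 0 < dd κ T := Real.rpow_pos_of_pos hT _

/-- `exp_main` with `q` for the function `exp (q M)` -/
theorem main_cont (T κ a q : ℝ) (hT : 1 ≤ T) (ha : 0 < a) (t0 : ℝ) :
    Continuous (fun t => wt t0 (dd κ T) t * Real.exp (q * (‖Ya T a t‖ + Mk T 1 t))) := by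
  have h1 := Mk_continuous T 1 hT
  have h2 := Ya_continuous T a hT ha
  have h3 := wt_continuous t0 (dd κ T)
  exact h3.mul (Real.continuous_exp.comp (continuous_const.mul (h2.norm.add h1)))

end Mom2

open Mom2

theorem Dp_mom (hRH : RHs) (P : Par) : ∃ C T0 : ℝ, 0 < C ∧ 10 ≤ T0 ∧ ∀ T : ℝ, T0 ≤ T → ∀ t0 : ℝ,
    ∫ t in (T + 2 * Real.log T)..(2 * T - 2 * Real.log T),
      wt t0 (dd P.κ T) t * ‖Dp P T (⟨1 / 2, t⟩ : ℂ)‖ ^ 8 ≤ C * dd P.κ T := by
  obtain ⟨C1, T1, hC1, hT1, h1⟩ := Dp_bound hRH P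
  obtain ⟨C2, T2, hC2, hT2, h2⟩ := exp_main hRH P.κ P.a 1 P.hκ P.hκ1 P.ha one_pos
  set n : ℕ := P.B * 8 with hn
  set K : ℝ := C1 ^ 8 * ((n.factorial : ℝ) * Real.exp 1) with hK
  have hK0 : 0 < K := by positivity
  refine ⟨K * C2, max 100 (max T1 T2), by positivity, le_trans (by norm_num) (le_max_left _ _), ?_⟩
  intro T hT t0
  have hT100 : 100 ≤ T := le_trans (le_max_left _ _) hT
  have hTT1 : T1 ≤ T := le_trans (le_trans (le_max_left _ _) (le_max_right _ _)) hT
  have hTT2 : T2 ≤ T := le_trans (le_trans (le_max_right _ _) (le_max_right _ _)) hT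
  obtain ⟨hL4, hLT⟩ := log_bounds T hT100
  have hLpos : 0 < Real.log T := by linarith
  set d : ℝ := dl P.c T / 2 with hd
  have hd0 : 0 ≤ d := by
    rw [hd]; unfold dl
    have := P.hc
    have : 0 ≤ 2 * Real.pi * P.c / Real.log T := by
      apply div_nonneg _ hLpos.le
      have := Real.pi_pos
      nlinarith
    linarith
  have hd1 : d ≤ 1 := by
    rw [hd]; unfold dl
    have hc1 := P.hc1
    have hc := P.hc
    have hpi := Real.pi_lt_four
    have hpi0 := Real.pi_pos
    rw [div_div, div_le_one (by positivity)]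
    nlinarith
  set A := T + 2 * Real.log T with hA
  set B := 2 * T - 2 * Real.log T with hB
  have hAB : A ≤ B := by rw [hA, hB]; linarith
  have hAB' : A - d ≤ B - d := by linarith
  have hmain := h2 T hTT2 (t0 - d) (A - d) (B - d) hAB' (by rw [hA]; linarith) (by rw [hB]; linarith)
  have hcont := main_cont T P.κ P.a 1 (by linarith) P.ha (t0 - d)
  have hshift : ∫ t in A..B, K * (wt (t0 - d) (dd P.κ T) (t - d) *
        Real.exp (1 * (‖Ya T P.a (t - d)‖ + Mk T 1 (t - d)))) =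
      K * ∫ t in (A - d)..(B - d), wt (t0 - d) (dd P.κ T) t *
        Real.exp (1 * (‖Ya T P.a t‖ + Mk T 1 t)) := by
    rw [intervalIntegral.integral_const_mul]
    rw [intervalIntegral.integral_comp_sub_right
      (fun t => wt (t0 - d) (dd P.κ T) t * Real.exp (1 * (‖Ya T P.a t‖ + Mk T 1 t)))]
  calc _ ≤ ∫ t in A..B, K * (wt (t0 - d) (dd P.κ T) (t - d) *
        Real.exp (1 * (‖Ya T P.a (t - d)‖ + Mk T 1 (t - d)))) := by
        apply int_mono _ _ _ _ hAB
        · intro t _
          exact mul_nonneg (wt_nonneg _ _ _) (by positivity)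
        · intro t ht
          rw [wt_shift t0 (dd P.κ T) t d]
          have hb := h1 T hTT1 t (by rw [hA] at ht; linarith [ht.1]) (by rw [hB] at ht; linarith [ht.2])
          rw [← hd] at hb
          set M := Mk T 1 (t - d) with hM
          have hM0 : 0 ≤ M := DpB_Mk_nonneg _ _ _
          have hpow : (1 + M) ^ n ≤ (n.factorial : ℝ) * Real.exp 1 * Real.exp M := by
            have := Real.pow_div_factorial_le_exp (1 + M) (by linarith) n
            rw [div_le_iff₀ (by positivity)] at this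
            calc (1 + M) ^ n ≤ Real.exp (1 + M) * (n.factorial : ℝ) := this
              _ = _ := by rw [Real.exp_add]; ring
          have h8 : ‖Dp P T (⟨1 / 2, t⟩ : ℂ)‖ ^ 8 ≤ K * Real.exp (1 * (‖Ya T P.a (t - d)‖ + M)) := by
            calc ‖Dp P T (⟨1 / 2, t⟩ : ℂ)‖ ^ 8 ≤ (C1 * (1 + M) ^ P.B) ^ 8 :=
                  pow_le_pow_left₀ (norm_nonneg _) hb 8
              _ = C1 ^ 8 * (1 + M) ^ n := by rw [mul_pow, ← pow_mul]
              _ ≤ C1 ^ 8 * ((n.factorial : ℝ) * Real.exp 1 * Real.exp M) :=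
                  mul_le_mul_of_nonneg_left hpow (by positivity)
              _ = K * Real.exp M := by rw [hK]; ring
              _ ≤ K * Real.exp (1 * (‖Ya T P.a (t - d)‖ + M)) := by
                  apply mul_le_mul_of_nonneg_left _ hK0.le
                  apply Real.exp_le_exp.mpr
                  have := norm_nonneg (Ya T P.a (t - d))
                  linarith
          calc _ ≤ wt (t0 - d) (dd P.κ T) (t - d) * (K * Real.exp (1 * (‖Ya T P.a (t - d)‖ + M))) :=
                mul_le_mul_of_nonneg_left h8 (wt_nonneg _ _ _)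
            _ = _ := by ring
        · exact continuous_const.mul (hcont.comp (continuous_id.sub continuous_const))
    _ = K * ∫ t in (A - d)..(B - d), wt (t0 - d) (dd P.κ T) t *
        Real.exp (1 * (‖Ya T P.a t‖ + Mk T 1 t)) := hshift
    _ ≤ K * (C2 * dd P.κ T) := mul_le_mul_of_nonneg_left hmain hK0.le
    _ = K * C2 * dd P.κ T := by ring

theorem ff_mom (hRH : RHs) (c a κ : ℝ) (hc : 0 < c) (hc1 : c < 1) (ha : 0 < a) (hκ : 0 < κ)
    (hκ1 : κ < 1 / 2) : ∃ C T0 : ℝ, 0 < C ∧ 10 ≤ T0 ∧ ∀ T : ℝ, T0 ≤ T → ∀ t0 : ℝ,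
    ∫ t in (T + 2 * Real.log T)..(2 * T - 2 * Real.log T),
      wt t0 (dd κ T) t * ‖ff c T (⟨1 / 2 + a / Real.log T, t⟩ : ℂ)‖ ^ 4 ≤ C * dd κ T := by
  obtain ⟨C1, T1, hC1, hT1, h1⟩ := ff_bound hRH c a hc hc1 ha
  obtain ⟨C2, T2, hC2, hT2, h2⟩ := exp_main hRH κ a (4 * C1) hκ hκ1 ha (by positivity)
  refine ⟨Real.exp (4 * C1) * C2, max 100 (max T1 T2), by positivity,
    le_trans (by norm_num) (le_max_left _ _), ?_⟩
  intro T hT t0
  have hT100 : 100 ≤ T := le_trans (le_max_left _ _) hT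
  have hTT1 : T1 ≤ T := le_trans (le_trans (le_max_left _ _) (le_max_right _ _)) hT
  have hTT2 : T2 ≤ T := le_trans (le_trans (le_max_right _ _) (le_max_right _ _)) hT
  obtain ⟨hL4, hLT⟩ := log_bounds T hT100
  set A := T + 2 * Real.log T with hA
  set B := 2 * T - 2 * Real.log T with hB
  have hAB : A ≤ B := by rw [hA, hB]; linarith
  have hmain := h2 T hTT2 t0 A B hAB (by rw [hA]; linarith) (by rw [hB]; linarith)
  have hcont := main_cont T κ a (4 * C1) (by linarith) ha t0
  calc _ ≤ ∫ t in A..B, Real.exp (4 * C1) * (wt t0 (dd κ T) t *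
        Real.exp (4 * C1 * (‖Ya T a t‖ + Mk T 1 t))) := by
        apply int_mono _ _ _ _ hAB
        · intro t _
          exact mul_nonneg (wt_nonneg _ _ _) (by positivity)
        · intro t ht
          have hb := h1 T hTT1 t (by rw [hA] at ht; linarith [ht.1]) (by rw [hB] at ht; linarith [ht.2])
          have h4 : ‖ff c T (⟨1 / 2 + a / Real.log T, t⟩ : ℂ)‖ ^ 4 ≤
              Real.exp (4 * C1) * Real.exp (4 * C1 * (‖Ya T a t‖ + Mk T 1 t)) := by
            calc _ ≤ (Real.exp (C1 * (1 + ‖Ya T a t‖ + Mk T 1 t))) ^ 4 :=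
                  pow_le_pow_left₀ (norm_nonneg _) hb 4
              _ = _ := by
                rw [← Real.exp_nat_mul, ← Real.exp_add]; congr 1; push_cast; ring
          calc _ ≤ wt t0 (dd κ T) t * (Real.exp (4 * C1) *
                Real.exp (4 * C1 * (‖Ya T a t‖ + Mk T 1 t))) :=
                mul_le_mul_of_nonneg_left h4 (wt_nonneg _ _ _)
            _ = _ := by ring
        · exact continuous_const.mul hcont
    _ = Real.exp (4 * C1) * ∫ t in A..B, (wt t0 (dd κ T) t *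
        Real.exp (4 * C1 * (‖Ya T a t‖ + Mk T 1 t))) := by
        rw [intervalIntegral.integral_const_mul]
    _ ≤ Real.exp (4 * C1) * (C2 * dd κ T) := mul_le_mul_of_nonneg_left hmain (Real.exp_pos _).le
    _ = Real.exp (4 * C1) * C2 * dd κ T := by ring

end SP
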