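import Pool.Agent.H382P.Defs
import Pool.Agent.H382P.LocExp
import Pool.Agent.H382P.Seg
import Pool.Agent.H370R2.Local
import Pool.Agent.H370R2.DirGood

open Complex Filter Topology Set MeasureTheory

namespace SP

open SG (phi hh nn dd dl)

namespace Theta

lemma ZZ_finite (T : ℝ) (hT : 1 ≤ T) : (ZZ T).Finite :=
  H370.zset_finite H370.good_zeta T (2 * T) hT

/-! ### the Poisson kernel -/

lemma poisson_eq {x : ℝ} (hx : 0 < x) (w : ℝ) :
    x / (x ^ 2 + w ^ 2) = x⁻¹ * (1 + (w / x) ^ 2)⁻¹ := by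
  have h1 : x ^ 2 + w ^ 2 ≠ 0 := by positivity
  have h2 : 1 + (w / x) ^ 2 ≠ 0 := by positivity
  field_simp

lemma poisson_integrable {x : ℝ} (hx : 0 < x) : Integrable (fun w : ℝ => x / (x ^ 2 + w ^ 2)) := by
  have h : (fun w : ℝ => x / (x ^ 2 + w ^ 2)) = fun w => x⁻¹ * (1 + (w / x) ^ 2)⁻¹ := by
    funext w; exact poisson_eq hx w
  rw [h]
  exact (integrable_inv_one_add_sq.comp_div hx.ne').const_mul _

lemma poisson_integral {x : ℝ} (hx : 0 < x) : ∫ w : ℝ, x / (x ^ 2 + w ^ 2) = Real.pi := by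
  have h : (fun w : ℝ => x / (x ^ 2 + w ^ 2)) = fun w => x⁻¹ * (1 + (w / x) ^ 2)⁻¹ := by
    funext w; exact poisson_eq hx w
  rw [h, MeasureTheory.integral_const_mul]
  have h2 := MeasureTheory.Measure.integral_comp_div (fun y : ℝ => (1 + y ^ 2)⁻¹) x
  rw [h2, integral_univ_inv_one_add_sq, abs_of_pos hx, smul_eq_mul, ← mul_assoc,
    inv_mul_cancel₀ hx.ne', one_mul]

lemma poisson_nonneg {x : ℝ} (hx : 0 < x) (w : ℝ) : 0 ≤ x / (x ^ 2 + w ^ 2) := by positivity

lemma poisson_cont {x : ℝ} (hx : 0 < x) : Continuous (fun w : ℝ => x / (x ^ 2 + w ^ 2)) := by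
  apply Continuous.div continuous_const (by fun_prop)
  intro w; positivity

/-- sums over disjoint intervals -/
lemma disj_le {ι : Type*} {x d : ℝ} (hx : 0 < x) (hd : 0 < d) (N : Finset ι) (g : ι → ℝ)
    (hsep : ∀ i ∈ N, ∀ j ∈ N, i ≠ j → d ≤ |g i - g j|) (j0 e : ℝ) (he : 0 ≤ e)
    (hJ : ∀ i ∈ N, g i + d / 2 ≤ j0 ∨ j0 + e ≤ g i - d / 2) :
    ∑ i ∈ N, (∫ w in (g i - d / 2)..(g i + d / 2), x / (x ^ 2 + w ^ 2)) +
      (∫ w in j0..(j0 + e), x / (x ^ 2 + w ^ 2)) ≤ Real.pi := by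
  classical
  have hdisj : Set.Pairwise (↑N) (Function.onFun Disjoint
      (fun i => Ioc (g i - d / 2) (g i + d / 2))) := by
    intro i hi j hj hij
    have h := hsep i hi j hj hij
    show Disjoint (Ioc (g i - d / 2) (g i + d / 2)) (Ioc (g j - d / 2) (g j + d / 2))
    rw [Set.disjoint_left]
    rintro z ⟨h1, h2⟩ ⟨h3, h4⟩
    have : |g i - g j| < d := by rw [abs_lt]; constructor <;> linarith
    linarith
  have hI : ∀ i ∈ N, MeasurableSet (Ioc (g i - d / 2) (g i + d / 2)) := fun i _ => measurableSet_Ioc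
  have hint := poisson_integrable hx
  have e1 : ∀ i ∈ N, (∫ w in (g i - d / 2)..(g i + d / 2), x / (x ^ 2 + w ^ 2)) =
      ∫ w in Ioc (g i - d / 2) (g i + d / 2), x / (x ^ 2 + w ^ 2) := by
    intro i _
    rw [intervalIntegral.integral_of_le (by linarith)]
  rw [Finset.sum_congr rfl e1, ← integral_biUnion_finset N hI hdisj
    (fun i _ => hint.integrableOn), intervalIntegral.integral_of_le (by linarith : j0 ≤ j0 + e)]
  have hdj : Disjoint (⋃ i ∈ N, Ioc (g i - d / 2) (g i + d / 2)) (Ioc j0 (j0 + e)) := by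
    rw [Set.disjoint_left]
    intro z hz hz2
    simp only [Set.mem_iUnion] at hz
    obtain ⟨i, hi, h1, h2⟩ := hz
    rcases hJ i hi with h | h
    · linarith [hz2.1]
    · linarith [hz2.2]
  rw [← setIntegral_union hdj measurableSet_Ioc hint.integrableOn hint.integrableOn,
    ← poisson_integral hx]
  exact setIntegral_le_integral hint (Eventually.of_forall (poisson_nonneg hx))

lemma gap_low {x e1 j0 e : ℝ} (hx : 0 < x) (he : 0 ≤ e) (hj : 0 ≤ j0) (hje : j0 + e ≤ e1) :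
    e * (x / (x ^ 2 + e1 ^ 2)) ≤ ∫ w in j0..(j0 + e), x / (x ^ 2 + w ^ 2) := by
  have h := intervalIntegral.integral_mono_on (μ := volume) (by linarith : j0 ≤ j0 + e)
    (f := fun _ : ℝ => x / (x ^ 2 + e1 ^ 2)) (g := fun w : ℝ => x / (x ^ 2 + w ^ 2))
    intervalIntegrable_const ((poisson_cont hx).intervalIntegrable _ _) (by
      intro w hw
      have h0 : 0 ≤ w := by linarith [hw.1]
      have h1 : w ≤ e1 := by linarith [hw.2]
      apply div_le_div_of_nonneg_left hx.le (by positivity)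
      nlinarith)
  rw [intervalIntegral.integral_const, smul_eq_mul, add_sub_cancel_left] at h
  exact h

lemma packing {ι : Type*} {x d d1 : ℝ} (hx : 0 < x) (hd : 0 < d) (hdd : d < d1) (N : Finset ι)
    (g : ι → ℝ) (hsep : ∀ i ∈ N, ∀ j ∈ N, i ≠ j → d1 ≤ |g i - g j|) :
    ∑ i ∈ N, (∫ w in (g i - d / 2)..(g i + d / 2), x / (x ^ 2 + w ^ 2)) ≤
      Real.pi - (d1 - d) / 2 * (x / (x ^ 2 + (2 * d1) ^ 2)) := by
  have hsep' : ∀ i ∈ N, ∀ j ∈ N, i ≠ j → d ≤ |g i - g j| := fun i hi j hj hij =>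
    hdd.le.trans (hsep i hi j hj hij)
  set e := (d1 - d) / 2 with he
  have he0 : 0 < e := by rw [he]; linarith
  by_cases hcase : ∀ i ∈ N, g i + d / 2 ≤ 0 ∨ 0 + e ≤ g i - d / 2
  · have h1 := disj_le hx hd N g hsep' 0 e he0.le hcase
    have h2 := gap_low (e1 := 2 * d1) (j0 := 0) (e := e) hx he0.le le_rfl (by linarith)
    linarith
  · push Not at hcase
    obtain ⟨i0, hi0, hl, hr⟩ := hcase
    have h1 := disj_le hx hd N g hsep' (g i0 + d / 2) e he0.le (by
      intro i hi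
      by_cases hii : i = i0
      · left; rw [hii]
      · have h := hsep i hi i0 hi0 hii
        rcases le_abs.1 h with h | h
        · right; linarith
        · left; linarith)
    have h2 := gap_low (e1 := 2 * d1) (j0 := g i0 + d / 2) (e := e) hx he0.le (by linarith)
      (by linarith)
    linarith

/-- bound of one interval far from the origin -/
lemma far_one {x d y : ℝ} (hx : 0 < x) (hd : 0 < d) (hy : d ≤ |y|) :
    (∫ w in (y - d / 2)..(y + d / 2), x / (x ^ 2 + w ^ 2)) ≤ 4 * d * x / y ^ 2 := by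
  have hy0 : 0 < y ^ 2 := by
    have h : 0 < |y| := hd.trans_le hy
    have h' : y ≠ 0 := abs_pos.1 h
    positivity
  have h := intervalIntegral.integral_mono_on (μ := volume) (by linarith : y - d / 2 ≤ y + d / 2)
    (f := fun w : ℝ => x / (x ^ 2 + w ^ 2)) (g := fun _ : ℝ => 4 * x / y ^ 2)
    ((poisson_cont hx).intervalIntegrable _ _) intervalIntegrable_const (by
      intro w hw
      have h1 : |y| / 2 ≤ |w| := by
        have h2 : |y| - |w| ≤ |y - w| := abs_sub_abs_le_abs_sub y w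
        have h3 : |y - w| ≤ d / 2 := by
          rw [abs_le]; constructor <;> linarith [hw.1, hw.2]
        linarith
      have h2 : y ^ 2 / 4 ≤ w ^ 2 := by
        rw [← sq_abs y, ← sq_abs w]
        nlinarith [abs_nonneg y]
      rw [div_le_div_iff₀ (by positivity) hy0]
      nlinarith [sq_nonneg x])
  refine h.trans (le_of_eq ?_)
  simp only [intervalIntegral.integral_const, smul_eq_mul]
  ring

lemma xi_analytic {s : ℂ} (h0 : s ≠ 0) (h1 : s ≠ 1) : AnalyticAt ℂ completedRiemannZeta s := by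
  have hopen : IsOpen {z : ℂ | z ≠ 0 ∧ z ≠ 1} := isOpen_ne.inter isOpen_ne
  have hd : DifferentiableOn ℂ completedRiemannZeta {z : ℂ | z ≠ 0 ∧ z ≠ 1} := fun z hz =>
    (differentiableAt_completedZeta hz.1 hz.2).differentiableWithinAt
  exact hd.analyticAt (hopen.mem_nhds ⟨h0, h1⟩)

lemma ff_theta (hRH : RHs) (c a : ℝ) (hc : 0 < c) (ha : 0 < a) :
    ∃ C T0 : ℝ, 0 < C ∧ 10 ≤ T0 ∧ ∀ T : ℝ, T0 ≤ T → ∀ t : ℝ, T + 3 ≤ t → t ≤ 2 * T - 3 →
    ∀ A : Finset ℂ, (∀ s, s ∈ A ↔ s ∈ ZZ T ∧ |s.im - t| ≤ 1) →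
    ∃ Θ Y : ℝ, ff c T (⟨1 / 2 + a / Real.log T, t⟩ : ℂ) = cexp ((Y : ℂ) - I * (Θ : ℂ)) ∧
      |Θ - ∑ s ∈ A, (mu s : ℝ) * ∫ w in ((t - s.im) - dl c T / 2)..((t - s.im) + dl c T / 2),
        (a / Real.log T) / ((a / Real.log T) ^ 2 + w ^ 2)| ≤ C / Real.log T := by
  obtain ⟨C, T0, hC, hT0, hloc⟩ := loc_exp hRH
  refine ⟨C * a * (2 * Real.pi * c), max T0 (Real.exp (16 * a + 16 * Real.pi * c)),
    by positivity, hT0.trans (le_max_left _ _), ?_⟩
  intro T hT t ht1 ht2 A hA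
  have hTT0 : T0 ≤ T := (le_max_left _ _).trans hT
  have hT10 : 10 ≤ T := hT0.trans hTT0
  have hLbig : 16 * a + 16 * Real.pi * c ≤ Real.log T :=
    (Real.le_log_iff_exp_le (by linarith)).2 ((le_max_right _ _).trans hT)
  have hpc : 0 < Real.pi * c := by positivity
  have hL : 0 < Real.log T := by nlinarith
  set L := Real.log T with hLdef
  set x := a / L with hx
  have hx0 : 0 < x := by positivity
  have hx16 : x ≤ 1 / 16 := by
    rw [hx, div_le_iff₀ hL]
    linarith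
  set δ := dl c T with hδ
  have hδe : δ = 2 * Real.pi * c / L := rfl
  have hδ0 : 0 < δ := by rw [hδe]; positivity
  have hδ16 : δ / 2 ≤ 1 / 16 := by
    rw [hδe, div_div, div_le_iff₀ (by positivity)]
    linarith
  set F := completedRiemannZeta with hF
  have hne : ∀ v : ℝ, |v - t| ≤ 1 / 16 → F (⟨1 / 2 + x, v⟩ : ℂ) ≠ 0 := fun v hv =>
    (hloc T hTT0 t (by linarith) (by linarith) x v hx0 hx16 hv).1
  have han : ∀ v : ℝ, |v - t| ≤ 1 / 16 → AnalyticAt ℂ F (⟨1 / 2 + x, v⟩ : ℂ) := by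
    intro v hv
    have hv0 : 0 < v := by linarith [(abs_le.1 hv).1]
    refine xi_analytic (fun h => ?_) (fun h => ?_)
    · have := congrArg Complex.im h
      simp at this; linarith
    · have := congrArg Complex.im h
      simp at this; linarith
  have hseg : ∀ u ∈ Set.Icc (t - δ / 2) (t + δ / 2), |u - t| ≤ 1 / 16 := by
    intro u hu
    rw [abs_le]; constructor <;> linarith [hu.1, hu.2]
  have hle : t - δ / 2 ≤ t + δ / 2 := by linarith
  set G : ℝ → ℂ := fun v => logDeriv F (⟨1 / 2 + x, v⟩ : ℂ) with hG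
  set J : ℂ := ∫ u in (t - δ / 2)..(t + δ / 2), G u with hJ
  have hcurve : Continuous (fun v : ℝ => (⟨1 / 2 + x, v⟩ : ℂ)) := by
    have : (fun v : ℝ => (⟨1 / 2 + x, v⟩ : ℂ)) =
        fun v : ℝ => ((1 / 2 + x : ℝ) : ℂ) + I * (v : ℂ) := by
      funext v
      apply Complex.ext <;> simp
    rw [this]
    fun_prop
  have hGc : ContinuousOn G (Set.uIcc (t - δ / 2) (t + δ / 2)) := by
    rw [Set.uIcc_of_le hle]
    intro v hv
    have h1 := han v (hseg v hv)
    have h2 : ContinuousAt (logDeriv F) (⟨1 / 2 + x, v⟩ : ℂ) := by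
      unfold logDeriv
      exact h1.deriv.continuousAt.div h1.continuousAt (hne v (hseg v hv))
    exact (ContinuousAt.comp (f := fun v : ℝ => (⟨1 / 2 + x, v⟩ : ℂ)) (g := logDeriv F) h2
      hcurve.continuousAt).continuousWithinAt
  have hGi : IntervalIntegrable G volume (t - δ / 2) (t + δ / 2) := hGc.intervalIntegrable
  refine ⟨J.re, J.im, ?_, ?_⟩
  · have h1 := seg_exp F (1 / 2 + x) (t - δ / 2) (t + δ / 2) hle
      (fun u hu => ⟨han u (hseg u hu), hne u (hseg u hu)⟩)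
    have e1 : (⟨1 / 2 + x, t⟩ : ℂ) - hh δ = ⟨1 / 2 + x, t - δ / 2⟩ := by
      apply Complex.ext <;> simp [hh]
    have e2 : (⟨1 / 2 + x, t⟩ : ℂ) + hh δ = ⟨1 / 2 + x, t + δ / 2⟩ := by
      apply Complex.ext <;> simp [hh]
    show F ((⟨1 / 2 + x, t⟩ : ℂ) - hh δ) / F ((⟨1 / 2 + x, t⟩ : ℂ) + hh δ) = _
    rw [e1, e2, h1]
    congr 1
    show -(I * J) = _
    conv_lhs => rw [← Complex.re_add_im J]
    have := Complex.I_mul_I
    linear_combination (-(J.im : ℂ)) * this
  · set S : ℝ → ℝ := fun v => ∑ s ∈ A, (mu s : ℝ) * x / (x ^ 2 + (v - s.im) ^ 2) with hS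
    have hfin : {s : ℂ | s ∈ ZZ T ∧ |s.im - t| ≤ 1}.Finite := by
      refine A.finite_toSet.subset fun s hs => ?_
      exact Finset.mem_coe.2 ((hA s).2 hs)
    have hAeq : hfin.toFinset = A := by
      ext s
      rw [Set.Finite.mem_toFinset, hA]
      exact Iff.rfl
    have hpt : ∀ v ∈ Set.uIoc (t - δ / 2) (t + δ / 2), ‖(G v).re - S v‖ ≤ C * x * L := by
      intro v hv
      rw [Set.uIoc_of_le hle] at hv
      have h1 := (hloc T hTT0 t (by linarith) (by linarith) x v hx0 hx16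
        (hseg v ⟨hv.1.le, hv.2⟩)).2.2
      rw [finsum_mem_eq_finite_toFinset_sum _ hfin, hAeq] at h1
      exact h1
    have hSc : Continuous S := by
      refine continuous_finsetSum _ fun s _ => ?_
      apply Continuous.div continuous_const (by fun_prop)
      intro v
      positivity
    have hre : J.re = ∫ u in (t - δ / 2)..(t + δ / 2), (G u).re :=
      (Complex.reCLM.intervalIntegral_comp_comm hGi).symm
    have hSi : (∫ v in (t - δ / 2)..(t + δ / 2), S v) =
        ∑ s ∈ A, (mu s : ℝ) * ∫ w in ((t - s.im) - δ / 2)..((t - s.im) + δ / 2),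
          x / (x ^ 2 + w ^ 2) := by
      rw [hS, intervalIntegral.integral_finsetSum]
      · apply Finset.sum_congr rfl
        intro s _
        have e3 : (fun v : ℝ => (mu s : ℝ) * x / (x ^ 2 + (v - s.im) ^ 2)) =
            fun v => (mu s : ℝ) * (x / (x ^ 2 + (v - s.im) ^ 2)) := by
          funext v; ring
        rw [e3, intervalIntegral.integral_const_mul,
          intervalIntegral.integral_comp_sub_right (fun w : ℝ => x / (x ^ 2 + w ^ 2)) s.im]
        congr 2 <;> ring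
      · intro s _
        apply Continuous.intervalIntegrable
        apply Continuous.div continuous_const (by fun_prop)
        intro v
        positivity
    rw [← hSi, hre, ← intervalIntegral.integral_sub]
    · have h2 := intervalIntegral.norm_integral_le_of_norm_le_const hpt
      rw [Real.norm_eq_abs] at h2
      refine h2.trans (le_of_eq ?_)
      have : |t + δ / 2 - (t - δ / 2)| = δ := by
        rw [abs_of_nonneg (by linarith)]; ring
      rw [this, hδe, hx]
      field_simp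
    · exact (Complex.continuous_re.comp_continuousOn hGc).intervalIntegrable
    · exact hSc.intervalIntegrable _ _

end Theta

open Theta

theorem ff_im (hRH : RHs) (c c1 a : ℝ) (hc : 0 < c) (hcc : c < c1) (hc1 : c1 < 2) (ha : 0 < a) :
    ∃ η C R0 : ℝ, 0 < η ∧ 0 < C ∧ 1 ≤ R0 ∧ ∀ R : ℝ, R0 ≤ R → ∃ T0 : ℝ, 10 ≤ T0 ∧ ∀ T : ℝ, T0 ≤ T →
    ∀ t : ℝ, T + 3 ≤ t → t ≤ 2 * T - 3 →
    (∀ s ∈ ZZ T, |s.im - t| ≤ R / Real.log T → mu s = 1) →
    (∀ s ∈ ZZ T, ∀ s' ∈ ZZ T, |s.im - t| ≤ R / Real.log T → |s'.im - t| ≤ R / Real.log T →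
      s ≠ s' → 2 * Real.pi * c1 / Real.log T ≤ |s.im - s'.im|) →
    (∑ᶠ s ∈ {s : ℂ | s ∈ ZZ T ∧ R / Real.log T < |s.im - t| ∧ |s.im - t| ≤ 1},
      (mu s : ℝ) / (Real.log T * (s.im - t)) ^ 2 ≤ η) →
    (ff c T (⟨1 / 2 + a / Real.log T, t⟩ : ℂ)).im ≤
      C / Real.log T * ‖ff c T (⟨1 / 2 + a / Real.log T, t⟩ : ℂ)‖ := by
  classical
  obtain ⟨C, T1, hC, hT1, H⟩ := ff_theta hRH c a hc ha
  have hpi := Real.pi_pos
  have hc10 : 0 < c1 := hc.trans hcc
  set κ1 : ℝ := Real.pi * (c1 - c) * a / (a ^ 2 + 16 * Real.pi ^ 2 * c1 ^ 2) with hκ1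
  have hκ10 : 0 < κ1 := by
    have : 0 < c1 - c := by linarith
    positivity
  refine ⟨κ1 / (16 * Real.pi * c * a), C, max 1 (2 * Real.pi * c), by positivity, hC,
    le_max_left _ _, ?_⟩
  intro R hR
  have hR1 : 1 ≤ R := (le_max_left _ _).trans hR
  have hRc : 2 * Real.pi * c ≤ R := (le_max_right _ _).trans hR
  refine ⟨max T1 (Real.exp (R + 2 * C / κ1)), hT1.trans (le_max_left _ _), ?_⟩
  intro T hT t ht1 ht2 hsimple hsep hfar
  have hTT1 : T1 ≤ T := (le_max_left _ _).trans hT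
  have hT10 : 10 ≤ T := hT1.trans hTT1
  have hCk : 0 < 2 * C / κ1 := by positivity
  have hLbig : R + 2 * C / κ1 ≤ Real.log T :=
    (Real.le_log_iff_exp_le (by linarith)).2 ((le_max_right _ _).trans hT)
  have hfinZ := ZZ_finite T (by linarith)
  set L := Real.log T with hLdef
  have hL : 0 < L := by linarith
  set A : Finset ℂ := hfinZ.toFinset.filter (fun s => |s.im - t| ≤ 1) with hAdef
  have hA : ∀ s, s ∈ A ↔ s ∈ ZZ T ∧ |s.im - t| ≤ 1 := by
    intro s
    rw [hAdef, Finset.mem_filter, Set.Finite.mem_toFinset]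
  obtain ⟨Θ, Y, hff, hΘ⟩ := H T hTT1 t ht1 ht2 A hA
  set x := a / L with hx
  have hx0 : 0 < x := by positivity
  set δ := dl c T with hδ
  have hδe : δ = 2 * Real.pi * c / L := rfl
  have hδ0 : 0 < δ := by rw [hδe]; positivity
  set α : ℂ → ℝ := fun s => ∫ w in ((t - s.im) - δ / 2)..((t - s.im) + δ / 2),
    x / (x ^ 2 + w ^ 2) with hα
  have hα0 : ∀ s, 0 ≤ α s := fun s =>
    intervalIntegral.integral_nonneg (by linarith) fun w _ => poisson_nonneg hx0 w
  change |Θ - ∑ s ∈ A, (mu s : ℝ) * α s| ≤ C / L at hΘ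
  have hsum0 : 0 ≤ ∑ s ∈ A, (mu s : ℝ) * α s :=
    Finset.sum_nonneg fun s _ => mul_nonneg (Nat.cast_nonneg _) (hα0 s)
  -- near part
  have hnear : ∑ s ∈ A.filter (fun s => |s.im - t| ≤ R / L), (mu s : ℝ) * α s ≤
      Real.pi - κ1 := by
    have e1 : ∑ s ∈ A.filter (fun s => |s.im - t| ≤ R / L), (mu s : ℝ) * α s =
        ∑ s ∈ A.filter (fun s => |s.im - t| ≤ R / L), α s := by
      apply Finset.sum_congr rfl
      intro s hs
      rw [Finset.mem_filter, hA] at hs
      rw [hsimple s hs.1.1 hs.2]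
      simp
    rw [e1]
    have hd1 : δ < 2 * Real.pi * c1 / L := by
      rw [hδe]
      apply div_lt_div_of_pos_right _ hL
      nlinarith
    have h1 := packing hx0 hδ0 hd1 (A.filter (fun s => |s.im - t| ≤ R / L))
      (fun s : ℂ => t - s.im) (by
        intro s hs s' hs' hss
        rw [Finset.mem_filter, hA] at hs hs'
        have h2 := hsep s hs.1.1 s' hs'.1.1 hs.2 hs'.2 hss
        have e2 : t - s.im - (t - s'.im) = -(s.im - s'.im) := by ring
        rw [e2, abs_neg]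
        exact h2)
    refine h1.trans (le_of_eq ?_)
    rw [hκ1, hδe, hx]
    field_simp
    ring
  -- far part
  have hfar2 : ∑ s ∈ A.filter (fun s => ¬ |s.im - t| ≤ R / L), (mu s : ℝ) * α s ≤ κ1 / 2 := by
    have hfin2 : {s : ℂ | s ∈ ZZ T ∧ R / L < |s.im - t| ∧ |s.im - t| ≤ 1}.Finite :=
      hfinZ.subset fun s hs => hs.1
    have hEq : hfin2.toFinset = A.filter (fun s => ¬ |s.im - t| ≤ R / L) := by
      ext s
      rw [Set.Finite.mem_toFinset, Finset.mem_filter, hA, not_le]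
      constructor
      · rintro ⟨h1, h2, h3⟩; exact ⟨⟨h1, h3⟩, h2⟩
      · rintro ⟨⟨h1, h3⟩, h2⟩; exact ⟨h1, h2, h3⟩
    rw [finsum_mem_eq_finite_toFinset_sum _ hfin2, hEq] at hfar
    have h3 : ∑ s ∈ A.filter (fun s => ¬ |s.im - t| ≤ R / L), (mu s : ℝ) * α s ≤
        ∑ s ∈ A.filter (fun s => ¬ |s.im - t| ≤ R / L),
          (8 * Real.pi * c * a) * ((mu s : ℝ) / (L * (s.im - t)) ^ 2) := by
      apply Finset.sum_le_sum
      intro s hs
      rw [Finset.mem_filter, not_le] at hs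
      have hy : δ ≤ |t - s.im| := by
        rw [abs_sub_comm]
        refine le_trans ?_ hs.2.le
        rw [hδe]
        exact div_le_div_of_nonneg_right hRc hL.le
      have h4 := far_one hx0 hδ0 hy
      have hy0 : t - s.im ≠ 0 := by
        intro h
        rw [h, abs_zero] at hy
        linarith
      calc (mu s : ℝ) * α s ≤ (mu s : ℝ) * (4 * δ * x / (t - s.im) ^ 2) :=
            mul_le_mul_of_nonneg_left h4 (Nat.cast_nonneg _)
        _ = (8 * Real.pi * c * a) * ((mu s : ℝ) / (L * (s.im - t)) ^ 2) := by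
            rw [hδe, hx]
            have hy1 : s.im - t ≠ 0 := fun h => hy0 (by linarith)
            have e5 : (t - s.im) ^ 2 = (s.im - t) ^ 2 := by ring
            rw [e5]
            field_simp
            ring
    rw [← Finset.mul_sum] at h3
    refine h3.trans ?_
    calc (8 * Real.pi * c * a) * _ ≤ (8 * Real.pi * c * a) * (κ1 / (16 * Real.pi * c * a)) :=
          mul_le_mul_of_nonneg_left hfar (by positivity)
      _ = κ1 / 2 := by field_simp; ring
  have hsplit := Finset.sum_filter_add_sum_filter_not A (fun s : ℂ => |s.im - t| ≤ R / L)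
    (fun s => (mu s : ℝ) * α s)
  have hCL : C / L ≤ κ1 / 2 := by
    rw [div_le_iff₀ hL]
    have : 2 * C / κ1 ≤ L := by linarith
    rw [div_le_iff₀ hκ10] at this
    linarith
  have hub : Θ ≤ Real.pi := by
    have := (abs_le.1 hΘ).2
    linarith
  have hlb : -(C / L) ≤ Θ := by
    have := (abs_le.1 hΘ).1
    linarith
  have hsin : -(C / L) ≤ Real.sin Θ := by
    have hCL0 : 0 ≤ C / L := by positivity
    rcases le_or_gt 0 Θ with h | h
    · have := Real.sin_nonneg_of_nonneg_of_le_pi h hub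
      linarith
    · have h1 := Real.sin_le (x := -Θ) (by linarith)
      rw [Real.sin_neg] at h1
      linarith
  rw [hff, Complex.exp_im, Complex.norm_exp]
  have e6 : ((Y : ℂ) - I * (Θ : ℂ)).re = Y := by simp
  have e7 : ((Y : ℂ) - I * (Θ : ℂ)).im = -Θ := by simp
  rw [e6, e7, Real.sin_neg, mul_comm (C / L)]
  apply mul_le_mul_of_nonneg_left _ (Real.exp_pos _).le
  linarith

theorem far_bound (T R t : ℝ) (hT : 10 ≤ T) (hR : 1 ≤ R) :
    ∑ᶠ s ∈ {s : ℂ | s ∈ ZZ T ∧ R / Real.log T < |s.im - t| ∧ |s.im - t| ≤ 1},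
      (mu s : ℝ) / (Real.log T * (s.im - t)) ^ 2 ≤ 4 / R ^ 2 * Mk T R t := by
  classical
  have hfin := ZZ_finite T (by linarith)
  have hL : 0 < Real.log T := Real.log_pos (by linarith)
  have hfin2 : {s : ℂ | s ∈ ZZ T ∧ R / Real.log T < |s.im - t| ∧ |s.im - t| ≤ 1}.Finite :=
    hfin.subset fun s hs => hs.1
  rw [finsum_mem_eq_finite_toFinset_sum _ hfin2, Mk, finsum_mem_eq_finite_toFinset_sum _ hfin,
    Finset.mul_sum]
  have hsub : hfin2.toFinset ⊆ hfin.toFinset := by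
    intro s hs
    rw [Set.Finite.mem_toFinset] at hs ⊢
    exact hs.1
  refine le_trans (Finset.sum_le_sum ?_) (Finset.sum_le_sum_of_subset_of_nonneg hsub
    (fun s _ _ => by positivity))
  intro s hs
  rw [Set.Finite.mem_toFinset] at hs
  obtain ⟨-, h1, h2⟩ := hs
  set y := Real.log T * (s.im - t) with hy
  have hyR : R < |y| := by
    rw [hy, abs_mul, abs_of_pos hL]
    rw [div_lt_iff₀ hL] at h1
    linarith
  have hy2 : R ^ 2 ≤ y ^ 2 := by
    rw [← sq_abs y]
    nlinarith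
  have hR2 : 0 < R ^ 2 := by positivity
  have hy0 : 0 < y ^ 2 := by linarith
  have hexp : 1 / 2 ≤ Real.exp (-(s.im - t) ^ 2 / 2) := by
    have h3 : (s.im - t) ^ 2 ≤ 1 := by
      rw [← sq_abs]
      nlinarith [abs_nonneg (s.im - t)]
    have h4 := Real.add_one_le_exp (-(s.im - t) ^ 2 / 2)
    linarith
  have hmu : (0 : ℝ) ≤ mu s := by positivity
  have e1 : 4 / R ^ 2 * ((mu s : ℝ) * Real.exp (-(s.im - t) ^ 2 / 2) / (1 + (y / R) ^ 2)) =
      (mu s : ℝ) * (4 * Real.exp (-(s.im - t) ^ 2 / 2)) / (R ^ 2 + y ^ 2) := by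
    have : 1 + (y / R) ^ 2 ≠ 0 := by positivity
    have hR0 : R ≠ 0 := by positivity
    have h5 : R ^ 2 + y ^ 2 ≠ 0 := by positivity
    field_simp
  rw [e1, div_le_div_iff₀ hy0 (by positivity)]
  have h6 : R ^ 2 + y ^ 2 ≤ 4 * Real.exp (-(s.im - t) ^ 2 / 2) * y ^ 2 := by
    nlinarith
  calc (mu s : ℝ) * (R ^ 2 + y ^ 2) ≤ (mu s : ℝ) * (4 * Real.exp (-(s.im - t) ^ 2 / 2) * y ^ 2) :=
        mul_le_mul_of_nonneg_left h6 hmu
    _ = _ := by ring

end SP
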