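import Pool.Agent.H382P.SPos
import Pool.Agent.H382P.Eval
import Pool.Agent.H382P.FFhor
import Pool.Agent.H382P.DpId
import Pool.Agent.H382P.ExpMom
import Pool.Agent.H382P.Theta
import Pool.Agent.H382P.Mom2
import Pool.Agent.H382R2.Final0

open Complex Filter Topology Set MeasureTheory

namespace SP

open SG (phi hh nn dd dl ord NZ zmult)

namespace ManyAux

theorem wt_cont (t0 D : ℝ) : Continuous (wt t0 D) := by
  unfold wt
  fun_prop

theorem wt_nonneg (t0 D t : ℝ) : 0 ≤ wt t0 D t := (Real.exp_pos _).le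

theorem wt_le_one (t0 D t : ℝ) : wt t0 D t ≤ 1 := by
  unfold wt
  rw [Real.exp_le_one_iff]
  apply div_nonpos_of_nonpos_of_nonneg
  · nlinarith [sq_nonneg (t - t0)]
  · positivity

theorem wt_eq (t0 D t : ℝ) : wt t0 D t = Real.exp (-(1 / (2 * D ^ 2)) * (t - t0) ^ 2) := by
  unfold wt
  congr 1
  ring

theorem wt_integrable (t0 D : ℝ) (hD : 0 < D) : Integrable (wt t0 D) := by
  have h := (integrable_exp_neg_mul_sq (b := 1 / (2 * D ^ 2)) (by positivity)).comp_sub_right t0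
  refine h.congr (Filter.Eventually.of_forall fun t => ?_)
  simp only [wt_eq]

theorem wt_total (t0 D : ℝ) (hD : 0 < D) : ∫ t, wt t0 D t = Real.sqrt (2 * Real.pi) * D := by
  have h := integral_gaussian (1 / (2 * D ^ 2))
  have h2 : ∫ t, wt t0 D t = ∫ t : ℝ, Real.exp (-(1 / (2 * D ^ 2)) * (t - t0) ^ 2) :=
    integral_congr_ae (Filter.Eventually.of_forall fun t => wt_eq t0 D t)
  have h3 := integral_sub_right_eq_self (μ := volume)
    (fun t : ℝ => Real.exp (-(1 / (2 * D ^ 2)) * t ^ 2)) t0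
  rw [h2, h3, h]
  have e : Real.pi / (1 / (2 * D ^ 2)) = (2 * Real.pi) * D ^ 2 := by field_simp
  rw [e, Real.sqrt_mul (by positivity), Real.sqrt_sq hD.le]

theorem wt_int (t0 D V1 V2 : ℝ) (hD : 0 < D) (h : V1 ≤ V2) :
    ∫ t in V1..V2, wt t0 D t ≤ Real.sqrt (2 * Real.pi) * D := by
  rw [intervalIntegral.integral_of_le h, ← wt_total t0 D hD]
  exact setIntegral_le_integral (wt_integrable t0 D hD)
    (Filter.Eventually.of_forall fun t => wt_nonneg t0 D t)

theorem sqrt_two_pi_le : Real.sqrt (2 * Real.pi) ≤ 3 := by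
  rw [Real.sqrt_le_left (by norm_num)]
  have := Real.pi_lt_four
  linarith

theorem two_le_sqrt_two_pi : 2 ≤ Real.sqrt (2 * Real.pi) := by
  apply Real.le_sqrt_of_sq_le
  have := Real.pi_gt_three
  linarith

/-- tail of the Gaussian -/
theorem wt_tail (t0 D t M : ℝ) (hD : 0 < D) (hM : 0 ≤ M) (h : M * D ≤ |t - t0|) :
    wt t0 D t ≤ Real.exp (-M ^ 2 / 4) * wt t0 (2 * D) t := by
  unfold wt
  rw [← Real.exp_add, Real.exp_le_exp]
  have h1 : (M * D) ^ 2 ≤ (t - t0) ^ 2 := by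
    rw [← sq_abs (t - t0)]
    exact pow_le_pow_left₀ (by positivity) h 2
  rw [mul_pow] at h1
  have h2 : M ^ 2 ≤ (t - t0) ^ 2 / D ^ 2 := by
    rw [le_div_iff₀ (by positivity)]; exact h1
  have e1 : -(t - t0) ^ 2 / (2 * D ^ 2) = -((t - t0) ^ 2 / D ^ 2) / 2 := by field_simp
  have e2 : -(t - t0) ^ 2 / (2 * (2 * D) ^ 2) = -((t - t0) ^ 2 / D ^ 2) / 8 := by field_simp; ring
  rw [e1, e2]
  linarith [sq_nonneg M]

theorem ZZ_finite (T : ℝ) (hT : 1 ≤ T) : (ZZ T).Finite :=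
  H370.zset_finite H370.good_zeta T (2 * T) hT

theorem Mk_eq (T k t : ℝ) (hT : 1 ≤ T) : Mk T k t = ∑ s ∈ (ZZ_finite T hT).toFinset,
    (mu s : ℝ) * Real.exp (-(s.im - t) ^ 2 / 2) / (1 + (Real.log T * (s.im - t) / k) ^ 2) :=
  finsum_mem_eq_finite_toFinset_sum _ (ZZ_finite T hT)

theorem Mk_cont (T k : ℝ) (hT : 1 ≤ T) : Continuous (fun t => Mk T k t) := by
  have h : (fun t => Mk T k t) = fun t => ∑ s ∈ (ZZ_finite T hT).toFinset,
    (mu s : ℝ) * Real.exp (-(s.im - t) ^ 2 / 2) / (1 + (Real.log T * (s.im - t) / k) ^ 2) := by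
    funext t
    exact Mk_eq T k t hT
  rw [h]
  apply continuous_finsetSum
  intro s _
  apply Continuous.div
  · fun_prop
  · fun_prop
  · intro t
    positivity

theorem Mk_nonneg (T k t : ℝ) (hT : 1 ≤ T) : 0 ≤ Mk T k t := by
  rw [Mk_eq T k t hT]
  apply Finset.sum_nonneg
  intro s _
  positivity

theorem mk_cont (x : ℝ) : Continuous (fun t : ℝ => (⟨x, t⟩ : ℂ)) := by
  have : (fun t : ℝ => (⟨x, t⟩ : ℂ)) = fun t : ℝ => (x : ℂ) + t * I := by
    funext t
    exact Complex.mk_eq_add_mul_I x t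
  rw [this]
  fun_prop

theorem DP_cont (N : ℕ) (d : ℕ → ℂ) : Continuous (fun t : ℝ => DP N d (⟨1 / 2, t⟩ : ℂ)) := by
  unfold DP
  apply continuous_finsetSum
  intro n hn
  have hn0 : (n : ℂ) ≠ 0 := by
    have := (Finset.mem_Icc.mp hn).1
    exact_mod_cast (by omega : n ≠ 0)
  apply Continuous.mul continuous_const
  apply Continuous.const_cpow
  · exact (mk_cont (1 / 2)).neg
  · exact Or.inl hn0

/-- failure of simplicity or separation near `t` gives a small gap near `t` -/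
theorem small_near {T R c1 t : ℝ} (hT : 1 ≤ T) (hL : 0 < Real.log T) (hc1 : 0 < c1)
    (h : ¬ ((∀ s ∈ ZZ T, |s.im - t| ≤ R / Real.log T → mu s = 1) ∧
      (∀ s ∈ ZZ T, ∀ s' ∈ ZZ T, |s.im - t| ≤ R / Real.log T → |s'.im - t| ≤ R / Real.log T →
      s ≠ s' → 2 * Real.pi * c1 / Real.log T ≤ |s.im - s'.im|))) :
    ∃ n : ℕ, 1 ≤ n ∧ |ord n - t| ≤ R / Real.log T ∧
      ord (n + 1) - ord n < 2 * Real.pi * c1 / Real.log T := by
  have hgap : 0 < 2 * Real.pi * c1 / Real.log T := by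
    have := Real.pi_pos
    positivity
  have key : ∀ t1 : ℝ, |t1 - t| ≤ R / Real.log T →
      (∃ n : ℕ, 1 ≤ n ∧ t1 ≤ ord n ∧ ord (n + 1) ≤ t1) →
      ∃ n : ℕ, 1 ≤ n ∧ |ord n - t| ≤ R / Real.log T ∧
      ord (n + 1) - ord n < 2 * Real.pi * c1 / Real.log T := by
    rintro t1 h1 ⟨n, hn, h2, h3⟩
    have h4 := SG.ord_mono hn (by omega : n ≤ n + 1)
    have h5 : ord n = t1 := by linarith
    refine ⟨n, hn, by rw [h5]; exact h1, ?_⟩
    have : ord (n + 1) - ord n ≤ 0 := by linarith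
    linarith
  have key2 : ∀ s ∈ ZZ T, ∀ s' ∈ ZZ T, |s.im - t| ≤ R / Real.log T →
      |s'.im - t| ≤ R / Real.log T → s.im < s'.im → s'.im - s.im < 2 * Real.pi * c1 / Real.log T →
      ∃ n : ℕ, 1 ≤ n ∧ |ord n - t| ≤ R / Real.log T ∧
      ord (n + 1) - ord n < 2 * Real.pi * c1 / Real.log T := by
    rintro s ⟨a1, a2, a3, a4, a5⟩ s' ⟨b1, b2, b3, b4, b5⟩ h1 h2 hlt h3
    obtain ⟨n, hn, h4, h5⟩ := SG.consecutive_of_lt a5 a1 a2 (by linarith) b5 b1 b2 hlt
    have h6 := SG.ord_mono hn (by omega : n ≤ n + 1)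
    refine ⟨n, hn, ?_, by linarith⟩
    rw [abs_le] at h1 h2 ⊢
    constructor <;> linarith
  rw [not_and_or] at h
  rcases h with h | h
  · push Not at h
    obtain ⟨s, ⟨a1, a2, a3, a4, a5⟩, h1, h2⟩ := h
    have hpos : 0 < s.im := by linarith
    have hm : 1 ≤ zmult s := SG.zmult_pos hpos a5
    have hm2 : zmult s ≠ 1 := h2
    refine key s.im h1 (SG.consecutive_of_jump hpos ?_)
    intro u hu
    have := SG.jump_one a5 a1 a2 hpos u hu
    omega
  · push Not at h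
    obtain ⟨s, hs, s', hs', h1, h2, hne, h3⟩ := h
    have hs0 := hs
    have hs0' := hs'
    obtain ⟨a1, a2, a3, a4, a5⟩ := hs
    obtain ⟨b1, b2, b3, b4, b5⟩ := hs'
    have hpos : 0 < s.im := by linarith
    rw [abs_lt] at h3
    rcases lt_trichotomy s.im s'.im with hlt | heq | hgt
    · exact key2 s hs0 s' hs0' h1 h2 hlt (by linarith)
    · refine key s.im h1 (SG.consecutive_of_jump hpos ?_)
      intro u hu
      exact SG.jump_two a5 a1 a2 hpos b5 b1 b2 heq.symm hne u hu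
    · exact key2 s' hs0' s hs0 h2 h1 hgt (by linarith)

/-- finiteness of the index set -/
theorem idx_finite (A B : ℝ) : {n : ℕ | 1 ≤ n ∧ |ord n - A| ≤ B}.Finite := by
  refine (Set.finite_Iic (NZ (A + B))).subset ?_
  rintro n ⟨hn, h⟩
  rw [abs_le] at h
  exact (SG.ord_le_iff hn _).mp (by linarith)

/-- integral of the indicator of an interval -/
theorem ind_int (a b V1 V2 : ℝ) (hab : a ≤ b) (hV : V1 ≤ V2) :
    IntervalIntegrable ((Set.Icc a b).indicator (fun _ => (1 : ℝ))) volume V1 V2 ∧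
    ∫ t in V1..V2, (Set.Icc a b).indicator (fun _ => (1 : ℝ)) t ≤ b - a := by
  have hi : Integrable ((Set.Icc a b).indicator (fun _ => (1 : ℝ))) := by
    rw [integrable_indicator_iff measurableSet_Icc]
    exact integrableOn_const (by simp) (by simp)
  refine ⟨hi.intervalIntegrable, ?_⟩
  rw [intervalIntegral.integral_of_le hV]
  refine (setIntegral_le_integral hi (Filter.Eventually.of_forall fun t => ?_)).trans ?_
  · exact Set.indicator_nonneg (fun _ _ => zero_le_one) t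
  · rw [integral_indicator measurableSet_Icc]
    simp [hab]

/-- the pointwise inequality -/
theorem pointwise {D2 F2 e C4L B imf : ℝ} (he : 0 < e) (hC : 0 ≤ C4L) (hB : 0 ≤ B) (_hD : 0 ≤ D2)
    (_hF : 0 ≤ F2) (him : imf ≤ F2) (h : imf ≤ C4L * F2 ∨ 1 ≤ B) :
    D2 ^ 2 * imf ≤ C4L * (1 + (D2 ^ 8 + F2 ^ 4)) + e * (D2 ^ 8 + F2 ^ 4) + 1 / (4 * e) * B := by
  have h1 : (D2 ^ 2 * F2) ^ 2 ≤ D2 ^ 8 + F2 ^ 4 := by
    nlinarith [sq_nonneg (D2 ^ 4 - F2 ^ 2), sq_nonneg (D2 ^ 4), sq_nonneg (F2 ^ 2)]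
  have h2 : D2 ^ 2 * F2 ≤ 1 + (D2 ^ 8 + F2 ^ 4) := by
    nlinarith [sq_nonneg (D2 ^ 2 * F2 - 1)]
  have h3 : 0 ≤ D2 ^ 8 + F2 ^ 4 := by positivity
  have h4 : 0 ≤ 1 / (4 * e) * B := by positivity
  have h5 : 0 ≤ e * (D2 ^ 8 + F2 ^ 4) := by positivity
  rcases h with h | h
  · have h6 : D2 ^ 2 * imf ≤ D2 ^ 2 * (C4L * F2) := mul_le_mul_of_nonneg_left h (by positivity)
    have h7 : C4L * (D2 ^ 2 * F2) ≤ C4L * (1 + (D2 ^ 8 + F2 ^ 4)) :=
      mul_le_mul_of_nonneg_left h2 hC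
    nlinarith
  · have h6 : D2 ^ 2 * imf ≤ D2 ^ 2 * F2 := mul_le_mul_of_nonneg_left him (by positivity)
    have h7 : 0 ≤ C4L * (1 + (D2 ^ 8 + F2 ^ 4)) := by positivity
    have h8 : D2 ^ 2 * F2 ≤ e * (D2 ^ 2 * F2) ^ 2 + 1 / (4 * e) := by
      have : 0 ≤ e * (D2 ^ 2 * F2 - 1 / (2 * e)) ^ 2 := by positivity
      have e1 : e * (D2 ^ 2 * F2 - 1 / (2 * e)) ^ 2 =
        e * (D2 ^ 2 * F2) ^ 2 - D2 ^ 2 * F2 + 1 / (4 * e) := by
        field_simp
        ring
      linarith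
    have h9 : e * (D2 ^ 2 * F2) ^ 2 ≤ e * (D2 ^ 8 + F2 ^ 4) := mul_le_mul_of_nonneg_left h1 he.le
    have h10 : 1 / (4 * e) ≤ 1 / (4 * e) * B := le_mul_of_one_le_right (by positivity) h
    linarith

theorem exists_M (x : ℝ) (hx : 0 < x) : ∃ M : ℝ, 0 ≤ M ∧ Real.exp (-M ^ 2 / 4) ≤ x := by
  refine ⟨4 * max 1 (Real.log (1 / x)), by positivity, ?_⟩
  have h1 : 1 ≤ max 1 (Real.log (1 / x)) := le_max_left _ _
  have h2 : Real.log (1 / x) ≤ max 1 (Real.log (1 / x)) := le_max_right _ _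
  set m := max 1 (Real.log (1 / x))
  have h3 : -(4 * m) ^ 2 / 4 ≤ -Real.log (1 / x) := by nlinarith
  calc Real.exp (-(4 * m) ^ 2 / 4) ≤ Real.exp (-Real.log (1 / x)) := Real.exp_le_exp.mpr h3
    _ = x := by
      rw [one_div, Real.log_inv, neg_neg, Real.exp_log hx]

end ManyAux

open ManyAux in
/-- **many small gaps near every `t0`** -/
theorem local_many (hRH : RHs) (c1 : ℝ) (hc : 1 / 2 < c1) (hc1 : c1 < 1) :
    ∃ ε κ K T0 : ℝ, 0 < ε ∧ 0 < κ ∧ κ < 1 / 2 ∧ 1 ≤ K ∧ 10 ≤ T0 ∧ ∀ T : ℝ, T0 ≤ T → ∀ t0 : ℝ,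
    11 / 10 * T ≤ t0 → t0 ≤ 19 / 10 * T →
    ε * dd κ T * Real.log T ≤
      ({n : ℕ | 1 ≤ n ∧ |ord n - t0| ≤ K * dd κ T ∧
        ord (n + 1) - ord n < 2 * Real.pi * c1 / Real.log T}.ncard : ℝ) := by
  classical
  obtain ⟨P, hPc, c3, CS, TS, hc3, hCS, hTS, hS⟩ :=
    S_pos ((1 / 2 + c1) / 2) (by linarith) (by linarith)
  have hPc1 : P.c < c1 := by rw [hPc]; linarith
  have hPc0 : 0 < P.c := by linarith [P.hc]
  obtain ⟨CE, TE, hCE, hTE, hE⟩ := eval_gen hRH P.c P.a P.κ hPc0 P.hc1 P.ha P.ha1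
    P.hκ P.hκ1
  obtain ⟨CD, TD, hCD, hTD, hD⟩ := Dp_mom hRH P
  obtain ⟨CF, TF, hCF, hTF, hF⟩ := ff_mom hRH P.c P.a P.κ hPc0 P.hc1 P.ha P.hκ P.hκ1
  obtain ⟨CH, TH, hCH, hTH, hH⟩ := ff_hor hRH P.c P.a hPc0 P.hc1 P.ha
  obtain ⟨Tb, hTb, hb⟩ := dco_bound P
  obtain ⟨CM, hCM, hM⟩ := Mk_mean hRH P.κ P.hκ P.hκ1
  obtain ⟨η, C4, R0, hη, hC4, hR0, hI⟩ := ff_im hRH P.c c1 P.a hPc0 hPc1 (by linarith)
    P.ha
  set C5 := CD + CF with hC5
  have hC50 : 0 < C5 := by positivity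
  set ϵ := c3 / (8 * C5) with hϵ
  have hϵ0 : 0 < ϵ := by positivity
  have hϵ1 : ϵ * C5 = c3 / 8 := by rw [hϵ]; field_simp
  obtain ⟨k, hk⟩ := exists_nat_ge (max R0 (8 * CM / (ϵ * η * c3)))
  have hkR : R0 ≤ k := (le_max_left _ _).trans hk
  have hkC : 8 * CM / (ϵ * η * c3) ≤ k := (le_max_right _ _).trans hk
  have hk1' : (1 : ℝ) ≤ k := hR0.trans hkR
  have hk1 : 1 ≤ k := by exact_mod_cast hk1'
  have hk0 : (0 : ℝ) < k := by linarith
  obtain ⟨TM, hTM, hMk⟩ := hM k hk1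
  obtain ⟨TI, hTI, hIm⟩ := hI k hkR
  obtain ⟨M, hM0, hMe⟩ := exists_M (c3 * ϵ / 12) (by positivity)
  -- largeness of `T`
  set B : ℝ := max (max 2 (8 * C4 * (3 + C5) / c3)) (max (k : ℝ) (CE * (1 + CS) / c3)) with hB
  obtain ⟨T1, hT1⟩ := (Real.tendsto_log_atTop.eventually_ge_atTop B).exists_forall_of_atTop
  obtain ⟨T2, hT2⟩ := (Real.isLittleO_log_id_atTop.bound
    (by norm_num : (0 : ℝ) < 1 / 4)).exists_forall_of_atTop
  refine ⟨c3 * ϵ / k, P.κ, M + 1,
    max (max (max TS TE) (max TD TF)) (max (max TH Tb) (max (max TM TI) (max T1 T2))),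
    by positivity, P.hκ, P.hκ1, by linarith, ?_, ?_⟩
  · exact hTS.trans ((le_max_left _ _).trans ((le_max_left _ _).trans (le_max_left _ _)))
  intro T hT t0 ht0 ht1
  simp only [max_le_iff] at hT
  obtain ⟨⟨⟨eS, eE⟩, eD, eF⟩, ⟨eH, eb⟩, ⟨eM, eI⟩, e1, e2⟩ := hT
  have hT10 : 10 ≤ T := hTS.trans eS
  have hTone : 1 ≤ T := by linarith
  have hTpos : 0 < T := by linarith
  have hLB := hT1 T e1
  rw [hB] at hLB
  simp only [max_le_iff] at hLB
  obtain ⟨⟨hL2, hLC4⟩, hLk, hLE⟩ := hLB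
  set L := Real.log T with hL
  have hL0 : 0 < L := by linarith
  have hLT : 4 * L ≤ T := by
    have := hT2 T e2
    simp only [id, Real.norm_eq_abs] at this
    rw [abs_of_pos hTpos] at this
    have h := le_abs_self (Real.log T)
    rw [← hL] at h this
    linarith
  set Δ := dd P.κ T with hΔ
  have hΔ1 : 1 ≤ Δ := by
    rw [hΔ]; unfold dd
    exact Real.one_le_rpow hTone (by linarith [P.hκ1])
  have hΔ0 : 0 < Δ := by linarith
  set V1 := T + 2 * L with hV1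
  set V2 := 2 * T - 2 * L with hV2
  have hV : V1 ≤ V2 := by rw [hV1, hV2]; linarith
  set w : ℝ → ℝ := wt t0 Δ with hw
  have hw0 : ∀ t, 0 ≤ w t := fun t => wt_nonneg _ _ _
  have hw1 : ∀ t, w t ≤ 1 := fun t => wt_le_one _ _ _
  have hwc : Continuous w := wt_cont _ _
  set Dn : ℝ → ℝ := fun t => ‖DP (nn P.κ T) (dco P T) (⟨1 / 2, t⟩ : ℂ)‖ with hDn
  have hDc : Continuous Dn := (DP_cont _ _).norm
  set f : ℝ → ℂ := fun t => ff P.c T (⟨1 / 2 + P.a / L, t⟩ : ℂ) with hf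
  have hfc : ContinuousOn f (Set.Icc V1 V2) := by
    intro t ht
    have h1 := (hH T eH (⟨1 / 2 + P.a / L, t⟩ : ℂ) (by simp [hL])
      (by
        have : P.a / L ≤ 1 := by
          rw [div_le_one hL0]; linarith [P.ha1]
        simp only
        linarith)
      (by simp only; rw [hV1] at ht; linarith [ht.1])
      (by simp only; rw [hV2] at ht; linarith [ht.2])).1
    have h2 : ContinuousAt f t :=
      ContinuousAt.comp (f := fun t : ℝ => (⟨1 / 2 + P.a / L, t⟩ : ℂ)) (g := ff P.c T)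
        h1.continuousAt (mk_cont _).continuousAt
    exact h2.continuousWithinAt
  have hfn : ContinuousOn (fun t => ‖f t‖) (Set.Icc V1 V2) := hfc.norm
  have hfi : ContinuousOn (fun t => (f t).im) (Set.Icc V1 V2) :=
    Complex.continuous_im.comp_continuousOn hfc
  have huIcc : Set.uIcc V1 V2 = Set.Icc V1 V2 := Set.uIcc_of_le hV
  have hMkc : Continuous (fun t => Mk T k t) := Mk_cont T k hTone
  -- lower bound
  have hlow : c3 * Δ ≤ ∫ t in V1..V2, w t * Dn t ^ 2 * (f t).im := by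
    have h1 := hE T eE t0 ht0 ht1 (dco P T) (hb T eb)
    rw [SD_eq P T hT10] at h1
    obtain ⟨h2, h3⟩ := hS T eS
    rw [← hPc] at h2
    set X : ℂ := ∫ t in V1..V2, ((w t * Dn t ^ 2 : ℝ) : ℂ) * f t with hX
    have h4 : ‖X - (Real.sqrt (2 * Real.pi) * Δ : ℝ) * cexp (-(Real.pi * P.c : ℝ) * I) * SS P T‖ ≤
        CE * Δ / L * (1 + ‖SS P T‖) := h1
    have hXim : X.im = ∫ t in V1..V2, w t * Dn t ^ 2 * (f t).im := by
      have hint : IntervalIntegrable (fun t => ((w t * Dn t ^ 2 : ℝ) : ℂ) * f t) volume V1 V2 := by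
        apply ContinuousOn.intervalIntegrable
        rw [huIcc]
        apply ContinuousOn.mul _ hfc
        exact (Complex.continuous_ofReal.comp (hwc.mul (hDc.pow 2))).continuousOn
      have := Complex.imCLM.intervalIntegral_comp_comm hint
      simp only [Complex.imCLM_apply, Complex.im_ofReal_mul] at this
      rw [hX, ← this]
    set Y : ℂ := (Real.sqrt (2 * Real.pi) * Δ : ℝ) * cexp (-(Real.pi * P.c : ℝ) * I) * SS P T
      with hY
    have hYim : Real.sqrt (2 * Real.pi) * Δ * c3 ≤ Y.im := by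
      have hY2 : Y = ((Real.sqrt (2 * Real.pi) * Δ : ℝ) : ℂ) *
          (cexp (-(Real.pi * P.c : ℝ) * I) * SS P T) := by rw [hY]; ring
      rw [hY2, Complex.im_ofReal_mul]
      exact mul_le_mul_of_nonneg_left h2 (by positivity)
    have h5 : |(X - Y).im| ≤ ‖X - Y‖ := Complex.abs_im_le_norm _
    rw [Complex.sub_im] at h5
    have h6 := (abs_le.mp (h5.trans h4)).1
    have h7 : CE * Δ / L * (1 + ‖SS P T‖) ≤ c3 * Δ := by
      have e3 : CE * (1 + CS) ≤ c3 * L := by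
        rw [div_le_iff₀ hc3] at hLE
        linarith
      calc CE * Δ / L * (1 + ‖SS P T‖) ≤ CE * Δ / L * (1 + CS) := by gcongr
        _ = CE * (1 + CS) * Δ / L := by ring
        _ ≤ c3 * L * Δ / L := by gcongr
        _ = c3 * Δ := by field_simp
    have h8 : 2 * (Δ * c3) ≤ Real.sqrt (2 * Real.pi) * (Δ * c3) :=
      mul_le_mul_of_nonneg_right two_le_sqrt_two_pi (by positivity)
    rw [← hXim]
    linarith
  -- the index set
  have hfin : {n : ℕ | 1 ≤ n ∧ |ord n - t0| ≤ (M + 1) * Δ ∧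
      ord (n + 1) - ord n < 2 * Real.pi * c1 / L}.Finite :=
    (idx_finite t0 ((M + 1) * Δ)).subset (fun n hn => ⟨hn.1, hn.2.1⟩)
  set N := hfin.toFinset with hN
  have hcard : {n : ℕ | 1 ≤ n ∧ |ord n - t0| ≤ (M + 1) * Δ ∧
      ord (n + 1) - ord n < 2 * Real.pi * c1 / L}.ncard = N.card :=
    Set.ncard_eq_toFinset_card _ hfin
  rw [hcard]
  set S : ℝ → ℝ := fun t => ∑ n ∈ N,
    (Set.Icc (ord n - k / L) (ord n + k / L)).indicator (fun _ => (1 : ℝ)) t with hSdef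
  have hkL0 : 0 < (k : ℝ) / L := by positivity
  have hkL1 : (k : ℝ) / L ≤ Δ := by
    rw [div_le_iff₀ hL0]
    nlinarith
  have hS0 : ∀ t, 0 ≤ S t := fun t =>
    Finset.sum_nonneg (fun n _ => Set.indicator_nonneg (fun _ _ => zero_le_one) t)
  have hSi : ∀ n, IntervalIntegrable (fun t => (Set.Icc (ord n - k / L)
      (ord n + k / L)).indicator (fun _ => (1 : ℝ)) t) volume V1 V2 := fun n =>
    (ind_int (ord n - k / L) (ord n + k / L) V1 V2 (by linarith) hV).1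
  have iS : IntervalIntegrable S volume V1 V2 := by
    have h1 := IntervalIntegrable.sum N (fun n _ => hSi n)
    have h2 : (∑ n ∈ N, (fun t => (Set.Icc (ord n - k / L)
      (ord n + k / L)).indicator (fun _ => (1 : ℝ)) t)) = S := by
      funext t
      rw [Finset.sum_apply]
    rw [← h2]
    exact h1
  have I4 : ∫ t in V1..V2, S t ≤ N.card * (2 * (k / L)) := by
    rw [hSdef, intervalIntegral.integral_finsetSum (fun n _ => hSi n)]
    calc _ ≤ ∑ n ∈ N, (2 * ((k : ℝ) / L)) := by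
          apply Finset.sum_le_sum
          intro n _
          refine ((ind_int (ord n - k / L) (ord n + k / L) V1 V2 (by linarith) hV).2).trans ?_
          linarith
      _ = N.card * (2 * (k / L)) := by rw [Finset.sum_const, nsmul_eq_mul]
  -- pointwise bound
  have hpt : ∀ t ∈ Set.Icc V1 V2, w t * Dn t ^ 2 * (f t).im ≤
      C4 / L * w t + (C4 / L + ϵ) * (w t * Dn t ^ 8) + (C4 / L + ϵ) * (w t * ‖f t‖ ^ 4) +
      1 / (4 * ϵ) * S t + 1 / (4 * ϵ) * Real.exp (-M ^ 2 / 4) * wt t0 (2 * Δ) t +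
      1 / (4 * ϵ) * (4 / (k ^ 2 * η)) * (w t * Mk T k t) := by
    intro t ht
    have htV1 : T + 2 * L ≤ t := ht.1
    have htV2 : t ≤ 2 * T - 2 * L := ht.2
    have hMk0 : 0 ≤ Mk T k t := Mk_nonneg T k t hTone
    have him : (f t).im ≤ ‖f t‖ := (le_abs_self _).trans (Complex.abs_im_le_norm _)
    set hyp := ((∀ s ∈ ZZ T, |s.im - t| ≤ k / Real.log T → mu s = 1) ∧
      (∀ s ∈ ZZ T, ∀ s' ∈ ZZ T, |s.im - t| ≤ k / Real.log T → |s'.im - t| ≤ k / Real.log T →
      s ≠ s' → 2 * Real.pi * c1 / Real.log T ≤ |s.im - s'.im|)) with hhyp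
    set b1 : ℝ := if hyp then 0 else 1 with hb1
    have hb10 : 0 ≤ b1 := by rw [hb1]; split_ifs <;> norm_num
    -- the dichotomy
    have hdich : (f t).im ≤ C4 / L * ‖f t‖ ∨ 1 ≤ b1 + 4 / (k ^ 2 * η) * Mk T k t := by
      by_cases hh : hyp
      · have hh' := hh
        rw [hhyp] at hh'
        by_cases hfar : (∑ᶠ s ∈ {s : ℂ | s ∈ ZZ T ∧ k / Real.log T < |s.im - t| ∧ |s.im - t| ≤ 1},
            (mu s : ℝ) / (Real.log T * (s.im - t)) ^ 2) ≤ η
        · left
          exact hIm T eI t (by linarith) (by linarith) hh'.1 hh'.2 hfar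
        · right
          push Not at hfar
          have h1 := far_bound T k t hT10 hk1'
          have h2 : η ≤ 4 / k ^ 2 * Mk T k t := hfar.le.trans h1
          have h3 : 4 / (k ^ 2 * η) * Mk T k t = (4 / k ^ 2 * Mk T k t) / η := by
            field_simp
          have h4 : 1 ≤ 4 / (k ^ 2 * η) * Mk T k t := by
            rw [h3, le_div_iff₀ hη]; linarith
          linarith
      · right
        have : b1 = 1 := by rw [hb1, if_neg hh]
        have h5 : 0 ≤ 4 / (k ^ 2 * η) * Mk T k t := by positivity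
        linarith
    have h1 := pointwise (D2 := Dn t) (F2 := ‖f t‖) hϵ0 (by positivity : 0 ≤ C4 / L)
      (by positivity : 0 ≤ b1 + 4 / (k ^ 2 * η) * Mk T k t) (norm_nonneg _) (norm_nonneg _)
      him hdich
    have h2 := mul_le_mul_of_nonneg_left h1 (hw0 t)
    -- the indicator part
    have h3 : w t * b1 ≤ S t + Real.exp (-M ^ 2 / 4) * wt t0 (2 * Δ) t := by
      have hE0 : 0 ≤ Real.exp (-M ^ 2 / 4) * wt t0 (2 * Δ) t :=
        mul_nonneg (Real.exp_pos _).le (wt_nonneg _ _ _)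
      by_cases hh : hyp
      · have : b1 = 0 := by rw [hb1, if_pos hh]
        rw [this, mul_zero]
        linarith [hS0 t]
      · have hb : b1 = 1 := by rw [hb1, if_neg hh]
        rw [hb, mul_one]
        obtain ⟨n, hn, h5, h6⟩ := small_near hTone hL0 (by linarith) hh
        by_cases hn0 : |ord n - t0| ≤ (M + 1) * Δ
        · have hnN : n ∈ N := by
            rw [hN, Set.Finite.mem_toFinset]
            exact ⟨hn, hn0, h6⟩
          have h7 : (1 : ℝ) ≤ S t := by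
            have h8 : (Set.Icc (ord n - k / L) (ord n + k / L)).indicator
                (fun _ => (1 : ℝ)) t = 1 := by
              apply Set.indicator_of_mem
              rw [abs_le] at h5
              constructor <;> linarith
            rw [← h8]
            exact Finset.single_le_sum (f := fun n =>
              (Set.Icc (ord n - k / L) (ord n + k / L)).indicator (fun _ => (1 : ℝ)) t)
              (fun n _ => Set.indicator_nonneg (fun _ _ => zero_le_one) t) hnN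
          linarith [hw1 t]
        · push Not at hn0
          have h7 : M * Δ ≤ |t - t0| := by
            have h8 : |ord n - t0| ≤ |ord n - t| + |t - t0| := by
              have := abs_add_le (ord n - t) (t - t0)
              simpa using this
            have h9 : |ord n - t| ≤ Δ := h5.trans hkL1
            nlinarith
          have := wt_tail t0 Δ t M hΔ0 hM0 h7
          linarith [hS0 t]
    have h4 : 1 / (4 * ϵ) * (w t * b1) ≤
        1 / (4 * ϵ) * (S t + Real.exp (-M ^ 2 / 4) * wt t0 (2 * Δ) t) :=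
      mul_le_mul_of_nonneg_left h3 (by positivity)
    have e3 : w t * Dn t ^ 2 * (f t).im = w t * (Dn t ^ 2 * (f t).im) := by ring
    rw [e3]
    refine h2.trans ?_
    have e4 : w t * (C4 / L * (1 + (Dn t ^ 8 + ‖f t‖ ^ 4)) + ϵ * (Dn t ^ 8 + ‖f t‖ ^ 4) +
        1 / (4 * ϵ) * (b1 + 4 / (k ^ 2 * η) * Mk T k t)) =
        C4 / L * w t + (C4 / L + ϵ) * (w t * Dn t ^ 8) + (C4 / L + ϵ) * (w t * ‖f t‖ ^ 4) +
        1 / (4 * ϵ) * (w t * b1) + 1 / (4 * ϵ) * (4 / (k ^ 2 * η)) * (w t * Mk T k t) := by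
      ring
    rw [e4]
    linarith
  -- integrability
  have i1 : IntervalIntegrable w volume V1 V2 := hwc.intervalIntegrable _ _
  have i2 : IntervalIntegrable (fun t => w t * Dn t ^ 8) volume V1 V2 :=
    (hwc.mul (hDc.pow 8)).intervalIntegrable _ _
  have i3 : IntervalIntegrable (fun t => w t * ‖f t‖ ^ 4) volume V1 V2 := by
    apply ContinuousOn.intervalIntegrable
    rw [huIcc]
    exact hwc.continuousOn.mul (hfn.pow 4)
  have i5 : IntervalIntegrable (fun t => wt t0 (2 * Δ) t) volume V1 V2 :=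
    (wt_cont _ _).intervalIntegrable _ _
  have i6 : IntervalIntegrable (fun t => w t * Mk T k t) volume V1 V2 :=
    (hwc.mul hMkc).intervalIntegrable _ _
  have i0 : IntervalIntegrable (fun t => w t * Dn t ^ 2 * (f t).im) volume V1 V2 := by
    apply ContinuousOn.intervalIntegrable
    rw [huIcc]
    exact (hwc.mul (hDc.pow 2)).continuousOn.mul hfi
  -- the integrals
  have I1 : ∫ t in V1..V2, w t ≤ 3 * Δ :=
    (wt_int t0 Δ V1 V2 hΔ0 hV).trans (mul_le_mul_of_nonneg_right sqrt_two_pi_le hΔ0.le)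
  have I2 : ∫ t in V1..V2, w t * Dn t ^ 8 ≤ CD * Δ := by
    have h1 := hD T eD t0
    have h2 : ∀ t : ℝ, Dp P T (⟨1 / 2, t⟩ : ℂ) = DP (nn P.κ T) (dco P T) (⟨1 / 2, t⟩ : ℂ) :=
      fun t => Dp_eq P T hT10 _
    simp only [h2] at h1
    exact h1
  have I3 : ∫ t in V1..V2, w t * ‖f t‖ ^ 4 ≤ CF * Δ := hF T eF t0
  have I5 : ∫ t in V1..V2, wt t0 (2 * Δ) t ≤ 6 * Δ := by
    have h1 := wt_int t0 (2 * Δ) V1 V2 (by positivity) hV
    have h2 : Real.sqrt (2 * Real.pi) * (2 * Δ) ≤ 3 * (2 * Δ) :=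
      mul_le_mul_of_nonneg_right sqrt_two_pi_le (by positivity)
    linarith
  have I6 : ∫ t in V1..V2, w t * Mk T k t ≤ CM * k * Δ :=
    hMk T eM t0 V1 V2 hV (by rw [hV1]; linarith) (by rw [hV2]; linarith)
  have hint := intervalIntegral.integral_mono_on hV i0
    ((((((i1.const_mul (C4 / L)).add (i2.const_mul (C4 / L + ϵ))).add
      (i3.const_mul (C4 / L + ϵ))).add (iS.const_mul (1 / (4 * ϵ)))).add
      (i5.const_mul (1 / (4 * ϵ) * Real.exp (-M ^ 2 / 4)))).add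
      (i6.const_mul (1 / (4 * ϵ) * (4 / (k ^ 2 * η))))) hpt
  rw [intervalIntegral.integral_add
    (((((i1.const_mul (C4 / L)).add (i2.const_mul (C4 / L + ϵ))).add
      (i3.const_mul (C4 / L + ϵ))).add (iS.const_mul (1 / (4 * ϵ)))).add
      (i5.const_mul (1 / (4 * ϵ) * Real.exp (-M ^ 2 / 4))))
      (i6.const_mul (1 / (4 * ϵ) * (4 / (k ^ 2 * η)))),
    intervalIntegral.integral_add
    ((((i1.const_mul (C4 / L)).add (i2.const_mul (C4 / L + ϵ))).add
      (i3.const_mul (C4 / L + ϵ))).add (iS.const_mul (1 / (4 * ϵ))))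
      (i5.const_mul (1 / (4 * ϵ) * Real.exp (-M ^ 2 / 4))),
    intervalIntegral.integral_add
    (((i1.const_mul (C4 / L)).add (i2.const_mul (C4 / L + ϵ))).add
      (i3.const_mul (C4 / L + ϵ))) (iS.const_mul (1 / (4 * ϵ))),
    intervalIntegral.integral_add
    ((i1.const_mul (C4 / L)).add (i2.const_mul (C4 / L + ϵ)))
      (i3.const_mul (C4 / L + ϵ)),
    intervalIntegral.integral_add (i1.const_mul (C4 / L)) (i2.const_mul (C4 / L + ϵ)),
    intervalIntegral.integral_const_mul, intervalIntegral.integral_const_mul,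
    intervalIntegral.integral_const_mul, intervalIntegral.integral_const_mul,
    intervalIntegral.integral_const_mul, intervalIntegral.integral_const_mul] at hint
  -- arithmetic
  have hCL0 : 0 < C4 / L := by positivity
  have J1 := mul_le_mul_of_nonneg_left I1 hCL0.le
  have J2 := mul_le_mul_of_nonneg_left I2 (by positivity : 0 ≤ C4 / L + ϵ)
  have J3 := mul_le_mul_of_nonneg_left I3 (by positivity : 0 ≤ C4 / L + ϵ)
  have J4 := mul_le_mul_of_nonneg_left I4 (by positivity : 0 ≤ 1 / (4 * ϵ))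
  have J5 := mul_le_mul_of_nonneg_left I5
    (by positivity : 0 ≤ 1 / (4 * ϵ) * Real.exp (-M ^ 2 / 4))
  have J6 := mul_le_mul_of_nonneg_left I6 (by positivity : 0 ≤ 1 / (4 * ϵ) * (4 / (k ^ 2 * η)))
  have K1 : C4 / L * (3 + C5) * Δ ≤ c3 / 8 * Δ := by
    apply mul_le_mul_of_nonneg_right _ hΔ0.le
    rw [div_le_iff₀ hc3] at hLC4
    rw [div_mul_eq_mul_div, div_le_iff₀ hL0]
    linarith
  have K5 : 1 / (4 * ϵ) * Real.exp (-M ^ 2 / 4) * (6 * Δ) ≤ c3 / 8 * Δ := by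
    calc 1 / (4 * ϵ) * Real.exp (-M ^ 2 / 4) * (6 * Δ) ≤
        1 / (4 * ϵ) * (c3 * ϵ / 12) * (6 * Δ) := by gcongr
      _ = c3 / 8 * Δ := by field_simp; ring
  have K6 : 1 / (4 * ϵ) * (4 / (k ^ 2 * η)) * (CM * k * Δ) ≤ c3 / 8 * Δ := by
    have h1 : 1 / (4 * ϵ) * (4 / (k ^ 2 * η)) * (CM * k * Δ) = CM / (ϵ * η * k) * Δ := by
      field_simp
    rw [h1]
    apply mul_le_mul_of_nonneg_right _ hΔ0.le
    rw [div_le_iff₀ (by positivity)] at hkC ⊢
    linarith
  have K : c3 / 2 * Δ ≤ 1 / (4 * ϵ) * (N.card * (2 * (k / L))) := by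
    have h1 : (C4 / L + ϵ) * (CD * Δ) + (C4 / L + ϵ) * (CF * Δ) + C4 / L * (3 * Δ) =
        C4 / L * (3 + C5) * Δ + (ϵ * C5) * Δ := by rw [hC5]; ring
    rw [hϵ1] at h1
    linarith
  have e5 : 1 / (4 * ϵ) * (N.card * (2 * (k / L))) = N.card * k / (2 * ϵ * L) := by
    field_simp
    ring
  rw [e5, le_div_iff₀ (by positivity)] at K
  have e6 : c3 * ϵ / k * Δ * L = (c3 / 2 * Δ * (2 * ϵ * L)) / k := by
    field_simp
  rw [e6, div_le_iff₀ hk0]
  exact K

end SP
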