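import Pool.Agent.H382P.Defs

/-! # Task 19: choice of the parameters (helper454) -/

open Complex Filter Topology Set MeasureTheory

namespace SP

namespace ChooseAux

/-- the bump: `0` outside `(l+ε, r-ε)`, `1` on `[l+2ε, r-2ε]` -/
noncomputable def bump (l r ε u : ℝ) : ℝ :=
  Real.smoothTransition ((u - l - ε) / ε) * Real.smoothTransition ((r - ε - u) / ε)

theorem bump_nonneg (l r ε u : ℝ) : 0 ≤ bump l r ε u :=
  mul_nonneg (Real.smoothTransition.nonneg _) (Real.smoothTransition.nonneg _)

theorem bump_le_one (l r ε u : ℝ) : bump l r ε u ≤ 1 :=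
  mul_le_one₀ (Real.smoothTransition.le_one _) (Real.smoothTransition.nonneg _)
    (Real.smoothTransition.le_one _)

theorem bump_zero_left {l r ε u : ℝ} (hε : 0 < ε) (h : u ≤ l + ε) : bump l r ε u = 0 := by
  unfold bump
  rw [Real.smoothTransition.zero_of_nonpos, zero_mul]
  apply div_nonpos_of_nonpos_of_nonneg _ hε.le
  linarith

theorem bump_zero_right {l r ε u : ℝ} (hε : 0 < ε) (h : r - ε ≤ u) : bump l r ε u = 0 := by
  unfold bump
  rw [Real.smoothTransition.zero_of_nonpos (x := (r - ε - u) / ε), mul_zero]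
  apply div_nonpos_of_nonpos_of_nonneg _ hε.le
  linarith

theorem bump_one {l r ε u : ℝ} (hε : 0 < ε) (h : l + 2 * ε ≤ u) (h' : u ≤ r - 2 * ε) :
    bump l r ε u = 1 := by
  unfold bump
  rw [Real.smoothTransition.one_of_one_le, Real.smoothTransition.one_of_one_le, mul_one]
  · rw [le_div_iff₀ hε]; linarith
  · rw [le_div_iff₀ hε]; linarith

theorem bump_contDiff (l r ε : ℝ) : ContDiff ℝ 2 (bump l r ε) := by
  unfold bump
  apply ContDiff.mul
  · apply Real.smoothTransition.contDiff.comp
    fun_prop
  · apply Real.smoothTransition.contDiff.comp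
    fun_prop

theorem div_contDiff {l r ε : ℝ} (hl : 0 < l) (hε : 0 < ε) :
    ContDiff ℝ 2 (fun u => bump l r ε u / u) := by
  rw [contDiff_iff_contDiffAt]
  intro x
  by_cases hx : x < l
  · have : (fun u => bump l r ε u / u) =ᶠ[𝓝 x] fun _ => 0 := by
      filter_upwards [Iio_mem_nhds hx] with u hu
      rw [bump_zero_left hε (by have := Set.mem_Iio.1 hu; linarith), zero_div]
    exact ContDiffAt.congr_of_eventuallyEq contDiffAt_const this
  · have hx0 : x ≠ 0 := by
      intro h
      apply hx
      rw [h]; exact hl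
    exact ContDiffAt.div (bump_contDiff l r ε).contDiffAt contDiffAt_id hx0

theorem norm_cexp_neg_I (x : ℝ) : ‖cexp (-(x : ℂ) * I)‖ = 1 := by
  have : -(x : ℂ) * I = ((-x : ℝ) : ℂ) * I := by push_cast; ring
  rw [this, Complex.norm_exp_ofReal_mul_I]

theorem norm_cexp_sub (x y : ℝ) : ‖cexp (-(x : ℂ) * I) - cexp (-(y : ℂ) * I)‖ ≤ |x - y| := by
  have h1 : cexp (-(x : ℂ) * I) - cexp (-(y : ℂ) * I) =
      cexp (-(y : ℂ) * I) * (cexp (I * ((y - x : ℝ) : ℂ)) - 1) := by
    rw [mul_sub, ← Complex.exp_add, mul_one]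
    congr 2
    push_cast
    ring
  rw [h1, norm_mul, norm_cexp_neg_I, one_mul]
  have h2 := Real.norm_exp_I_mul_ofReal_sub_one_le (x := y - x)
  rw [Real.norm_eq_abs, abs_sub_comm] at h2
  exact h2

theorem aux {c a l r ε m : ℝ} (hc : 0 < c) (ha : 0 < a) (hl : 0 < l) (hε : 0 < ε)
    (hlr : l + 4 * ε ≤ r) (hr : r ≤ 1) (hm : 0 < m) (hlog : Real.log (r / l) = 1 / m) (b : ℝ → ℝ)
    (hb : ∀ u, b u = bump l r ε u / u) :
    ‖(m : ℂ) * (∫ u in (0 : ℝ)..1, (b u : ℂ) * ((u * b u : ℝ) -
      (1 - cexp (-(2 * Real.pi * c * u : ℝ) * I)) * (Real.exp (-a * u) : ℂ))) -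
        cexp (-(2 * Real.pi * c * r : ℝ) * I)‖ ≤
      2 * Real.pi * c * (r - l) + m * (2 * a * (r - l) + 16 * ε / l) := by
  set w : ℂ := cexp (-(2 * Real.pi * c * r : ℝ) * I) with hw
  have hw1 : ‖w‖ = 1 := norm_cexp_neg_I _
  set f : ℝ → ℂ := fun u => (b u : ℂ) * ((u * b u : ℝ) -
      (1 - cexp (-(2 * Real.pi * c * u : ℝ) * I)) * (Real.exp (-a * u) : ℂ)) with hf
  have hlr' : l < r := by linarith
  have hbc : Continuous b := by
    have : b = fun u => bump l r ε u / u := funext hb
    rw [this]
    exact (div_contDiff hl hε).continuous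
  have hfc : Continuous f := by
    rw [hf]
    fun_prop
  have hsupp : Function.support f ⊆ Set.Ioc l r := by
    intro u hu
    rw [Function.mem_support] at hu
    by_contra hcon
    apply hu
    have hb0 : b u = 0 := by
      rw [hb]
      rw [Set.mem_Ioc, not_and_or, not_lt, not_le] at hcon
      rcases hcon with h | h
      · rw [bump_zero_left hε (by linarith), zero_div]
      · rw [bump_zero_right hε (by linarith), zero_div]
    simp only [hf, hb0]
    simp
  have hint : ∫ u in (0 : ℝ)..1, f u = ∫ u in l..r, f u := by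
    rw [intervalIntegral.integral_eq_integral_of_support_subset hsupp,
      intervalIntegral.integral_eq_integral_of_support_subset
        (hsupp.trans (Set.Ioc_subset_Ioc hl.le hr))]
  rw [hint]
  -- the reference integral
  have hinv : IntervalIntegrable (fun u : ℝ => u⁻¹) volume l r := by
    apply ContinuousOn.intervalIntegrable
    rw [Set.uIcc_of_le hlr'.le]
    intro u hu
    apply ContinuousAt.continuousWithinAt
    exact continuousAt_inv₀ (by have := hu.1; linarith)
  have hinvint : ∫ u in l..r, u⁻¹ = 1 / m := by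
    rw [integral_inv_of_pos hl (by linarith), hlog]
  set g : ℝ → ℂ := fun u => w * ((u⁻¹ : ℝ) : ℂ) with hg
  have hgi : IntervalIntegrable g volume l r := by
    have h0 : IntervalIntegrable (fun u : ℝ => ((u⁻¹ : ℝ) : ℂ)) volume l r :=
      ⟨hinv.1.ofReal, hinv.2.ofReal⟩
    exact h0.const_mul w
  have hgint : (m : ℂ) * ∫ u in l..r, g u = w := by
    rw [hg, intervalIntegral.integral_const_mul, intervalIntegral.integral_ofReal, hinvint]
    push_cast
    have : (m : ℂ) ≠ 0 := by exact_mod_cast hm.ne'
    field_simp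
  have hfi : IntervalIntegrable f volume l r := hfc.intervalIntegrable _ _
  have hmain : (m : ℂ) * (∫ u in l..r, f u) - w = (m : ℂ) * ∫ u in l..r, (f u - g u) := by
    rw [intervalIntegral.integral_sub hfi hgi, mul_sub, hgint]
  rw [hmain, norm_mul, Complex.norm_real, Real.norm_eq_abs, abs_of_pos hm]
  -- pointwise identity
  have hpt : ∀ u, l ≤ u → f u - g u = ((u⁻¹ : ℝ) : ℂ) *
      (((bump l r ε u : ℝ) : ℂ) * (((bump l r ε u : ℝ) : ℂ) -
        (1 - cexp (-(2 * Real.pi * c * u : ℝ) * I)) * (Real.exp (-a * u) : ℂ)) - w) := by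
    intro u hu
    have hu0 : (u : ℂ) ≠ 0 := by
      have : u ≠ 0 := by linarith
      exact_mod_cast this
    have h1 : u * b u = bump l r ε u := by
      rw [hb]
      have : u ≠ 0 := by linarith
      field_simp
    simp only [hf, hg, h1]
    rw [hb]
    push_cast
    ring
  have hexp1 : ∀ u, l ≤ u → Real.exp (-a * u) ≤ 1 := by
    intro u hu
    rw [Real.exp_le_one_iff]
    nlinarith
  have hbad : ∀ u, l ≤ u → ‖f u - g u‖ ≤ 4 / l := by
    intro u hu
    have hu0 : 0 < u := by linarith
    rw [hpt u hu, norm_mul, Complex.norm_real, Real.norm_eq_abs, abs_of_pos (by positivity)]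
    have h1 : ‖(((bump l r ε u : ℝ) : ℂ) * (((bump l r ε u : ℝ) : ℂ) -
        (1 - cexp (-(2 * Real.pi * c * u : ℝ) * I)) * (Real.exp (-a * u) : ℂ)) - w)‖ ≤ 4 := by
      refine (norm_sub_le _ _).trans ?_
      rw [hw1, norm_mul, Complex.norm_real, Real.norm_eq_abs, abs_of_nonneg (bump_nonneg _ _ _ _)]
      have h2 : ‖((bump l r ε u : ℝ) : ℂ) -
        (1 - cexp (-(2 * Real.pi * c * u : ℝ) * I)) * (Real.exp (-a * u) : ℂ)‖ ≤ 3 := by
        refine (norm_sub_le _ _).trans ?_
        rw [Complex.norm_real, Real.norm_eq_abs, abs_of_nonneg (bump_nonneg _ _ _ _), norm_mul,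
          Complex.norm_real, Real.norm_eq_abs, abs_of_pos (Real.exp_pos _)]
        have h3 : ‖1 - cexp (-(2 * Real.pi * c * u : ℝ) * I)‖ ≤ 2 := by
          refine (norm_sub_le _ _).trans ?_
          rw [norm_one, norm_cexp_neg_I]
          norm_num
        have h4 := hexp1 u hu
        have h5 := bump_le_one l r ε u
        have h6 : ‖1 - cexp (-(2 * Real.pi * c * u : ℝ) * I)‖ * Real.exp (-a * u) ≤ 2 * 1 :=
          mul_le_mul h3 h4 (Real.exp_pos _).le (by norm_num)
        linarith
      have h5 := bump_le_one l r ε u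
      have h6 : bump l r ε u * ‖((bump l r ε u : ℝ) : ℂ) -
        (1 - cexp (-(2 * Real.pi * c * u : ℝ) * I)) * (Real.exp (-a * u) : ℂ)‖ ≤ 1 * 3 :=
        mul_le_mul h5 h2 (norm_nonneg _) (by norm_num)
      linarith
    calc u⁻¹ * _ ≤ l⁻¹ * 4 := by
          apply mul_le_mul _ h1 (norm_nonneg _) (by positivity)
          exact inv_anti₀ hl hu
      _ = 4 / l := by ring
  have hgood : ∀ u, l + 2 * ε ≤ u → u ≤ r - 2 * ε →
      ‖f u - g u‖ ≤ 2 * Real.pi * c * (r - l) * u⁻¹ + 2 * a := by
    intro u hu hu'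
    have hu0 : 0 < u := by linarith
    rw [hpt u (by linarith), bump_one hε hu hu', norm_mul, Complex.norm_real, Real.norm_eq_abs,
      abs_of_pos (by positivity)]
    have h1 : (((1 : ℝ) : ℂ) * (((1 : ℝ) : ℂ) -
        (1 - cexp (-(2 * Real.pi * c * u : ℝ) * I)) * (Real.exp (-a * u) : ℂ)) - w) =
        (1 - cexp (-(2 * Real.pi * c * u : ℝ) * I)) * ((1 - Real.exp (-a * u) : ℝ) : ℂ) +
          (cexp (-(2 * Real.pi * c * u : ℝ) * I) - w) := by
      push_cast
      ring
    rw [h1]
    have h2 : ‖(1 - cexp (-(2 * Real.pi * c * u : ℝ) * I)) *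
        ((1 - Real.exp (-a * u) : ℝ) : ℂ)‖ ≤ 2 * (a * u) := by
      rw [norm_mul, Complex.norm_real, Real.norm_eq_abs, abs_of_nonneg (by
        have := hexp1 u (by linarith); linarith)]
      apply mul_le_mul
      · refine (norm_sub_le _ _).trans ?_
        rw [norm_one, norm_cexp_neg_I]
        norm_num
      · have := Real.add_one_le_exp (-a * u)
        linarith
      · have := hexp1 u (by linarith)
        linarith
      · norm_num
    have h3 : ‖cexp (-(2 * Real.pi * c * u : ℝ) * I) - w‖ ≤ 2 * Real.pi * c * (r - l) := by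
      refine (norm_cexp_sub _ _).trans ?_
      have : 2 * Real.pi * c * u - 2 * Real.pi * c * r = -(2 * Real.pi * c * (r - u)) := by ring
      rw [this, abs_neg, abs_of_nonneg]
      · apply mul_le_mul_of_nonneg_left
        · linarith
        · positivity
      · apply mul_nonneg
        · positivity
        · linarith
    calc u⁻¹ * _ ≤ u⁻¹ * (2 * (a * u) + 2 * Real.pi * c * (r - l)) := by
          apply mul_le_mul_of_nonneg_left _ (by positivity)
          exact (norm_add_le _ _).trans (add_le_add h2 h3)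
      _ = 2 * Real.pi * c * (r - l) * u⁻¹ + 2 * a := by
          field_simp
          ring
  -- split
  set F : ℝ → ℂ := fun u => f u - g u with hF
  have hFi : IntervalIntegrable F volume l r := hfi.sub hgi
  have hsub1 : Set.uIcc l (l + 2 * ε) ⊆ Set.uIcc l r := by
    rw [Set.uIcc_of_le (by linarith), Set.uIcc_of_le (by linarith)]
    exact Set.Icc_subset_Icc le_rfl (by linarith)
  have hsub2 : Set.uIcc (l + 2 * ε) (r - 2 * ε) ⊆ Set.uIcc l r := by
    rw [Set.uIcc_of_le (by linarith), Set.uIcc_of_le (by linarith)]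
    exact Set.Icc_subset_Icc (by linarith) (by linarith)
  have hsub3 : Set.uIcc (r - 2 * ε) r ⊆ Set.uIcc l r := by
    rw [Set.uIcc_of_le (by linarith), Set.uIcc_of_le (by linarith)]
    exact Set.Icc_subset_Icc (by linarith) le_rfl
  have hF1 := hFi.mono_set hsub1
  have hF2 := hFi.mono_set hsub2
  have hF3 := hFi.mono_set hsub3
  have hsplit : ∫ u in l..r, F u = (∫ u in l..(l + 2 * ε), F u) +
      (∫ u in (l + 2 * ε)..(r - 2 * ε), F u) + ∫ u in (r - 2 * ε)..r, F u := by
    rw [intervalIntegral.integral_add_adjacent_intervals hF1 hF2,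
      intervalIntegral.integral_add_adjacent_intervals (hF1.trans hF2) hF3]
  have hI1 : ‖∫ u in l..(l + 2 * ε), F u‖ ≤ 4 / l * (2 * ε) := by
    have := intervalIntegral.norm_integral_le_of_norm_le_const (a := l) (b := l + 2 * ε)
      (C := 4 / l) (f := F) (by
        intro u hu
        rw [Set.uIoc_of_le (by linarith)] at hu
        exact hbad u hu.1.le)
    rwa [show l + 2 * ε - l = 2 * ε by ring, abs_of_pos (by linarith)] at this
  have hI3 : ‖∫ u in (r - 2 * ε)..r, F u‖ ≤ 4 / l * (2 * ε) := by
    have := intervalIntegral.norm_integral_le_of_norm_le_const (a := r - 2 * ε) (b := r)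
      (C := 4 / l) (f := F) (by
        intro u hu
        rw [Set.uIoc_of_le (by linarith)] at hu
        exact hbad u (by have := hu.1; linarith))
    rwa [show r - (r - 2 * ε) = 2 * ε by ring, abs_of_pos (by linarith)] at this
  have hdom : IntervalIntegrable (fun u : ℝ => 2 * Real.pi * c * (r - l) * u⁻¹ + 2 * a)
      volume l r := (hinv.const_mul _).add intervalIntegrable_const
  have hI2 : ‖∫ u in (l + 2 * ε)..(r - 2 * ε), F u‖ ≤
      2 * Real.pi * c * (r - l) * (1 / m) + 2 * a * (r - l) := by
    have h1 : ‖∫ u in (l + 2 * ε)..(r - 2 * ε), F u‖ ≤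
        ∫ u in (l + 2 * ε)..(r - 2 * ε), (2 * Real.pi * c * (r - l) * u⁻¹ + 2 * a) := by
      apply intervalIntegral.norm_integral_le_of_norm_le (by linarith)
      · filter_upwards with u hu
        exact hgood u hu.1.le hu.2
      · exact hdom.mono_set hsub2
    refine h1.trans ?_
    have h2 : ∫ u in (l + 2 * ε)..(r - 2 * ε), (2 * Real.pi * c * (r - l) * u⁻¹ + 2 * a) ≤
        ∫ u in l..r, (2 * Real.pi * c * (r - l) * u⁻¹ + 2 * a) := by
      apply intervalIntegral.integral_mono_interval (by linarith) (by linarith) (by linarith) _ hdom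
      filter_upwards [ae_restrict_mem measurableSet_Ioc] with u hu
      have : 0 < u := by have := hu.1; linarith
      have h3 : 0 ≤ r - l := by linarith
      simp only [Pi.zero_apply]
      positivity
    refine h2.trans (le_of_eq ?_)
    rw [intervalIntegral.integral_add (hinv.const_mul _) intervalIntegrable_const,
      intervalIntegral.integral_const_mul, hinvint, intervalIntegral.integral_const, smul_eq_mul]
    ring
  rw [hsplit]
  calc m * ‖(∫ u in l..(l + 2 * ε), F u) +
      (∫ u in (l + 2 * ε)..(r - 2 * ε), F u) + ∫ u in (r - 2 * ε)..r, F u‖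
      ≤ m * (4 / l * (2 * ε) + (2 * Real.pi * c * (r - l) * (1 / m) + 2 * a * (r - l)) +
          4 / l * (2 * ε)) := by
        apply mul_le_mul_of_nonneg_left _ hm.le
        exact norm_add₃_le.trans (add_le_add (add_le_add hI1 hI2) hI3)
    _ = 2 * Real.pi * c * (r - l) + m * (2 * a * (r - l) + 16 * ε / l) := by
        field_simp
        ring

end ChooseAux

open ChooseAux in
theorem choose_par (c : ℝ) (hc : 1 / 2 < c) (hc1 : c < 1) (B : ℕ) (η : ℝ) (hB : 2 ≤ B)
    (hη : 1 / 2 < η) (hη1 : η < 1) :
    ∃ P : Par, P.c = c ∧ P.B = B ∧ P.κ = 1 - η ∧ ∀ m : ℕ, 2 ≤ m → m ≤ B →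
      ‖m * GG P m - cexp (-(2 * Real.pi * c * η * m / B : ℝ) * I)‖ < 7 / B := by
  have hBr : (2 : ℝ) ≤ B := by exact_mod_cast hB
  set ε : ℝ := 1 / (400 * (B : ℝ) ^ 2) with hεd
  have hε : 0 < ε := by positivity
  set r : ℕ → ℝ := fun j => η * j / B with hr
  set l : ℕ → ℝ := fun j => η * j / B * Real.exp (-(1 / j)) with hl
  have hlpos : ∀ j : ℕ, 2 ≤ j → 0 < l j := by
    intro j hj
    have : (2 : ℝ) ≤ j := by exact_mod_cast hj
    simp only [hl]
    positivity
  have hl1 : ∀ j : ℕ, 2 ≤ j → η * (j - 1) / B ≤ l j := by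
    intro j hj
    have hj' : (2 : ℝ) ≤ j := by exact_mod_cast hj
    have h1 := Real.add_one_le_exp (-(1 / (j : ℝ)))
    have h2 : η * (j - 1) / B = η * j / B * (-(1 / (j : ℝ)) + 1) := by
      field_simp
      ring
    simp only [hl]
    rw [h2]
    apply mul_le_mul_of_nonneg_left h1
    positivity
  refine ⟨{ c := c, a := 1 / (20 * B), κ := 1 - η, m := ε, B := B
            b := fun j u => if 2 ≤ j ∧ j ≤ B then bump (l j) (r j) ε u / u else 0
            hc := hc, hc1 := hc1, ha := by positivity, ha1 := ?_, hκ := by linarith,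
            hκ1 := by linarith, hB := hB, hm := hε, hb := ?_, hb0 := ?_, hb1 := ?_ },
            rfl, rfl, rfl, ?_⟩
  · rw [div_le_one (by positivity)]
    linarith
  · intro j
    by_cases hj : 2 ≤ j ∧ j ≤ B
    · simp only [hj]
      simp only [and_self, if_true]
      exact div_contDiff (hlpos j hj.1) hε
    · simp only [hj, if_false]
      exact contDiff_const
  · intro j u hne
    by_cases hj : 2 ≤ j ∧ j ≤ B
    · rw [if_pos hj] at hne
      refine ⟨hj.1, hj.2, ?_, ?_⟩
      · by_contra hcon
        push Not at hcon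
        apply hne
        rw [bump_zero_left hε, zero_div]
        have h1 := hl1 j hj.1
        have h2 : ((j : ℝ) - 1) * (1 - (1 - η)) / B = η * (j - 1) / B := by ring
        linarith
      · by_contra hcon
        push Not at hcon
        apply hne
        rw [bump_zero_right hε, zero_div]
        have h2 : (j : ℝ) * (1 - (1 - η)) / B = r j := by simp only [hr]; ring
        linarith
    · rw [if_neg hj] at hne
      exact absurd rfl hne
  · intro j u
    by_cases hj : 2 ≤ j ∧ j ≤ B
    · rw [if_pos hj]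
      by_cases hu : u ≤ 0
      · rw [bump_zero_left hε (by have := hlpos j hj.1; linarith)]
        simp
      · push Not at hu
        refine ⟨div_nonneg (bump_nonneg _ _ _ _) hu.le, ?_⟩
        have : u * (bump (l j) (r j) ε u / u) = bump (l j) (r j) ε u := by field_simp
        rw [this]
        exact bump_le_one _ _ _ _
    · rw [if_neg hj]
      simp
  · intro m hm hmB
    have hmr : (2 : ℝ) ≤ m := by exact_mod_cast hm
    have hmBr : (m : ℝ) ≤ B := by exact_mod_cast hmB
    have hm0 : (0 : ℝ) < m := by linarith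
    have hB0 : (0 : ℝ) < B := by linarith
    have hlm := hl1 m hm
    have hlp := hlpos m hm
    have hrl : r m - l m ≤ η / B := by
      have : r m = η * (m - 1) / B + η / B := by simp only [hr]; field_simp; ring
      linarith
    have hr1 : r m ≤ 1 := by
      simp only [hr]
      rw [div_le_one hB0]
      nlinarith
    -- lower bound for r - l
    have hrl2 : l m + 4 * ε ≤ r m := by
      have h1 : Real.exp (-(1 / (m : ℝ))) ≤ 1 - 1 / (2 * m) := by
        have h2 : Real.exp (-(1 / (m : ℝ))) ≤ 1 / (1 + 1 / m) := by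
          rw [Real.exp_neg, ← one_div]
          apply one_div_le_one_div_of_le (by positivity)
          have := Real.add_one_le_exp (1 / (m : ℝ))
          linarith
        refine h2.trans ?_
        rw [div_le_iff₀ (by positivity)]
        have h3 : (1 - 1 / (2 * (m : ℝ))) * (1 + 1 / m) = 1 + (m - 1) / (2 * m ^ 2) := by
          field_simp
          ring
        rw [h3]
        have : 0 ≤ ((m : ℝ) - 1) / (2 * m ^ 2) := by
          apply div_nonneg <;> nlinarith
        linarith
      have h4 : l m ≤ r m * (1 - 1 / (2 * m)) := by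
        simp only [hl, hr]
        apply mul_le_mul_of_nonneg_left h1
        positivity
      have h5 : r m * (1 - 1 / (2 * m)) = r m - η / (2 * B) := by
        simp only [hr]
        field_simp
      have h6 : 4 * ε ≤ η / (2 * B) := by
        rw [hεd]
        rw [show 4 * (1 / (400 * (B : ℝ) ^ 2)) = 1 / (100 * (B : ℝ) ^ 2) by field_simp; norm_num]
        rw [div_le_div_iff₀ (by positivity) (by positivity)]
        nlinarith
      linarith
    have hlog : Real.log (r m / l m) = 1 / m := by
      have : r m / l m = Real.exp (1 / m) := by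
        simp only [hr, hl]
        rw [Real.exp_neg]
        field_simp
      rw [this, Real.log_exp]
    have key := aux (c := c) (a := 1 / (20 * (B : ℝ))) (l := l m) (r := r m) (ε := ε) (m := m)
      (by linarith) (by positivity) hlp hε hrl2 hr1 hm0 hlog
      (fun u => bump (l m) (r m) ε u / u) (fun u => rfl)
    have hG : (2 * Real.pi * c * η * m / B : ℝ) = 2 * Real.pi * c * r m := by
      simp only [hr]
      ring
    rw [hG]
    unfold GG
    simp only [hm, hmB, and_self, if_true]
    refine lt_of_le_of_lt key ?_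
    have hpi := Real.pi_lt_d4
    have hpi0 := Real.pi_pos
    have h1 : 2 * Real.pi * c * (r m - l m) ≤ 6.2832 * (1 / B) := by
      have h2 : 2 * Real.pi * c ≤ 6.2832 := by nlinarith
      have h3 : r m - l m ≤ 1 / B := hrl.trans (by gcongr)
      have h4 : 0 ≤ r m - l m := by linarith
      calc 2 * Real.pi * c * (r m - l m) ≤ 6.2832 * (r m - l m) :=
            mul_le_mul_of_nonneg_right h2 h4
        _ ≤ 6.2832 * (1 / B) := by linarith
    have h5 : (m : ℝ) * (r m - l m) ≤ 1 := by
      calc (m : ℝ) * (r m - l m) ≤ m * (η / B) := mul_le_mul_of_nonneg_left hrl hm0.le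
        _ = r m := by simp only [hr]; ring
        _ ≤ 1 := hr1
    have h6 : (m : ℝ) / l m ≤ 4 * B := by
      rw [div_le_iff₀ hlp]
      have h7 : η * (m - 1) / B * B = η * (m - 1) := by field_simp
      have h8 : 4 * (B : ℝ) * (η * (m - 1) / B) ≤ 4 * B * l m := by
        apply mul_le_mul_of_nonneg_left hlm
        positivity
      have h9 : 4 * (B : ℝ) * (η * (m - 1) / B) = 4 * (η * (m - 1)) := by field_simp
      nlinarith
    have h10 : (m : ℝ) * (2 * (1 / (20 * B)) * (r m - l m) + 16 * ε / l m) =
        (m * (r m - l m)) * (1 / (10 * B)) + 16 * ε * (m / l m) := by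
      field_simp
      ring
    rw [h10]
    have h11 : (m * (r m - l m)) * (1 / (10 * (B : ℝ))) ≤ 1 / (10 * B) := by
      have : 0 ≤ 1 / (10 * (B : ℝ)) := by positivity
      nlinarith
    have h12 : 16 * ε * (m / l m) ≤ 16 * ε * (4 * B) := by
      apply mul_le_mul_of_nonneg_left h6
      positivity
    have h13 : 16 * ε * (4 * B) = 0.16 * (1 / B) := by
      rw [hεd]
      field_simp
      norm_num
    have h14 : 1 / (10 * (B : ℝ)) = 0.1 * (1 / B) := by
      field_simp
      norm_num
    have h15 : 7 / (B : ℝ) = 7 * (1 / B) := by ring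
    have h16 : 0 < 1 / (B : ℝ) := by positivity
    rw [h15]
    have h17 : (m * (r m - l m)) * (1 / (10 * (B : ℝ))) ≤ 0.1 * (1 / B) := h11.trans h14.le
    have h18 : 16 * ε * (m / l m) ≤ 0.16 * (1 / B) := h12.trans h13.le
    generalize (m * (r m - l m)) * (1 / (10 * (B : ℝ))) = X1 at *
    generalize 16 * ε * (m / l m) = X2 at *
    generalize 2 * Real.pi * c * (r m - l m) = X3 at *
    generalize 1 / (B : ℝ) = X4 at *
    clear hlm hlp hrl hr1 hrl2 hlog key hG h5 h6 h10 h12 h13 h15
    linarith

end SP
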