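import Pool.Agent.H382P.Defs
import Pool.Agent.H382R2.GaussMV

/-! P5: moments of prime sums -/

open Complex Filter Topology Set MeasureTheory

namespace SP

open SG (phi hh nn dd dl)

namespace MomAux

open SG.MVaux (ek_int ek_val ek_norm cpow_nat log_gap_sq ev_small)

/-- Gaussian mean value, bilinear form -/
theorem mv {ι : Type*} (D t0 : ℝ) (hD : 0 < D) (F : Finset ι) (B : ι → ℂ) (lam : ι → ℝ) :
    Integrable (fun t : ℝ => wt t0 D t * ‖∑ f ∈ F, B f * cexp (-(I * (lam f : ℂ) * t))‖ ^ 2) ∧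
    ∫ t : ℝ, wt t0 D t * ‖∑ f ∈ F, B f * cexp (-(I * (lam f : ℂ) * t))‖ ^ 2 ≤
      D * Real.sqrt (2 * Real.pi) * ∑ f ∈ F, ∑ g ∈ F, ‖B f‖ * ‖B g‖ *
        Real.exp (-(D ^ 2 * (lam g - lam f) ^ 2 / 2)) := by
  have hpt : ∀ t : ℝ, ((wt t0 D t * ‖∑ f ∈ F, B f * cexp (-(I * (lam f : ℂ) * t))‖ ^ 2 : ℝ) : ℂ) =
      ∑ f ∈ F, ∑ g ∈ F, (B f * (starRingEnd ℂ) (B g)) *
        ((Real.exp (-(t - t0) ^ 2 / (2 * D ^ 2)) : ℂ) *
          cexp (I * ((lam g - lam f : ℝ) : ℂ) * t)) := by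
    intro t
    have h1 : ((‖∑ f ∈ F, B f * cexp (-(I * (lam f : ℂ) * t))‖ ^ 2 : ℝ) : ℂ) =
        (∑ f ∈ F, B f * cexp (-(I * (lam f : ℂ) * t))) *
          (starRingEnd ℂ) (∑ f ∈ F, B f * cexp (-(I * (lam f : ℂ) * t))) := by
      rw [Complex.mul_conj, Complex.normSq_eq_norm_sq]
    rw [Complex.ofReal_mul, h1, map_sum, Finset.sum_mul_sum, Finset.mul_sum]
    refine Finset.sum_congr rfl fun f _ => ?_
    rw [Finset.mul_sum]
    refine Finset.sum_congr rfl fun g _ => ?_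
    have h2 : (starRingEnd ℂ) (B g * cexp (-(I * (lam g : ℂ) * t))) =
        (starRingEnd ℂ) (B g) * cexp (I * (lam g : ℂ) * t) := by
      rw [map_mul, ← Complex.exp_conj]
      congr 2
      simp
    rw [h2]
    have h3 : cexp (I * ((lam g - lam f : ℝ) : ℂ) * t) =
        cexp (-(I * (lam f : ℂ) * t)) * cexp (I * (lam g : ℂ) * t) := by
      rw [← Complex.exp_add]
      congr 1
      push_cast
      ring
    rw [h3]
    unfold wt
    ring
  have hint : Integrable (fun t : ℝ =>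
      ((wt t0 D t * ‖∑ f ∈ F, B f * cexp (-(I * (lam f : ℂ) * t))‖ ^ 2 : ℝ) : ℂ)) := by
    simp_rw [hpt]
    exact integrable_finsetSum _ fun f _ => integrable_finsetSum _ fun g _ =>
      (ek_int D t0 _ hD).const_mul _
  have hintR : Integrable (fun t : ℝ =>
      wt t0 D t * ‖∑ f ∈ F, B f * cexp (-(I * (lam f : ℂ) * t))‖ ^ 2) := by
    have := hint.re
    simpa only [RCLike.re_to_complex, Complex.ofReal_re] using this
  refine ⟨hintR, ?_⟩
  have h4 : ((∫ t : ℝ, wt t0 D t * ‖∑ f ∈ F, B f * cexp (-(I * (lam f : ℂ) * t))‖ ^ 2 : ℝ) : ℂ) =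
      ∑ f ∈ F, ∑ g ∈ F, (B f * (starRingEnd ℂ) (B g)) *
        (((D * Real.sqrt (2 * Real.pi) : ℝ) : ℂ) *
        (cexp (I * ((lam g - lam f : ℝ) : ℂ) * t0) *
          ((Real.exp (-(D ^ 2 * (lam g - lam f) ^ 2 / 2)) : ℝ) : ℂ))) := by
    rw [← integral_complex_ofReal]
    simp_rw [hpt]
    rw [integral_finsetSum _ fun f _ => integrable_finsetSum _ fun g _ =>
      (ek_int D t0 _ hD).const_mul _]
    refine Finset.sum_congr rfl fun f _ => ?_
    rw [integral_finsetSum _ fun g _ => (ek_int D t0 _ hD).const_mul _]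
    refine Finset.sum_congr rfl fun g _ => ?_
    rw [integral_const_mul, ek_val D t0 _ hD]
  have hDs : 0 ≤ D * Real.sqrt (2 * Real.pi) := by positivity
  calc (∫ t : ℝ, wt t0 D t * ‖∑ f ∈ F, B f * cexp (-(I * (lam f : ℂ) * t))‖ ^ 2)
      ≤ ‖((∫ t : ℝ, wt t0 D t * ‖∑ f ∈ F, B f * cexp (-(I * (lam f : ℂ) * t))‖ ^ 2 : ℝ) : ℂ)‖ := by
        rw [Complex.norm_real]
        exact Real.le_norm_self _
    _ ≤ ∑ f ∈ F, ∑ g ∈ F, (D * Real.sqrt (2 * Real.pi)) * (‖B f‖ * ‖B g‖ *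
        Real.exp (-(D ^ 2 * (lam g - lam f) ^ 2 / 2))) := by
        rw [h4]
        refine norm_sum_le_of_le _ fun f _ => norm_sum_le_of_le _ fun g _ => ?_
        rw [norm_mul, norm_mul, norm_mul, norm_mul, RCLike.norm_conj, Complex.norm_real,
          Complex.norm_real, Real.norm_of_nonneg hDs, Real.norm_of_nonneg (Real.exp_pos _).le]
        have e1 : ‖cexp (I * ((lam g - lam f : ℝ) : ℂ) * t0)‖ = 1 := by
          rw [Complex.norm_exp]
          have : (I * ((lam g - lam f : ℝ) : ℂ) * t0).re = 0 := by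
            rw [mul_assoc, ← Complex.ofReal_mul, Complex.I_mul_re, Complex.ofReal_im, neg_zero]
          rw [this, Real.exp_zero]
        rw [e1, one_mul]
        apply le_of_eq
        ring
    _ = _ := by
        simp_rw [← Finset.mul_sum]

theorem card_le (P : Finset ℕ) (hP : ∀ p ∈ P, p.Prime) (k : ℕ) (f : Fin k → ℕ)
    (hf : ∀ i, (f i).Prime) :
    ((Fintype.piFinset (fun _ : Fin k => P)).filter (fun g => ∏ i, g i = ∏ i, f i)).card ≤
      k.factorial := by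
  have h1 : ∀ g : Fin k → ℕ, (∀ i, (g i).Prime) → ∏ i, g i = ∏ i, f i →
      (List.ofFn g).Perm (List.ofFn f) := by
    intro g hg hgf
    have h2 : (List.ofFn g).Perm (Nat.primeFactorsList (∏ i, f i)) := by
      apply Nat.primeFactorsList_unique
      · rw [List.prod_ofFn, hgf]
      · intro p hp
        rw [List.mem_ofFn] at hp
        obtain ⟨i, rfl⟩ := hp
        exact hg i
    have h3 : (List.ofFn f).Perm (Nat.primeFactorsList (∏ i, f i)) := by
      apply Nat.primeFactorsList_unique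
      · rw [List.prod_ofFn]
      · intro p hp
        rw [List.mem_ofFn] at hp
        obtain ⟨i, rfl⟩ := hp
        exact hf i
    exact h2.trans h3.symm
  calc _ ≤ (List.ofFn f).permutations.toFinset.card := by
        apply Finset.card_le_card_of_injOn (fun g => List.ofFn g)
        · intro g hg
          rw [Finset.mem_coe, Finset.mem_filter, Fintype.mem_piFinset] at hg
          rw [Finset.mem_coe, List.mem_toFinset, List.mem_permutations]
          exact h1 g (fun i => hP _ (hg.1 i)) hg.2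
        · exact List.ofFn_injective.injOn
    _ ≤ (List.ofFn f).permutations.length := List.toFinset_card_le _
    _ = k.factorial := by rw [List.length_permutations, List.length_ofFn]

theorem pow_expand (P : Finset ℕ) (hP : ∀ p ∈ P, p.Prime) (β : ℕ → ℂ) (k : ℕ) (t : ℝ) :
    (∑ p ∈ P, β p * (p : ℂ) ^ (-(I * t))) ^ k =
      ∑ f ∈ Fintype.piFinset (fun _ : Fin k => P), (∏ i, β (f i)) *
        cexp (-(I * ((∑ i, Real.log (f i) : ℝ) : ℂ) * t)) := by
  have h1 : (∑ p ∈ P, β p * (p : ℂ) ^ (-(I * t))) ^ k =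
      ∏ _i : Fin k, ∑ p ∈ P, β p * (p : ℂ) ^ (-(I * t)) := by
    rw [Finset.prod_const, Finset.card_univ, Fintype.card_fin]
  rw [h1, Finset.prod_univ_sum]
  refine Finset.sum_congr rfl fun f hf => ?_
  rw [Fintype.mem_piFinset] at hf
  rw [Finset.prod_mul_distrib]
  congr 1
  have h2 : ∀ i, ((f i : ℕ) : ℂ) ^ (-(I * t)) = cexp ((Real.log (f i) : ℝ) * (-(I * t))) :=
    fun i => cpow_nat (f i) (hP _ (hf i)).one_le _
  rw [Finset.prod_congr rfl fun i _ => h2 i, ← Complex.exp_sum]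
  congr 1
  rw [← Finset.sum_mul]
  push_cast
  ring

theorem schur {ι : Type*} (F : Finset ι) (a : ι → ℝ) (w : ι → ι → ℝ) (hw : ∀ f g, 0 ≤ w f g)
    (hsym : ∀ f g, w f g = w g f) (R : ℝ) (hR : ∀ f ∈ F, ∑ g ∈ F, w f g ≤ R) :
    ∑ f ∈ F, ∑ g ∈ F, a f * a g * w f g ≤ R * ∑ f ∈ F, a f ^ 2 := by
  have h1 : ∑ f ∈ F, ∑ g ∈ F, a g ^ 2 / 2 * w f g = ∑ f ∈ F, ∑ g ∈ F, a f ^ 2 / 2 * w f g := by
    rw [Finset.sum_comm]
    refine Finset.sum_congr rfl fun f _ => Finset.sum_congr rfl fun g _ => ?_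
    rw [hsym]
  calc _ ≤ ∑ f ∈ F, ∑ g ∈ F, (a f ^ 2 / 2 * w f g + a g ^ 2 / 2 * w f g) := by
        refine Finset.sum_le_sum fun f _ => Finset.sum_le_sum fun g _ => ?_
        rw [← add_mul]
        apply mul_le_mul_of_nonneg_right _ (hw f g)
        nlinarith [sq_nonneg (a f - a g)]
    _ = ∑ f ∈ F, ∑ g ∈ F, a f ^ 2 * w f g := by
        simp_rw [Finset.sum_add_distrib]
        rw [h1, ← Finset.sum_add_distrib]
        refine Finset.sum_congr rfl fun f _ => ?_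
        rw [← Finset.sum_add_distrib]
        refine Finset.sum_congr rfl fun g _ => ?_
        ring
    _ = ∑ f ∈ F, a f ^ 2 * ∑ g ∈ F, w f g := by simp_rw [Finset.mul_sum]
    _ ≤ ∑ f ∈ F, a f ^ 2 * R :=
        Finset.sum_le_sum fun f hf => mul_le_mul_of_nonneg_left (hR f hf) (by positivity)
    _ = _ := by rw [← Finset.sum_mul, mul_comm]

end MomAux

open MomAux in
open SG.MVaux (ek_int ek_val ek_norm cpow_nat log_gap_sq ev_small) in
theorem mom_prime (κ : ℝ) (hκ : 0 < κ) (hκ1 : κ < 1 / 2) : ∃ T0 : ℝ, 10 ≤ T0 ∧ ∀ T : ℝ, T0 ≤ T →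
    ∀ (t0 : ℝ) (k X : ℕ) (β : ℕ → ℂ), 1 ≤ k → (X : ℝ) ^ k ≤ T ^ (1 - κ) →
    Integrable (fun t : ℝ => wt t0 (dd κ T) t *
      ‖∑ p ∈ (Finset.Icc 1 X).filter Nat.Prime, β p * (p : ℂ) ^ (-(I * t))‖ ^ (2 * k)) ∧
    ∫ t : ℝ, wt t0 (dd κ T) t *
      ‖∑ p ∈ (Finset.Icc 1 X).filter Nat.Prime, β p * (p : ℂ) ^ (-(I * t))‖ ^ (2 * k) ≤
      3 * dd κ T * k.factorial * (∑ p ∈ (Finset.Icc 1 X).filter Nat.Prime, ‖β p‖ ^ 2) ^ k := by
  classical
  obtain ⟨T0, h10, hT0⟩ := ev_small κ (1 / 2) 1 hκ (by norm_num)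
  refine ⟨T0, h10, fun T hT t0 k X β hk hX => ?_⟩
  have hT10 : 10 ≤ T := h10.trans hT
  have hTpos : 0 < T := by linarith
  have hD : 0 < dd κ T := SG.Deep.dd_pos κ T hTpos
  set P := (Finset.Icc 1 X).filter Nat.Prime with hPdef
  have hP : ∀ p ∈ P, p.Prime := fun p hp => (Finset.mem_filter.mp hp).2
  have hPX : ∀ p ∈ P, p ≤ X := fun p hp => (Finset.mem_Icc.mp (Finset.mem_filter.mp hp).1).2
  have hpt : ∀ t : ℝ, ‖∑ p ∈ P, β p * (p : ℂ) ^ (-(I * t))‖ ^ (2 * k) =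
      ‖∑ f ∈ Fintype.piFinset (fun _ : Fin k => P), (∏ i, β (f i)) *
        cexp (-(I * ((∑ i, Real.log (f i) : ℝ) : ℂ) * t))‖ ^ 2 := by
    intro t
    rw [← pow_expand P hP, norm_pow, ← pow_mul, mul_comm k 2]
  simp_rw [hpt]
  obtain ⟨h1, h2⟩ := mv (dd κ T) t0 hD (Fintype.piFinset (fun _ : Fin k => P))
    (fun f => ∏ i, β (f i)) (fun f => ∑ i, Real.log (f i))
  refine ⟨h1, h2.trans ?_⟩
  set F := Fintype.piFinset (fun _ : Fin k => P) with hF
  have hFmem : ∀ f ∈ F, ∀ i, f i ∈ P := fun f hf => Fintype.mem_piFinset.mp hf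
  -- sizes
  have hprod1 : ∀ f ∈ F, 1 ≤ ∏ i, f i := fun f hf =>
    Finset.one_le_prod' fun i _ => (hP _ (hFmem f hf i)).one_le
  have hprodX : ∀ f ∈ F, ∏ i, f i ≤ X ^ k := by
    intro f hf
    calc ∏ i, f i ≤ ∏ _i : Fin k, X := Finset.prod_le_prod' fun i _ => hPX _ (hFmem f hf i)
      _ = X ^ k := by rw [Finset.prod_const, Finset.card_univ, Fintype.card_fin]
  have hlog : ∀ f ∈ F, ∑ i, Real.log (f i) = Real.log ((∏ i, f i : ℕ) : ℝ) := by
    intro f hf
    rw [Nat.cast_prod, Real.log_prod]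
    intro i _
    exact_mod_cast (hP _ (hFmem f hf i)).ne_zero
  set E0 := Real.exp (-(1 / 2) * T ^ κ) with hE0
  have hE0n : 0 ≤ E0 := (Real.exp_pos _).le
  have hE : ∀ f ∈ F, ∀ g ∈ F,
      Real.exp (-(dd κ T ^ 2 * (∑ i, Real.log (g i) - ∑ i, Real.log (f i)) ^ 2 / 2)) ≤
        (if ∏ i, g i = ∏ i, f i then 1 else 0) + E0 := by
    intro f hf g hg
    split_ifs with h
    · have : Real.exp (-(dd κ T ^ 2 * (∑ i, Real.log (g i) - ∑ i, Real.log (f i)) ^ 2 / 2)) ≤ 1 := by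
        rw [Real.exp_le_one_iff]
        have : 0 ≤ dd κ T ^ 2 * (∑ i, Real.log (g i) - ∑ i, Real.log (f i)) ^ 2 / 2 := by positivity
        linarith
      linarith
    · rw [zero_add, hE0]
      apply Real.exp_le_exp.mpr
      rw [hlog f hf, hlog g hg]
      have h3 := log_gap_sq (hprod1 f hf) (hprodX f hf) (hprod1 g hg) (hprodX g hg) (Ne.symm h)
      have hXk : (0 : ℝ) < ((X ^ k : ℕ) : ℝ) := by
        exact_mod_cast lt_of_lt_of_le (hprod1 f hf) (hprodX f hf)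
      have h4 : T ^ κ ≤ dd κ T ^ 2 * (1 / ((X ^ k : ℕ) : ℝ) ^ 2) := by
        rw [mul_one_div, le_div_iff₀ (by positivity)]
        calc T ^ κ * ((X ^ k : ℕ) : ℝ) ^ 2 ≤ T ^ κ * (T ^ (1 - κ)) ^ 2 := by
              apply mul_le_mul_of_nonneg_left _ (Real.rpow_nonneg hTpos.le _)
              apply pow_le_pow_left₀ hXk.le
              push_cast
              exact hX
          _ = dd κ T ^ 2 := by
              rw [dd, ← Real.rpow_natCast, ← Real.rpow_natCast, ← Real.rpow_mul hTpos.le,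
                ← Real.rpow_mul hTpos.le, ← Real.rpow_add hTpos]
              congr 1
              push_cast
              ring
      have h5 : dd κ T ^ 2 * (1 / ((X ^ k : ℕ) : ℝ) ^ 2) ≤ dd κ T ^ 2 *
          (Real.log ((∏ i, g i : ℕ) : ℝ) - Real.log ((∏ i, f i : ℕ) : ℝ)) ^ 2 :=
        mul_le_mul_of_nonneg_left h3 (by positivity)
      linarith
  have hfac : (1 : ℝ) ≤ k.factorial := by exact_mod_cast Nat.one_le_iff_ne_zero.mpr k.factorial_ne_zero
  -- row sums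
  have hrow : ∀ f ∈ F, ∑ g ∈ F,
      Real.exp (-(dd κ T ^ 2 * (∑ i, Real.log (g i) - ∑ i, Real.log (f i)) ^ 2 / 2)) ≤
      (1 + 1 / 10) * k.factorial := by
    intro f hf
    have hcard : (F.card : ℝ) ≤ T := by
      calc (F.card : ℝ) ≤ ((X ^ k : ℕ) : ℝ) := by
            have h3 : F.card ≤ X ^ k := by
              rw [hF, Fintype.card_piFinset, Finset.prod_const, Finset.card_univ, Fintype.card_fin]
              apply Nat.pow_le_pow_left
              calc P.card ≤ (Finset.Icc 1 X).card := Finset.card_filter_le _ _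
                _ = X := by simp
            exact_mod_cast h3
        _ ≤ T ^ (1 - κ) := by push_cast; exact hX
        _ ≤ T ^ (1 : ℝ) := Real.rpow_le_rpow_of_exponent_le (by linarith) (by linarith)
        _ = T := Real.rpow_one T
    have hsmall : (F.card : ℝ) * E0 ≤ 1 / 10 := by
      have h3 := hT0 T hT
      have h4 : T * E0 ≤ 1 / 10 := by
        have h5 : T ^ 4 * E0 ≤ 1 := by rw [hE0]; linarith
        have h6 : 10 * T ≤ T ^ 4 := by nlinarith [pow_le_pow_left₀ (by norm_num : (0:ℝ) ≤ 10) hT10 3]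
        nlinarith [mul_le_mul_of_nonneg_right h6 hE0n]
      exact (mul_le_mul_of_nonneg_right hcard hE0n).trans h4
    calc _ ≤ ∑ g ∈ F, ((if ∏ i, g i = ∏ i, f i then (1 : ℝ) else 0) + E0) :=
          Finset.sum_le_sum fun g hg => hE f hf g hg
      _ = ((F.filter (fun g => ∏ i, g i = ∏ i, f i)).card : ℝ) + F.card * E0 := by
          rw [Finset.sum_add_distrib, Finset.sum_const, nsmul_eq_mul, Finset.sum_boole]
      _ ≤ k.factorial + 1 / 10 := by
          have h3 := card_le P hP k f (fun i => hP _ (hFmem f hf i))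
          have h4 : ((F.filter (fun g => ∏ i, g i = ∏ i, f i)).card : ℝ) ≤ k.factorial := by
            exact_mod_cast h3
          linarith
      _ ≤ _ := by nlinarith
  -- Schur
  have hschur : ∑ f ∈ F, ∑ g ∈ F, ‖∏ i, β (f i)‖ * ‖∏ i, β (g i)‖ *
        Real.exp (-(dd κ T ^ 2 * (∑ i, Real.log (g i) - ∑ i, Real.log (f i)) ^ 2 / 2)) ≤
      (1 + 1 / 10) * k.factorial * ∑ f ∈ F, ‖∏ i, β (f i)‖ ^ 2 := by
    exact schur F (fun f => ‖∏ i, β (f i)‖)
      (fun f g => Real.exp (-(dd κ T ^ 2 * (∑ i, Real.log (g i) - ∑ i, Real.log (f i)) ^ 2 / 2)))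
      (fun f g => (Real.exp_pos _).le)
      (fun f g => by
        have e : (∑ i, Real.log (f i) - ∑ i, Real.log (g i)) ^ 2 =
          (∑ i, Real.log (g i) - ∑ i, Real.log (f i)) ^ 2 := by ring
        rw [e]) _ hrow
  have hsq : ∑ f ∈ F, ‖∏ i, β (f i)‖ ^ 2 = (∑ p ∈ P, ‖β p‖ ^ 2) ^ k := by
    have h3 : (∑ p ∈ P, ‖β p‖ ^ 2) ^ k = ∏ _i : Fin k, ∑ p ∈ P, ‖β p‖ ^ 2 := by
      rw [Finset.prod_const, Finset.card_univ, Fintype.card_fin]
    rw [h3, Finset.prod_univ_sum]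
    refine Finset.sum_congr rfl fun f _ => ?_
    rw [norm_prod, Finset.prod_pow]
  rw [hsq] at hschur
  have hs : Real.sqrt (2 * Real.pi) ≤ 27 / 10 := by
    rw [Real.sqrt_le_left (by norm_num)]
    have := Real.pi_lt_d2
    norm_num at this ⊢
    linarith
  have hS : 0 ≤ (∑ p ∈ P, ‖β p‖ ^ 2) ^ k := by positivity
  calc _ ≤ dd κ T * Real.sqrt (2 * Real.pi) *
        ((1 + 1 / 10) * k.factorial * (∑ p ∈ P, ‖β p‖ ^ 2) ^ k) :=
        mul_le_mul_of_nonneg_left hschur (by positivity)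
    _ ≤ dd κ T * (27 / 10) * ((1 + 1 / 10) * k.factorial * (∑ p ∈ P, ‖β p‖ ^ 2) ^ k) := by
        apply mul_le_mul_of_nonneg_right _ (by positivity)
        exact mul_le_mul_of_nonneg_left hs hD.le
    _ = (27 / 10 * (11 / 10)) * (dd κ T * k.factorial * (∑ p ∈ P, ‖β p‖ ^ 2) ^ k) := by ring
    _ ≤ 3 * (dd κ T * k.factorial * (∑ p ∈ P, ‖β p‖ ^ 2) ^ k) := by
        apply mul_le_mul_of_nonneg_right (by norm_num) (by positivity)
    _ = _ := by ring

end SP
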