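import Pool.Agent.H382P.Many

open Complex Filter Topology Set MeasureTheory

namespace SP

open SG (phi hh nn dd dl ord NZ zmult)

namespace PosProp

lemma fin_ord (T : ℝ) (S : Set ℕ) (hS : ∀ n ∈ S, 1 ≤ n ∧ ord n ≤ T) : S.Finite := by
  refine (Set.finite_Iic (NZ T)).subset ?_
  intro n hn
  obtain ⟨h1, h2⟩ := hS n hn
  exact (SG.ord_le_iff h1 T).mp h2

/-- `M` disjoint sets, each with at least `x` elements -/
lemma card_windows {S : Set ℕ} (hS : S.Finite) (M : ℕ) (W : ℕ → Set ℕ) (hW : ∀ i < M, W i ⊆ S)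
    (hd : ∀ i < M, ∀ j < M, i ≠ j → Disjoint (W i) (W j)) (x : ℝ)
    (hx : ∀ i < M, x ≤ ((W i).ncard : ℝ)) : M * x ≤ (S.ncard : ℝ) := by
  classical
  have hfin : ∀ i < M, (W i).Finite := fun i hi => hS.subset (hW i hi)
  set F : ℕ → Finset ℕ := fun i => hS.toFinset.filter (fun n => n ∈ W i) with hF
  have h1 : ∀ i < M, (W i).ncard = (F i).card := by
    intro i hi
    rw [← Set.ncard_coe_finset]
    congr 1
    ext n
    simp only [hF, Finset.coe_filter, Set.Finite.mem_toFinset, Set.mem_ofPred_eq]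
    exact ⟨fun h => ⟨hW i hi h, h⟩, fun h => h.2⟩
  have h2 : ((Finset.range M).biUnion F).card = ∑ i ∈ Finset.range M, (F i).card := by
    apply Finset.card_biUnion
    intro i hi j hj hij
    rw [Finset.mem_coe, Finset.mem_range] at hi hj
    show Disjoint (F i) (F j)
    rw [Finset.disjoint_left]
    intro n hn hn'
    simp only [hF, Finset.mem_filter] at hn hn'
    exact Set.disjoint_left.mp (hd i hi j hj hij) hn.2 hn'.2
  have h3 : ((Finset.range M).biUnion F).card ≤ S.ncard := by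
    rw [Set.ncard_eq_toFinset_card S hS]
    apply Finset.card_le_card
    intro n hn
    rw [Finset.mem_biUnion] at hn
    obtain ⟨i, -, hn⟩ := hn
    exact (Finset.mem_filter.mp hn).1
  have h4 : (M : ℝ) * x ≤ ∑ i ∈ Finset.range M, ((F i).card : ℝ) := by
    have : ∑ i ∈ Finset.range M, x ≤ ∑ i ∈ Finset.range M, ((F i).card : ℝ) := by
      apply Finset.sum_le_sum
      intro i hi
      rw [Finset.mem_range] at hi
      rw [← h1 i hi]
      exact hx i hi
    simpa using this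
  calc (M : ℝ) * x ≤ ∑ i ∈ Finset.range M, ((F i).card : ℝ) := h4
    _ = (((Finset.range M).biUnion F).card : ℝ) := by rw [h2]; push_cast; rfl
    _ ≤ (S.ncard : ℝ) := by exact_mod_cast h3

end PosProp

open PosProp

theorem pos_prop (hRH : RHs) (c : ℝ) (hc : 1 / 2 < c) :
    ∃ ε T0 : ℝ, 0 < ε ∧ 10 ≤ T0 ∧ ∀ T : ℝ, T0 ≤ T →
    ε * (T * Real.log T) ≤
      ({n : ℕ | 1 ≤ n ∧ T ≤ ord n ∧ ord (n + 1) ≤ 2 * T ∧
        ord (n + 1) - ord n < c * (2 * Real.pi / Real.log T)}.ncard : ℝ) := by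
  set c1 : ℝ := (1 / 2 + min c 1) / 2 with hc1d
  have hm1 : 1 / 2 < min c 1 := lt_min hc (by norm_num)
  have hm2 : min c 1 ≤ c := min_le_left _ _
  have hm3 : min c 1 ≤ 1 := min_le_right _ _
  have hc1 : 1 / 2 < c1 := by rw [hc1d]; linarith
  have hc1' : c1 < 1 := by rw [hc1d]; linarith
  have hc1c : c1 < c := by rw [hc1d]; linarith
  obtain ⟨ε, κ, K, T0, hε, hκ, hκ2, hK, hT0, hloc⟩ := local_many hRH c1 hc1 hc1'
  have hlim : Tendsto (fun T : ℝ => T ^ (κ / 2)) atTop atTop := tendsto_rpow_atTop (by linarith)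
  obtain ⟨T1, hT1⟩ := (tendsto_atTop.mp hlim (100 * K)).exists_forall_of_atTop
  refine ⟨ε / (10 * K), max (max T0 T1) 1000, by positivity, ?_, fun T hT => ?_⟩
  · exact le_trans (by norm_num) (le_max_right _ _)
  have hTT0 : T0 ≤ T := ((le_max_left _ _).trans (le_max_left _ _)).trans hT
  have hTT1 : T1 ≤ T := ((le_max_right _ _).trans (le_max_left _ _)).trans hT
  have hT1000 : 1000 ≤ T := (le_max_right _ _).trans hT
  have hTpos : 0 < T := by linarith
  have hlog1 : 1 ≤ Real.log T := by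
    rw [Real.le_log_iff_exp_le hTpos]
    have := Real.exp_one_lt_d9
    linarith
  have hpi := Real.pi_gt_three
  have hpi4 := Real.pi_lt_four
  set Δ : ℝ := dd κ T with hΔ
  have hΔ0 : 0 < Δ := by
    rw [hΔ]
    unfold dd
    positivity
  -- K Δ ≤ T / 100
  have hKΔ : 100 * (K * Δ) ≤ T := by
    have h1 := hT1 T hTT1
    have h2 : T ^ (κ / 2) * Δ = T := by
      rw [hΔ]
      unfold dd
      rw [← Real.rpow_add hTpos]
      have : κ / 2 + (1 - κ / 2) = 1 := by ring
      rw [this, Real.rpow_one]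
    calc 100 * (K * Δ) = (100 * K) * Δ := by ring
      _ ≤ T ^ (κ / 2) * Δ := mul_le_mul_of_nonneg_right h1 hΔ0.le
      _ = T := h2
  have hKΔ0 : 0 < K * Δ := by positivity
  set M : ℕ := ⌊(8 / 10 * T) / (3 * (K * Δ))⌋₊ with hM
  have hM1 : (M : ℝ) ≤ (8 / 10 * T) / (3 * (K * Δ)) := Nat.floor_le (by positivity)
  have hM2 : (8 / 10 * T) / (3 * (K * Δ)) < M + 1 := Nat.lt_floor_add_one _
  have hM3 : T / (10 * (K * Δ)) ≤ M := by
    have h1 : (8 / 10 * T) / (3 * (K * Δ)) = 8 / 30 * (T / (K * Δ)) := by field_simp; norm_num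
    have h2 : T / (10 * (K * Δ)) = 1 / 10 * (T / (K * Δ)) := by field_simp
    have h3 : 100 ≤ T / (K * Δ) := by
      rw [le_div_iff₀ hKΔ0]
      exact hKΔ
    rw [h1] at hM2
    rw [h2]
    linarith
  set S : Set ℕ := {n : ℕ | 1 ≤ n ∧ T ≤ ord n ∧ ord (n + 1) ≤ 2 * T ∧
        ord (n + 1) - ord n < c * (2 * Real.pi / Real.log T)} with hS
  have hSfin : S.Finite := by
    apply fin_ord (2 * T)
    intro n hn
    refine ⟨hn.1, (SG.ord_mono hn.1 (Nat.le_succ n)).trans hn.2.2.1⟩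
  set t : ℕ → ℝ := fun i => 11 / 10 * T + 3 * (K * Δ) * i with ht
  set W : ℕ → Set ℕ := fun i => {n : ℕ | 1 ≤ n ∧ |ord n - t i| ≤ K * dd κ T ∧
        ord (n + 1) - ord n < 2 * Real.pi * c1 / Real.log T} with hW
  have hti : ∀ i < M, 11 / 10 * T ≤ t i ∧ t i ≤ 19 / 10 * T := by
    intro i hi
    have hiM : (i : ℝ) ≤ M := by exact_mod_cast hi.le
    have h1 : 3 * (K * Δ) * i ≤ 8 / 10 * T := by
      have h2 : (i : ℝ) ≤ (8 / 10 * T) / (3 * (K * Δ)) := hiM.trans hM1
      rw [le_div_iff₀ (by positivity)] at h2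
      linarith
    have h3 : 0 ≤ 3 * (K * Δ) * (i : ℝ) := by positivity
    constructor
    · simp only [ht]; linarith
    · simp only [ht]; linarith
  have hgap : 2 * Real.pi * c1 / Real.log T ≤ 8 := by
    rw [div_le_iff₀ (by linarith)]
    nlinarith
  have hsub : ∀ i < M, W i ⊆ S := by
    intro i hi n hn
    obtain ⟨h1, h2, h3⟩ := hn
    obtain ⟨h4, h5⟩ := hti i hi
    rw [abs_le] at h2
    rw [← hΔ] at h2
    refine ⟨h1, by linarith, by linarith, ?_⟩
    refine h3.trans_le ?_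
    have e : c * (2 * Real.pi / Real.log T) = (c * (2 * Real.pi)) / Real.log T := by ring
    rw [e]
    apply div_le_div_of_nonneg_right _ (by linarith)
    nlinarith
  have hdisj : ∀ i < M, ∀ j < M, i ≠ j → Disjoint (W i) (W j) := by
    intro i _ j _ hij
    rw [Set.disjoint_left]
    intro n hn hn'
    have h1 := abs_le.mp hn.2.1
    have h2 := abs_le.mp hn'.2.1
    rw [← hΔ] at h1 h2
    simp only [ht] at h1 h2
    rcases Nat.lt_or_gt_of_ne hij with h | h
    · have h3 : (i : ℝ) + 1 ≤ j := by exact_mod_cast h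
      have h4 : 3 * (K * Δ) * ((i : ℝ) + 1) ≤ 3 * (K * Δ) * j :=
        mul_le_mul_of_nonneg_left h3 (by positivity)
      nlinarith
    · have h3 : (j : ℝ) + 1 ≤ i := by exact_mod_cast h
      have h4 : 3 * (K * Δ) * ((j : ℝ) + 1) ≤ 3 * (K * Δ) * i :=
        mul_le_mul_of_nonneg_left h3 (by positivity)
      nlinarith
  have hcount : ∀ i < M, ε * Δ * Real.log T ≤ ((W i).ncard : ℝ) := by
    intro i hi
    exact hloc T hTT0 (t i) (hti i hi).1 (hti i hi).2
  have hfinal := card_windows hSfin M W hsub hdisj _ hcount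
  refine le_trans ?_ hfinal
  have h5 : 0 ≤ ε * Δ * Real.log T := by positivity
  calc ε / (10 * K) * (T * Real.log T) = T / (10 * (K * Δ)) * (ε * Δ * Real.log T) := by
        field_simp
    _ ≤ M * (ε * Δ * Real.log T) := mul_le_mul_of_nonneg_right hM3 h5

namespace PosProp

/-- upper bound for the number of zeros -/
lemma NZ_up : ∃ C T1 : ℝ, 0 < C ∧ 3 ≤ T1 ∧ ∀ T : ℝ, T1 ≤ T → (NZ (2 * T) : ℝ) ≤ C * (T * Real.log T) := by
  obtain ⟨C, hC, hb⟩ := SG.NZ_nat_bound
  refine ⟨NZ 3 + 6 * C, 3, by positivity, le_refl _, fun T hT => ?_⟩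
  set m : ℕ := ⌈2 * T⌉₊ with hm
  have hm1 : 2 * T ≤ m := Nat.le_ceil _
  have hm2 : (m : ℝ) ≤ 3 * T := by
    have := (Nat.ceil_lt_add_one (by linarith : 0 ≤ 2 * T)).le
    linarith
  have hm3 : 3 ≤ m := by
    have : (3 : ℝ) ≤ m := by linarith
    exact_mod_cast this
  have h2 := hb m hm3
  have h3 : (NZ (2 * T) : ℝ) ≤ NZ (m : ℝ) := by exact_mod_cast SG.NZ_mono hm1
  have hm0 : (0 : ℝ) < m := by linarith
  have hlogT : 1 ≤ Real.log T := by
    rw [Real.le_log_iff_exp_le (by linarith)]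
    have := Real.exp_one_lt_d9
    linarith
  have h4 : Real.log m ≤ 2 * Real.log T := by
    have h5 : Real.log m ≤ Real.log (T ^ 2) := by
      apply Real.log_le_log hm0
      nlinarith
    rw [Real.log_pow] at h5
    push_cast at h5
    exact h5
  have h6 : C * m * Real.log m ≤ C * (3 * T) * (2 * Real.log T) := by
    apply mul_le_mul
    · exact mul_le_mul_of_nonneg_left hm2 hC.le
    · exact h4
    · exact Real.log_nonneg (by linarith)
    · positivity
  have h7 : (NZ 3 : ℝ) ≤ NZ 3 * (T * Real.log T) := by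
    apply le_mul_of_one_le_right (by positivity)
    nlinarith
  linarith

end PosProp

/-- in terms of the first `N` gaps, normalised by the local density -/
theorem pos_prop_aux (c : ℝ) (P : ℕ → Prop)
    (h : ∃ ε T0 : ℝ, 0 < ε ∧ 10 ≤ T0 ∧ ∀ T : ℝ, T0 ≤ T →
      ε * (T * Real.log T) ≤
        ({n : ℕ | 1 ≤ n ∧ T ≤ ord n ∧ ord (n + 1) ≤ 2 * T ∧
          ord (n + 1) - ord n < c * (2 * Real.pi / Real.log T)}.ncard : ℝ))
    (hP : ∃ T2 : ℝ, ∀ T : ℝ, T2 ≤ T → ∀ n : ℕ, 1 ≤ n → T ≤ ord n → ord (n + 1) ≤ 2 * T →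
      ord (n + 1) - ord n < c * (2 * Real.pi / Real.log T) → P n) :
    ∃ ε : ℝ, 0 < ε ∧ ∀ᶠ N : ℕ in atTop, ε * N ≤ (({n : ℕ | 1 ≤ n ∧ n ≤ N ∧ P n}.ncard : ℕ) : ℝ) := by
  obtain ⟨ε, T0, hε, hT0, hb⟩ := h
  obtain ⟨T2, hT2⟩ := hP
  obtain ⟨C, T1, hC, hT1, hup⟩ := NZ_up
  refine ⟨ε / C, by positivity, ?_⟩
  set X0 : ℝ := max (max T0 T1) T2 with hX0
  have hX03 : 3 ≤ X0 := hT1.trans ((le_max_right _ _).trans (le_max_left _ _))
  have hlim : Tendsto (fun N : ℕ => (N : ℝ) / C) atTop atTop :=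
    tendsto_natCast_atTop_atTop.atTop_div_const hC
  filter_upwards [hlim.eventually_gt_atTop (X0 * Real.log X0)] with N hN
  -- choose T with T log T = N / C
  have hX0l : 1 ≤ Real.log X0 := by
    rw [Real.le_log_iff_exp_le (by linarith)]
    have := Real.exp_one_lt_d9
    linarith
  set y : ℝ := (N : ℝ) / C with hy
  have hyX : X0 ≤ y := by nlinarith
  have hlogy : 1 ≤ Real.log y := hX0l.trans (Real.log_le_log (by linarith) hyX)
  have hcont : ContinuousOn (fun T : ℝ => T * Real.log T) (Set.Icc X0 y) := by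
    apply ContinuousOn.mul continuousOn_id
    apply Real.continuousOn_log.mono
    intro x hx
    simp only [Set.mem_compl_iff, Set.mem_singleton_iff]
    have := hx.1
    linarith
  have hiv := intermediate_value_Icc hyX hcont
  have hmem : y ∈ Set.Icc (X0 * Real.log X0) (y * Real.log y) := ⟨hN.le, by nlinarith⟩
  obtain ⟨T, hTm, hTe⟩ := hiv hmem
  simp only at hTe
  have hXT : X0 ≤ T := hTm.1
  have hTT0 : T0 ≤ T := ((le_max_left _ _).trans (le_max_left _ _)).trans hXT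
  have hTT1 : T1 ≤ T := ((le_max_right _ _).trans (le_max_left _ _)).trans hXT
  have hTT2 : T2 ≤ T := (le_max_right _ _).trans hXT
  have h1 := hb T hTT0
  have h2 := hup T hTT1
  rw [hTe] at h1 h2
  have h3 : C * y = N := by rw [hy]; field_simp
  rw [h3] at h2
  have h2' : NZ (2 * T) ≤ N := by exact_mod_cast h2
  have h4 : ε / C * N = ε * y := by rw [hy]; field_simp
  rw [h4]
  refine h1.trans ?_
  have h5 : ({n : ℕ | 1 ≤ n ∧ T ≤ ord n ∧ ord (n + 1) ≤ 2 * T ∧
          ord (n + 1) - ord n < c * (2 * Real.pi / Real.log T)}.ncard) ≤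
        ({n : ℕ | 1 ≤ n ∧ n ≤ N ∧ P n}.ncard) := by
    apply Set.ncard_le_ncard
    · rintro n ⟨a1, a2, a3, a4⟩
      have a5 := (SG.ord_le_iff (by omega : 1 ≤ n + 1) (2 * T)).mp a3
      exact ⟨a1, by omega, hT2 T hTT2 n a1 a2 a3 a4⟩
    · refine (Set.finite_Iic N).subset ?_
      intro n hn
      exact hn.2.1
  exact_mod_cast h5

theorem pos_prop_delta (hRH : RHs) (c : ℝ) (hc : 1 / 2 < c) :
    ∃ ε : ℝ, 0 < ε ∧ ∀ᶠ N : ℕ in atTop, ε * N ≤
      (({n : ℕ | 1 ≤ n ∧ n ≤ N ∧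
        (ord (n + 1) - ord n) / (2 * Real.pi) * Real.log (ord n / (2 * Real.pi)) < c}.ncard : ℕ) : ℝ) := by
  apply pos_prop_aux c _ (pos_prop hRH c hc)
  refine ⟨10, fun T hT n hn1 h3 h4 h6 => ?_⟩
  have hpi := Real.pi_gt_three
  have hlogT : 0 < Real.log T := Real.log_pos (by linarith)
  have h7 : ord n ≤ ord (n + 1) := SG.ord_mono hn1 (by omega)
  have h8 : Real.log (ord n / (2 * Real.pi)) ≤ Real.log T := by
    apply Real.log_le_log (by have := SG.ord_pos hn1; positivity)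
    rw [div_le_iff₀ (by positivity)]
    nlinarith
  have h9 : 0 ≤ (ord (n + 1) - ord n) / (2 * Real.pi) := by
    apply div_nonneg (by linarith) (by positivity)
  calc _ ≤ (ord (n + 1) - ord n) / (2 * Real.pi) * Real.log T := mul_le_mul_of_nonneg_left h8 h9
    _ < (c * (2 * Real.pi / Real.log T)) / (2 * Real.pi) * Real.log T := by gcongr
    _ = c := by field_simp

/-- with the normalisation `γ log γ / 2π` -/
theorem pos_prop_delta' (hRH : RHs) (c : ℝ) (hc : 1 / 2 < c) :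
    ∃ ε : ℝ, 0 < ε ∧ ∀ᶠ N : ℕ in atTop, ε * N ≤
      (({n : ℕ | 1 ≤ n ∧ n ≤ N ∧
        (ord (n + 1) * Real.log (ord (n + 1)) - ord n * Real.log (ord n)) / (2 * Real.pi) < c}.ncard :
          ℕ) : ℝ) := by
  set c' : ℝ := (1 / 2 + c) / 2 with hc'
  have h1 : 1 / 2 < c' := by rw [hc']; linarith
  have h2 : c' < c := by rw [hc']; linarith
  have hc'0 : 0 < c' := by linarith
  apply pos_prop_aux c' _ (pos_prop hRH c' h1)
  -- `c' (1 + log 2 + log T) ≤ c log T`
  obtain ⟨T2, hT2⟩ := (tendsto_atTop.mp Real.tendsto_log_atTop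
    (c' * (1 + Real.log 2) / (c - c'))).exists_forall_of_atTop
  refine ⟨max T2 10, fun T hT n hn1 h3 h4 h6 => ?_⟩
  have hT10 : 10 ≤ T := (le_max_right _ _).trans hT
  have hTT2 := hT2 T ((le_max_left _ _).trans hT)
  rw [div_le_iff₀ (by linarith)] at hTT2
  have hpi := Real.pi_gt_three
  have hlogT : 0 < Real.log T := Real.log_pos (by linarith)
  have hp : 0 < ord n := SG.ord_pos hn1
  have hp' : 0 < ord (n + 1) := SG.ord_pos (by omega)
  have h7 : ord n ≤ ord (n + 1) := SG.ord_mono hn1 (by omega)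
  have h8 : Real.log (ord (n + 1)) ≤ Real.log 2 + Real.log T := by
    rw [← Real.log_mul (by norm_num) (by linarith)]
    exact Real.log_le_log hp' h4
  have h9 : ord (n + 1) * Real.log (ord (n + 1)) - ord n * Real.log (ord n) ≤
      (ord (n + 1) - ord n) * (1 + Real.log (ord (n + 1))) := by
    have h10 := Real.one_sub_inv_le_log_of_pos (div_pos hp hp')
    rw [Real.log_div hp.ne' hp'.ne', inv_div] at h10
    have h11 := mul_le_mul_of_nonneg_left h10 hp.le
    have h12 : ord n * (1 - ord (n + 1) / ord n) = ord n - ord (n + 1) := by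
      field_simp
    rw [h12] at h11
    nlinarith
  have hL2 : 0 < Real.log 2 := Real.log_pos (by norm_num)
  have h13 : (ord (n + 1) - ord n) * (1 + Real.log (ord (n + 1))) ≤
      (ord (n + 1) - ord n) * (1 + (Real.log 2 + Real.log T)) := by
    apply mul_le_mul_of_nonneg_left _ (by linarith)
    linarith
  have h14 : (ord (n + 1) - ord n) * (1 + (Real.log 2 + Real.log T)) <
      c' * (2 * Real.pi / Real.log T) * (1 + (Real.log 2 + Real.log T)) := by
    apply mul_lt_mul_of_pos_right h6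
    linarith
  rw [div_lt_iff₀ (by positivity)]
  refine (h9.trans h13).trans_lt (h14.trans_le ?_)
  have h15 : c' * (2 * Real.pi / Real.log T) * (1 + (Real.log 2 + Real.log T)) =
      (2 * Real.pi) * (c' * (1 + Real.log 2) + c' * Real.log T) / Real.log T := by
    field_simp
    ring
  rw [h15, div_le_iff₀ hlogT]
  nlinarith

/-- ordered pairs of distinct indices with ordinates `≤ T` and distance at most `β` average gaps -/
theorem pos_prop_pairs (hRH : RHs) (β : ℝ) (hβ : 1 / 2 < β) :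
    ∃ ε T0 : ℝ, 0 < ε ∧ ∀ T : ℝ, T0 ≤ T → ε * (T / (2 * Real.pi) * Real.log T) ≤
      (({q : ℕ × ℕ | 1 ≤ q.1 ∧ 1 ≤ q.2 ∧ q.1 ≠ q.2 ∧ ord q.1 ≤ T ∧ ord q.2 ≤ T ∧
        0 ≤ (ord q.1 - ord q.2) * (Real.log T / (2 * Real.pi)) ∧
        (ord q.1 - ord q.2) * (Real.log T / (2 * Real.pi)) ≤ β}.ncard : ℕ) : ℝ) := by
  set c' : ℝ := (1 / 2 + β) / 2 with hc'
  have h1 : 1 / 2 < c' := by rw [hc']; linarith
  have h2 : c' < β := by rw [hc']; linarith
  have hc'0 : 0 < c' := by linarith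
  obtain ⟨ε, T0, hε, hT0, hb⟩ := pos_prop hRH c' h1
  obtain ⟨T2, hT2⟩ := (tendsto_atTop.mp Real.tendsto_log_atTop
    (β * Real.log 2 / (β - c'))).exists_forall_of_atTop
  refine ⟨ε * Real.pi / 2, max (max (2 * T0) T2) 10, by positivity, fun T hT => ?_⟩
  have hTT0 : 2 * T0 ≤ T := ((le_max_left _ _).trans (le_max_left _ _)).trans hT
  have hTT2 := hT2 T (((le_max_right _ _).trans (le_max_left _ _)).trans hT)
  have hT10 : 10 ≤ T := (le_max_right _ _).trans hT
  rw [div_le_iff₀ (by linarith)] at hTT2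
  have hpi := Real.pi_gt_three
  have hL2 : 0 < Real.log 2 := Real.log_pos (by norm_num)
  have hlogT2 : Real.log (T / 2) = Real.log T - Real.log 2 := Real.log_div (by linarith) (by norm_num)
  have hlog4 : 2 * Real.log 2 ≤ Real.log T := by
    have : Real.log (2 ^ 2) ≤ Real.log T := Real.log_le_log (by norm_num) (by linarith)
    rw [Real.log_pow] at this
    push_cast at this
    exact this
  have h3 := hb (T / 2) (by linarith)
  set S : Set ℕ := {n : ℕ | 1 ≤ n ∧ T / 2 ≤ ord n ∧ ord (n + 1) ≤ 2 * (T / 2) ∧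
        ord (n + 1) - ord n < c' * (2 * Real.pi / Real.log (T / 2))} with hS
  set Q : Set (ℕ × ℕ) := {q : ℕ × ℕ | 1 ≤ q.1 ∧ 1 ≤ q.2 ∧ q.1 ≠ q.2 ∧ ord q.1 ≤ T ∧ ord q.2 ≤ T ∧
        0 ≤ (ord q.1 - ord q.2) * (Real.log T / (2 * Real.pi)) ∧
        (ord q.1 - ord q.2) * (Real.log T / (2 * Real.pi)) ≤ β} with hQ
  have hQfin : Q.Finite := by
    refine ((Set.finite_Iic (NZ T)).prod (Set.finite_Iic (NZ T))).subset ?_
    rintro ⟨a, b⟩ ⟨q1, q2, q3, q4, q5, -⟩
    exact ⟨(SG.ord_le_iff q1 T).mp q4, (SG.ord_le_iff q2 T).mp q5⟩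
  have hmap : ∀ n ∈ S, (n + 1, n) ∈ Q := by
    rintro n ⟨s1, s2, s3, s4⟩
    have s5 : ord n ≤ ord (n + 1) := SG.ord_mono s1 (by omega)
    have s6 : 0 < Real.log T := by linarith
    have s7 : 0 < Real.log (T / 2) := by rw [hlogT2]; linarith
    refine ⟨by omega, s1, by simp, by linarith, by linarith, ?_, ?_⟩
    · exact mul_nonneg (by linarith) (by positivity)
    · have s8 : (ord (n + 1) - ord n) * (Real.log T / (2 * Real.pi)) ≤
          c' * (2 * Real.pi / Real.log (T / 2)) * (Real.log T / (2 * Real.pi)) :=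
        mul_le_mul_of_nonneg_right s4.le (by positivity)
      refine s8.trans ?_
      have s9 : c' * (2 * Real.pi / Real.log (T / 2)) * (Real.log T / (2 * Real.pi)) =
          c' * Real.log T / Real.log (T / 2) := by field_simp
      rw [s9, div_le_iff₀ s7, hlogT2]
      nlinarith
  have hcard : S.ncard ≤ Q.ncard := by
    refine Set.ncard_le_ncard_of_injOn (fun n => (n + 1, n)) hmap ?_ hQfin
    intro a _ b _ hab
    exact (Prod.mk.inj hab).2
  have h4 : ε * Real.pi / 2 * (T / (2 * Real.pi) * Real.log T) ≤ ε * (T / 2 * Real.log (T / 2)) := by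
    have h5 : ε * Real.pi / 2 * (T / (2 * Real.pi) * Real.log T) = ε * (T / 2 * (Real.log T / 2)) := by
      field_simp
    rw [h5]
    apply mul_le_mul_of_nonneg_left _ hε.le
    apply mul_le_mul_of_nonneg_left _ (by linarith)
    rw [hlogT2]
    linarith
  calc _ ≤ ε * (T / 2 * Real.log (T / 2)) := h4
    _ ≤ (S.ncard : ℝ) := h3
    _ ≤ _ := by exact_mod_cast hcard

end SP
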