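import Pool.Agent.H382R2.Defs
import Pool.Agent.H370R2.Defs

open Complex Filter Topology Set MeasureTheory

namespace SP

open SG (phi hh nn dd dl)

/-! ### zeros -/

/-- the Riemann hypothesis in the critical strip -/
def RHs : Prop := ∀ s : ℂ, 0 < s.re → s.re < 1 → riemannZeta s = 0 → s.re = 1 / 2

/-- zeros with ordinate in `(T, 2T]` -/
def ZZ (T : ℝ) : Set ℂ := H370.zset riemannZeta T (2 * T)

/-- multiplicity -/
noncomputable def mu (s : ℂ) : ℕ := H370.mult riemannZeta s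

/-- real Gaussian weight -/
noncomputable def wt (t0 D t : ℝ) : ℝ := Real.exp (-(t - t0) ^ 2 / (2 * D ^ 2))

/-- `M_k(t) = ∑_γ e^{-(γ-t)²/2} / (1 + (L(γ-t)/k)²)` -/
noncomputable def Mk (T k t : ℝ) : ℝ :=
  ∑ᶠ s ∈ ZZ T, (mu s : ℝ) * Real.exp (-(s.im - t) ^ 2 / 2) / (1 + (Real.log T * (s.im - t) / k) ^ 2)

/-- `Y_a(t) = ∑_γ e^{-(γ-t)²/2} / (a - i L (γ-t))` -/
noncomputable def Ya (T a t : ℝ) : ℂ :=
  ∑ᶠ s ∈ ZZ T, (mu s : ℂ) * (Real.exp (-(s.im - t) ^ 2 / 2) : ℂ) /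
    ((a : ℂ) - I * (Real.log T * (s.im - t) : ℝ))

/-! ### the explicit formula -/

/-- zero side with weight `W` on `[0, log T]` -/
noncomputable def zs (T t : ℝ) (W : ℝ → ℂ) : ℂ :=
  ∑ᶠ s ∈ ZZ T, (mu s : ℂ) * (Real.exp (-(s.im - t) ^ 2 / 2) : ℂ) *
    ∫ u in (0 : ℝ)..Real.log T, W u * cexp (I * ((u * (s.im - t) : ℝ) : ℂ))

/-- smoothed weight at `log x` -/
noncomputable def bt (T : ℝ) (W : ℝ → ℂ) (x : ℝ) : ℂ :=
  (1 / Real.sqrt (2 * Real.pi) : ℝ) *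
    ∫ u in (0 : ℝ)..Real.log T, W u * (Real.exp (-(u - Real.log x) ^ 2 / 2) : ℂ)

/-- prime side with weight `W` -/
noncomputable def ps (T t : ℝ) (W : ℝ → ℂ) : ℂ :=
  ∑' n : ℕ, (ArithmeticFunction.vonMangoldt n : ℂ) * (n : ℂ) ^ (-(1 / 2 : ℂ) - I * t) * bt T W n

/-- short prime sum -/
noncomputable def QW (T t l : ℝ) (W : ℝ → ℂ) : ℂ :=
  (1 / Real.log T : ℝ) * ∑ p ∈ (Finset.Icc 1 ⌊Real.exp (2 * l)⌋₊).filter Nat.Prime,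
    (Real.log p : ℂ) * (p : ℂ) ^ (-(1 / 2 : ℂ) - I * t) * bt T W p

/-- length parameter: `ℓ = (1-κ) log T / (2k)` -/
noncomputable def ell (κ T : ℝ) (k : ℕ) : ℝ := (1 - κ) * Real.log T / (2 * k)

/-- weight `(1-|u|/ℓ)_+²` -/
noncomputable def W1 (l : ℝ) (u : ℝ) : ℂ := ((max 0 (1 - |u| / l) ^ 2 : ℝ) : ℂ)

/-- weight `e^{-a|u|/log T} (1-|u|/ℓ)_+²` -/
noncomputable def W2 (a T l : ℝ) (u : ℝ) : ℂ :=
  ((Real.exp (-a * |u| / Real.log T) * max 0 (1 - |u| / l) ^ 2 : ℝ) : ℂ)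

noncomputable def Q1 (κ T : ℝ) (k : ℕ) (t : ℝ) : ℂ := QW T t (ell κ T k) (W1 (ell κ T k))
noncomputable def Q2 (κ a T : ℝ) (k : ℕ) (t : ℝ) : ℂ := QW T t (ell κ T k) (W2 a T (ell κ T k))

/-! ### the function `f` -/

/-- `f(s) = Λ(s - iδ/2)/Λ(s + iδ/2)`, `δ = 2πc/log T` -/
noncomputable def ff (c T : ℝ) (s : ℂ) : ℂ :=
  completedRiemannZeta (s - hh (dl c T)) / completedRiemannZeta (s + hh (dl c T))

/-- the Gamma part of `f` -/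
noncomputable def rho (c T : ℝ) (s : ℂ) : ℂ := Gammaℝ (s - hh (dl c T)) / Gammaℝ (s + hh (dl c T))

/-- coefficients of `ζ(s-h)/ζ(s+h)` -/
noncomputable def fm (δ : ℝ) (m : ℕ) : ℂ :=
  ∑ x ∈ m.divisors, (x : ℂ) ^ (hh δ) * ((ArithmeticFunction.moebius (m / x) : ℤ) : ℂ) *
    ((m / x : ℕ) : ℂ) ^ (-(hh δ))

/-- Dirichlet polynomial with coefficients `d` -/
noncomputable def DP (N : ℕ) (d : ℕ → ℂ) (s : ℂ) : ℂ := ∑ n ∈ Finset.Icc 1 N, d n * (n : ℂ) ^ (-s)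

/-- the diagonal sum -/
noncomputable def SD (c a T : ℝ) (N : ℕ) (d : ℕ → ℂ) : ℂ :=
  ∑ k ∈ Finset.Icc 1 N, (starRingEnd ℂ) (d k) * (k : ℂ) ^ (-(1 : ℂ) - (a / Real.log T : ℝ)) *
    ∑ x ∈ k.divisors, d x * (x : ℂ) ^ ((a / Real.log T : ℝ) : ℂ) * fm (dl c T) (k / x)

/-! ### the detector -/

/-- generating coefficients: sum over subsets `A` of `P` with energy `n` of `∏ y` -/
noncomputable def qq (P : Finset ℕ) (E : ℕ → ℕ) (y : ℕ → ℂ) (n : ℕ) : ℂ :=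
  ∑ A ∈ P.powerset.filter (fun A => ∑ p ∈ A, E p = n), ∏ p ∈ A, y p

/-- power sums attached to `qq` -/
noncomputable def tt (P : Finset ℕ) (E : ℕ → ℕ) (y : ℕ → ℂ) (m : ℕ) : ℂ :=
  ∑ p ∈ P, if E p ∣ m then (-1 : ℂ) ^ (m / E p - 1) * (E p : ℂ) * y p ^ (m / E p) else 0

/-- parameters of the construction -/
structure Par where
  c : ℝ
  a : ℝ
  κ : ℝ
  m : ℝ
  B : ℕ
  b : ℕ → ℝ → ℝ
  hc : 1 / 2 < c
  hc1 : c < 1
  ha : 0 < a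
  ha1 : a ≤ 1
  hκ : 0 < κ
  hκ1 : κ < 1 / 2
  hB : 2 ≤ B
  hm : 0 < m
  hb : ∀ j, ContDiff ℝ 2 (b j)
  hb0 : ∀ j u, b j u ≠ 0 → 2 ≤ j ∧ j ≤ B ∧ ((j : ℝ) - 1) * (1 - κ) / B + m ≤ u ∧ u ≤ j * (1 - κ) / B - m
  hb1 : ∀ j u, 0 ≤ b j u ∧ u * b j u ≤ 1

/-- bin of a prime -/
noncomputable def Eb (P : Par) (T : ℝ) (p : ℕ) : ℕ :=
  ⌈(P.B : ℝ) * Real.log p / ((1 - P.κ) * Real.log T)⌉₊

/-- the primes used -/
noncomputable def PS (P : Par) (T : ℝ) : Finset ℕ :=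
  (Finset.Icc 1 (nn P.κ T)).filter (fun p => p.Prime ∧ 2 ≤ Eb P T p)

/-- the smooth weight of the prime `p` -/
noncomputable def chi (P : Par) (T : ℝ) (p : ℕ) : ℝ :=
  Real.log p / Real.log T * ((1 / Real.sqrt (2 * Real.pi)) *
    ∫ u in (0 : ℝ)..Real.log T, P.b (Eb P T p) (u / Real.log T) *
      Real.exp (-(u - Real.log p) ^ 2 / 2))

/-- the detector -/
noncomputable def Dp (P : Par) (T : ℝ) (s : ℂ) : ℂ :=
  ∑ n ∈ Finset.range (P.B + 1), qq (PS P T) (Eb P T)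
    (fun p => -(chi P T p : ℂ) * (p : ℂ) ^ (hh (dl P.c T) - s)) n

/-- local factor -/
noncomputable def gp (P : Par) (T : ℝ) (p : ℕ) : ℂ :=
  (1 / p : ℂ) * (chi P T p * (chi P T p - (1 - (p : ℂ) ^ (-(2 * hh (dl P.c T)))) *
    (p : ℂ) ^ (-((P.a / Real.log T : ℝ) : ℂ))))

/-- the diagonal sum of the detector -/
noncomputable def SS (P : Par) (T : ℝ) : ℂ :=
  ∑ n ∈ Finset.range (P.B + 1), qq (PS P T) (Eb P T) (gp P T) n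

/-- limit of `tt/m` -/
noncomputable def GG (P : Par) (m : ℕ) : ℂ :=
  ∫ u in (0 : ℝ)..1, (P.b m u : ℂ) * ((u * P.b m u : ℝ) -
    (1 - cexp (-(2 * Real.pi * P.c * u : ℝ) * I)) * (Real.exp (-P.a * u) : ℂ))

/-- coefficients of the detector -/
noncomputable def dco (P : Par) (T : ℝ) (n : ℕ) : ℂ :=
  if Squarefree n ∧ n.primeFactors ⊆ PS P T ∧ ∑ p ∈ n.primeFactors, Eb P T p ≤ P.B then
    ∏ p ∈ n.primeFactors, (-(chi P T p : ℂ) * (p : ℂ) ^ (hh (dl P.c T))) else 0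

end SP

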