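import Pool.Agent.H382P.EF0

set_option autoImplicit false

open Complex Filter Topology Set MeasureTheory

namespace SP

open SG (phi hh nn dd dl)
open H370 (good_zeta zset zset_finite zcount)

lemma hh_half (u t : ℝ) (s : ℂ) (hs : s.re = 1 / 2) :
    cexp (-(I * u * t)) * H370.hh u t s =
      (Real.exp (-(s.im - t) ^ 2 / 2) : ℂ) * cexp (I * ((u * (s.im - t) : ℝ) : ℂ)) := by
  have h : s = (1 / 2 : ℂ) + s.im * I := by
    apply Complex.ext
    · simp [hs]
    · simp
  unfold H370.hh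
  rw [h, Complex.ofReal_exp, ← Complex.exp_add, ← Complex.exp_add, ← Complex.exp_add]
  congr 1
  simp only [add_im, mul_im, ofReal_re, I_im, mul_one, ofReal_im, I_re, mul_zero, add_zero]
  have h2 : ((1 / 2 : ℂ)).im = 0 := by norm_num
  rw [h2]
  push_cast
  ring_nf
  simp only [I_sq]
  ring

lemma PP_eq (u t : ℝ) : cexp (-(I * u * t)) *
      H370.PP (fun n => (ArithmeticFunction.vonMangoldt n : ℂ)) u t =
    ∑' n : ℕ, (ArithmeticFunction.vonMangoldt n : ℂ) * (n : ℂ) ^ (-(1 / 2 : ℂ) - I * t) *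
          (Real.exp (-(u - Real.log n) ^ 2 / 2) : ℂ) := by
  unfold H370.PP
  rw [← tsum_mul_left]
  refine tsum_congr fun n => ?_
  rcases Nat.eq_zero_or_pos n with h | h
  · subst h; simp
  · have hn : (n : ℂ) ≠ 0 := by exact_mod_cast h.ne'
    have e1 : ((Real.sqrt n : ℝ) : ℂ)⁻¹ = cexp (-(1 / 2 : ℂ) * (Real.log n : ℝ)) := by
      rw [Real.sqrt_eq_rpow, Real.rpow_def_of_pos (by exact_mod_cast h), Complex.ofReal_exp,
        ← Complex.exp_neg]
      congr 1
      push_cast
      ring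
    have e2 : (n : ℂ) ^ (-(1 / 2 : ℂ) - I * t) =
        cexp (((Real.log n : ℝ) : ℂ) * (-(1 / 2 : ℂ) - I * t)) := by
      rw [Complex.cpow_def_of_ne_zero hn, ← Complex.natCast_log]
    rw [e1, e2]
    have e3 : cexp (-(I * u * t)) * (cexp (-(1 / 2 : ℂ) * (Real.log n : ℝ)) *
        cexp (I * t * (u - Real.log n))) = cexp (((Real.log n : ℝ) : ℂ) * (-(1 / 2 : ℂ) - I * t)) := by
      rw [← Complex.exp_add, ← Complex.exp_add]
      congr 1
      ring
    rw [← e3]
    ring

theorem EF (hRH : RHs) : ∃ C T0 : ℝ, 0 < C ∧ 10 ≤ T0 ∧ ∀ T : ℝ, T0 ≤ T → ∀ u t : ℝ,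
    0 ≤ u → u ≤ Real.log T → T + Real.log T ≤ t → t ≤ 2 * T - Real.log T →
    ‖(∑ᶠ s ∈ ZZ T, (mu s : ℂ) * (Real.exp (-(s.im - t) ^ 2 / 2) : ℂ) *
        cexp (I * ((u * (s.im - t) : ℝ) : ℂ))) -
      (1 / Real.sqrt (2 * Real.pi) : ℝ) * ((Real.log T * Real.exp (-u ^ 2 / 2) : ℝ) -
        ∑' n : ℕ, (ArithmeticFunction.vonMangoldt n : ℂ) * (n : ℂ) ^ (-(1 / 2 : ℂ) - I * t) *
          (Real.exp (-(u - Real.log n) ^ 2 / 2) : ℂ))‖ ≤ C * Real.exp (-u) := by
  classical
  obtain ⟨C1, T1, hC1, hT1, hef⟩ := H370.ef_of good_zeta (H370.good_height good_zeta)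
    (fun n => (ArithmeticFunction.vonMangoldt n : ℂ))
    (fun n => by
      rw [Complex.norm_real, Real.norm_eq_abs, abs_of_nonneg ArithmeticFunction.vonMangoldt_nonneg])
    H370.zeta_ld
  obtain ⟨C2, hC2, hzc⟩ := zcount good_zeta
  refine ⟨C1 + 4 * C2, max T1 (Real.exp 20), by positivity, hT1.trans (le_max_left _ _), ?_⟩
  intro T hT u t hu huL ht1 ht2
  have hTT1 : T1 ≤ T := (le_max_left _ _).trans hT
  have hTe : Real.exp 20 ≤ T := (le_max_right _ _).trans hT
  have hTpos : 0 < T := (Real.exp_pos _).trans_le hTe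
  have hT21 : 21 ≤ T := by
    have := Real.add_one_le_exp (20 : ℝ)
    linarith
  set L := Real.log T with hL
  have hL20 : 20 ≤ L := by
    rw [hL, Real.le_log_iff_exp_le hTpos]; exact hTe
  obtain ⟨U1, U2, h1, h2, h3, h4, hmain⟩ := hef T hTT1
  have hm := hmain u t hu huL ht1 ht2
  have hfin : (ZZ T).Finite := zset_finite good_zeta T (2 * T) (by linarith)
  have hfinU : (zset riemannZeta U1 U2).Finite := zset_finite good_zeta U1 U2 (by linarith)
  have hsub : hfinU.toFinset ⊆ hfin.toFinset := by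
    intro s hs
    rw [Set.Finite.mem_toFinset] at hs ⊢
    obtain ⟨a1, a2, a3, a4, a5⟩ := hs
    exact ⟨a1, a2, by linarith, by linarith, a5⟩
  set g : ℂ → ℂ := fun s => (mu s : ℂ) * (Real.exp (-(s.im - t) ^ 2 / 2) : ℂ) *
        cexp (I * ((u * (s.im - t) : ℝ) : ℂ)) with hg
  have hsum1 : (∑ᶠ s ∈ ZZ T, g s) = ∑ s ∈ hfin.toFinset, g s :=
    finsum_mem_eq_finite_toFinset_sum _ hfin
  have hsum2 : cexp (-(I * u * t)) * H370.AA riemannZeta U1 U2 u t = ∑ s ∈ hfinU.toFinset, g s := by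
    unfold H370.AA
    rw [finsum_mem_eq_finite_toFinset_sum _ hfinU, Finset.mul_sum]
    refine Finset.sum_congr rfl fun s hs => ?_
    rw [Set.Finite.mem_toFinset] at hs
    have hre := hRH s hs.1 hs.2.1 hs.2.2.2.2
    have := hh_half u t s hre
    simp only [hg, mu]
    linear_combination (H370.mult riemannZeta s : ℂ) * this
  have hdiff : ‖(∑ s ∈ hfin.toFinset, g s) - ∑ s ∈ hfinU.toFinset, g s‖ ≤
      (4 * C2) * Real.exp (-u) := by
    rw [← Finset.sum_sdiff hsub, add_sub_cancel_right]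
    have hb : ∀ s ∈ hfin.toFinset \ hfinU.toFinset, ‖g s‖ ≤ (mu s : ℝ) * Real.exp (-(L - 1) ^ 2 / 2) := by
      intro s hs
      rw [Finset.mem_sdiff, Set.Finite.mem_toFinset, Set.Finite.mem_toFinset] at hs
      obtain ⟨⟨a1, a2, a3, a4, a5⟩, hs2⟩ := hs
      have hcase : s.im ≤ U1 ∨ U2 < s.im := by
        by_contra hcon
        push Not at hcon
        exact hs2 ⟨a1, a2, hcon.1, hcon.2, a5⟩
      simp only [hg]
      rw [norm_mul, norm_mul, Complex.norm_natCast, Complex.norm_real, Real.norm_eq_abs, Real.abs_exp,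
        mul_comm I, Complex.norm_exp_ofReal_mul_I, mul_one]
      apply mul_le_mul_of_nonneg_left _ (Nat.cast_nonneg _)
      apply Real.exp_le_exp.2
      have : (L - 1) ^ 2 ≤ (s.im - t) ^ 2 := by
        rcases hcase with h | h
        · have : L - 1 ≤ t - s.im := by linarith
          nlinarith
        · have : L - 1 ≤ s.im - t := by linarith
          nlinarith
      linarith
    have hcnt : (∑ s ∈ hfin.toFinset \ hfinU.toFinset, (mu s : ℝ)) ≤ 4 * C2 * L := by
      have hfa : (zset riemannZeta (T + 1 - 1) (T + 1 + 1)).Finite :=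
        zset_finite good_zeta _ _ (by linarith)
      have hfb : (zset riemannZeta (2 * T - 1 - 1) (2 * T - 1 + 1)).Finite :=
        zset_finite good_zeta _ _ (by linarith)
      have hsub2 : hfin.toFinset \ hfinU.toFinset ⊆ hfa.toFinset ∪ hfb.toFinset := by
        intro s hs
        rw [Finset.mem_sdiff, Set.Finite.mem_toFinset, Set.Finite.mem_toFinset] at hs
        obtain ⟨⟨a1, a2, a3, a4, a5⟩, hs2⟩ := hs
        rw [Finset.mem_union, Set.Finite.mem_toFinset, Set.Finite.mem_toFinset]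
        by_cases hc : s.im ≤ U1
        · left
          exact ⟨a1, a2, by linarith, by linarith, a5⟩
        · right
          have : U2 < s.im := by
            by_contra hcon
            exact hs2 ⟨a1, a2, not_le.1 hc, not_lt.1 hcon, a5⟩
          exact ⟨a1, a2, by linarith, by linarith, a5⟩
      have hna : ∑ s ∈ hfa.toFinset, (mu s : ℝ) ≤ C2 * Real.log (T + 1) := by
        have := hzc (T + 1) (by linarith)
        unfold H370.NN at this
        rw [finsum_mem_eq_finite_toFinset_sum _ hfa] at this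
        push_cast at this
        exact this
      have hnb : ∑ s ∈ hfb.toFinset, (mu s : ℝ) ≤ C2 * Real.log (2 * T - 1) := by
        have := hzc (2 * T - 1) (by linarith)
        unfold H370.NN at this
        rw [finsum_mem_eq_finite_toFinset_sum _ hfb] at this
        push_cast at this
        exact this
      have hl1 : Real.log (T + 1) ≤ 2 * L := by
        have : Real.log (T + 1) ≤ Real.log (T ^ 2) := by
          apply Real.log_le_log (by linarith)
          nlinarith
        rw [Real.log_pow] at this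
        exact_mod_cast this
      have hl2 : Real.log (2 * T - 1) ≤ 2 * L := by
        have : Real.log (2 * T - 1) ≤ Real.log (T ^ 2) := by
          apply Real.log_le_log (by linarith)
          nlinarith
        rw [Real.log_pow] at this
        exact_mod_cast this
      calc ∑ s ∈ hfin.toFinset \ hfinU.toFinset, (mu s : ℝ)
          ≤ ∑ s ∈ hfa.toFinset ∪ hfb.toFinset, (mu s : ℝ) :=
            Finset.sum_le_sum_of_subset_of_nonneg hsub2 fun s _ _ => Nat.cast_nonneg _
        _ ≤ ∑ s ∈ hfa.toFinset, (mu s : ℝ) + ∑ s ∈ hfb.toFinset, (mu s : ℝ) := by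
            rw [← Finset.sum_union_inter]
            have : 0 ≤ ∑ s ∈ hfa.toFinset ∩ hfb.toFinset, (mu s : ℝ) :=
              Finset.sum_nonneg fun s _ => Nat.cast_nonneg _
            linarith
        _ ≤ C2 * Real.log (T + 1) + C2 * Real.log (2 * T - 1) := add_le_add hna hnb
        _ ≤ 4 * C2 * L := by nlinarith
    have hsm : L * Real.exp (-(L - 1) ^ 2 / 2) ≤ Real.exp (-u) := by
      have h5 : L ≤ Real.exp L := by linarith [Real.add_one_le_exp L]
      calc L * Real.exp (-(L - 1) ^ 2 / 2) ≤ Real.exp L * Real.exp (-(L - 1) ^ 2 / 2) :=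
            mul_le_mul_of_nonneg_right h5 (Real.exp_pos _).le
        _ = Real.exp (L + -(L - 1) ^ 2 / 2) := by rw [← Real.exp_add]
        _ ≤ Real.exp (-u) := by
            apply Real.exp_le_exp.2
            nlinarith
    calc ‖∑ s ∈ hfin.toFinset \ hfinU.toFinset, g s‖
        ≤ ∑ s ∈ hfin.toFinset \ hfinU.toFinset, ‖g s‖ := norm_sum_le _ _
      _ ≤ ∑ s ∈ hfin.toFinset \ hfinU.toFinset, (mu s : ℝ) * Real.exp (-(L - 1) ^ 2 / 2) :=
          Finset.sum_le_sum hb
      _ = (∑ s ∈ hfin.toFinset \ hfinU.toFinset, (mu s : ℝ)) * Real.exp (-(L - 1) ^ 2 / 2) := by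
          rw [Finset.sum_mul]
      _ ≤ (4 * C2 * L) * Real.exp (-(L - 1) ^ 2 / 2) :=
          mul_le_mul_of_nonneg_right hcnt (Real.exp_pos _).le
      _ = (4 * C2) * (L * Real.exp (-(L - 1) ^ 2 / 2)) := by ring
      _ ≤ (4 * C2) * Real.exp (-u) := mul_le_mul_of_nonneg_left hsm (by positivity)
  rw [hsum1]
  rw [← PP_eq]
  set PPv := H370.PP (fun n => (ArithmeticFunction.vonMangoldt n : ℂ)) u t with hPPv
  have hmul : cexp (-(I * u * t)) * (H370.AA riemannZeta U1 U2 u t -
          (1 / Real.sqrt (2 * Real.pi) : ℝ) * (Real.log T * cexp (I * u * t) *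
              Real.exp (-u ^ 2 / 2) - PPv)) =
      (∑ s ∈ hfinU.toFinset, g s) - (1 / Real.sqrt (2 * Real.pi) : ℝ) *
        ((Real.log T * Real.exp (-u ^ 2 / 2) : ℝ) - cexp (-(I * u * t)) * PPv) := by
    rw [← hsum2]
    have e1 : cexp (-(I * u * t)) * cexp (I * u * t) = 1 := by
      rw [← Complex.exp_add]; simp
    push_cast
    linear_combination (-(1 / (Real.sqrt (2 * Real.pi) : ℂ)) * Real.log T * cexp (-u ^ 2 / 2)) * e1
  have hnorm1 : ‖cexp (-(I * u * t))‖ = 1 := by
    rw [show (-(I * u * t) : ℂ) = ((-(u * t) : ℝ) : ℂ) * I by push_cast; ring,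
      Complex.norm_exp_ofReal_mul_I]
  have hm2 : ‖(∑ s ∈ hfinU.toFinset, g s) - (1 / Real.sqrt (2 * Real.pi) : ℝ) *
        ((Real.log T * Real.exp (-u ^ 2 / 2) : ℝ) - cexp (-(I * u * t)) * PPv)‖ ≤
      C1 * Real.exp (-u) := by
    rw [← hmul, norm_mul, hnorm1, one_mul]
    exact hm
  have hsplit : (∑ s ∈ hfin.toFinset, g s) - (1 / Real.sqrt (2 * Real.pi) : ℝ) *
        ((Real.log T * Real.exp (-u ^ 2 / 2) : ℝ) - cexp (-(I * u * t)) * PPv) =
      ((∑ s ∈ hfin.toFinset, g s) - ∑ s ∈ hfinU.toFinset, g s) +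
      ((∑ s ∈ hfinU.toFinset, g s) - (1 / Real.sqrt (2 * Real.pi) : ℝ) *
        ((Real.log T * Real.exp (-u ^ 2 / 2) : ℝ) - cexp (-(I * u * t)) * PPv)) := by ring
  rw [hsplit]
  calc ‖_‖ ≤ _ := norm_add_le _ _
    _ ≤ (4 * C2) * Real.exp (-u) + C1 * Real.exp (-u) := add_le_add hdiff hm2
    _ = (C1 + 4 * C2) * Real.exp (-u) := by ring

end SP
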