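import Pool.Agent.H382P.Defs

open Complex Filter Topology Set MeasureTheory

namespace SP

open SG (phi hh nn dd dl)

theorem fm_hh_re (δ : ℝ) : (hh δ).re = 0 := by
  simp [hh]

theorem fm_norm_pow (δ : ℝ) {n : ℕ} (hn : 0 < n) : ‖(n : ℂ) ^ (hh δ)‖ = 1 := by
  rw [Complex.norm_natCast_cpow_of_pos hn, fm_hh_re, Real.rpow_zero]

theorem fm_norm_pow_neg (δ : ℝ) {n : ℕ} (hn : 0 < n) : ‖(n : ℂ) ^ (-(hh δ))‖ = 1 := by
  rw [Complex.norm_natCast_cpow_of_pos hn, Complex.neg_re, fm_hh_re, neg_zero, Real.rpow_zero]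

theorem fm_eq_conv (δ : ℝ) (m : ℕ) : fm δ m =
    LSeries.convolution (fun n : ℕ => (n : ℂ) ^ (hh δ))
      (fun n : ℕ => ((ArithmeticFunction.moebius n : ℤ) : ℂ) * (n : ℂ) ^ (-(hh δ))) m := by
  rw [LSeries.convolution_def]
  have h := Nat.sum_divisorsAntidiagonal (fun a b : ℕ => (a : ℂ) ^ (hh δ) *
    (((ArithmeticFunction.moebius b : ℤ) : ℂ) * (b : ℂ) ^ (-(hh δ)))) (n := m)
  simp only
  rw [h, fm]
  apply Finset.sum_congr rfl
  intro x _
  ring

theorem fm_series (δ : ℝ) (s : ℂ) (hs : 3 < s.re) :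
    (∀ m : ℕ, ‖fm δ m‖ ≤ m) ∧
    HasSum (fun m : ℕ => fm δ m * (m : ℂ) ^ (-s))
      (riemannZeta (s - hh δ) / riemannZeta (s + hh δ)) := by
  constructor
  · intro m
    rw [fm]
    calc ‖∑ x ∈ m.divisors, (x : ℂ) ^ (hh δ) * ((ArithmeticFunction.moebius (m / x) : ℤ) : ℂ) *
        ((m / x : ℕ) : ℂ) ^ (-(hh δ))‖ ≤ ∑ x ∈ m.divisors, (1 : ℝ) := by
          apply norm_sum_le_of_le
          intro x hx
          have hx0 : 0 < x := Nat.pos_of_mem_divisors hx
          have hm0 : 0 < m / x := Nat.div_pos (Nat.divisor_le hx) hx0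
          rw [norm_mul, norm_mul, fm_norm_pow δ hx0, fm_norm_pow_neg δ hm0, one_mul, mul_one]
          have h1 : |ArithmeticFunction.moebius (m / x)| ≤ 1 := ArithmeticFunction.abs_moebius_le_one
          rw [Complex.norm_intCast]
          exact_mod_cast h1
      _ = (m.divisors.card : ℝ) := by simp
      _ ≤ m := by exact_mod_cast Nat.card_divisors_le_self m
  · have hre1 : 1 < (s - hh δ).re := by rw [Complex.sub_re, fm_hh_re]; linarith
    have hre2 : 1 < (s + hh δ).re := by rw [Complex.add_re, fm_hh_re]; linarith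
    have h1 : LSeriesHasSum (fun n : ℕ => (n : ℂ) ^ (hh δ)) s (riemannZeta (s - hh δ)) := by
      have h2 := LSeriesHasSum_one hre1
      unfold LSeriesHasSum at h2 ⊢
      convert h2 using 1
      funext n
      rcases Nat.eq_zero_or_pos n with rfl | hn
      · simp [LSeries.term]
      · have hn0 : (n : ℂ) ≠ 0 := by exact_mod_cast hn.ne'
        rw [LSeries.term_of_ne_zero hn.ne', LSeries.term_of_ne_zero hn.ne', Complex.cpow_sub _ _ hn0]
        simp only [Pi.one_apply]
        rw [one_div_div]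
    have h2 : LSeriesHasSum (fun n : ℕ => ((ArithmeticFunction.moebius n : ℤ) : ℂ) *
        (n : ℂ) ^ (-(hh δ))) s (1 / riemannZeta (s + hh δ)) := by
      have h3 := (ArithmeticFunction.LSeriesSummable_moebius_iff.2 hre2).LSeriesHasSum
      have h4 := LSeries_one_mul_Lseries_moebius hre2
      rw [LSeries_one_eq_riemannZeta hre2] at h4
      have h5 : LSeries (fun n => ((ArithmeticFunction.moebius n : ℤ) : ℂ)) (s + hh δ) =
          1 / riemannZeta (s + hh δ) := by
        rw [eq_div_iff (riemannZeta_ne_zero_of_one_lt_re hre2), mul_comm]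
        exact h4
      rw [h5] at h3
      unfold LSeriesHasSum at h3 ⊢
      convert h3 using 1
      funext n
      rcases Nat.eq_zero_or_pos n with rfl | hn
      · simp [LSeries.term]
      · have hn0 : (n : ℂ) ≠ 0 := by exact_mod_cast hn.ne'
        rw [LSeries.term_of_ne_zero hn.ne', LSeries.term_of_ne_zero hn.ne', Complex.cpow_add _ _ hn0,
          Complex.cpow_neg, mul_comm ((n : ℂ) ^ s), ← div_div, div_eq_mul_inv _ ((n : ℂ) ^ (hh δ))]
    have h3 := h1.convolution h2
    unfold LSeriesHasSum at h3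
    convert h3 using 1
    · funext n
      rcases Nat.eq_zero_or_pos n with rfl | hn
      · simp [fm]
      · rw [LSeries.term_of_ne_zero hn.ne', fm_eq_conv, Complex.cpow_neg, div_eq_mul_inv]
    · rw [mul_one_div]

end SP
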