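import Pool.Agent.H382P.Defs

open Complex Filter Topology Set MeasureTheory

namespace SP

namespace Ideal

/-- derangement probabilities -/
noncomputable def d (n : ℕ) : ℝ := ∑ i ∈ Finset.range (n + 1), (-1 : ℝ) ^ i / (i.factorial : ℝ)

theorem d_zero : d 0 = 1 := by simp [d]

theorem d_succ (n : ℕ) : d (n + 1) = d n + (-1) ^ (n + 1) / ((n + 1).factorial : ℝ) := by
  unfold d
  rw [Finset.sum_range_succ]

theorem d_rec (n : ℕ) : ((n : ℝ) + 2) * d (n + 2) = ((n : ℝ) + 1) * d (n + 1) + d n := by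
  rw [d_succ (n + 1), d_succ n]
  have h1 : (((n + 1 + 1).factorial : ℕ) : ℝ) = ((n : ℝ) + 2) * ((n + 1).factorial : ℝ) := by
    rw [Nat.factorial_succ (n + 1)]; push_cast; ring
  have h2 : (((n + 1).factorial : ℕ) : ℝ) = ((n : ℝ) + 1) * (n.factorial : ℝ) := by
    rw [Nat.factorial_succ n]; push_cast; ring
  have h3 : (n.factorial : ℝ) ≠ 0 := by positivity
  have h4 : (n : ℝ) + 1 ≠ 0 := by positivity
  have h5 : (n : ℝ) + 2 ≠ 0 := by positivity
  rw [h1, h2]
  field_simp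
  ring

theorem d_sum (n : ℕ) : ((n : ℝ) + 1) * d (n + 1) = ∑ i ∈ Finset.range n, d i := by
  induction n with
  | zero => simp [d, Finset.sum_range_succ]
  | succ n ih =>
    rw [Finset.sum_range_succ, ← ih]
    have := d_rec n
    push_cast
    rw [show ((n : ℝ) + 1 + 1) = (n : ℝ) + 2 by ring]
    exact this

theorem two_pow_le (n : ℕ) : 2 ^ n ≤ (n + 1).factorial := by
  induction n with
  | zero => simp
  | succ n ih =>
    rw [Nat.factorial_succ, pow_succ, mul_comm]
    exact Nat.mul_le_mul (by omega) ih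

theorem d_close (n : ℕ) : |d n - Real.exp (-1)| ≤ 2 * (1 / 2) ^ n := by
  have h := Real.exp_bound (x := -1) (by norm_num) (n := n + 1) (by omega)
  rw [abs_sub_comm] at h
  refine h.trans ?_
  have h2 : (0 : ℝ) < ((n + 1).factorial : ℝ) := by positivity
  have h3 : ((2 : ℝ)) ^ n ≤ ((n + 1).factorial : ℝ) := by exact_mod_cast two_pow_le n
  have h4 : |(-1 : ℝ)| ^ (n + 1) = 1 := by norm_num
  rw [h4, one_mul]
  have h5 : (((n + 1).succ : ℕ) : ℝ) ≤ 2 * ((n + 1 : ℕ) : ℝ) := by push_cast; linarith [Nat.cast_nonneg (α := ℝ) n]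
  have h6 : (0 : ℝ) < ((n + 1 : ℕ) : ℝ) := by positivity
  calc (((n + 1).succ : ℕ) : ℝ) / (((n + 1).factorial : ℝ) * ((n + 1 : ℕ) : ℝ))
      ≤ (2 * ((n + 1 : ℕ) : ℝ)) / (((n + 1).factorial : ℝ) * ((n + 1 : ℕ) : ℝ)) := by gcongr
    _ = 2 / ((n + 1).factorial : ℝ) := by field_simp
    _ ≤ 2 / 2 ^ n := by gcongr
    _ = 2 * (1 / 2) ^ n := by rw [one_div, inv_pow]; ring

theorem d_close_sum (B : ℕ) : ∑ n ∈ Finset.range (B + 1), |d n - Real.exp (-1)| ≤ 4 := by
  calc ∑ n ∈ Finset.range (B + 1), |d n - Real.exp (-1)|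
      ≤ ∑ n ∈ Finset.range (B + 1), 2 * (1 / 2 : ℝ) ^ n := Finset.sum_le_sum fun n _ => d_close n
    _ = 2 * ∑ n ∈ Finset.range (B + 1), (1 / 2 : ℝ) ^ n := by rw [Finset.mul_sum]
    _ ≤ 2 * 2 := by
        gcongr
        have := geom_sum_eq (x := (1 / 2 : ℝ)) (by norm_num) (B + 1)
        rw [this]
        have h : (0 : ℝ) < (1 / 2) ^ (B + 1) := by positivity
        rw [div_le_iff_of_neg (by norm_num)]
        linarith
    _ = 4 := by norm_num

/-- harmonic numbers -/
noncomputable def hn (n : ℕ) : ℝ := ∑ j ∈ Finset.range n, 1 / ((j : ℝ) + 1)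

theorem hn_succ (n : ℕ) : hn (n + 1) = hn n + 1 / ((n : ℝ) + 1) := by
  unfold hn; rw [Finset.sum_range_succ]

theorem hn_nonneg (n : ℕ) : 0 ≤ hn n := Finset.sum_nonneg fun j _ => by positivity

theorem hn_mono {m n : ℕ} (h : m ≤ n) : hn m ≤ hn n :=
  Finset.sum_le_sum_of_subset_of_nonneg (Finset.range_mono h) fun j _ _ => by positivity

theorem hn_sum (n : ℕ) : ∑ i ∈ Finset.range n, hn i = n * hn n - n := by
  induction n with
  | zero => simp
  | succ n ih =>
    rw [Finset.sum_range_succ, ih, hn_succ]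
    have : (n : ℝ) + 1 ≠ 0 := by positivity
    push_cast
    field_simp
    ring

theorem hn_le (n : ℕ) : hn n ≤ 1 + Real.log n := by
  have h := harmonic_le_one_add_log n
  have h2 : ((harmonic n : ℚ) : ℝ) = hn n := by
    unfold harmonic hn
    push_cast
    refine Finset.sum_congr rfl fun i _ => ?_
    rw [one_div]
  rwa [h2] at h

/-- telescoping bound of the geometric sum -/
theorem geo_lower {c η g : ℝ} {B : ℕ} (hB : 2 ≤ B) (hc : 1 / 2 < c) (hc1 : c < 1) (hη : 1 / 2 < η)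
    (hη1 : η < 1) (hg : g ≤ Real.cos (Real.pi * c * (1 + 2 * η)) - Real.cos (Real.pi * c))
    (_hg0 : 0 < g) (hθ : 2 * Real.pi * c * η / B ≤ g / 2) (hθ1 : 2 * Real.pi * c * η / B ≤ 1) :
    g * B / (4 * Real.pi) ≤ -∑ n ∈ Finset.range (B + 1),
      Real.sin (Real.pi * c + 2 * Real.pi * c * η / B * n) := by
  have hB0 : (0 : ℝ) < B := by positivity
  have hpi := Real.pi_pos
  set θ := 2 * Real.pi * c * η / B with hθd
  have hθ0 : 0 < θ := by positivity
  have tel : ∀ n : ℕ, (2 * Real.sin (θ / 2)) * ∑ k ∈ Finset.range n, Real.sin (Real.pi * c + θ * k) =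
      Real.cos (Real.pi * c - θ / 2) - Real.cos (Real.pi * c + θ * n - θ / 2) := by
    intro n
    induction n with
    | zero => simp
    | succ n ih =>
      rw [Finset.sum_range_succ, mul_add, ih]
      have h1 : Real.cos (Real.pi * c + θ * n - θ / 2) - Real.cos (Real.pi * c + θ * n + θ / 2) =
          2 * Real.sin (θ / 2) * Real.sin (Real.pi * c + θ * n) := by
        rw [Real.cos_sub (Real.pi * c + θ * n) (θ / 2), Real.cos_add (Real.pi * c + θ * n) (θ / 2)]
        ring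
      have h2 : Real.pi * c + θ * ((n + 1 : ℕ) : ℝ) - θ / 2 = Real.pi * c + θ * n + θ / 2 := by
        push_cast; ring
      rw [h2]
      linarith
  have h1 := tel (B + 1)
  have hs0 : 0 < Real.sin (θ / 2) := Real.sin_pos_of_pos_of_lt_pi (by positivity) (by linarith [Real.pi_gt_three])
  have hs1 : Real.sin (θ / 2) ≤ θ / 2 := Real.sin_le (by positivity)
  have hlip : ∀ x y : ℝ, |Real.cos x - Real.cos y| ≤ |x - y| := by
    exact Real.abs_cos_sub_cos_le
  have e1 := hlip (Real.pi * c - θ / 2) (Real.pi * c)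
  have e2 := hlip (Real.pi * c + θ * ((B + 1 : ℕ) : ℝ) - θ / 2) (Real.pi * c * (1 + 2 * η))
  have e3 : Real.pi * c + θ * ((B + 1 : ℕ) : ℝ) - θ / 2 - Real.pi * c * (1 + 2 * η) = θ / 2 := by
    have : θ * B = 2 * Real.pi * c * η := by rw [hθd]; field_simp
    push_cast
    linarith
  rw [e3, abs_of_pos (by positivity : (0:ℝ) < θ / 2)] at e2
  rw [show Real.pi * c - θ / 2 - Real.pi * c = -(θ / 2) by ring, abs_neg,
    abs_of_pos (by positivity : (0:ℝ) < θ / 2)] at e1
  have e4 := (abs_le.1 e1).2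
  have e5 := (abs_le.1 e2).1
  set S := ∑ k ∈ Finset.range (B + 1), Real.sin (Real.pi * c + θ * k) with hS
  -- (2 sin(θ/2)) S ≤ -(g/2)
  have h2 : (2 * Real.sin (θ / 2)) * S ≤ -(g / 2) := by
    rw [h1]; linarith
  have hSneg : 0 < -S := by
    by_contra hcon
    push Not at hcon
    have : 0 ≤ (2 * Real.sin (θ / 2)) * S := mul_nonneg (by positivity) (by linarith)
    linarith
  have h3 : g / 2 ≤ θ * (-S) := by
    have : (2 * Real.sin (θ / 2)) * (-S) ≤ θ * (-S) :=
      mul_le_mul_of_nonneg_right (by linarith) hSneg.le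
    linarith
  have h4 : θ ≤ 2 * Real.pi / B := by
    rw [hθd]
    refine div_le_div_of_nonneg_right ?_ hB0.le
    have h7 : c * η ≤ 1 := by nlinarith
    calc 2 * Real.pi * c * η = 2 * Real.pi * (c * η) := by ring
      _ ≤ 2 * Real.pi * 1 := mul_le_mul_of_nonneg_left h7 (by positivity)
      _ = 2 * Real.pi := by ring
  have h5 : g / 2 ≤ 2 * Real.pi / B * (-S) := h3.trans (mul_le_mul_of_nonneg_right h4 hSneg.le)
  rw [div_le_iff₀ (by positivity)]
  have h6 : g / 2 * B ≤ 2 * Real.pi * (-S) := by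
    have := mul_le_mul_of_nonneg_right h5 hB0.le
    calc g / 2 * B ≤ 2 * Real.pi / B * (-S) * B := this
      _ = 2 * Real.pi * (-S) := by field_simp
  nlinarith

/-- the unperturbed recursion -/
theorem rec_ideal (w : ℂ) (n : ℕ) (hn : 1 ≤ n) :
    (n : ℂ) * (w ^ n * (d n : ℂ)) = ∑ m ∈ Finset.Icc 1 n,
      (if m = 1 then 0 else w ^ m) * (w ^ (n - m) * (d (n - m) : ℂ)) := by
  obtain ⟨k, rfl⟩ : ∃ k, n = k + 1 := ⟨n - 1, by omega⟩
  have h1 : ∀ m ∈ Finset.Icc 1 (k + 1), (if m = 1 then (0 : ℂ) else w ^ m) *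
      (w ^ (k + 1 - m) * (d (k + 1 - m) : ℂ)) =
      w ^ (k + 1) * (if m = 1 then (0 : ℂ) else (d (k + 1 - m) : ℂ)) := by
    intro m hm
    rw [Finset.mem_Icc] at hm
    by_cases h : m = 1
    · simp [h]
    · rw [if_neg h, if_neg h, ← mul_assoc, ← pow_add]
      congr 2
      omega
  rw [Finset.sum_congr rfl h1, ← Finset.mul_sum]
  have h2 : ∑ m ∈ Finset.Icc 1 (k + 1), (if m = 1 then (0 : ℂ) else (d (k + 1 - m) : ℂ)) =
      ∑ i ∈ Finset.range k, (d i : ℂ) := by
    have e1 : Finset.Icc 1 (k + 1) = insert 1 (Finset.Icc 2 (k + 1)) := by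
      ext x; simp only [Finset.mem_Icc, Finset.mem_insert]; omega
    rw [e1, Finset.sum_insert (by simp), if_pos rfl, zero_add]
    refine Finset.sum_bij' (fun m _ => k + 1 - m) (fun i _ => k + 1 - i) ?_ ?_ ?_ ?_ ?_
    · intro m hm
      simp only [Finset.mem_Icc] at hm
      simp only [Finset.mem_range]; omega
    · intro i hi
      simp only [Finset.mem_range] at hi
      simp only [Finset.mem_Icc]; omega
    · intro m hm
      simp only [Finset.mem_Icc] at hm
      omega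
    · intro i hi
      simp only [Finset.mem_range] at hi
      omega
    · intro m hm
      simp only [Finset.mem_Icc] at hm
      rw [if_neg (by omega)]
  rw [h2, ← Complex.ofReal_sum, ← d_sum k]
  push_cast
  ring

theorem sum_Icc_range (n : ℕ) (f : ℕ → ℝ) :
    ∑ m ∈ Finset.Icc 1 n, f (n - m) = ∑ i ∈ Finset.range n, f i := by
  refine Finset.sum_bij' (fun m _ => n - m) (fun i _ => n - i) ?_ ?_ ?_ ?_ ?_
  · intro m hm
    simp only [Finset.mem_Icc] at hm
    simp only [Finset.mem_range]; omega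
  · intro i hi
    simp only [Finset.mem_range] at hi
    simp only [Finset.mem_Icc]; omega
  · intro m hm
    simp only [Finset.mem_Icc] at hm
    omega
  · intro i hi
    simp only [Finset.mem_range] at hi
    omega
  · intro m hm
    rfl

/-- perturbation bound -/
theorem perturb {B : ℕ} (hB : 2 ≤ B) {w : ℂ} (hw : ‖w‖ = 1) {t q : ℕ → ℂ} (hq0 : q 0 = 1)
    (hq : ∀ n : ℕ, 1 ≤ n → n ≤ B → (n : ℂ) * q n = ∑ m ∈ Finset.Icc 1 n, t m * q (n - m))
    (h1 : ‖t 1‖ ≤ 1 / B) (h2 : ∀ m : ℕ, 2 ≤ m → m ≤ B → ‖t m - w ^ m‖ ≤ 7 / B) :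
    ∀ n : ℕ, n ≤ B → ‖q n - w ^ n * (d n : ℂ)‖ ≤ 7 * Real.exp 7 / B * hn n := by
  have hB0 : (0 : ℝ) < B := by positivity
  set ts : ℕ → ℂ := fun m => if m = 1 then 0 else w ^ m with hts
  have hts1 : ∀ m, ‖ts m‖ ≤ 1 := by
    intro m
    simp only [hts]
    split_ifs
    · simp
    · rw [norm_pow, hw, one_pow]
  have he : ∀ m ∈ Finset.Icc 1 B, ‖t m - ts m‖ ≤ 7 / B := by
    intro m hm
    rw [Finset.mem_Icc] at hm
    simp only [hts]
    by_cases h : m = 1
    · rw [if_pos h, sub_zero, h]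
      refine h1.trans ?_
      gcongr
      norm_num
    · rw [if_neg h]
      exact h2 m (by omega) hm.2
  have ht : ∀ m ∈ Finset.Icc 1 B, ‖t m‖ ≤ 1 + 7 / B := by
    intro m hm
    calc ‖t m‖ = ‖ts m + (t m - ts m)‖ := by rw [add_sub_cancel]
      _ ≤ ‖ts m‖ + ‖t m - ts m‖ := norm_add_le _ _
      _ ≤ 1 + 7 / B := add_le_add (hts1 m) (he m hm)
  have hr1 : (1 : ℝ) ≤ 1 + 7 / B := by
    have : (0:ℝ) ≤ 7 / B := by positivity
    linarith
  -- step 1
  have s1 : ∀ n : ℕ, n ≤ B → ‖q n‖ ≤ (1 + 7 / B : ℝ) ^ n := by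
    intro n
    induction n using Nat.strong_induction_on with
    | _ n ih =>
      intro hn
      rcases Nat.eq_zero_or_pos n with h0 | h0
      · rw [h0, hq0]; simp
      · have hn0 : (0 : ℝ) < n := by exact_mod_cast h0
        have e1 : (n : ℝ) * ‖q n‖ ≤ (1 + 7 / B) * ∑ i ∈ Finset.range n, ‖q i‖ := by
          have : ‖(n : ℂ) * q n‖ = (n : ℝ) * ‖q n‖ := by rw [norm_mul, Complex.norm_natCast]
          rw [← this, hq n h0 hn]
          calc ‖∑ m ∈ Finset.Icc 1 n, t m * q (n - m)‖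
              ≤ ∑ m ∈ Finset.Icc 1 n, ‖t m * q (n - m)‖ := norm_sum_le _ _
            _ ≤ ∑ m ∈ Finset.Icc 1 n, (1 + 7 / B) * ‖q (n - m)‖ := by
                refine Finset.sum_le_sum fun m hm => ?_
                rw [norm_mul]
                rw [Finset.mem_Icc] at hm
                exact mul_le_mul_of_nonneg_right (ht m (Finset.mem_Icc.2 ⟨hm.1, hm.2.trans hn⟩))
                  (norm_nonneg _)
            _ = (1 + 7 / B) * ∑ i ∈ Finset.range n, ‖q i‖ := by
                rw [← Finset.mul_sum, sum_Icc_range n (fun i => ‖q i‖)]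
        have e2 : ∑ i ∈ Finset.range n, ‖q i‖ ≤ n * (1 + 7 / B : ℝ) ^ (n - 1) := by
          calc ∑ i ∈ Finset.range n, ‖q i‖ ≤ ∑ i ∈ Finset.range n, (1 + 7 / B : ℝ) ^ (n - 1) := by
                refine Finset.sum_le_sum fun i hi => ?_
                rw [Finset.mem_range] at hi
                exact (ih i hi (by omega)).trans (pow_le_pow_right₀ hr1 (by omega))
            _ = n * (1 + 7 / B : ℝ) ^ (n - 1) := by
                rw [Finset.sum_const, Finset.card_range, nsmul_eq_mul]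
        have e3 : (n : ℝ) * ‖q n‖ ≤ n * (1 + 7 / B : ℝ) ^ n := by
          calc (n : ℝ) * ‖q n‖ ≤ (1 + 7 / B) * (n * (1 + 7 / B : ℝ) ^ (n - 1)) :=
                e1.trans (mul_le_mul_of_nonneg_left e2 (by linarith))
            _ = n * ((1 + 7 / B : ℝ) ^ (n - 1) * (1 + 7 / B)) := by ring
            _ = n * (1 + 7 / B : ℝ) ^ n := by rw [← pow_succ, Nat.sub_add_cancel h0]
        exact le_of_mul_le_mul_left e3 hn0
  have s1' : ∀ n : ℕ, n ≤ B → ‖q n‖ ≤ Real.exp 7 := by
    intro n hn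
    refine (s1 n hn).trans ?_
    calc (1 + 7 / B : ℝ) ^ n ≤ (1 + 7 / B : ℝ) ^ B := pow_le_pow_right₀ hr1 hn
      _ ≤ (Real.exp (7 / B)) ^ B := by
          refine pow_le_pow_left₀ (by linarith) ?_ _
          have := Real.add_one_le_exp (7 / (B : ℝ))
          linarith
      _ = Real.exp 7 := by
          rw [← Real.exp_nat_mul]
          congr 1
          field_simp
  -- step 2
  intro n
  induction n using Nat.strong_induction_on with
  | _ n ih =>
    intro hn
    rcases Nat.eq_zero_or_pos n with h0 | h0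
    · rw [h0, hq0, d_zero]; simp [Ideal.hn]
    · have hn0 : (0 : ℝ) < n := by exact_mod_cast h0
      have e0 : (n : ℂ) * (q n - w ^ n * (d n : ℂ)) = ∑ m ∈ Finset.Icc 1 n,
          ((t m - ts m) * q (n - m) + ts m * (q (n - m) - w ^ (n - m) * (d (n - m) : ℂ))) := by
        rw [mul_sub, hq n h0 hn, rec_ideal w n h0, ← Finset.sum_sub_distrib]
        refine Finset.sum_congr rfl fun m _ => ?_
        simp only [hts]
        ring
      have e1 : (n : ℝ) * ‖q n - w ^ n * (d n : ℂ)‖ ≤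
          ∑ i ∈ Finset.range n, (7 / B * Real.exp 7 + 7 * Real.exp 7 / B * Ideal.hn i) := by
        have : ‖(n : ℂ) * (q n - w ^ n * (d n : ℂ))‖ = (n : ℝ) * ‖q n - w ^ n * (d n : ℂ)‖ := by
          rw [norm_mul, Complex.norm_natCast]
        rw [← this, e0, ← sum_Icc_range n (fun i => 7 / B * Real.exp 7 + 7 * Real.exp 7 / B * Ideal.hn i)]
        refine (norm_sum_le _ _).trans (Finset.sum_le_sum fun m hm => ?_)
        rw [Finset.mem_Icc] at hm
        refine (norm_add_le _ _).trans (add_le_add ?_ ?_)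
        · rw [norm_mul]
          exact mul_le_mul (he m (Finset.mem_Icc.2 ⟨hm.1, hm.2.trans hn⟩)) (s1' _ (by omega))
            (norm_nonneg _) (by positivity)
        · rw [norm_mul]
          calc ‖ts m‖ * ‖q (n - m) - w ^ (n - m) * (d (n - m) : ℂ)‖
              ≤ 1 * ‖q (n - m) - w ^ (n - m) * (d (n - m) : ℂ)‖ :=
                mul_le_mul_of_nonneg_right (hts1 m) (norm_nonneg _)
            _ ≤ _ := by
                rw [one_mul]
                exact ih (n - m) (by omega) (by omega)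
      have e2 : ∑ i ∈ Finset.range n, (7 / B * Real.exp 7 + 7 * Real.exp 7 / B * Ideal.hn i) =
          (n : ℝ) * (7 * Real.exp 7 / B * Ideal.hn n) := by
        rw [Finset.sum_add_distrib, Finset.sum_const, Finset.card_range, nsmul_eq_mul,
          ← Finset.mul_sum, hn_sum]
        ring
      rw [e2] at e1
      exact le_of_mul_le_mul_left e1 hn0

theorem exists_eta {c : ℝ} (hc : 1 / 2 < c) (hc1 : c < 1) : ∃ η : ℝ, 1 / 2 < η ∧ η < 1 ∧
    0 < Real.cos (Real.pi * c * (1 + 2 * η)) - Real.cos (Real.pi * c) := by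
  have hpi := Real.pi_pos
  have h1 : 0 < Real.cos (Real.pi * c * (1 + 2 * 1)) - Real.cos (Real.pi * c) := by
    have e : Real.pi * c * (1 + 2 * 1) = 3 * (Real.pi * c) := by ring
    rw [e, Real.cos_three_mul]
    have hcos : Real.cos (Real.pi * c) < 0 :=
      Real.cos_neg_of_pi_div_two_lt_of_lt (by nlinarith) (by nlinarith)
    have hsin : 0 < Real.sin (Real.pi * c) := Real.sin_pos_of_pos_of_lt_pi (by positivity) (by nlinarith)
    have h2 := Real.sin_sq_add_cos_sq (Real.pi * c)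
    have : 4 * Real.cos (Real.pi * c) ^ 3 - 3 * Real.cos (Real.pi * c) - Real.cos (Real.pi * c) =
        -4 * Real.sin (Real.pi * c) ^ 2 * Real.cos (Real.pi * c) := by
      have : Real.sin (Real.pi * c) ^ 2 = 1 - Real.cos (Real.pi * c) ^ 2 := by linarith
      rw [this]; ring
    rw [this]
    have := mul_pos (pow_pos hsin 2) (neg_pos.2 hcos)
    linarith
  have hcont : Continuous fun η : ℝ => Real.cos (Real.pi * c * (1 + 2 * η)) - Real.cos (Real.pi * c) := by
    fun_prop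
  have e1 : ∀ᶠ η in 𝓝 (1:ℝ), 0 < Real.cos (Real.pi * c * (1 + 2 * η)) - Real.cos (Real.pi * c) :=
    hcont.continuousAt.eventually (lt_mem_nhds h1)
  have e2 : ∀ᶠ η in 𝓝[<] (1:ℝ), 0 < Real.cos (Real.pi * c * (1 + 2 * η)) - Real.cos (Real.pi * c) :=
    nhdsWithin_le_nhds e1
  have e3 : ∀ᶠ η in 𝓝[<] (1:ℝ), η < 1 := eventually_mem_nhdsWithin
  have e4 : ∀ᶠ η in 𝓝[<] (1:ℝ), 1 / 2 < η := nhdsWithin_le_nhds (lt_mem_nhds (by norm_num))
  obtain ⟨η, h2, h3, h4⟩ := (e2.and (e3.and e4)).exists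
  exact ⟨η, h4, h3, h2⟩

theorem exists_B {a b : ℝ} (ha : 0 < a) (hb : 0 < b) (g : ℝ) (x : ℝ) : ∃ B : ℕ, 2 ≤ B ∧
    1 ≤ a * B - b * (1 + Real.log B) - g ∧ x ≤ B := by
  have h1 : ∀ᶠ y : ℝ in atTop, ‖Real.log y‖ ≤ a / (2 * b) * ‖y‖ :=
    Real.isLittleO_log_id_atTop.def (by positivity)
  have h2 : ∀ᶠ y : ℝ in atTop, 2 * (g + b + 1) / a ≤ y := eventually_ge_atTop _
  have h3 : ∀ᶠ y : ℝ in atTop, x ≤ y := eventually_ge_atTop _
  have h4 : ∀ᶠ y : ℝ in atTop, (2:ℝ) ≤ y := eventually_ge_atTop _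
  have h5 := tendsto_natCast_atTop_atTop (R := ℝ) |>.eventually (h1.and (h2.and (h3.and h4)))
  obtain ⟨B, e1, e2, e3, e4⟩ := h5.exists
  refine ⟨B, by exact_mod_cast e4, ?_, e3⟩
  have hB : (0:ℝ) < B := by linarith
  rw [Real.norm_eq_abs, Real.norm_eq_abs, abs_of_pos hB] at e1
  have e5 := (le_abs_self _).trans e1
  have e6 : b * Real.log B ≤ a / 2 * B := by
    calc b * Real.log B ≤ b * (a / (2 * b) * B) := mul_le_mul_of_nonneg_left e5 hb.le
      _ = a / 2 * B := by field_simp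
  rw [div_le_iff₀ ha] at e2
  linarith

end Ideal

/-! ### P14 : positivity for the ideal recursion -/

theorem ideal_pos (c : ℝ) (hc : 1 / 2 < c) (hc1 : c < 1) :
    ∃ (B : ℕ) (η : ℝ), 2 ≤ B ∧ 1 / 2 < η ∧ η < 1 ∧ ∀ t q : ℕ → ℂ, q 0 = 1 →
    (∀ n : ℕ, 1 ≤ n → n ≤ B → (n : ℂ) * q n = ∑ m ∈ Finset.Icc 1 n, t m * q (n - m)) →
    ‖t 1‖ ≤ 1 / B →
    (∀ m : ℕ, 2 ≤ m → m ≤ B → ‖t m - cexp (-(2 * Real.pi * c * η * m / B : ℝ) * I)‖ ≤ 7 / B) →
    1 ≤ (cexp (-(Real.pi * c : ℝ) * I) * ∑ n ∈ Finset.range (B + 1), q n).im := by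
  have hpi := Real.pi_pos
  obtain ⟨η, hη, hη1, hg⟩ := Ideal.exists_eta hc hc1
  set g := Real.cos (Real.pi * c * (1 + 2 * η)) - Real.cos (Real.pi * c) with hgd
  obtain ⟨B, hB, hB1, hB2⟩ := Ideal.exists_B (a := Real.exp (-1) * (g / (4 * Real.pi)))
    (b := 14 * Real.exp 7) (by positivity) (by positivity) 4
    (2 * Real.pi * c * η / (g / 2) + 2 * Real.pi * c * η)
  have hB0 : (0 : ℝ) < B := by positivity
  have hcη : 0 < 2 * Real.pi * c * η := by positivity
  have hθ : 2 * Real.pi * c * η / B ≤ g / 2 := by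
    rw [div_le_iff₀ hB0]
    have h1 : 2 * Real.pi * c * η / (g / 2) ≤ B := by linarith
    rw [div_le_iff₀ (by positivity)] at h1
    linarith
  have hθ1 : 2 * Real.pi * c * η / B ≤ 1 := by
    rw [div_le_iff₀ hB0, one_mul]
    have : 0 < 2 * Real.pi * c * η / (g / 2) := by positivity
    linarith
  refine ⟨B, η, hB, hη, hη1, ?_⟩
  intro t q hq0 hq h1 h2
  set θ := 2 * Real.pi * c * η / B with hθd
  set w : ℂ := cexp (-(θ : ℝ) * I) with hw
  have hwn : ‖w‖ = 1 := by
    rw [hw, show (-(θ : ℝ) : ℂ) * I = ((-θ : ℝ) : ℂ) * I by push_cast; ring]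
    exact Complex.norm_exp_ofReal_mul_I _
  have hwp : ∀ m : ℕ, cexp (-(2 * Real.pi * c * η * m / B : ℝ) * I) = w ^ m := by
    intro m
    rw [hw, ← Complex.exp_nat_mul]
    congr 1
    rw [hθd]
    push_cast
    ring
  have hper := Ideal.perturb hB hwn hq0 hq h1 (fun m hm hm' => by
    have := h2 m hm hm'
    rwa [hwp] at this)
  -- the sum of the differences
  have hD : ∑ n ∈ Finset.range (B + 1), ‖q n - w ^ n * (Ideal.d n : ℂ)‖ ≤
      14 * Real.exp 7 * (1 + Real.log B) := by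
    have hhB := Ideal.hn_le B
    have hhB0 := Ideal.hn_nonneg B
    calc ∑ n ∈ Finset.range (B + 1), ‖q n - w ^ n * (Ideal.d n : ℂ)‖
        ≤ ∑ n ∈ Finset.range (B + 1), 7 * Real.exp 7 / B * Ideal.hn B := by
          refine Finset.sum_le_sum fun n hn => ?_
          rw [Finset.mem_range] at hn
          refine (hper n (by omega)).trans ?_
          exact mul_le_mul_of_nonneg_left (Ideal.hn_mono (by omega)) (by positivity)
      _ = ((B : ℝ) + 1) / B * (7 * Real.exp 7 * Ideal.hn B) := by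
          rw [Finset.sum_const, Finset.card_range, nsmul_eq_mul]
          push_cast
          ring
      _ ≤ 2 * (7 * Real.exp 7 * Ideal.hn B) := by
          refine mul_le_mul_of_nonneg_right ?_ (by positivity)
          rw [div_le_iff₀ hB0]
          have : (2:ℝ) ≤ B := by exact_mod_cast hB
          linarith
      _ ≤ 2 * (7 * Real.exp 7 * (1 + Real.log B)) := by gcongr
      _ = _ := by ring
  -- imaginary part of the ideal sum
  have him : ∀ n : ℕ, (cexp (-(Real.pi * c : ℝ) * I) * (w ^ n * (Ideal.d n : ℂ))).im =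
      -Real.sin (Real.pi * c + θ * n) * Ideal.d n := by
    intro n
    have e : cexp (-(Real.pi * c : ℝ) * I) * w ^ n = cexp (((-(Real.pi * c + θ * n) : ℝ) : ℂ) * I) := by
      rw [hw, ← Complex.exp_nat_mul, ← Complex.exp_add]
      congr 1
      push_cast
      ring
    rw [← mul_assoc, e, Complex.im_mul_ofReal, Complex.exp_ofReal_mul_I_im, Real.sin_neg]
  have hgeo := Ideal.geo_lower hB hc hc1 hη hη1 (le_refl g) hg hθ hθ1
  have hcl := Ideal.d_close_sum B
  have hmain : Real.exp (-1) * (g / (4 * Real.pi)) * B - 4 ≤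
      ∑ n ∈ Finset.range (B + 1), -Real.sin (Real.pi * c + θ * n) * Ideal.d n := by
    have e1 : ∑ n ∈ Finset.range (B + 1), -Real.sin (Real.pi * c + θ * n) * Ideal.d n =
        Real.exp (-1) * (-∑ n ∈ Finset.range (B + 1), Real.sin (Real.pi * c + θ * n)) +
        ∑ n ∈ Finset.range (B + 1), -Real.sin (Real.pi * c + θ * n) * (Ideal.d n - Real.exp (-1)) := by
      rw [← Finset.sum_neg_distrib, Finset.mul_sum, ← Finset.sum_add_distrib]
      refine Finset.sum_congr rfl fun n _ => ?_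
      ring
    have e2 : |∑ n ∈ Finset.range (B + 1), -Real.sin (Real.pi * c + θ * n) *
        (Ideal.d n - Real.exp (-1))| ≤ 4 := by
      refine (Finset.abs_sum_le_sum_abs _ _).trans (le_trans (Finset.sum_le_sum fun n _ => ?_) hcl)
      rw [abs_mul, abs_neg]
      calc |Real.sin (Real.pi * c + θ * n)| * |Ideal.d n - Real.exp (-1)|
          ≤ 1 * |Ideal.d n - Real.exp (-1)| :=
            mul_le_mul_of_nonneg_right (Real.abs_sin_le_one _) (abs_nonneg _)
        _ = _ := one_mul _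
    have e3 := mul_le_mul_of_nonneg_left hgeo (Real.exp_pos (-1)).le
    have e4 := (abs_le.1 e2).1
    rw [e1]
    have e5 : Real.exp (-1) * (g * B / (4 * Real.pi)) = Real.exp (-1) * (g / (4 * Real.pi)) * B := by
      ring
    rw [e5] at e3
    linarith
  have hsplit : (cexp (-(Real.pi * c : ℝ) * I) * ∑ n ∈ Finset.range (B + 1), q n).im =
      ∑ n ∈ Finset.range (B + 1), -Real.sin (Real.pi * c + θ * n) * Ideal.d n +
      (cexp (-(Real.pi * c : ℝ) * I) *
        ∑ n ∈ Finset.range (B + 1), (q n - w ^ n * (Ideal.d n : ℂ))).im := by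
    simp only [← him]
    rw [← Complex.im_sum, ← Complex.add_im, ← Finset.mul_sum, ← mul_add, ← Finset.sum_add_distrib]
    have : ∀ n, w ^ n * (Ideal.d n : ℂ) + (q n - w ^ n * (Ideal.d n : ℂ)) = q n := fun n => by ring
    simp only [this]
  have hlast : -(14 * Real.exp 7 * (1 + Real.log B)) ≤ (cexp (-(Real.pi * c : ℝ) * I) *
        ∑ n ∈ Finset.range (B + 1), (q n - w ^ n * (Ideal.d n : ℂ))).im := by
    have e1 : ‖cexp (-(Real.pi * c : ℝ) * I) *
        ∑ n ∈ Finset.range (B + 1), (q n - w ^ n * (Ideal.d n : ℂ))‖ ≤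
        14 * Real.exp 7 * (1 + Real.log B) := by
      rw [norm_mul]
      have : ‖cexp (-(Real.pi * c : ℝ) * I)‖ = 1 := by
        rw [show (-((Real.pi * c : ℝ) : ℂ)) * I = ((-(Real.pi * c) : ℝ) : ℂ) * I by push_cast; ring]
        exact Complex.norm_exp_ofReal_mul_I _
      rw [this, one_mul]
      exact (norm_sum_le _ _).trans hD
    have e2 := (Complex.abs_im_le_norm _).trans e1
    exact (abs_le.1 e2).1
  rw [hsplit]
  linarith

end SP
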