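import Pool.Agent.H382P.PosProp

open Complex Filter Topology Set MeasureTheory

namespace SP

open SG (NZ zmult)

theorem NZ_add_NN (a b : ℝ) (ha : 1 ≤ a) (hab : a ≤ b) :
    NZ a + H370.NN riemannZeta a b ≤ NZ b := by
  have hfin : (H370.zset riemannZeta a b).Finite := by
    refine (SG.ZS_finite b).subset ?_
    rintro s ⟨h1, h2, h3, h4, h5⟩
    exact ⟨h5, h1, h2, by linarith, h4⟩
  have hNN : H370.NN riemannZeta a b = ∑ s ∈ hfin.toFinset, zmult s :=
    finsum_mem_eq_finite_toFinset_sum _ hfin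
  rw [hNN]
  apply SG.NZ_add_le a b hab
  intro s hs
  rw [Set.Finite.mem_toFinset] at hs
  obtain ⟨h1, h2, h3, h4, h5⟩ := hs
  exact ⟨⟨h5, h1, h2, by linarith, h4⟩, h3⟩

theorem NZ_low_aux (J : ℕ) : ∃ C T0 : ℝ, 0 < C ∧ 10 ≤ T0 ∧ ∀ T : ℝ, T0 ≤ T →
    (1 - (1 / 2) ^ J) * (T / (2 * Real.pi) * Real.log T) - C * T ≤ (NZ T : ℝ) := by
  induction J with
  | zero =>
    refine ⟨1, 10, one_pos, le_rfl, fun T hT => ?_⟩
    have : (0 : ℝ) ≤ NZ T := Nat.cast_nonneg _
    simp
    linarith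
  | succ J ih =>
    obtain ⟨C, T0, hC, hT0, h⟩ := ih
    obtain ⟨C', T1, hC', hT1, h'⟩ := H370.nn_asymp H370.good_zeta
    refine ⟨C + C' + 1, 2 * max T0 T1, by positivity, ?_, fun T hT => ?_⟩
    · have := le_max_left T0 T1
      linarith
    have e0 : T0 ≤ T / 2 := by have := le_max_left T0 T1; linarith
    have e1 : T1 ≤ T / 2 := by have := le_max_right T0 T1; linarith
    have hT2 : 2 * (T / 2) = T := by ring
    have hl : Real.log (T / 2) = Real.log T - Real.log 2 := Real.log_div (by linarith) (by norm_num)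
    have h1 := h (T / 2) e0
    have h2 := (abs_le.mp (h' (T / 2) e1 (T / 2) T le_rfl (by linarith) (by linarith) (by linarith))).1
    have h3 : NZ (T / 2) + H370.NN riemannZeta (T / 2) T ≤ NZ T :=
      NZ_add_NN (T / 2) T (by linarith) (by linarith)
    have h4 : (NZ (T / 2) : ℝ) + H370.NN riemannZeta (T / 2) T ≤ NZ T := by exact_mod_cast h3
    rw [hl] at h1 h2
    have hpi := Real.pi_gt_three
    have hlog2 : Real.log 2 ≤ 1 := by
      have := Real.log_two_lt_d9
      linarith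
    have hlog2' : 0 < Real.log 2 := Real.log_pos (by norm_num)
    have ha : (0 : ℝ) ≤ 1 - (1 / 2) ^ J := by
      have : ((1 : ℝ) / 2) ^ J ≤ 1 := pow_le_one₀ (by norm_num) (by norm_num)
      linarith
    have ha1 : (1 : ℝ) - (1 / 2) ^ J ≤ 1 := by
      have : (0 : ℝ) ≤ (1 / 2) ^ J := by positivity
      linarith
    have e3 : (1 - (1 / 2 : ℝ) ^ (J + 1)) * (T / (2 * Real.pi) * Real.log T) =
        (1 - (1 / 2) ^ J) * (T / 2 / (2 * Real.pi) * (Real.log T - Real.log 2)) +
        T / 2 * (Real.log T - Real.log 2) / (2 * Real.pi) +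
        ((1 - (1 / 2) ^ J) + 1) * (T / 2 / (2 * Real.pi) * Real.log 2) := by
      rw [pow_succ]
      field_simp
      ring
    have e4 : ((1 - (1 / 2 : ℝ) ^ J) + 1) * (T / 2 / (2 * Real.pi) * Real.log 2) ≤ T := by
      have e5 : T / 2 / (2 * Real.pi) * Real.log 2 ≤ T / 2 := by
        have e6 : T / 2 / (2 * Real.pi) ≤ T / 2 := div_le_self (by linarith) (by linarith)
        have e7 : 0 ≤ T / 2 / (2 * Real.pi) := by
          apply div_nonneg (by linarith) (by linarith)
        nlinarith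
      have e8 : 0 ≤ T / 2 / (2 * Real.pi) * Real.log 2 :=
        mul_nonneg (div_nonneg (by linarith) (by linarith)) hlog2'.le
      nlinarith
    rw [e3]
    have e9 : C * (T / 2) ≤ C * T := by nlinarith
    have e10 : C' * (T / 2) ≤ C' * T := by nlinarith
    nlinarith

/-- the lower half of the Riemann-von Mangoldt formula -/
theorem NZ_low (η : ℝ) (hη : 0 < η) : ∃ T0 : ℝ, 10 ≤ T0 ∧ ∀ T : ℝ, T0 ≤ T →
    (1 - η) * (T / (2 * Real.pi) * Real.log T) ≤ (NZ T : ℝ) := by
  obtain ⟨J, hJ⟩ := exists_pow_lt_of_lt_one (show (0 : ℝ) < η / 2 by positivity)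
    (show (1 / 2 : ℝ) < 1 by norm_num)
  obtain ⟨C, T0, hC, hT0, h⟩ := NZ_low_aux J
  obtain ⟨T2, hT2⟩ := (tendsto_atTop.mp Real.tendsto_log_atTop
    (4 * Real.pi * C / η)).exists_forall_of_atTop
  refine ⟨max T0 T2, hT0.trans (le_max_left _ _), fun T hT => ?_⟩
  have h1 := h T ((le_max_left _ _).trans hT)
  have h2 := hT2 T ((le_max_right _ _).trans hT)
  have hT10 : 10 ≤ T := (hT0.trans (le_max_left _ _)).trans hT
  have hpi := Real.pi_gt_three
  rw [div_le_iff₀ hη] at h2
  have h3 : C * T ≤ η / 2 * (T / (2 * Real.pi) * Real.log T) := by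
    have : η / 2 * (T / (2 * Real.pi) * Real.log T) = (Real.log T * η) * (T / (4 * Real.pi)) := by
      field_simp
      ring
    rw [this]
    calc C * T = 4 * Real.pi * C * (T / (4 * Real.pi)) := by field_simp
      _ ≤ _ := mul_le_mul_of_nonneg_right h2 (by positivity)
  have h4 : 0 < T / (2 * Real.pi) * Real.log T :=
    mul_pos (by positivity) (Real.log_pos (by linarith))
  nlinarith

end SP
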