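import Pool.Agent.H382P.Defs
import Pool.Agent.H382R2.Gam

open Complex Filter Topology Set MeasureTheory

namespace SP

open SG (phi hh nn dd dl)

namespace RhoAux

lemma hh_im (δ : ℝ) : (hh δ).im = δ / 2 := by simp [hh]

lemma hh_re (δ : ℝ) : (hh δ).re = 0 := by simp [hh]

lemma hh_add (δ : ℝ) (s : ℂ) : s - hh δ + I * (δ : ℝ) = s + hh δ := by
  unfold hh
  push_cast
  ring

end RhoAux

open RhoAux SG.GamAux

theorem rho_analytic (c T : ℝ) (hT : 10 ≤ T) (hd : |dl c T| ≤ 1) (s : ℂ) (hs : 1 ≤ s.im) :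
    AnalyticAt ℂ (rho c T) s := by
  have hd' := abs_le.mp hd
  have i1 : (s + hh (dl c T)).im ≠ 0 := by
    rw [add_im, hh_im]; linarith
  have i2 : (s - hh (dl c T)).im ≠ 0 := by
    rw [sub_im, hh_im]; linarith
  have a1 : AnalyticAt ℂ (fun s : ℂ => s + hh (dl c T)) s := by fun_prop
  have a2 : AnalyticAt ℂ (fun s : ℂ => s - hh (dl c T)) s := by fun_prop
  have b1 : AnalyticAt ℂ (fun s : ℂ => Gammaℝ (s + hh (dl c T))) s :=
    AnalyticAt.comp_of_eq (f := fun s : ℂ => s + hh (dl c T)) (GR_analytic i1) a1 rfl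
  have b2 : AnalyticAt ℂ (fun s : ℂ => Gammaℝ (s - hh (dl c T))) s :=
    AnalyticAt.comp_of_eq (f := fun s : ℂ => s - hh (dl c T)) (GR_analytic i2) a2 rfl
  exact b2.div b1 (GR_ne i1)

theorem rho_bound (c : ℝ) (hc : 0 < c) (hc1 : c < 1) : ∃ C T0 : ℝ, 1 ≤ C ∧ 10 ≤ T0 ∧ ∀ T : ℝ, T0 ≤ T →
    ∀ s : ℂ, T ≤ s.im → s.im ≤ 2 * T → |s.re| ≤ T / 4 →
      AnalyticAt ℂ (rho c T) s ∧ ‖rho c T s‖ ≤ C := by
  obtain ⟨C, hC, h⟩ := shift
  refine ⟨Real.exp C, Real.exp 7, Real.one_le_exp (by linarith), e7, ?_⟩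
  intro T hT s h1 h2 h3
  have hT10 : 10 ≤ T := e7.trans hT
  have hd1 := dl_small c hc hc1 T hT
  have hd0 := dl_pos hc hT10
  have hd : |dl c T| ≤ 1 := by rw [abs_of_pos hd0]; exact hd1
  refine ⟨rho_analytic c T hT10 hd s (by linarith), ?_⟩
  have him : (s - hh (dl c T)).im = s.im - dl c T / 2 := by rw [sub_im, hh_im]
  have hre : (s - hh (dl c T)).re = s.re := by rw [sub_re, hh_re, sub_zero]
  have habs : |(s - hh (dl c T)).im| = s.im - dl c T / 2 := by
    rw [him, abs_of_nonneg (by linarith)]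
  obtain ⟨k1, k2, k3⟩ := h (s - hh (dl c T)) (dl c T) T (by linarith) (by rw [habs]; linarith)
    (by rw [habs]; linarith) (by rw [habs]; linarith) (by rw [habs, hre]; linarith) hd
  rw [hh_add] at k2
  refine k2.trans ?_
  apply Real.exp_le_exp.mpr
  nlinarith [abs_nonneg (dl c T)]

theorem rho_phase (c a : ℝ) (hc : 0 < c) (hc1 : c < 1) (ha : 0 < a) :
    ∃ C T0 : ℝ, 1 ≤ C ∧ 10 ≤ T0 ∧ ∀ T : ℝ, T0 ≤ T → ∀ t : ℝ, T ≤ t → t ≤ 2 * T →
      ‖rho c T (⟨1 / 2 + a / Real.log T, t⟩ : ℂ) - cexp (-(Real.pi * c : ℝ) * I)‖ ≤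
        C / Real.log T := by
  obtain ⟨C, hC, h⟩ := shift
  refine ⟨7 * C * Real.exp C, max (Real.exp 7) (4 * a + 10), ?_, e7.trans (le_max_left _ _), ?_⟩
  · have := Real.one_le_exp (show 0 ≤ C by linarith)
    nlinarith
  intro T hT' t h1 h2
  have hT : Real.exp 7 ≤ T := (le_max_left _ _).trans hT'
  have hTa : 4 * a + 10 ≤ T := (le_max_right _ _).trans hT'
  have hT10 : 10 ≤ T := e7.trans hT
  have hd1 := dl_small c hc hc1 T hT
  have hd0 := dl_pos hc hT10
  have hd : |dl c T| ≤ 1 := by rw [abs_of_pos hd0]; exact hd1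
  have hlog7 : 7 ≤ Real.log T := by
    rw [Real.le_log_iff_exp_le (by linarith [Real.exp_pos 7])]
    exact hT
  have hlog : 0 < Real.log T := by linarith
  set s : ℂ := ⟨1 / 2 + a / Real.log T, t⟩ with hs
  have hsim : s.im = t := rfl
  have hsre : s.re = 1 / 2 + a / Real.log T := rfl
  have haL : a / Real.log T ≤ a := div_le_self ha.le (by linarith)
  have haL0 : 0 < a / Real.log T := by positivity
  have him : (s - hh (dl c T)).im = t - dl c T / 2 := by rw [sub_im, hh_im]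
  have hre : (s - hh (dl c T)).re = 1 / 2 + a / Real.log T := by rw [sub_re, hh_re, sub_zero]
  have habs : |(s - hh (dl c T)).im| = t - dl c T / 2 := by
    rw [him, abs_of_nonneg (by linarith)]
  have habs2 : |(s - hh (dl c T)).re| = 1 / 2 + a / Real.log T := by
    rw [hre, abs_of_nonneg (by linarith)]
  obtain ⟨k1, k2, k3⟩ := h (s - hh (dl c T)) (dl c T) T (by linarith) (by rw [habs]; linarith)
    (by rw [habs]; linarith) (by rw [habs]; linarith) (by rw [habs, habs2]; linarith) hd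
  rw [hh_add] at k3
  have e1 : I * (dl c T : ℝ) * (Real.log T / 2 : ℝ) = ((Real.pi * c : ℝ) : ℂ) * I := by
    unfold dl
    have : (Real.log T : ℂ) ≠ 0 := by exact_mod_cast hlog.ne'
    push_cast
    field_simp
  rw [e1] at k3
  have e2 : rho c T s - cexp (-(Real.pi * c : ℝ) * I) =
      (rho c T s * cexp ((Real.pi * c : ℝ) * I) - 1) * cexp (-(Real.pi * c : ℝ) * I) := by
    rw [sub_mul, one_mul, mul_assoc, ← Complex.exp_add]
    have : ((Real.pi * c : ℝ) : ℂ) * I + -((Real.pi * c : ℝ) : ℂ) * I = 0 := by ring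
    rw [this, Complex.exp_zero, mul_one]
  rw [e2, norm_mul]
  have e3 : ‖cexp (-(Real.pi * c : ℝ) * I)‖ = 1 := by
    rw [← Complex.ofReal_neg]
    exact Complex.norm_exp_ofReal_mul_I _
  rw [e3, mul_one]
  refine le_trans k3 ?_
  -- exp(C x) - 1 ≤ C x exp(C x)
  have hx : |dl c T| = dl c T := abs_of_pos hd0
  rw [hx]
  have h5 : Real.exp (C * dl c T) - 1 ≤ C * dl c T * Real.exp (C * dl c T) := by
    have := Real.add_one_le_exp (-(C * dl c T))
    have h6 : Real.exp (-(C * dl c T)) * Real.exp (C * dl c T) = 1 := by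
      rw [← Real.exp_add]; simp
    have h7 := Real.exp_pos (C * dl c T)
    nlinarith
  have h6 : Real.exp (C * dl c T) ≤ Real.exp C := by
    apply Real.exp_le_exp.mpr
    nlinarith
  have h7 : dl c T ≤ 7 / Real.log T := by
    unfold dl
    apply div_le_div_of_nonneg_right _ hlog.le
    have := Real.pi_lt_d2
    nlinarith [Real.pi_pos]
  calc Real.exp (C * dl c T) - 1 ≤ C * dl c T * Real.exp (C * dl c T) := h5
    _ ≤ C * (7 / Real.log T) * Real.exp C := by
        apply mul_le_mul _ h6 (Real.exp_pos _).le (by positivity)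
        exact mul_le_mul_of_nonneg_left h7 (by linarith)
    _ = 7 * C * Real.exp C / Real.log T := by ring

end SP
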