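import Pool.Agent.H382P.Newton
import Pool.Agent.H382P.Ideal
import Pool.Agent.H382P.Choose
import Pool.Agent.H382P.TT

open Complex Filter Topology Set MeasureTheory

namespace SP

open SG (phi hh nn dd dl)

theorem S_pos (c : ℝ) (hc : 1 / 2 < c) (hc1 : c < 1) : ∃ P : Par, P.c = c ∧
    ∃ c3 C T0 : ℝ, 0 < c3 ∧ 0 < C ∧ 10 ≤ T0 ∧ ∀ T : ℝ, T0 ≤ T →
      c3 ≤ (cexp (-(Real.pi * c : ℝ) * I) * SS P T).im ∧ ‖SS P T‖ ≤ C := by
  obtain ⟨B, η, hB, hη, hη1, hpos⟩ := ideal_pos c hc hc1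
  obtain ⟨P, hPc, hPB, hPκ, hG⟩ := choose_par c hc hc1 B η hB hη hη1
  refine ⟨P, hPc, ?_⟩
  have hE : ∀ T : ℝ, ∀ p ∈ PS P T, 1 ≤ Eb P T p := by
    intro T p hp
    rw [PS, Finset.mem_filter] at hp
    omega
  have hG1 : GG P 1 = 0 := by
    have h0 : ∀ u : ℝ, P.b 1 u = 0 := by
      intro u
      by_contra h
      have := (P.hb0 1 u h).1
      omega
    simp [GG, h0]
  have hnew := fun T : ℝ => newton (PS P T) (Eb P T) (hE T) (gp P T)
  -- existence of limits
  have hlim : ∀ n : ℕ, n ≤ B → ∃ l : ℂ,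
      Tendsto (fun T : ℝ => qq (PS P T) (Eb P T) (gp P T) n) atTop (𝓝 l) := by
    intro n
    induction n using Nat.strong_induction_on with
    | _ n ih =>
      intro hn
      rcases Nat.eq_zero_or_pos n with h0 | h0
      · subst h0
        refine ⟨1, ?_⟩
        have : (fun T : ℝ => qq (PS P T) (Eb P T) (gp P T) 0) = fun _ => 1 := by
          funext T
          exact (hnew T).1
        rw [this]
        exact tendsto_const_nhds
      · have h1 : ∀ m : ℕ, ∃ l : ℂ, m ∈ Finset.Icc 1 n →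
            Tendsto (fun T : ℝ => tt (PS P T) (Eb P T) (gp P T) m *
              qq (PS P T) (Eb P T) (gp P T) (n - m)) atTop (𝓝 l) := by
          intro m
          by_cases hm : m ∈ Finset.Icc 1 n
          · rw [Finset.mem_Icc] at hm
            obtain ⟨l, hl⟩ := ih (n - m) (by omega) (by omega)
            exact ⟨_, fun _ => (tt_lim P m hm.1 (by omega)).mul hl⟩
          · exact ⟨0, fun h => absurd h hm⟩
        choose l hl using h1
        refine ⟨(n : ℂ)⁻¹ * ∑ m ∈ Finset.Icc 1 n, l m, ?_⟩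
        have h2 : (fun T : ℝ => qq (PS P T) (Eb P T) (gp P T) n) = fun T : ℝ =>
            (n : ℂ)⁻¹ * ∑ m ∈ Finset.Icc 1 n, tt (PS P T) (Eb P T) (gp P T) m *
              qq (PS P T) (Eb P T) (gp P T) (n - m) := by
          funext T
          rw [← (hnew T).2 n h0, ← mul_assoc, inv_mul_cancel₀, one_mul]
          exact_mod_cast h0.ne'
        rw [h2]
        exact (tendsto_finsetSum _ hl).const_mul _
  choose! q hq using hlim
  have hq0 : q 0 = 1 := by
    have h1 := hq 0 (by omega)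
    have : (fun T : ℝ => qq (PS P T) (Eb P T) (gp P T) 0) = fun _ => 1 := by
      funext T
      exact (hnew T).1
    rw [this] at h1
    exact (tendsto_nhds_unique h1 tendsto_const_nhds)
  have hqr : ∀ n : ℕ, 1 ≤ n → n ≤ B →
      (n : ℂ) * q n = ∑ m ∈ Finset.Icc 1 n, ((m : ℂ) * GG P m) * q (n - m) := by
    intro n hn hnB
    have h1 : Tendsto (fun T : ℝ => (n : ℂ) * qq (PS P T) (Eb P T) (gp P T) n) atTop
        (𝓝 ((n : ℂ) * q n)) := (hq n hnB).const_mul _
    have h2 : Tendsto (fun T : ℝ => ∑ m ∈ Finset.Icc 1 n, tt (PS P T) (Eb P T) (gp P T) m *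
              qq (PS P T) (Eb P T) (gp P T) (n - m)) atTop
        (𝓝 (∑ m ∈ Finset.Icc 1 n, ((m : ℂ) * GG P m) * q (n - m))) := by
      apply tendsto_finsetSum
      intro m hm
      rw [Finset.mem_Icc] at hm
      exact (tt_lim P m hm.1 (by omega)).mul (hq (n - m) (by omega))
    have h3 : (fun T : ℝ => (n : ℂ) * qq (PS P T) (Eb P T) (gp P T) n) =
        (fun T : ℝ => ∑ m ∈ Finset.Icc 1 n, tt (PS P T) (Eb P T) (gp P T) m *
              qq (PS P T) (Eb P T) (gp P T) (n - m)) := by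
      funext T
      exact (hnew T).2 n hn
    rw [h3] at h1
    exact tendsto_nhds_unique h1 h2
  have hfin := hpos (fun m => (m : ℂ) * GG P m) q hq0 hqr (by
      simp only [Nat.cast_one, one_mul, hG1, norm_zero]
      positivity) (fun m hm hmB => (hG m hm hmB).le)
  have hSS : Tendsto (fun T : ℝ => SS P T) atTop (𝓝 (∑ n ∈ Finset.range (B + 1), q n)) := by
    unfold SS
    rw [hPB]
    apply tendsto_finsetSum
    intro n hn
    rw [Finset.mem_range] at hn
    exact hq n (by omega)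
  have hIm : Tendsto (fun T : ℝ => (cexp (-(Real.pi * c : ℝ) * I) * SS P T).im) atTop
      (𝓝 (cexp (-(Real.pi * c : ℝ) * I) * ∑ n ∈ Finset.range (B + 1), q n).im) :=
    (Complex.continuous_im.tendsto _).comp (hSS.const_mul _)
  have hN : Tendsto (fun T : ℝ => ‖SS P T‖) atTop
      (𝓝 ‖∑ n ∈ Finset.range (B + 1), q n‖) := hSS.norm
  have e1 := hIm.eventually (lt_mem_nhds (show (1 / 2 : ℝ) <
    (cexp (-(Real.pi * c : ℝ) * I) * ∑ n ∈ Finset.range (B + 1), q n).im by linarith))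
  have e2 := hN.eventually (gt_mem_nhds (show ‖∑ n ∈ Finset.range (B + 1), q n‖ <
    ‖∑ n ∈ Finset.range (B + 1), q n‖ + 1 by linarith))
  obtain ⟨T1, hT1⟩ := (e1.and e2).exists_forall_of_atTop
  refine ⟨1 / 2, ‖∑ n ∈ Finset.range (B + 1), q n‖ + 1, max T1 10, by norm_num, by positivity,
    le_max_right _ _, ?_⟩
  intro T hT
  have := hT1 T ((le_max_left _ _).trans hT)
  exact ⟨this.1.le, this.2.le⟩

end SP
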